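import Pool.Agent.Lib.MP_e26b79_pr.RSW

namespace Pool.Agent.Lib.MP_e26b79_pr

/-- local increasing events -/
def LF (E : Set V → Prop) : Prop := ∃ D : Set V, D.Finite ∧ Loc E D

theorem LF.and {E E' : Set V → Prop} (h : LF E) (h' : LF E') : LF (fun S => E S ∧ E' S) := by
  obtain ⟨D, h1, h2⟩ := h
  obtain ⟨D', h3, h4⟩ := h'
  exact ⟨D ∪ D', h1.union h3, (h2.mono Set.subset_union_left).and (h4.mono Set.subset_union_right)⟩
theorem LF.harris {E E' : Set V → Prop} (h : LF E) (h' : LF E') :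
    P E * P E' ≤ P (fun S => E S ∧ E' S) := by
  obtain ⟨D, h1, h2⟩ := h
  obtain ⟨D', h3, h4⟩ := h'
  exact P_harris (h2.mono Set.subset_union_left) (h4.mono Set.subset_union_right) (h1.union h3)
theorem LF.harris' {E E' : Set V → Prop} (h : LF E) (h' : LF E') {a b : ℝ} (ha : a ≤ P E)
    (hb : b ≤ P E') (hb0 : 0 ≤ b) : a * b ≤ P (fun S => E S ∧ E' S) :=
  (mul_le_mul ha hb hb0 (P_nonneg _)).trans (h.harris h')
theorem LF.mono {E E' : Set V → Prop} (h : LF E) (h' : LF E') (hE : ∀ S, E S → E' S) :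
    P E ≤ P E' := by
  obtain ⟨D, h1, h2⟩ := h
  obtain ⟨D', h3, h4⟩ := h'
  exact P_mono h2 h4 h1 h3 hE
theorem lf_HC (x0 x1 y0 y1 : ℤ) : LF (HC x0 x1 y0 y1) := ⟨_, rs_finite _ _ _ _, loc_HC _ _ _ _⟩
theorem lf_VC (x0 x1 y0 y1 : ℤ) : LF (VC x0 x1 y0 y1) := ⟨_, rs_finite _ _ _ _, loc_VC _ _ _ _⟩

theorem Ex_all {α : Type*} [DecidableEq α] (D : Finset α) :
    Ex D (fun T => ind (D ⊆ T)) = (1 / 2) ^ D.card := by
  unfold Ex
  rw [Finset.sum_eq_single D]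
  · rw [ind_pos (Finset.Subset.refl _)]; simp
  · intro T hT hTD
    exact ind_neg fun h => hTD (Finset.Subset.antisymm (Finset.mem_powerset.1 hT) h)
  · simp

theorem P_all (D : Finset V) : P (fun S => (D : Set V) ⊆ S) = (1 / 2) ^ D.card := by
  rw [← P_eq (E := fun S => (D : Set V) ⊆ S) (L := D) (fun S S' h1 h2 v hv => h1 ⟨h2 hv, hv⟩),
    ← Ex_all]
  simp

/-- Russo-Seymour-Welsh, all sizes -/
theorem rsw' (K : ℕ) : ∃ c : ℝ, 0 < c ∧ c ≤ 1 ∧ ∀ x0 x1 y0 y1 : ℤ, y0 ≤ y1 → x0 ≤ x1 →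
    x1 - x0 ≤ K * (y1 - y0 + 1) → c ≤ P (HC x0 x1 y0 y1) ∧ c ≤ P (VC y0 y1 x0 x1) := by
  obtain ⟨c, hc, hc1, h⟩ := rsw (2 * K)
  refine ⟨min c ((1 / 2) ^ (2 * K + 1)), by positivity, (min_le_left _ _).trans hc1,
    fun x0 x1 y0 y1 e1 e2 e3 => ?_⟩
  suffices min c ((1 / 2) ^ (2 * K + 1)) ≤ P (HC x0 x1 y0 y1) from
    ⟨this, this.trans (P_HC_le_VC _ _ _ _)⟩
  have hK : (0:ℤ) ≤ K := by positivity
  by_cases e : 2 ≤ y1 - y0
  · refine (min_le_left _ _).trans (h x0 x1 y0 y1 e e2 ?_).1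
    push_cast
    nlinarith
  · refine (min_le_right _ _).trans (le_trans ?_ (LF.mono
      (E := fun S => ((rect x0 x1 y0 y0 : Finset V) : Set V) ⊆ S)
      ⟨_, rs_finite x0 x1 y0 y0, fun S S' h1 h2 v hv => h1 ⟨h2 hv, coe_rect x0 x1 y0 y0 ▸ hv⟩⟩
      (lf_HC _ _ _ _) fun S hS => ?_))
    · rw [P_all]
      refine pow_le_pow_of_le_one (by norm_num) (by norm_num) ?_
      have : x1 - x0 ≤ K * 2 := e3.trans (mul_le_mul_of_nonneg_left (by omega) hK)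
      simp only [rect, Finset.card_product, Int.card_Icc]
      have e4 : (y0 + 1 - y0).toNat = 1 := by omega
      rw [e4]
      omega
    · rw [coe_rect] at hS
      exact HC_of_conn (l := (x0, y0)) (r := (x1, y0)) rfl rfl (conn_row e2 fun x h1 h2 =>
        ⟨hS (by simp only [mem_rs]; omega), by simp only [mem_rs]; omega⟩)

theorem HCp.mem {S : Set V} {x0 x1 y0 y1 : ℤ} {p : V} (h : HCp S x0 x1 y0 y1 p) :
    p ∈ S ∩ rs x0 x1 y0 y1 := by
  obtain ⟨_, _, _, _, h, _⟩ := h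
  exact h.left
theorem VCp.mem {S : Set V} {x0 x1 y0 y1 : ℤ} {p : V} (h : VCp S x0 x1 y0 y1 p) :
    p ∈ S ∩ rs x0 x1 y0 y1 := by
  obtain ⟨_, _, _, _, h, _⟩ := h
  exact h.left

theorem lk {S D : Set V} {x0 x1 y0 y1 x0' x1' y0' y1' : ℤ} {p q : V}
    (h : HCp S x0 x1 y0 y1 p) (h' : VCp S x0' x1' y0' y1' q)
    (e : x0 ≤ x0' ∧ x1' ≤ x1 ∧ y0' ≤ y0 ∧ y1 ≤ y1') (h1 : rs x0 x1 y0 y1 ⊆ D)
    (h2 : rs x0' x1' y0' y1' ⊆ D) : Conn (S ∩ D) p q := by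
  obtain ⟨z, c1, c2⟩ := link h h' e.1 e.2.1 e.2.2.1 e.2.2.2
  exact (c1.mono (Set.inter_subset_inter_right _ h1)).trans
    (c2.symm.mono (Set.inter_subset_inter_right _ h2))

theorem lk' {S : Set V} {x0 x1 y0 y1 x0' x1' y0' y1' : ℤ} {p q : V}
    (h : HCp S x0 x1 y0 y1 p) (h' : VCp S x0' x1' y0' y1' q)
    (e : x0 ≤ x0' ∧ x1' ≤ x1 ∧ y0' ≤ y0 ∧ y1 ≤ y1') : Conn S p q :=
  (lk h h' e (Set.subset_univ _) (Set.subset_univ _)).mono Set.inter_subset_left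

theorem loop_meet {S1 S2 T : Set V} {a b u v : V} {X0 X3 Y0 Y3 : ℤ} (h1 : Conn S1 a b)
    (h2 : Conn S2 b a) (hT : Conn T u v) (ha : a.2 ≤ u.2) (hb : u.2 < b.2)
    (hu1 : ∀ w ∈ S1, w.2 = u.2 → w.1 < u.1) (hu2 : ∀ w ∈ S2, w.2 = u.2 → u.1 ≤ w.1)
    (hD1 : S1 ⊆ rs X0 X3 Y0 Y3) (hD2 : S2 ⊆ rs X0 X3 Y0 Y3)
    (hv : v.1 ≤ X0 ∨ X3 ≤ v.1 ∨ v.2 ≤ Y0 ∨ Y3 ≤ v.2) : ∃ z, (z ∈ S1 ∨ z ∈ S2) ∧ z ∈ T := by
  have key : ∀ v', Conn (T ∪ (rs X0 X3 Y0 Y3)ᶜ) v v' → (v'.1 ≤ X0 ∨ v'.2 < Y0 ∨ Y3 < v'.2) →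
      ∃ z, (z ∈ S1 ∨ z ∈ S2) ∧ z ∈ T := by
    intro v' hc hv'
    obtain ⟨z, hz, hz'⟩ := meet_of_loop h1 h2 ((hT.mono Set.subset_union_left).trans hc) ha hb
      hu1 hu2 (fun w hw e => by have := hD1 hw; rw [mem_rs] at this; omega)
      (fun w hw e => by have := hD2 hw; rw [mem_rs] at this; omega)
    rcases hz' with h | h
    · exact ⟨z, hz, h⟩
    · exact absurd (hz.elim (fun h => hD1 h) (fun h => hD2 h)) h
  have hvT : v ∈ T ∪ (rs X0 X3 Y0 Y3)ᶜ := Or.inl hT.right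
  rcases hv with hv | hv | hv | hv
  · exact key v (.refl hvT) (Or.inl hv)
  · refine key (v.1 + 1, max v.2 (Y3 + 1)) (.head hvT (v := (v.1 + 1, v.2)) (by simp [adj])
      (conn_col (le_max_left _ _) fun y _ _ => Or.inr ?_)) (by dsimp only; omega)
    simp only [Set.mem_compl_iff, mem_rs]; omega
  · refine key (v.1, v.2 - 1) (.single hvT (by simp [adj]) (Or.inr ?_)) (by dsimp only; omega)
    simp only [Set.mem_compl_iff, mem_rs]; omega
  · refine key (v.1, v.2 + 1) (.single hvT (by simp [adj]) (Or.inr ?_)) (by dsimp only; omega)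
    simp only [Set.mem_compl_iff, mem_rs]; omega

/-- four crossings around a square hole -/
def Ring (X0 X1 X2 X3 : ℤ) (S : Set V) : Prop :=
  ((HC X0 X3 (X2 + 1) X3 S ∧ HC X0 X3 X0 (X1 - 1) S) ∧ VC X0 (X1 - 1) X0 X3 S) ∧
    VC (X2 + 1) X3 X0 X3 S

theorem lf_Ring (X0 X1 X2 X3 : ℤ) : LF (Ring X0 X1 X2 X3) :=
  (((lf_HC _ _ _ _).and (lf_HC _ _ _ _)).and (lf_VC _ _ _ _)).and (lf_VC _ _ _ _)

theorem ring_meet {X0 X1 X2 X3 : ℤ} {S : Set V} (h : Ring X0 X1 X2 X3 S) (e1 : X0 < X1)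
    (e2 : X1 ≤ X2) (e3 : X2 < X3) : ∃ p, VCp S (X2 + 1) X3 X0 X3 p ∧ ∀ (T : Set V) (u v : V),
      Conn T u v → u ∈ rs X1 X2 X1 X2 → (v.1 ≤ X0 ∨ X3 ≤ v.1 ∨ v.2 ≤ X0 ∨ X3 ≤ v.2) →
      ∃ z ∈ T, z ∉ rs X1 X2 X1 X2 ∧ Conn S p z := by
  obtain ⟨⟨⟨⟨t, ht⟩, ⟨b, hb⟩⟩, ⟨l, hl⟩⟩, ⟨p, hp⟩⟩ := h
  refine ⟨p, hp, fun T u v hT hu hv => ?_⟩
  let D1 : Set V := {w | w ∈ rs X0 X3 X0 X3 ∧ (w.1 < X1 ∨ w.2 < X1 ∨ X2 < w.2)}
  let D2 : Set V := {w | w ∈ rs X0 X3 X0 X3 ∧ (X2 < w.1 ∨ w.2 < X1 ∨ X2 < w.2)}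
  have c1 : Conn (S ∩ D1) b t :=
    (lk hb hl (by omega) (fun w => by simp only [D1, mem_rs, Set.mem_ofPred_eq]; omega)
      (fun w => by simp only [D1, mem_rs, Set.mem_ofPred_eq]; omega)).trans
    (lk ht hl (by omega) (fun w => by simp only [D1, mem_rs, Set.mem_ofPred_eq]; omega)
      (fun w => by simp only [D1, mem_rs, Set.mem_ofPred_eq]; omega)).symm
  have c2 : Conn (S ∩ D2) t p :=
    lk ht hp (by omega) (fun w => by simp only [D2, mem_rs, Set.mem_ofPred_eq]; omega)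
      (fun w => by simp only [D2, mem_rs, Set.mem_ofPred_eq]; omega)
  have c3 : Conn (S ∩ D2) b p :=
    lk hb hp (by omega) (fun w => by simp only [D2, mem_rs, Set.mem_ofPred_eq]; omega)
      (fun w => by simp only [D2, mem_rs, Set.mem_ofPred_eq]; omega)
  have m1 := ht.mem.2
  have m2 := hb.mem.2
  rw [mem_rs] at m1 m2 hu
  obtain ⟨z, hz, hz'⟩ := loop_meet (X0 := X0) (X3 := X3) (Y0 := X0) (Y3 := X3) c1.cluster
    (c2.trans c3.symm).cluster hT (by omega) (by omega)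
    (fun w hw e => by have := (Conn.right hw).2.2; omega)
    (fun w hw e => by have := (Conn.right hw).2.2; omega)
    (fun w hw => (Conn.right hw).2.1) (fun w hw => (Conn.right hw).2.1) hv
  refine ⟨z, hz', ?_⟩
  rcases hz with hz | hz
  · refine ⟨by have := (Conn.right hz).2.2; rw [mem_rs]; omega, ?_⟩
    exact (c3.symm.mono Set.inter_subset_left).trans (Conn.mono hz Set.inter_subset_left)
  · refine ⟨by have := (Conn.right hz).2.2; rw [mem_rs]; omega, ?_⟩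
    exact (c2.symm.mono Set.inter_subset_left).trans (Conn.mono hz Set.inter_subset_left)

/-- sup norm in lattice coordinates -/
def nu (v : V) : ℤ := max (max v.1 (-v.1)) (max v.2 (-v.2))
theorem lip_nu (a b : V) (h : adj a b) : nu b ≤ nu a + 1 := by unfold adj at h; unfold nu; omega
theorem nu_le {v : V} {a : ℤ} : nu v ≤ a ↔ v ∈ rs (-a) a (-a) a := by
  rw [mem_rs]; unfold nu; omega
theorem le_nu {v : V} {a : ℤ} : a ≤ nu v ↔ v.1 ≤ -a ∨ a ≤ v.1 ∨ v.2 ≤ -a ∨ a ≤ v.2 := by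
  unfold nu; omega
def ann (a b : ℤ) : Set V := {v | a ≤ nu v ∧ nu v ≤ b}
theorem mem_ann {a b : ℤ} {v : V} : v ∈ ann a b ↔ a ≤ nu v ∧ nu v ≤ b := Iff.rfl
theorem ann_finite (a b : ℤ) : (ann a b).Finite :=
  (rs_finite (-b) b (-b) b).subset fun v => by simp only [mem_ann, mem_rs, nu]; omega

/-- one arm across an annulus -/
def Arm (a b : ℤ) (S : Set V) : Prop := ∃ u v, nu u = a ∧ nu v = b ∧ Conn (S ∩ ann a b) u v
theorem loc_Arm (a b : ℤ) : Loc (Arm a b) (ann a b) :=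
  fun _ _ h ⟨u, v, h1, h2, h3⟩ => ⟨u, v, h1, h2, conn_loc h h3⟩
theorem lf_Arm (a b : ℤ) : LF (Arm a b) := ⟨_, ann_finite _ _, loc_Arm _ _⟩

theorem arm_of_conn {S : Set V} {u v : V} {a b : ℤ} (h : Conn S u v) (hu : nu u ≤ a)
    (hv : b ≤ nu v) (hab : a ≤ b) : Arm a b S := by
  obtain ⟨u', v', e1, e2, e3, -, -⟩ := h.cut1 lip_nu hab hu hv
  exact ⟨u', v', e1, e2, e3⟩

theorem Arm.sub {S : Set V} {a b a' b' : ℤ} (h : Arm a b S) (h1 : a ≤ a') (h2 : a' ≤ b')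
    (h3 : b' ≤ b) : Arm a' b' S := by
  obtain ⟨u, v, e1, e2, e3⟩ := h
  exact arm_of_conn (e3.mono Set.inter_subset_left) (by omega) (by omega) h2

/-- one-arm probabilities at geometric scales -/
noncomputable def pp (i j : ℕ) : ℝ := P (Arm (4 ^ i) (4 ^ j))

theorem four_pow_le {i j : ℕ} (h : i ≤ j) : (4:ℤ) ^ i ≤ 4 ^ j := pow_le_pow_right₀ (by norm_num) h
theorem four_pow_lt {i j : ℕ} (h : i < j) : 4 * (4:ℤ) ^ i ≤ 4 ^ j := by
  rw [← pow_succ']; exact four_pow_le h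
theorem four_pow_pos (i : ℕ) : (1:ℤ) ≤ 4 ^ i := one_le_pow₀ (by norm_num)

theorem P_arm_sub {a b a' b' : ℤ} (h1 : a ≤ a') (h2 : a' ≤ b') (h3 : b' ≤ b) :
    P (Arm a b) ≤ P (Arm a' b') :=
  (lf_Arm _ _).mono (lf_Arm _ _) fun _ h => h.sub h1 h2 h3

theorem pp_sub {i j k l : ℕ} (h1 : i ≤ j) (h2 : j ≤ k) (h3 : k ≤ l) : pp i l ≤ pp j k :=
  P_arm_sub (four_pow_le h1) (four_pow_le h2) (four_pow_le h3)
theorem pp_nonneg (i j : ℕ) : 0 ≤ pp i j := P_nonneg _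
theorem pp_le_one (i j : ℕ) : pp i j ≤ 1 := P_le_one _

theorem P_ring : ∃ c : ℝ, 0 < c ∧ ∀ X0 X1 X2 X3 : ℤ, X0 < X1 → X1 ≤ X2 → X2 < X3 →
    X3 - X0 ≤ 20 * (X1 - X0) → X3 - X0 ≤ 20 * (X3 - X2) → c ≤ P (Ring X0 X1 X2 X3) := by
  obtain ⟨c, hc, -, h⟩ := rsw' 20
  refine ⟨c * c * c * c, by positivity, fun X0 X1 X2 X3 e1 e2 e3 e4 e5 => ?_⟩
  have h1 := h X0 X3 (X2 + 1) X3 (by omega) (by omega) (by push_cast; omega)
  have h2 := h X0 X3 X0 (X1 - 1) (by omega) (by omega) (by push_cast; omega)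
  exact (((lf_HC _ _ _ _).and (lf_HC _ _ _ _)).and (lf_VC _ _ _ _)).harris' (lf_VC _ _ _ _)
    (((lf_HC _ _ _ _).and (lf_HC _ _ _ _)).harris' (lf_VC _ _ _ _)
      ((lf_HC _ _ _ _).harris' (lf_HC _ _ _ _) h1.1 h2.1 hc.le) h2.2 hc.le) h1.2 hc.le

theorem pp_step : ∃ c : ℝ, 0 < c ∧ ∀ j, c ≤ pp j (j + 1) := by
  obtain ⟨c, hc, -, h⟩ := rsw' 20
  refine ⟨c, hc, fun j => ?_⟩
  have := four_pow_pos j
  refine (h (4 ^ j) (4 ^ (j + 1)) 0 (4 ^ j) (by omega) (by omega)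
    (by push_cast; rw [pow_succ]; omega)).1.trans ((lf_HC _ _ _ _).mono (lf_Arm _ _) ?_)
  rintro S ⟨p, l, r, e1, e2, c1, c2⟩
  have := c1.right.2
  rw [mem_rs] at this
  exact arm_of_conn ((c1.symm.trans c2).mono Set.inter_subset_left) (by unfold nu; omega)
    (by unfold nu; omega) (four_pow_le (by omega))

theorem glue {a b c : ℤ} {S : Set V} (hb : 0 < b) (ha : a ≤ b) (hc : 4 * b ≤ c)
    (h1 : Arm a (2 * b) S) (h2 : Arm (2 * b) c S) (h3 : Ring (-(2 * b)) (-b) b (2 * b) S)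
    (h4 : Ring (-(4 * b)) (-(2 * b)) (2 * b) (4 * b) S) (h5 : HC (b + 1) (4 * b) 0 b S) :
    Arm a c S := by
  obtain ⟨u, v, e1, e2, c1⟩ := h1
  obtain ⟨u', v', f1, f2, c2⟩ := h2
  obtain ⟨p, hp, k1⟩ := ring_meet h3 (by omega) (by omega) (by omega)
  obtain ⟨q, hq, k2⟩ := ring_meet h4 (by omega) (by omega) (by omega)
  obtain ⟨w, hw⟩ := h5
  obtain ⟨z, hz, -, g1⟩ := k1 _ u v c1.cluster (nu_le.1 (by omega)) (le_nu.1 (by omega))
  obtain ⟨z', hz', -, g2⟩ := k2 _ u' v' c2.cluster (nu_le.1 (by omega)) (le_nu.1 (by omega))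
  have c3 : Conn S u v' := (Conn.mono hz Set.inter_subset_left).trans (g1.symm.trans
    ((lk' hw hp (by omega)).symm.trans ((lk' hw hq (by omega)).trans
      (g2.trans ((Conn.symm hz').trans c2 |>.mono Set.inter_subset_left)))))
  exact arm_of_conn c3 (by omega) (by omega) (by omega)

theorem pp_Q1 : ∃ c : ℝ, 0 < c ∧ c ≤ 1 ∧ ∀ i j k, i ≤ j → j ≤ k → c * (pp i j * pp j k) ≤ pp i k := by
  obtain ⟨c, hc, hc1, h⟩ := rsw' 20
  obtain ⟨c', hc', h'⟩ := P_ring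
  have hc1' : c' ≤ 1 := (h' 0 1 1 2 (by omega) (by omega) (by omega) (by omega) (by omega)).trans
    (P_le_one _)
  have hle : c' * c' * c ≤ 1 := mul_le_one₀ (mul_le_one₀ hc1' hc'.le hc1') hc.le hc1
  refine ⟨c' * c' * c, by positivity, hle, fun i j k hij hjk => ?_⟩
  have p1 := pp_nonneg i j
  have p2 := pp_nonneg j k
  rcases hij.eq_or_lt with rfl | hij
  · exact (mul_le_of_le_one_left (by positivity) hle).trans
      (mul_le_of_le_one_left p2 (pp_le_one _ _))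
  rcases hjk.eq_or_lt with rfl | hjk
  · exact (mul_le_of_le_one_left (by positivity) hle).trans
      (mul_le_of_le_one_right p1 (pp_le_one _ _))
  obtain ⟨j, rfl⟩ : ∃ j', j = j' + 1 := ⟨j - 1, by omega⟩
  have e1 := four_pow_le (show i ≤ j by omega)
  have e2 := four_pow_lt hjk
  have e3 := four_pow_pos j
  have e4 : (4:ℤ) ^ (j + 1) = 2 * (2 * 4 ^ j) := by ring
  set b : ℤ := 2 * 4 ^ j with hb
  unfold pp
  rw [e4] at e2 ⊢
  have hk := (((lf_Ring _ _ _ _).and (lf_Ring _ _ _ _)).and (lf_HC _ _ _ _)).harris'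
    ((lf_Arm (4 ^ i) (2 * b)).and (lf_Arm (2 * b) (4 ^ k)))
    (((lf_Ring _ _ _ _).and (lf_Ring _ _ _ _)).harris' (lf_HC _ _ _ _)
      ((lf_Ring _ _ _ _).harris' (lf_Ring _ _ _ _)
        (h' (-(2 * b)) (-b) b (2 * b) (by omega) (by omega) (by omega) (by omega) (by omega))
        (h' (-(4 * b)) (-(2 * b)) (2 * b) (4 * b) (by omega) (by omega) (by omega) (by omega)
          (by omega)) hc'.le)
      (h (b + 1) (4 * b) 0 b (by omega) (by omega) (by push_cast; omega)).1 hc.le)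
    ((lf_Arm _ _).harris (lf_Arm _ _)) (mul_nonneg (P_nonneg _) (P_nonneg _))
  refine hk.trans (((((lf_Ring _ _ _ _).and (lf_Ring _ _ _ _)).and (lf_HC _ _ _ _)).and
    ((lf_Arm (4 ^ i) (2 * b)).and (lf_Arm (2 * b) (4 ^ k)))).mono (lf_Arm _ _) ?_)
  rintro S ⟨⟨⟨g1, g2⟩, g3⟩, g4, g5⟩
  exact glue (by omega) (by omega) (by omega) g4 g5 g1 g2 g3

theorem pp_indep {i j k : ℕ} (hij : i ≤ j) (hjk : j < k) : pp i k ≤ pp i j * pp (j + 1) k := by
  have e1 := four_pow_le hij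
  have e2 := four_pow_le (show j + 1 ≤ k from hjk)
  have e3 := four_pow_lt (Nat.lt_succ_self j)
  have e4 := four_pow_pos j
  unfold pp
  rw [← P_indep (loc_Arm _ _) (loc_Arm _ _) (ann_finite _ _) (ann_finite _ _)
    (Set.disjoint_left.2 fun v => by simp only [mem_ann]; omega)]
  exact (lf_Arm _ _).mono ((lf_Arm _ _).and (lf_Arm _ _)) fun S h =>
    ⟨h.sub le_rfl e1 (by omega), h.sub (by omega) e2 le_rfl⟩

/-- quasi-multiplicativity package -/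
theorem pp_quasi : ∃ c : ℝ, 0 < c ∧ c ≤ 1 ∧ (∀ j, c ≤ pp j (j + 1)) ∧
    (∀ i j k, i ≤ j → j ≤ k → c * (pp i j * pp j k) ≤ pp i k) ∧
    (∀ i j k, i ≤ j → j ≤ k → c * pp i k ≤ pp i j * pp j k) := by
  obtain ⟨c, hc, hc1, h⟩ := pp_Q1
  obtain ⟨c', hc', h'⟩ := pp_step
  have hc1' : c' ≤ 1 := (h' 0).trans (pp_le_one _ _)
  have a1 : c * c' ≤ c' := mul_le_of_le_one_left hc'.le hc1
  have a2 : c * c' ≤ c := mul_le_of_le_one_right hc.le hc1'
  refine ⟨c * c', by positivity, a1.trans hc1', fun j => a1.trans (h' j), fun i j k h1 h2 =>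
    (mul_le_mul_of_nonneg_right a2 (mul_nonneg (pp_nonneg _ _) (pp_nonneg _ _))).trans
      (h i j k h1 h2), fun i j k h1 h2 => ?_⟩
  rcases h2.eq_or_lt with rfl | h2
  · rw [mul_comm]
    exact mul_le_mul_of_nonneg_left (a1.trans ((h' j).trans (pp_sub le_rfl le_rfl (by omega))))
      (pp_nonneg _ _)
  · have k1 := pp_indep h1 h2
    have k2 := h j (j + 1) k (by omega) h2
    have k3 := h' j
    have k4 := pp_nonneg i j
    have k5 := pp_nonneg (j + 1) k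
    calc c * c' * pp i k ≤ c * c' * (pp i j * pp (j + 1) k) := by gcongr
      _ = pp i j * (c * (c' * pp (j + 1) k)) := by ring
      _ ≤ pp i j * (c * (pp j (j + 1) * pp (j + 1) k)) := by gcongr
      _ ≤ _ := by gcongr

/-! ### two arms of opposite colours -/

def sh (z : V) (S : Set V) : Set V := {v | v + z ∈ S}
def A2 (z : V) (a b : ℤ) (S : Set V) : Prop := Arm a b (sh z S) ∧ Arm a b (sh z Sᶜ)
noncomputable def al (a b : ℤ) : ℝ :=
  pr (fun T => ind (Arm a b T ∧ Arm a b (T : Set V)ᶜ))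

theorem al_nonneg (a b : ℤ) : 0 ≤ al a b := by
  unfold al pr
  split_ifs
  · exact Ex_nonneg fun _ _ => ind_nonneg _
  · exact le_rfl

theorem dep_al (a b : ℤ) :
    Dep (fun T : Finset V => ind (Arm a b T ∧ Arm a b (T : Set V)ᶜ)) (ann a b) := by
  simp_rw [ind_and]
  exact (loc_Arm a b).dep.mul (loc_Arm a b).dep_compl

theorem dep_A2 (z : V) (a b : ℤ) :
    Dep (fun T : Finset V => ind (A2 z a b T)) {v | v - z ∈ ann a b} := by
  intro T U h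
  refine ind_congr (and_congr ((loc_Arm a b).iff fun v hv => ?_) ((loc_Arm a b).iff fun v hv => ?_))
  · exact h (v + z) (by simpa using hv)
  · exact not_congr (h (v + z) (by simpa using hv))

theorem Ex_A2 {z : V} {a b : ℤ} {L : Finset V} (hL : ∀ v, v - z ∈ ann a b → v ∈ L) :
    Ex L (fun T => ind (A2 z a b T)) = al a b := by
  rw [pr_eq ((dep_A2 z a b).mono hL)]
  refine pr_map (ann_finite a b) (dep_al a b) (Equiv.addRight z) fun T => ?_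
  have e : sh z (T.map (Equiv.addRight z).toEmbedding : Finset V) = T := by
    ext v; simp [sh]
  have e' : sh z (T.map (Equiv.addRight z).toEmbedding : Finset V)ᶜ = (T : Set V)ᶜ := by
    rw [← e]; rfl
  rw [A2, e, e']

theorem arm_sh {S : Set V} {z u v : V} {a b : ℤ} (h : Conn S u v) (hu : nu (u - z) ≤ a)
    (hv : b ≤ nu (v - z)) (hab : a ≤ b) : Arm a b (sh z S) := by
  refine arm_of_conn (h.map (fun w => w - z) (fun x y hxy => Or.inr ?_) fun w hw => ?_) hu hv hab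
  · simp only [adj, Prod.fst_sub, Prod.snd_sub] at *; omega
  · simpa [sh] using hw

theorem two_arm_row {b : ℤ} (hb : 0 ≤ b) {S : Set V} (h1 : VC 0 b 0 b Sᶜ)
    (h2 : VC (2 * b) (3 * b) 0 b S) : ∃ z c z' c' : V, z.2 = 0 ∧ 0 ≤ z.1 ∧ z.1 ≤ 3 * b ∧ adj z c ∧
      z'.2 = b ∧ c'.2 = b ∧ Conn S z z' ∧ Conn Sᶜ c c' := by
  obtain ⟨p, l, r, e1, e2, c1, c2⟩ := h1
  have hsub : Sᶜ ∩ rs 0 b 0 b ⊆ Sᶜ ∩ rs 0 (3 * b) 0 b :=
    Set.inter_subset_inter_right _ fun v => by simp only [mem_rs]; omega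
  set C : Set V := {v | Conn (Sᶜ ∩ rs 0 (3 * b) 0 b) p v} with hC
  have hp := c1.left.2
  have hl := c1.right.2
  have hr := c2.right.2
  rw [mem_rs] at hp hl hr
  have hCx : ∀ c ∈ C, c.1 < 3 * b := by
    intro c hc
    by_contra h
    have := (Conn.right hc).2
    rw [mem_rs] at this
    obtain ⟨u, v, f1, f2, f3, -, -⟩ := Conn.cut1 (φ := fun v => v.1) lip1 hc (a := 2 * b)
      (b := 3 * b) (by omega) (by omega) (by omega)
    refine not_HC_of_VC (S := Sᶜ) (by rwa [compl_compl]) (HC_of_conn f1 f2 (f3.mono ?_))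
    rintro w ⟨⟨g1, g2⟩, g3⟩
    refine ⟨g1, ?_⟩
    simp only [mem_rs, Set.mem_ofPred_eq] at *
    omega
  set Q := rs 0 (3 * b + 1) 0 b with hQ
  have hCQ : C ⊆ Q := fun v hv => by
    have := (Conn.right hv).2
    simp only [hQ, mem_rs] at *; omega
  have hrow : ∀ w ∈ C, ∃ z ∈ bd Q C (3 * b + 1, 0), z.2 = w.2 := by
    intro w hw
    have m := hCQ hw
    rw [hQ, mem_rs] at m
    have k : Conn (rs 0 (3 * b + 1) w.2 w.2) (3 * b + 1, w.2) w :=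
      conn_rs (by simp only [mem_rs]; omega) (by simp only [mem_rs]; omega)
    obtain ⟨z, hz, hz'⟩ := bd_first (Q := Q) (t := (3 * b + 1, 0))
      (fun v => by simp only [hQ, mem_rs]; omega) k
      (conn_col m.2.2.1 fun y g1 g2 => ⟨by simp only [hQ, mem_rs]; omega,
        fun h => by have := hCx _ h; dsimp only at this; omega⟩) hw
    have := hz'.right.1
    rw [mem_rs] at this
    exact ⟨z, hz, by omega⟩
  obtain ⟨z, hz, g1⟩ := hrow l (c1.mono hsub)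
  obtain ⟨z', hz', g2⟩ := hrow r (c2.mono hsub)
  have hK : ∀ w ∈ bd Q C (3 * b + 1, 0), w ∈ S ∧ w ∈ rs 0 (3 * b) 0 b := by
    rintro w ⟨hw, c, hc, hwc⟩
    have m := (Conn.right hw).1
    have m' : w ∈ rs 0 (3 * b) 0 b := by
      have := hCx c hc
      have := lip1 _ _ hwc.symm
      simp only [hQ, mem_rs] at *; omega
    refine ⟨by_contra fun h => (Conn.right hw).2 (Conn.step hc hwc.symm ⟨h, m'⟩), m'⟩
  have m := (hK z hz).2
  rw [mem_rs] at m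
  obtain ⟨c, hc, hzc⟩ := hz.2
  exact ⟨z, c, z', r, by omega, m.1, m.2.1, hzc, by omega, e2,
    (bd_conn (retr_rs (by omega) hb) hCQ (fun _ h1 _ h2 => Conn.cluster' h1 h2) hz hz').mono
      fun w hw => (hK w hw).1,
    ((Conn.symm hc).trans (c2.mono hsub)).mono Set.inter_subset_left⟩

/-- lower bound for two arms -/
theorem al_lower : ∃ c : ℝ, 0 < c ∧ ∀ i j : ℕ, i ≤ j → c * 4 ^ i ≤ 4 ^ j * al (4 ^ i) (4 ^ j) := by
  obtain ⟨c, hc, -, h⟩ := rsw' 1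
  refine ⟨c * c / 4, by positivity, fun i j hij => ?_⟩
  obtain ⟨n, rfl⟩ := Nat.exists_eq_add_of_le hij
  have e0 := four_pow_pos i
  have e1 := four_pow_le hij
  set b : ℤ := 4 ^ (i + n) with hb
  set D : ℤ := 4 ^ i with hD
  have e2 : b = D * 4 ^ n := by rw [hb, pow_add]
  let L := rect (-b) (4 * b) (-b) b
  have k1 : c * c ≤ Ex L (fun T => ind (VC 0 b 0 b (T : Set V)ᶜ) * ind (VC (2 * b) (3 * b) 0 b T)) := by
    rw [Ex_indep (loc_VC _ _ _ _).dep_compl (loc_VC _ _ _ _).dep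
      (Set.disjoint_left.2 fun v => by simp only [mem_rs]; omega),
      P_eq_compl ((loc_VC _ _ _ _).mono fun v => by simp only [L, coe_rect, mem_rs]; omega),
      P_eq ((loc_VC _ _ _ _).mono fun v => by simp only [L, coe_rect, mem_rs]; omega)]
    exact mul_le_mul (h 0 b 0 b (by omega) (by omega) (by push_cast; omega)).2
      (h 0 b (2 * b) (3 * b) (by omega) (by omega) (by push_cast; omega)).2 hc.le (P_nonneg _)
  have k2 : Ex L (fun T => ind (VC 0 b 0 b (T : Set V)ᶜ) * ind (VC (2 * b) (3 * b) 0 b T)) ≤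
      Ex L (fun T => ∑ k ∈ Finset.range (3 * 4 ^ n + 1), ind (A2 (D * k, 0) D b T)) := by
    refine Ex_mono fun T _ => le_trans ?_ (ind_exists_le _ _)
    rw [← ind_and]
    refine ind_mono fun ⟨h1, h2⟩ => ?_
    obtain ⟨z, w, z', w', f1, f2, f3, f4, f5, f6, f7, f8⟩ := two_arm_row (by omega) h1 h2
    have g1 := Int.mul_ediv_add_emod z.1 D
    have g2 := Int.emod_nonneg z.1 (show D ≠ 0 by omega)
    have g3 := Int.emod_lt_of_pos z.1 (show 0 < D by omega)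
    have g4 : 0 ≤ z.1 / D := Int.ediv_nonneg f2 (by omega)
    have g5 : z.1 / D ≤ 3 * 4 ^ n := Int.ediv_le_of_le_mul (by omega) (by nlinarith)
    refine ⟨(z.1 / D).toNat, ?_, ?_⟩
    · rw [Finset.mem_range, Nat.lt_succ_iff, Int.toNat_le]
      exact_mod_cast g5
    · rw [Int.toNat_of_nonneg g4]
      refine ⟨arm_sh f7 ?_ ?_ e1, arm_sh f8 ?_ ?_ e1⟩
      all_goals
        simp only [nu, adj, Prod.fst_sub, Prod.snd_sub] at *
        omega
  rw [Ex_sum, Finset.sum_congr rfl (g := fun _ => al D b)] at k2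
  · rw [Finset.sum_const, Finset.card_range, nsmul_eq_mul] at k2
    have k3 := al_nonneg D b
    have k4 : (1:ℝ) ≤ 4 ^ n := one_le_pow₀ (by norm_num)
    have k5 : c * c / 4 ≤ 4 ^ n * al D b := by
      push_cast at k2
      nlinarith
    calc _ ≤ 4 ^ n * al D b * 4 ^ i := by gcongr
      _ = _ := by ring
  · intro k hk
    refine Ex_A2 fun v hv => ?_
    have g1 : (k : ℤ) ≤ 3 * 4 ^ n := by exact_mod_cast Nat.lt_succ_iff.1 (Finset.mem_range.1 hk)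
    have g2 : D * k ≤ 3 * b := by nlinarith
    have g3 : 0 ≤ D * k := by positivity
    simp only [L, mem_rect, mem_ann, nu, Prod.fst_sub, Prod.snd_sub] at *
    omega

end Pool.Agent.Lib.MP_e26b79_pr
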