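import Pool.Agent.Lib.MP_e26b79_pr.Compare

namespace Pool.Agent.Lib.MP_e26b79_pr
open Finset MeasureTheory

variable {α ι : Type*} [DecidableEq α] [DecidableEq ι]

open Classical in
/-- one step of the chain: apply `σ e` if exactly the edge `e` rings -/
noncomputable def tau (σ : ι → Finset α → Finset α) (β : Finset ι) (T : Finset α) : Finset α :=
  if h : ∃ e, β = {e} then σ h.choose T else T

omit [DecidableEq α] [DecidableEq ι] in
theorem tau_single (σ : ι → Finset α → Finset α) (e : ι) (T : Finset α) : tau σ {e} T = σ e T := by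
  have h : ∃ e', ({e} : Finset ι) = {e'} := ⟨e, rfl⟩
  rw [tau, dif_pos h, ← singleton_injective h.choose_spec]

omit [DecidableEq α] [DecidableEq ι] in
theorem tau_cases (σ : ι → Finset α → Finset α) (β : Finset ι) :
    (∃ e, β = {e} ∧ tau σ β = σ e) ∨ tau σ β = id := by
  by_cases h : ∃ e, β = {e}
  · obtain ⟨e, rfl⟩ := h
    exact Or.inl ⟨e, rfl, funext (tau_single σ e)⟩
  · exact Or.inr (funext fun T => dif_neg h)

noncomputable def run (σ : ι → Finset α → Finset α) (B : ℕ → Finset ι) (T : Finset α) :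
    ℕ → Finset α
  | 0 => T
  | k + 1 => tau σ (B k) (run σ B T k)

omit [DecidableEq α] [DecidableEq ι] in
theorem run_congr (σ : ι → Finset α → Finset α) {B B' : ℕ → Finset ι} (T : Finset α) :
    ∀ k, (∀ j < k, B j = B' j) → run σ B T k = run σ B' T k
  | 0, _ => rfl
  | k + 1, h => by
    rw [run, run, h k (Nat.lt_succ_self k), run_congr σ T k fun j hj => h j (by omega)]

noncomputable def Kop (σ : ι → Finset α → Finset α) (q : ι → ℝ) (E : Finset ι)
    (u : Finset α → ℝ) (T : Finset α) : ℝ := ∑ β ∈ E.powerset, wt q E β * u (tau σ β T)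

section chain
variable (σ : ι → Finset α → Finset α) (q : ι → ℝ) (E : Finset ι) (F : Finset α → Prop)

noncomputable def hh : ℕ → Finset α → ℝ
  | 0 => fun _ => 0
  | m + 1 => fun T => ind (F T) + (1 - ind (F T)) * Kop σ q E (hh m) T
noncomputable def aa : ℕ → Finset α → ℝ
  | 0 => fun _ => 0
  | m + 1 => fun T => ind (F T) + Kop σ q E (aa m) T
noncomputable def bb : ℕ → Finset α → ℝ
  | 0 => fun _ => 0
  | m + 1 => fun T => ind (F T) + 2 * ind (F T) * Kop σ q E (aa σ q E F m) T + Kop σ q E (bb m) T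

variable {σ q E F} (hq : ∀ e ∈ E, 0 ≤ q e ∧ q e ≤ 1)
omit [DecidableEq α]

include hq in
theorem Kop_mono {u v : Finset α → ℝ} (h : ∀ T, u T ≤ v T) (T : Finset α) :
    Kop σ q E u T ≤ Kop σ q E v T :=
  sum_le_sum fun β _ => mul_le_mul_of_nonneg_left (h _) (wt_nonneg hq β)

theorem Kop_lin (u v : Finset α → ℝ) (a b c : ℝ) (T : Finset α) :
    Kop σ q E (fun T => a * u T + b * v T + c) T = a * Kop σ q E u T + b * Kop σ q E v T + c := by
  simp only [Kop, mul_add, sum_add_distrib, ← sum_mul, sum_wt, one_mul, mul_sum]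
  congr 2 <;> exact sum_congr rfl fun β _ => by ring

include hq in
theorem Kop_sq (u : Finset α → ℝ) (T : Finset α) :
    Kop σ q E u T ^ 2 ≤ Kop σ q E (fun T => u T ^ 2) T := by
  have h := Kop_mono (σ := σ) hq (u := fun U => (2 * Kop σ q E u T) * u U + 0 * u U +
    (-Kop σ q E u T ^ 2)) (v := fun U => u U ^ 2)
    (fun U => by nlinarith [sq_nonneg (u U - Kop σ q E u T)]) T
  rw [Kop_lin] at h
  nlinarith

include hq in
theorem aa_mono (m : ℕ) : ∀ T, aa σ q E F m T ≤ aa σ q E F (m + 1) T := by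
  induction m with
  | zero => intro T; simp [aa, Kop, ind_nonneg]
  | succ m ih => exact fun T => add_le_add le_rfl (Kop_mono hq ih T)

include hq in
theorem aa_nonneg (m : ℕ) (T : Finset α) : 0 ≤ aa σ q E F m T :=
  monotone_nat_of_le_succ (f := fun m => aa σ q E F m T) (fun m => aa_mono hq m T) (Nat.zero_le m)

include hq in
theorem aa_sq (m : ℕ) : ∀ T, aa σ q E F m T ^ 2 ≤ bb σ q E F m T := by
  induction m with
  | zero => intro T; simp [aa, bb]
  | succ m ih =>
    intro T
    have := (Kop_sq (σ := σ) hq (aa σ q E F m) T).trans (Kop_mono hq ih T)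
    have := ind_mul_self (F T)
    simp only [aa, bb]
    nlinarith

include hq in
theorem aa_le {s : ℝ} (hs : 0 < s) (m : ℕ) :
    ∀ T, 2 * aa σ q E F m T ≤ s * hh σ q E F m T + bb σ q E F m T / s := by
  induction m with
  | zero => intro T; simp [aa, bb, hh]
  | succ m ih =>
    intro T
    by_cases h : F T
    · have := aa_sq (σ := σ) (F := F) hq (m + 1) T
      have e : hh σ q E F (m + 1) T = 1 := by simp [hh, ind_pos h]
      rw [e, ← sub_le_iff_le_add', le_div_iff₀ hs]
      nlinarith [sq_nonneg (aa σ q E F (m + 1) T - s)]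
    · have := Kop_mono (σ := σ) hq (u := fun T => 2 * aa σ q E F m T + 0 * aa σ q E F m T + 0)
        (v := fun T => s * hh σ q E F m T + s⁻¹ * bb σ q E F m T + 0)
        (fun T => by have := ih T; rw [div_eq_inv_mul] at this; linarith) T
      rw [Kop_lin, Kop_lin] at this
      simp only [aa, bb, hh, ind_neg h, div_eq_inv_mul]
      linarith

variable {L : Finset α} (h1 : ∀ e ∈ E, ∀ T, T ⊆ L → σ e T ⊆ L)
  (h2 : ∀ e ∈ E, ∀ T, T ⊆ L → σ e (σ e T) = T)

omit [DecidableEq ι] in
include h1 h2 in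
theorem tau_inv {β : Finset ι} (hβ : β ⊆ E) : (∀ T, T ⊆ L → tau σ β T ⊆ L) ∧
    ∀ T, T ⊆ L → tau σ β (tau σ β T) = T := by
  rcases tau_cases σ β with ⟨e, rfl, h⟩ | h <;> rw [h]
  · exact ⟨h1 e (hβ (mem_singleton_self e)), h2 e (hβ (mem_singleton_self e))⟩
  · exact ⟨fun _ h => h, fun _ _ => rfl⟩

include h1 h2 in
theorem Ex_Kop (u : Finset α → ℝ) : Ex L (Kop σ q E u) = Ex L u := by
  unfold Kop
  rw [Ex_sum, sum_congr rfl fun β hβ => by
    rw [Ex_mul_left, Ex_invol _ (tau_inv h1 h2 (mem_powerset.1 hβ)).1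
      (tau_inv h1 h2 (mem_powerset.1 hβ)).2], ← sum_mul, sum_wt, one_mul]

include h1 h2 in
theorem Ex_aa (m : ℕ) : Ex L (aa σ q E F m) = m * Ex L (fun T => ind (F T)) := by
  induction m with
  | zero => simp [aa, Ex_const]
  | succ m ih =>
    rw [aa, Ex_add, Ex_Kop h1 h2, ih]
    push_cast; ring

include hq h1 h2 in
theorem Ex_bb (m : ℕ) : Ex L (bb σ q E F m) ≤ 2 * m * Ex L (fun T => ind (F T) * aa σ q E F m T) := by
  induction m with
  | zero => simp [bb, Ex_const]
  | succ m ih =>
    have e1 : Ex L (fun T => ind (F T) * aa σ q E F m T) ≤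
        Ex L (fun T => ind (F T) * aa σ q E F (m + 1) T) :=
      Ex_mono fun T _ => mul_le_mul_of_nonneg_left (aa_mono hq m T) (ind_nonneg _)
    have e2 : Ex L (fun T => ind (F T) + 2 * ind (F T) * Kop σ q E (aa σ q E F m) T) ≤
        2 * Ex L (fun T => ind (F T) * aa σ q E F (m + 1) T) := by
      rw [← Ex_mul_left]
      refine Ex_mono fun T _ => ?_
      have := ind_mul_self (F T)
      have := ind_nonneg (F T)
      simp only [aa]
      nlinarith
    rw [bb, Ex_add, Ex_Kop h1 h2]
    push_cast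
    nlinarith

include hq h1 h2 in
theorem dir_aa {ι' : Type*} {D : Finset ι'} {ed : ι' → ι} (hD : ∀ x ∈ D, ed x ∈ E)
    (hinj : Set.InjOn ed D) {w : ℝ} (hw : ∀ x ∈ D, w ≤ wt q E {ed x}) (m : ℕ) :
    w / 2 * ∑ x ∈ D, Ex L (fun T => (aa σ q E F m T - aa σ q E F m (σ (ed x) T)) ^ 2) ≤
      Ex L (fun T => ind (F T) * aa σ q E F m T) := by
  set a := aa σ q E F m with ha
  have k0 : ∀ β, 0 ≤ Ex L (fun T => (a T - a (tau σ β T)) ^ 2) := fun β =>
    Ex_nonneg fun _ _ => sq_nonneg _
  have k1 : Ex L (fun T => a T * (a T - Kop σ q E a T)) =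
      ∑ β ∈ E.powerset, wt q E β / 2 * Ex L (fun T => (a T - a (tau σ β T)) ^ 2) := by
    have : ∀ T, a T * (a T - Kop σ q E a T) =
        ∑ β ∈ E.powerset, wt q E β * (a T * (a T - a (tau σ β T))) := fun T => by
      simp only [Kop, mul_sub, sum_sub_distrib, ← sum_mul, sum_wt, mul_sum]
      congr 1
      · ring
      · exact sum_congr rfl fun _ _ => by ring
    simp_rw [this]
    rw [Ex_sum]
    refine sum_congr rfl fun β hβ => ?_
    rw [Ex_mul_left, Ex_dir (tau_inv h1 h2 (mem_powerset.1 hβ)).1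
      (tau_inv h1 h2 (mem_powerset.1 hβ)).2]
    simp only [sq]
    ring
  calc _ ≤ ∑ x ∈ D, wt q E {ed x} / 2 * Ex L (fun T => (a T - a (tau σ {ed x} T)) ^ 2) := by
        rw [mul_sum]
        refine sum_le_sum fun x hx => ?_
        simp only [tau_single]
        have := hw x hx
        exact mul_le_mul_of_nonneg_right (by linarith) (Ex_nonneg fun _ _ => sq_nonneg _)
    _ = ∑ β ∈ D.image (fun x => {ed x}),
          wt q E β / 2 * Ex L (fun T => (a T - a (tau σ β T)) ^ 2) := by
        rw [sum_image fun x hx y hy h => hinj hx hy (singleton_injective h)]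
    _ ≤ _ := sum_le_sum_of_subset_of_nonneg (fun β hβ => by
          obtain ⟨x, hx, rfl⟩ := mem_image.1 hβ
          simpa using hD x hx) fun β _ _ => mul_nonneg (by have := wt_nonneg hq β; linarith) (k0 β)
    _ = _ := k1.symm
    _ ≤ _ := Ex_mono fun T _ => by
        have e1 := aa_mono (σ := σ) (F := F) hq m T
        have e2 := aa_nonneg (σ := σ) (F := F) hq m T
        rw [mul_comm (ind _)]
        refine mul_le_mul_of_nonneg_left ?_ e2
        simp only [aa] at e1
        linarith

include hq h1 h2 in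
/-- second moment bound for the chain -/
theorem chain_lower {ι' : Type*} {D : Finset ι'} {ed : ι' → ι} (hD : ∀ x ∈ D, ed x ∈ E)
    (hinj : Set.InjOn ed D) {κ C : ℝ} (hC : 0 < C) {m : ℕ} (hm : 0 < m)
    (hw : ∀ x ∈ D, κ / m ≤ wt q E {ed x}) (hp : 0 < Ex L (fun T => ind (F T)))
    (hv : ∀ g : Finset α → ℝ, 2 * Ex L (fun T => ind (F T) * g T) - Ex L (fun T => g T ^ 2) -
      κ / 2 * ∑ x ∈ D, Ex L (fun T => (g T - g (σ (ed x) T)) ^ 2) ≤
        C * Ex L (fun T => ind (F T)) ^ 2) : 1 / (6 * C) ≤ Ex L (hh σ q E F m) := by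
  set p := Ex L (fun T => ind (F T)) with hp'
  set A := Ex L (fun T => ind (F T) * aa σ q E F m T) with hA
  have m0 : (0:ℝ) < m := by exact_mod_cast hm
  have k1 := dir_aa (F := F) hq h1 h2 hD hinj hw m
  have k2 := Ex_bb (F := F) hq h1 h2 m
  have k3 : Ex L (fun T => aa σ q E F m T ^ 2) ≤ Ex L (bb σ q E F m) :=
    Ex_mono fun T _ => aa_sq hq m T
  have k4 := hv (fun T => (1 / (3 * m)) * aa σ q E F m T)
  simp only [← mul_sub, mul_pow, mul_left_comm (ind _), Ex_mul_left, ← mul_sum] at k4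
  rw [← hA] at k1 k2 k4
  set S := ∑ x ∈ D, Ex L (fun T => (aa σ q E F m T - aa σ q E F m (σ (ed x) T)) ^ 2) with hS
  have k5 : κ / 2 * S ≤ m * A := by
    have := mul_le_mul_of_nonneg_left k1 m0.le
    calc _ = m * (κ / m / 2 * S) := by field_simp
      _ ≤ _ := this
  have k6 : A ≤ 3 * m * (C * p ^ 2) := by
    have e : A = 3 * m * (2 * (1 / (3 * m) * A) - (1 / (3 * m)) ^ 2 * (2 * m * A) -
        (1 / (3 * m)) ^ 2 * (m * A)) := by field_simp; ring
    rw [e]
    refine mul_le_mul_of_nonneg_left (le_trans ?_ k4) (by positivity)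
    have e1 := mul_le_mul_of_nonneg_left (k3.trans k2) (sq_nonneg (1 / (3 * m : ℝ)))
    have e2 := mul_le_mul_of_nonneg_left k5 (sq_nonneg (1 / (3 * m : ℝ)))
    linarith
  have s0 : 0 < 6 * m * C * p := by positivity
  have k7 := Ex_mono (L := L) fun T _ => aa_le (σ := σ) (F := F) hq s0 m T
  rw [Ex_mul_left, Ex_add, Ex_mul_left, Ex_div, Ex_aa h1 h2, ← hp'] at k7
  have k8 : Ex L (bb σ q E F m) / (6 * m * C * p) ≤ m * p := by
    rw [div_le_iff₀ s0]
    nlinarith [mul_le_mul_of_nonneg_left k6 (show (0:ℝ) ≤ 2 * m by positivity)]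
  rw [div_le_iff₀ (by positivity)]
  refine le_of_mul_le_mul_left ?_ (show 0 < m * p by positivity)
  nlinarith

end chain

theorem real_part {Ω γ : Type*} [MeasurableSpace Ω] (μ : Measure Ω) [IsFiniteMeasure μ]
    (s : Finset γ) (Y : Ω → γ) (A : Set Ω) (h1 : ∀ w, Y w ∈ s)
    (h2 : ∀ b, MeasurableSet {w | Y w = b}) :
    μ.real A = ∑ b ∈ s, μ.real ({w | Y w = b} ∩ A) := by
  have := sum_measureReal_preimage_singleton (μ := μ.restrict A) s (f := Y) fun b _ => h2 b
  rw [show Y ⁻¹' s = Set.univ from Set.eq_univ_of_forall h1, measureReal_restrict_apply_univ] at this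
  rw [← this]
  exact sum_congr rfl fun b _ => measureReal_restrict_apply (h2 b)

omit [DecidableEq α] in
/-- the hitting probability of the chain driven by random edge sets -/
theorem hit_prob {Ω : Type*} [MeasurableSpace Ω] (μ : Measure Ω) [IsProbabilityMeasure μ]
    (σ : ι → Finset α → Finset α) (q : ι → ℝ) (E : Finset ι) (F : Finset α → Prop) (L : Finset α)
    (X : Ω → Finset α) (β : ℕ → Ω → Finset ι) (hX : ∀ w, X w ⊆ L) (hβ : ∀ k w, β k w ⊆ E)
    (mX : ∀ T, MeasurableSet {w | X w = T}) (mβ : ∀ k b, MeasurableSet {w | β k w = b})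
    (law : ∀ T ⊆ L, ∀ (j : ℕ) (B : ℕ → Finset ι), (∀ k, B k ⊆ E) →
      μ.real {w | X w = T ∧ ∀ k < j, β k w = B k} =
        (1 / 2) ^ L.card * ∏ k ∈ range j, wt q E (B k)) (m : ℕ) :
    μ.real {w | ∃ k < m, F (run σ (fun k => β k w) (X w) k)} = Ex L (hh σ q E F m) := by
  have key : ∀ T ⊆ L, ∀ (n j : ℕ) (B : ℕ → Finset ι), (∀ k, B k ⊆ E) →
      μ.real ({w | X w = T ∧ ∀ k < j, β k w = B k} ∩
        {w | ∃ k < n, F (run σ (fun k => β k w) (X w) (j + k))}) =
      μ.real {w | X w = T ∧ ∀ k < j, β k w = B k} * hh σ q E F n (run σ B T j) := by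
    intro T hT n
    induction n with
    | zero => intro j B _; simp [hh]
    | succ n ih =>
      intro j B hB
      have e0 : ∀ w ∈ {w | X w = T ∧ ∀ k < j, β k w = B k},
          run σ (fun k => β k w) (X w) j = run σ B T j := fun w hw => by
        rw [hw.1]; exact run_congr σ T j hw.2
      by_cases hF : F (run σ B T j)
      · rw [Set.inter_eq_left.2]
        · simp [hh, ind_pos hF]
        · exact fun w hw => ⟨0, by omega, by rwa [add_zero, e0 w hw]⟩
      rw [real_part μ E.powerset (β j) _ (fun w => mem_powerset.2 (hβ j w)) (mβ j)]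
      simp only [hh, ind_neg hF, zero_add, sub_zero, one_mul, Kop, mul_sum]
      refine sum_congr rfl fun b hb => ?_
      have e1 : ∀ k, Function.update B j b k ⊆ E := fun k => by
        rw [Function.update_apply]
        split_ifs
        · exact mem_powerset.1 hb
        · exact hB k
      have e2 : ∀ k < j, Function.update B j b k = B k := fun k hk =>
        Function.update_of_ne hk.ne _ _
      have e3 := ih (j + 1) _ e1
      rw [law T hT _ _ e1, prod_range_succ, run, Function.update_self, run_congr σ T j e2,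
        prod_congr rfl fun k hk => by rw [e2 k (mem_range.1 hk)]] at e3
      rw [law T hT _ _ hB, ← mul_assoc, mul_assoc _ _ (wt q E b), ← e3]
      congr 1
      ext w
      simp only [Set.mem_inter_iff, Set.mem_ofPred_eq]
      constructor
      · rintro ⟨a1, a2, k, a3, a4⟩
        refine ⟨⟨a2.1, fun k hk => ?_⟩, ?_⟩
        · rcases (Nat.lt_succ_iff.1 hk).eq_or_lt with rfl | hk
          · rw [a1, Function.update_self]
          · rw [e2 k hk, a2.2 k hk]
        · cases k with
          | zero => rw [add_zero, e0 w a2] at a4; exact absurd a4 hF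
          | succ k => exact ⟨k, by omega, by rwa [add_assoc, add_comm 1]⟩
      · rintro ⟨⟨a1, a2⟩, k, a3, a4⟩
        refine ⟨by rw [a2 j (by omega), Function.update_self],
          ⟨a1, fun k hk => by rw [a2 k (by omega), e2 k hk]⟩, k + 1, by omega, ?_⟩
        rwa [add_assoc, add_comm 1] at a4
  rw [real_part μ L.powerset X _ (fun w => mem_powerset.2 (hX w)) mX, Ex, sum_div]
  refine sum_congr rfl fun T hT => ?_
  have := key T (mem_powerset.1 hT) m 0 (fun _ => ∅) (fun _ => empty_subset _)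
  rw [law T (mem_powerset.1 hT) _ (fun _ => ∅) (fun _ => empty_subset _)] at this
  simp only [Nat.not_lt_zero, false_imp_iff, implies_true, and_true, zero_add, range_zero,
    prod_empty, mul_one, run] at this
  rw [this, one_div, inv_pow, div_eq_inv_mul]

end Pool.Agent.Lib.MP_e26b79_pr
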