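import Pool.Agent.Lib.MP_e26b79_pr.Fourier

namespace Pool.Agent.Lib.MP_e26b79_pr
open Finset
open scoped symmDiff

variable {α ι : Type*} [DecidableEq α]

/-- exchange of the values at two sites -/
def sw (x y : α) (T : Finset α) : Finset α := T.map (Equiv.swap x y).toEmbedding

theorem mem_sw {x y v : α} {T : Finset α} : v ∈ sw x y T ↔ Equiv.swap x y v ∈ T := by
  simp [sw, mem_map_equiv]
theorem sw_sw (x y : α) (T : Finset α) : sw x y (sw x y T) = T := by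
  ext v; simp [mem_sw]
theorem sw_mono (x y : α) {T U : Finset α} (h : T ⊆ U) : sw x y T ⊆ sw x y U :=
  fun _ hv => mem_sw.2 (h (mem_sw.1 hv))
theorem sw_self {x y : α} {T : Finset α} (h : x ∈ T ↔ y ∈ T) : sw x y T = T := by
  ext v
  rw [mem_sw, Equiv.swap_apply_def]
  split_ifs with h1 h2
  · rw [h1, h]
  · rw [h2, h]
  · rfl
theorem sw_subset {x y : α} {T L : Finset α} (hx : x ∈ L) (hy : y ∈ L) (h : T ⊆ L) :
    sw x y T ⊆ L := (sw_mono x y h).trans (sw_self (by simp [hx, hy])).subset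

/-- resolvent operator of a family of involutions -/
noncomputable def Op (σ : ι → Finset α → Finset α) (D : Finset ι) (l κ : ℝ) (u : Finset α → ℝ)
    (T : Finset α) : ℝ := l * u T + κ * ∑ i ∈ D, (u T - u (σ i T))

section op
variable {σ : ι → Finset α → Finset α} {D : Finset ι} {l κ : ℝ} {L : Finset α}
  (h1 : ∀ i ∈ D, ∀ T, T ⊆ L → σ i T ⊆ L) (h2 : ∀ i ∈ D, ∀ T, T ⊆ L → σ i (σ i T) = T)

omit [DecidableEq α] in
include h1 in
theorem Op_max (hl : 0 < l) (hκ : 0 ≤ κ) {u : Finset α → ℝ} (h : ∀ T, T ⊆ L → 0 ≤ Op σ D l κ u T) :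
    ∀ T, T ⊆ L → 0 ≤ u T := by
  obtain ⟨T0, e1, e2⟩ := exists_min_image L.powerset u ⟨∅, by simp⟩
  have e3 := h T0 (mem_powerset.1 e1)
  have e4 : ∑ i ∈ D, (u T0 - u (σ i T0)) ≤ 0 := sum_nonpos fun i hi =>
    sub_nonpos.2 (e2 _ (mem_powerset.2 (h1 i hi _ (mem_powerset.1 e1))))
  have e5 : 0 ≤ u T0 := by
    by_contra h5
    unfold Op at e3
    nlinarith [mul_nonpos_of_nonneg_of_nonpos hκ e4]
  exact fun T hT => e5.trans (e2 T (mem_powerset.2 hT))

include h1 in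
theorem Op_exists (hl : 0 < l) (hκ : 0 ≤ κ) (f : Finset α → ℝ) :
    ∃ u, ∀ T, T ⊆ L → Op σ D l κ u T = f T := by
  let ext : (L.powerset → ℝ) → Finset α → ℝ := fun u T =>
    if h : T ⊆ L then u ⟨T, mem_powerset.2 h⟩ else 0
  let A : (L.powerset → ℝ) →ₗ[ℝ] (L.powerset → ℝ) :=
    { toFun := fun u T => Op σ D l κ (ext u) T
      map_add' := fun u v => by
        have : ∀ T, ext (u + v) T = ext u T + ext v T := fun T => by
          simp only [ext]; split_ifs <;> simp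
        funext T
        simp only [Op, this, Pi.add_apply, sum_sub_distrib, sum_add_distrib]
        ring
      map_smul' := fun c u => by
        have : ∀ T, ext (c • u) T = c * ext u T := fun T => by
          simp only [ext]; split_ifs <;> simp
        funext T
        simp only [Op, this, Pi.smul_apply, smul_eq_mul, RingHom.id_apply, ← mul_sub, ← mul_sum]
        ring }
  have inj : Function.Injective A := by
    rw [injective_iff_map_eq_zero]
    intro u hu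
    have k : ∀ u, A u = 0 → ∀ T : L.powerset, 0 ≤ u T := by
      intro u hu T
      have := Op_max h1 hl hκ (u := ext u)
        (fun T hT => (congrFun hu ⟨T, mem_powerset.2 hT⟩).ge) T (mem_powerset.1 T.2)
      simpa only [ext, dif_pos (mem_powerset.1 T.2)] using this
    funext T
    have := k (-u) (by rw [map_neg, hu, neg_zero]) T
    exact le_antisymm (by simpa using this) (k u hu T)
  obtain ⟨u, hu⟩ := LinearMap.injective_iff_surjective.1 inj (fun T => f T)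
  exact ⟨ext u, fun T hT => congrFun hu ⟨T, mem_powerset.2 hT⟩⟩

omit [DecidableEq α] in
theorem Ex_dir {τ : Finset α → Finset α} (h1 : ∀ T, T ⊆ L → τ T ⊆ L)
    (h2 : ∀ T, T ⊆ L → τ (τ T) = T) (g u : Finset α → ℝ) :
    Ex L (fun T => g T * (u T - u (τ T))) =
      Ex L (fun T => (g T - g (τ T)) * (u T - u (τ T))) / 2 := by
  have e := Ex_invol τ h1 h2 (fun T => g T * (u T - u (τ T)))
  have e2 : Ex L (fun T => (g T - g (τ T)) * (u T - u (τ T))) =
      Ex L (fun T => g T * (u T - u (τ T))) + Ex L (fun T => g (τ T) * (u (τ T) - u (τ (τ T)))) := by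
    rw [← Ex_add]
    exact Ex_congr fun T hT => by rw [h2 T hT]; ring
  linarith

omit [DecidableEq α] in
include h1 h2 in
theorem Op_sym (g u : Finset α → ℝ) : Ex L (fun T => g T * Op σ D l κ u T) =
    l * Ex L (fun T => g T * u T) +
      κ / 2 * ∑ i ∈ D, Ex L (fun T => (g T - g (σ i T)) * (u T - u (σ i T))) := by
  have : ∀ T, g T * Op σ D l κ u T =
      l * (g T * u T) + κ * ∑ i ∈ D, g T * (u T - u (σ i T)) := fun T => by
    rw [Op, ← mul_sum]; ring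
  simp_rw [this]
  rw [Ex_add, Ex_mul_left, Ex_mul_left, Ex_sum,
    sum_congr rfl fun i hi => Ex_dir (h1 i hi) (h2 i hi) g u, ← sum_div]
  ring

omit [DecidableEq α] in
include h1 h2 in
theorem Op_var (hl : 0 ≤ l) (hκ : 0 ≤ κ) {u f : Finset α → ℝ}
    (h : ∀ T, T ⊆ L → Op σ D l κ u T = f T) (g : Finset α → ℝ) :
    2 * Ex L (fun T => f T * g T) - l * Ex L (fun T => g T ^ 2) -
      κ / 2 * ∑ i ∈ D, Ex L (fun T => (g T - g (σ i T)) ^ 2) ≤
    2 * Ex L (fun T => f T * u T) - l * Ex L (fun T => u T ^ 2) -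
      κ / 2 * ∑ i ∈ D, Ex L (fun T => (u T - u (σ i T)) ^ 2) := by
  have e : ∀ g : Finset α → ℝ, Ex L (fun T => f T * g T) = l * Ex L (fun T => g T * u T) +
      κ / 2 * ∑ i ∈ D, Ex L (fun T => (g T - g (σ i T)) * (u T - u (σ i T))) := fun g => by
    rw [← Op_sym h1 h2]
    exact Ex_congr fun T hT => by rw [h T hT, mul_comm]
  have k : ∀ a b : Finset α → ℝ, 2 * Ex L (fun T => a T * b T) - Ex L (fun T => a T ^ 2) ≤
      2 * Ex L (fun T => b T * b T) - Ex L (fun T => b T ^ 2) := fun a b => by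
    rw [← Ex_mul_left, ← Ex_mul_left, ← Ex_sub, ← Ex_sub]
    exact Ex_mono fun T _ => by nlinarith [sq_nonneg (a T - b T)]
  have k1 := mul_le_mul_of_nonneg_left (k g u) hl
  have k2 := mul_le_mul_of_nonneg_left (sum_le_sum fun i (_ : i ∈ D) =>
    k (fun T => g T - g (σ i T)) (fun T => u T - u (σ i T))) (show 0 ≤ κ / 2 by linarith)
  simp only [sum_sub_distrib, ← mul_sum] at k2
  rw [e g, e u]
  linarith

omit [DecidableEq α] in
include h1 h2 in
theorem Op_norm (hl : 0 < l) (hκ : 0 ≤ κ) {u f : Finset α → ℝ}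
    (h : ∀ T, T ⊆ L → Op σ D l κ u T = f T) :
    l ^ 2 * Ex L (fun T => u T ^ 2) ≤ Ex L (fun T => f T ^ 2) := by
  have e := Op_sym h1 h2 (l := l) (κ := κ) u u
  rw [Ex_congr (G := fun T => u T * f T) fun T hT => by rw [h T hT]] at e
  have e1 : 0 ≤ κ / 2 * ∑ i ∈ D, Ex L (fun T => (u T - u (σ i T)) * (u T - u (σ i T))) :=
    mul_nonneg (by linarith) (sum_nonneg fun i _ => Ex_nonneg fun T _ => mul_self_nonneg _)
  have e2 : 2 * l * Ex L (fun T => u T * f T) ≤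
      l ^ 2 * Ex L (fun T => u T * u T) + Ex L (fun T => f T ^ 2) := by
    rw [← Ex_mul_left, ← Ex_mul_left, ← Ex_add]
    exact Ex_mono fun T _ => by nlinarith [sq_nonneg (l * u T - f T)]
  simp only [sq] at *
  nlinarith

include h1 in
theorem Op_mono (hl : 0 < l) (hκ : 0 ≤ κ) (hm : ∀ i ∈ D, ∀ T U, T ⊆ U → σ i T ⊆ σ i U)
    {u f : Finset α → ℝ} (h : ∀ T, T ⊆ L → Op σ D l κ u T = f T)
    (hf : ∀ T U, T ⊆ U → U ⊆ L → f T ≤ f U) : ∀ T U, T ⊆ U → U ⊆ L → u T ≤ u U := by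
  obtain ⟨p, e1, e2⟩ := exists_min_image ((L.powerset ×ˢ L.powerset).filter fun p => p.1 ⊆ p.2)
    (fun p => u p.2 - u p.1) ⟨(∅, ∅), by simp⟩
  simp only [mem_filter, mem_product, mem_powerset] at e1 e2
  have e3 := hf _ _ e1.2 e1.1.2
  rw [← h _ e1.1.1, ← h _ e1.1.2] at e3
  have e4 : ∑ i ∈ D, (u p.2 - u (σ i p.2)) ≤ ∑ i ∈ D, (u p.1 - u (σ i p.1)) :=
    sum_le_sum fun i hi => by
      have := e2 (σ i p.1, σ i p.2) ⟨⟨h1 i hi _ e1.1.1, h1 i hi _ e1.1.2⟩, hm i hi _ _ e1.2⟩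
      dsimp only at this
      linarith
  have e5 : 0 ≤ u p.2 - u p.1 := by
    by_contra h5
    unfold Op at e3
    nlinarith [mul_le_mul_of_nonneg_left e4 hκ]
  intro T U g1 g2
  have := e2 (T, U) ⟨⟨g1.trans g2, g2⟩, g1⟩
  dsimp only at this
  linarith
end op

theorem sw_mix {x y : α} {H : Finset α} (hx : x ∉ H) (hy : y ∉ H) (A T : Finset α) :
    mix H A (sw x y T) = sw x y (mix H A T) := by
  ext v
  rw [mem_sw, mem_mix, mem_mix, mem_sw, Equiv.swap_apply_def]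
  split_ifs with h1 h2
  · simp [h1, hx, hy]
  · simp [h2, hx, hy]
  · rfl

theorem sw_comm {x y x' y' : α} {H : Finset α} (hx : x ∉ H) (hy : y ∉ H) (hx' : x' ∈ H)
    (hy' : y' ∈ H) (T : Finset α) : sw x y (sw x' y' T) = sw x' y' (sw x y T) := by
  have e1 : x ≠ x' := fun h => hx (h ▸ hx')
  have e2 : x ≠ y' := fun h => hx (h ▸ hy')
  have e3 : y ≠ x' := fun h => hy (h ▸ hx')
  have e4 : y ≠ y' := fun h => hy (h ▸ hy')
  ext v
  simp only [mem_sw, Equiv.swap_apply_def]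
  split_ifs <;> simp_all

theorem sum_mix {H L : Finset α} (hH : H ⊆ L) (φ : Finset α → ℝ) :
    ∑ A ∈ H.powerset, Ex L (fun T => φ (mix H A T)) = 2 ^ H.card * Ex L φ := by
  rw [← Ex_mix L H φ, Ex_restrict (D := H) _ hH]
  · unfold Ex
    field_simp
  · intro T U h
    refine Ex_congr fun Z _ => congrArg φ ?_
    ext v
    simp only [mem_mix]
    exact or_congr_left (and_congr_right (h v))

theorem dimer_bound [DecidableEq ι] {L H : Finset α} {D : Finset ι} {p q : ι → α} {κ : ℝ}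
    (hκ : 0 ≤ κ) {f g : Finset α → ℝ} (hD : ∀ i ∈ D, p i ∈ L ∧ q i ∈ L)
    (hg : ∀ T, T ⊆ L → Op (fun i => sw (p i) (q i)) D 1 κ g T = f T)
    (hm : ∀ T U, T ⊆ U → U ⊆ L → g T ≤ g U) {i : ι} (hi : i ∈ D) (hH : H ⊆ L) (hp : p i ∈ H)
    (hq : q i ∈ H) (hj : ∀ j ∈ D, j ≠ i → p j ∉ H ∧ q j ∉ H) (𝒯 : Finset (Finset α))
    (h𝒯 : 𝒯 ⊆ H.powerset) (ht : ∀ T, T ⊆ L → f (mix H H T) - f (mix H ∅ T) ≤
      ∑ A ∈ 𝒯, (f (mix H A T) - f (sw (p i) (q i) (mix H A T)))) {z : α} (hz : z ∈ H) :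
    Ex L (fun T => (g T - g (T ∆ {z})) ^ 2) ≤
      (2 + 8 * κ ^ 2) * 4 ^ H.card * Ex L (fun T => (g T - g (sw (p i) (q i) T)) ^ 2) := by
  set σ : ι → Finset α → Finset α := fun i => sw (p i) (q i) with hσ
  have s1 : ∀ j ∈ D.erase i, ∀ T, T ⊆ L → σ j T ⊆ L := fun j hj T hT =>
    sw_subset (hD j (mem_of_mem_erase hj)).1 (hD j (mem_of_mem_erase hj)).2 hT
  have s2 : ∀ j ∈ D.erase i, ∀ T, T ⊆ L → σ j (σ j T) = T := fun j _ T _ => sw_sw _ _ _
  have s3 : ∀ j ∈ D.erase i, ∀ A T, mix H A (σ j T) = σ j (mix H A T) := fun j h A T =>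
    sw_mix (hj j (mem_of_mem_erase h) (ne_of_mem_erase h)).1
      (hj j (mem_of_mem_erase h) (ne_of_mem_erase h)).2 A T
  have s4 : ∀ j ∈ D.erase i, ∀ T, σ j (σ i T) = σ i (σ j T) := fun j h T =>
    sw_comm (hj j (mem_of_mem_erase h) (ne_of_mem_erase h)).1
      (hj j (mem_of_mem_erase h) (ne_of_mem_erase h)).2 hp hq T
  have s5 : ∀ T, T ⊆ L → f T = g T + κ * (g T - g (σ i T)) +
      κ * ∑ j ∈ D.erase i, (g T - g (σ j T)) := fun T hT => by
    rw [← hg T hT, Op, ← add_sum_erase D _ hi]; ring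
  have s6 : ∀ A T, A ⊆ H → T ⊆ L → mix H A T ⊆ L := fun A T hA hT => mix_subset (hA.trans hH) hT
  let d : Finset α → ℝ := fun T => g (mix H H T) - g (mix H ∅ T)
  let w : Finset α → Finset α → ℝ := fun A T => g (mix H A T) - g (σ i (mix H A T))
  have k1 : ∀ T, T ⊆ L → Op σ (D.erase i) 1 κ d T = f (mix H H T) - f (mix H ∅ T) := by
    intro T hT
    have e1 : σ i (mix H H T) = mix H H T := sw_self (by simp [mem_mix, hp, hq])
    have e2 : σ i (mix H ∅ T) = mix H ∅ T := sw_self (by simp [mem_mix, hp, hq])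
    rw [s5 _ (s6 H T Subset.rfl hT), s5 _ (s6 ∅ T (empty_subset _) hT), e1, e2, Op,
      sum_congr rfl (g := fun j => (g (mix H H T) - g (σ j (mix H H T))) -
        (g (mix H ∅ T) - g (σ j (mix H ∅ T)))) fun j hj => by simp only [d, s3 j hj]; ring,
      sum_sub_distrib]
    simp only [d]
    ring
  have k2 : ∀ A, A ⊆ H → ∀ T, T ⊆ L → Op σ (D.erase i) (1 + 2 * κ) κ (w A) T =
      f (mix H A T) - f (σ i (mix H A T)) := by
    intro A hA T hT
    have e1 : σ i (σ i (mix H A T)) = mix H A T := sw_sw _ _ _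
    rw [s5 _ (s6 A T hA hT), s5 _ (sw_subset (hH hp) (hH hq) (s6 A T hA hT)), e1, Op,
      sum_congr rfl (g := fun j => (g (mix H A T) - g (σ j (mix H A T))) -
        (g (σ i (mix H A T)) - g (σ j (σ i (mix H A T)))))
        fun j hj => by simp only [w, s3 j hj, s4 j hj]; ring,
      sum_sub_distrib]
    simp only [w]
    ring
  let W : Finset α → ℝ := fun T => ∑ A ∈ 𝒯, w A T
  obtain ⟨v, hv⟩ := Op_exists s1 one_pos hκ (fun T => 2 * κ * W T)
  have k3 := Op_max s1 one_pos hκ (u := fun T => W T + v T - d T) fun T hT => by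
    have e1 := ht T hT
    rw [← k1 T hT, ← sum_congr rfl fun A hA => k2 A (mem_powerset.1 (h𝒯 hA)) T hT] at e1
    have e2 := hv T hT
    have e3 : ∑ A ∈ 𝒯, Op σ (D.erase i) (1 + 2 * κ) κ (w A) T =
        (1 + 2 * κ) * W T + κ * ∑ j ∈ D.erase i, (W T - W (σ j T)) := by
      simp only [Op, W, sum_add_distrib, ← mul_sum, ← sum_sub_distrib]
      rw [sum_comm]
    rw [e3] at e1
    simp only [Op, sum_sub_distrib, sum_add_distrib] at e1 e2 ⊢
    linarith
  have k4 := Op_norm s1 s2 one_pos hκ hv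
  have k5 : Ex L (fun T => W T ^ 2) ≤ 4 ^ H.card * Ex L (fun T => (g T - g (σ i T)) ^ 2) := by
    have e1 : (𝒯.card : ℝ) ≤ 2 ^ H.card := by
      exact_mod_cast (card_le_card h𝒯).trans (card_powerset H).le
    calc _ ≤ Ex L (fun T => 2 ^ H.card * ∑ A ∈ H.powerset, w A T ^ 2) := by
          refine Ex_mono fun T _ => sq_sum_le_card_mul_sum_sq.trans ?_
          gcongr
      _ = _ := by
          rw [Ex_mul_left, Ex_sum, sum_mix hH (fun T => (g T - g (σ i T)) ^ 2), ← mul_assoc,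
            ← mul_pow]
          norm_num
  have k6 : Ex L (fun T => (g T - g (T ∆ {z})) ^ 2) ≤
      Ex L (fun T => 2 * W T ^ 2 + 2 * v T ^ 2) := by
    refine Ex_mono fun T hT => ?_
    have e0 := k3 T hT
    have a1 : ∀ U : Finset α, (∀ v, v ∉ H → (v ∈ U ↔ v ∈ T)) →
        g (mix H ∅ T) ≤ g U ∧ g U ≤ g (mix H H T) := by
      intro U hU
      have b1 : U ⊆ mix H H T := fun v hv => by
        rw [mem_mix]
        by_cases e : v ∈ H
        · exact Or.inl ⟨e, e⟩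
        · exact Or.inr ⟨e, (hU v e).1 hv⟩
      refine ⟨hm _ _ (fun v hv => ?_) (b1.trans (s6 H T Subset.rfl hT)),
        hm _ _ b1 (s6 H T Subset.rfl hT)⟩
      rcases mem_mix.1 hv with h | h
      · simp at h
      · exact (hU v h.1).2 h.2
    have e1 := a1 T fun _ _ => Iff.rfl
    have e2 := a1 (T ∆ {z}) fun v hv => by
      have : v ≠ z := fun h => hv (h ▸ hz)
      simp [mem_symmDiff, this]
    have e3 : (g T - g (T ∆ {z})) ^ 2 ≤ (W T + v T) ^ 2 := by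
      simp only [d] at e0
      exact sq_le_sq' (by linarith) (by linarith)
    nlinarith [sq_nonneg (W T - v T)]
  rw [Ex_add, Ex_mul_left, Ex_mul_left] at k6
  simp only [mul_pow, Ex_mul_left] at k4
  have k7 : 0 ≤ 2 + 8 * κ ^ 2 := by positivity
  calc _ ≤ (2 + 8 * κ ^ 2) * Ex L (fun T => W T ^ 2) := by linarith
    _ ≤ _ := by rw [mul_assoc]; gcongr

theorem sum_biUnion_le' [DecidableEq ι] (D : Finset ι) (H : ι → Finset α) {e : α → ℝ}
    (he : ∀ z, 0 ≤ e z) : ∑ z ∈ D.biUnion H, e z ≤ ∑ i ∈ D, ∑ z ∈ H i, e z := by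
  induction D using Finset.induction_on with
  | empty => simp
  | insert a D ha ih =>
    rw [biUnion_insert, sum_insert ha]
    have := sum_union_inter (s₁ := H a) (s₂ := D.biUnion H) (f := e)
    have : 0 ≤ ∑ z ∈ H a ∩ D.biUnion H, e z := sum_nonneg fun z _ => he z
    linarith

/-- comparison of the exchange dynamics on dimers with the resampling dynamics -/
theorem compare_dimers [DecidableEq ι] (n : ℕ) {κ : ℝ} (hκ : 0 < κ) : ∃ c : ℝ, 0 < c ∧
    ∀ (L B : Finset α) (D : Finset ι) (p q : ι → α) (H : ι → Finset α) (f : Finset α → ℝ),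
    B ⊆ L → (∀ T U, T ⊆ U → U ⊆ L → f T ≤ f U) → (∀ z ∈ B, ∃ i ∈ D, z ∈ H i) →
    (∀ i ∈ D, H i ⊆ L ∧ p i ∈ H i ∧ q i ∈ H i ∧ (H i).card ≤ n ∧
      (∀ j ∈ D, j ≠ i → p j ∉ H i ∧ q j ∉ H i) ∧ ∃ 𝒯 ⊆ (H i).powerset, ∀ T, T ⊆ L →
        f (mix (H i) (H i) T) - f (mix (H i) ∅ T) ≤
          ∑ A ∈ 𝒯, (f (mix (H i) A T) - f (sw (p i) (q i) (mix (H i) A T)))) →
    ∀ g : Finset α → ℝ, 2 * Ex L (fun T => f T * g T) - Ex L (fun T => g T ^ 2) -
      κ / 2 * ∑ i ∈ D, Ex L (fun T => (g T - g (sw (p i) (q i) T)) ^ 2) ≤ Res L B f / c := by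
  set K : ℝ := (n + 1) * ((2 + 8 * κ ^ 2) * 4 ^ n) with hK
  have K0 : 0 < K := by positivity
  refine ⟨min 1 (κ / 2 / K), by positivity, fun L B D p q H f hB hf hcov hH g => ?_⟩
  set c := min 1 (κ / 2 / K) with hc
  have c0 : 0 < c := by positivity
  have hD : ∀ i ∈ D, p i ∈ L ∧ q i ∈ L := fun i hi =>
    ⟨(hH i hi).1 (hH i hi).2.1, (hH i hi).1 (hH i hi).2.2.1⟩
  have s1 : ∀ j ∈ D, ∀ T, T ⊆ L → sw (p j) (q j) T ⊆ L := fun j hj T hT =>
    sw_subset (hD j hj).1 (hD j hj).2 hT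
  obtain ⟨u, hu⟩ := Op_exists (σ := fun i => sw (p i) (q i)) s1 one_pos hκ.le f
  have hm := Op_mono s1 one_pos hκ.le (fun i _ T U h => sw_mono _ _ h) hu hf
  have k1 := Op_var s1 (fun j _ T _ => sw_sw _ _ _) zero_le_one hκ.le hu g
  have k2 := var_le_Res hB f u c0
  have k3 : ∑ z ∈ B, Ex L (fun T => (u T - u (T ∆ {z})) ^ 2) ≤
      K * ∑ i ∈ D, Ex L (fun T => (u T - u (sw (p i) (q i) T)) ^ 2) := by
    have e0 : ∀ z, 0 ≤ Ex L (fun T => (u T - u (T ∆ {z})) ^ 2) := fun z =>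
      Ex_nonneg fun _ _ => sq_nonneg _
    calc _ ≤ ∑ z ∈ D.biUnion H, Ex L (fun T => (u T - u (T ∆ {z})) ^ 2) :=
          sum_le_sum_of_subset_of_nonneg (fun z hz => mem_biUnion.2 (hcov z hz)) fun z _ _ => e0 z
      _ ≤ ∑ i ∈ D, ∑ z ∈ H i, Ex L (fun T => (u T - u (T ∆ {z})) ^ 2) :=
          sum_biUnion_le' D H e0
      _ ≤ _ := by
        rw [mul_sum]
        refine sum_le_sum fun i hi => ?_
        obtain ⟨a1, a2, a3, a4, a5, 𝒯, a6, a7⟩ := hH i hi
        refine (sum_le_card_nsmul _ _ _ fun z hz =>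
          dimer_bound hκ.le hD hu hm hi a1 a2 a3 a5 𝒯 a6 a7 hz).trans ?_
        rw [nsmul_eq_mul, hK, ← mul_assoc]
        refine mul_le_mul_of_nonneg_right ?_ (Ex_nonneg fun _ _ => sq_nonneg _)
        have : ((H i).card : ℝ) ≤ n + 1 := by exact_mod_cast a4.trans (Nat.le_succ n)
        gcongr
        norm_num
  have k4 : c * K ≤ κ / 2 := by
    rw [← le_div_iff₀ K0]; exact min_le_right _ _
  have k5 : c ≤ 1 := min_le_left _ _
  have k6 : 0 ≤ Ex L (fun T => u T ^ 2) := Ex_nonneg fun _ _ => sq_nonneg _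
  have k7 : 0 ≤ ∑ i ∈ D, Ex L (fun T => (u T - u (sw (p i) (q i) T)) ^ 2) :=
    sum_nonneg fun _ _ => Ex_nonneg fun _ _ => sq_nonneg _
  nlinarith [mul_le_mul_of_nonneg_left k3 c0.le, mul_le_mul_of_nonneg_right k4 k7,
    mul_le_mul_of_nonneg_right k5 k6]

end Pool.Agent.Lib.MP_e26b79_pr
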