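import Mathlib

namespace Pool.Agent.Lib.MP_e26b79_pr
open Finset

variable {α : Type*} [DecidableEq α]

/-- real indicator of a proposition -/
noncomputable def ind (p : Prop) : ℝ := by classical exact if p then 1 else 0

theorem ind_pos {p : Prop} (h : p) : ind p = 1 := by simp [ind, h]
theorem ind_neg {p : Prop} (h : ¬ p) : ind p = 0 := by simp [ind, h]
theorem ind_nonneg (p : Prop) : 0 ≤ ind p := by
  by_cases h : p
  · rw [ind_pos h]; norm_num
  · rw [ind_neg h]
theorem ind_le_one (p : Prop) : ind p ≤ 1 := by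
  by_cases h : p
  · rw [ind_pos h]
  · rw [ind_neg h]; norm_num
theorem ind_mono {p q : Prop} (h : p → q) : ind p ≤ ind q := by
  by_cases hp : p
  · rw [ind_pos hp, ind_pos (h hp)]
  · rw [ind_neg hp]; exact ind_nonneg _
theorem ind_congr {p q : Prop} (h : p ↔ q) : ind p = ind q := by rw [propext h]
theorem ind_and (p q : Prop) : ind (p ∧ q) = ind p * ind q := by
  by_cases hp : p <;> by_cases hq : q <;> simp [ind, hp, hq]
theorem ind_not (p : Prop) : ind (¬ p) = 1 - ind p := by
  by_cases hp : p <;> simp [ind, hp]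
theorem ind_mul_self (p : Prop) : ind p * ind p = ind p := by
  by_cases hp : p <;> simp [ind, hp]
theorem ind_or_le (p q : Prop) : ind (p ∨ q) ≤ ind p + ind q := by
  by_cases hp : p <;> by_cases hq : q <;> simp [ind, hp, hq]
theorem ind_exists_le {ι : Type*} (s : Finset ι) (p : ι → Prop) :
    ind (∃ i ∈ s, p i) ≤ ∑ i ∈ s, ind (p i) := by
  by_cases h : ∃ i ∈ s, p i
  · rw [ind_pos h]
    obtain ⟨i, hi, hp⟩ := h
    calc (1:ℝ) = ind (p i) := (ind_pos hp).symm
      _ ≤ _ := single_le_sum (f := fun i => ind (p i)) (fun i _ => ind_nonneg _) hi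
  · rw [ind_neg h]; exact sum_nonneg fun i _ => ind_nonneg _

/-- uniform average over the subsets of a finite set -/
noncomputable def Ex (L : Finset α) (F : Finset α → ℝ) : ℝ :=
  (∑ T ∈ L.powerset, F T) / 2 ^ L.card

section basic
variable {L : Finset α} {F G : Finset α → ℝ}
omit [DecidableEq α]

theorem Ex_const (L : Finset α) (c : ℝ) : Ex L (fun _ => c) = c := by
  simp [Ex, card_powerset]
theorem Ex_congr (h : ∀ T, T ⊆ L → F T = G T) : Ex L F = Ex L G := by
  unfold Ex
  rw [sum_congr rfl fun T hT => h T (mem_powerset.1 hT)]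
theorem Ex_mono (h : ∀ T, T ⊆ L → F T ≤ G T) : Ex L F ≤ Ex L G := by
  unfold Ex
  gcongr with T hT
  exact h T (mem_powerset.1 hT)
theorem Ex_nonneg (h : ∀ T, T ⊆ L → 0 ≤ F T) : 0 ≤ Ex L F := by
  have := Ex_mono (L := L) (F := fun _ => 0) (G := F) h
  rwa [Ex_const] at this
theorem Ex_le_const {c : ℝ} (h : ∀ T, T ⊆ L → F T ≤ c) : Ex L F ≤ c := by
  have := Ex_mono (L := L) (G := fun _ => c) (F := F) h
  rwa [Ex_const] at this
theorem Ex_add (L : Finset α) (F G : Finset α → ℝ) :
    Ex L (fun T => F T + G T) = Ex L F + Ex L G := by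
  simp [Ex, sum_add_distrib, add_div]
theorem Ex_sub (L : Finset α) (F G : Finset α → ℝ) :
    Ex L (fun T => F T - G T) = Ex L F - Ex L G := by
  simp [Ex, sum_sub_distrib, sub_div]
theorem Ex_mul_left (L : Finset α) (c : ℝ) (F : Finset α → ℝ) :
    Ex L (fun T => c * F T) = c * Ex L F := by
  simp [Ex, ← mul_sum, mul_div_assoc]
theorem Ex_mul_right (L : Finset α) (c : ℝ) (F : Finset α → ℝ) :
    Ex L (fun T => F T * c) = Ex L F * c := by
  simp_rw [mul_comm _ c, Ex_mul_left]
theorem Ex_div (L : Finset α) (c : ℝ) (F : Finset α → ℝ) :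
    Ex L (fun T => F T / c) = Ex L F / c := by
  simp_rw [div_eq_mul_inv, Ex_mul_right]
theorem Ex_neg (L : Finset α) (F : Finset α → ℝ) :
    Ex L (fun T => - F T) = - Ex L F := by
  simp [Ex, neg_div]
theorem Ex_sum {ι : Type*} (L : Finset α) (s : Finset ι) (F : ι → Finset α → ℝ) :
    Ex L (fun T => ∑ i ∈ s, F i T) = ∑ i ∈ s, Ex L (F i) := by
  unfold Ex
  rw [sum_comm, sum_div]
theorem Ex_comm (L M : Finset α) (F : Finset α → Finset α → ℝ) :
    Ex L (fun T => Ex M (F T)) = Ex M (fun U => Ex L (fun T => F T U)) := by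
  unfold Ex
  simp_rw [← sum_div]
  rw [sum_comm, div_div, div_div, mul_comm]
theorem Ex_empty (F : Finset α → ℝ) : Ex ∅ F = F ∅ := by simp [Ex]

theorem Ex_invol (σ : Finset α → Finset α) (h1 : ∀ T, T ⊆ L → σ T ⊆ L)
    (h2 : ∀ T, T ⊆ L → σ (σ T) = T) (F : Finset α → ℝ) :
    Ex L (fun T => F (σ T)) = Ex L F := by
  unfold Ex
  congr 1
  exact sum_nbij' σ σ (fun T hT => mem_powerset.2 (h1 T (mem_powerset.1 hT)))
    (fun T hT => mem_powerset.2 (h1 T (mem_powerset.1 hT)))
    (fun T hT => h2 T (mem_powerset.1 hT)) (fun T hT => h2 T (mem_powerset.1 hT))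
    (fun _ _ => rfl)

theorem Ex_invol2 (σ : Finset α × Finset α → Finset α × Finset α)
    (h1 : ∀ T U, T ⊆ L → U ⊆ L → (σ (T, U)).1 ⊆ L ∧ (σ (T, U)).2 ⊆ L)
    (h2 : ∀ T U, T ⊆ L → U ⊆ L → σ (σ (T, U)) = (T, U)) (F : Finset α → Finset α → ℝ) :
    Ex L (fun T => Ex L (fun U => F (σ (T, U)).1 (σ (T, U)).2)) =
      Ex L (fun T => Ex L (F T)) := by
  unfold Ex
  simp_rw [← sum_div]
  congr 2
  rw [← sum_product', ← sum_product']
  refine sum_nbij' σ σ ?_ ?_ ?_ ?_ (fun _ _ => rfl)
  all_goals
    rintro ⟨T, U⟩ h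
    simp only [mem_product, mem_powerset] at h ⊢
    first
      | exact h1 T U h.1 h.2
      | exact h2 T U h.1 h.2

/-- Cauchy-Schwarz -/
theorem Ex_cs (L : Finset α) (F G : Finset α → ℝ) :
    (Ex L (fun T => F T * G T)) ^ 2 ≤ Ex L (fun T => F T ^ 2) * Ex L (fun T => G T ^ 2) := by
  unfold Ex
  rw [div_pow, div_mul_div_comm, ← sq]
  gcongr
  exact sum_mul_sq_le_sq_mul_sq _ _ _

end basic

theorem Ex_insert {a : α} {L : Finset α} (ha : a ∉ L) (F : Finset α → ℝ) :
    Ex (insert a L) F = Ex L (fun T => (F T + F (insert a T)) / 2) := by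
  unfold Ex
  rw [sum_powerset_insert ha, card_insert_of_notMem ha, ← sum_div, sum_add_distrib, pow_succ,
    div_div, mul_comm]

omit [DecidableEq α] in
theorem Ex_map {β : Type*} (L : Finset α) (e : α ↪ β) (F : Finset β → ℝ) :
    Ex (L.map e) F = Ex L (fun T => F (T.map e)) := by
  classical
  unfold Ex
  rw [card_map]
  congr 1
  symm
  refine sum_bij (fun T _ => T.map e) ?_ ?_ ?_ (fun _ _ => rfl)
  · intro T hT
    exact mem_powerset.2 (map_subset_map.2 (mem_powerset.1 hT))
  · intro T _ U _ h
    exact map_injective e h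
  · intro U hU
    obtain ⟨T, hT, rfl⟩ := subset_map_iff.1 (mem_powerset.1 hU)
    exact ⟨T, mem_powerset.2 hT, rfl⟩

/-- the configuration equal to `T` on `I` and to `U` off `I` -/
def mix (I T U : Finset α) : Finset α := (T ∩ I) ∪ (U \ I)

theorem mem_mix {I T U : Finset α} {v : α} :
    v ∈ mix I T U ↔ (v ∈ I ∧ v ∈ T) ∨ (v ∉ I ∧ v ∈ U) := by
  simp only [mix, mem_union, mem_inter, mem_sdiff]; tauto
theorem mem_mix_of_mem {I T U : Finset α} {v : α} (h : v ∈ I) : v ∈ mix I T U ↔ v ∈ T := by
  rw [mem_mix]; tauto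
theorem mem_mix_of_notMem {I T U : Finset α} {v : α} (h : v ∉ I) : v ∈ mix I T U ↔ v ∈ U := by
  rw [mem_mix]; tauto
theorem mix_subset {I T U L : Finset α} (hT : T ⊆ L) (hU : U ⊆ L) : mix I T U ⊆ L := by
  intro v hv
  rcases mem_mix.1 hv with h | h
  · exact hT h.2
  · exact hU h.2
theorem mix_self (I T : Finset α) : mix I T T = T := by
  ext v; rw [mem_mix]; tauto

/-- stopping sets: resampling outside a stopping set preserves the law -/
theorem Ex_stop {L : Finset α} (J : Finset α → Finset α)
    (hJ : ∀ T U, T ⊆ L → U ⊆ L → J (mix (J T) T U) = J T) (F : Finset α → Finset α → ℝ) :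
    Ex L (fun T => Ex L (fun U => F (mix (J T) T U) (mix (J T) U T))) =
      Ex L (fun T => Ex L (F T)) := by
  refine Ex_invol2 (fun p => (mix (J p.1) p.1 p.2, mix (J p.1) p.2 p.1)) ?_ ?_ F
  · intro T U hT hU
    exact ⟨mix_subset hT hU, mix_subset hU hT⟩
  · intro T U hT hU
    simp only [hJ T U hT hU, Prod.mk.injEq]
    constructor <;> ext v <;> simp only [mem_mix] <;> tauto

theorem Ex_stop1 {L : Finset α} (J : Finset α → Finset α)
    (hJ : ∀ T U, T ⊆ L → U ⊆ L → J (mix (J T) T U) = J T) (F : Finset α → ℝ) :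
    Ex L (fun T => Ex L (fun U => F (mix (J T) T U))) = Ex L F := by
  rw [Ex_stop J hJ (fun T _ => F T)]
  exact Ex_congr fun T _ => Ex_const _ _

theorem Ex_mix (L I : Finset α) (F : Finset α → ℝ) :
    Ex L (fun T => Ex L (fun U => F (mix I T U))) = Ex L F :=
  Ex_stop1 (fun _ => I) (fun _ _ _ _ => rfl) F

/-- `F` depends only on the trace of the configuration on `D` -/
def Dep {β : Type*} (F : Finset α → β) (D : Set α) : Prop :=
  ∀ T U : Finset α, (∀ v ∈ D, v ∈ T ↔ v ∈ U) → F T = F U

omit [DecidableEq α] in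
theorem Dep.mono {β : Type*} {F : Finset α → β} {D E : Set α} (h : Dep F D) (hDE : D ⊆ E) :
    Dep F E := fun T U hTU => h T U fun v hv => hTU v (hDE hv)

omit [DecidableEq α] in
theorem Dep.mul {F G : Finset α → ℝ} {D : Set α} (h : Dep F D) (h' : Dep G D) :
    Dep (fun T => F T * G T) D := fun T U hTU => by
  show F T * G T = F U * G U
  rw [h T U hTU, h' T U hTU]

theorem Ex_indep {L : Finset α} {F G : Finset α → ℝ} {D E : Set α} (hF : Dep F D) (hG : Dep G E)
    (hDE : Disjoint D E) : Ex L (fun T => F T * G T) = Ex L F * Ex L G := by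
  classical
  rw [← Ex_mix L (L.filter (· ∈ D)), ← Ex_mul_right]
  refine Ex_congr fun T hT => ?_
  rw [← Ex_mul_left]
  refine Ex_congr fun U hU => ?_
  congr 1
  · refine hF _ _ fun v hv => ?_
    rw [mem_mix, mem_filter]
    have := @hT v
    have := @hU v
    tauto
  · refine hG _ _ fun v hv => ?_
    have : v ∉ D := fun h => Set.disjoint_left.1 hDE h hv
    rw [mem_mix, mem_filter]
    tauto

theorem Ex_restrict {F : Finset α → ℝ} {D L : Finset α} (hF : Dep F (D : Set α)) (hL : D ⊆ L) :
    Ex L F = Ex D F := by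
  have key : ∀ E : Finset α, Disjoint E D → Ex (E ∪ D) F = Ex D F := by
    intro E
    induction E using Finset.induction_on with
    | empty => intro _; rw [empty_union]
    | insert a E ha ih =>
      intro h
      rw [disjoint_insert_left] at h
      rw [insert_union, Ex_insert (by simp [ha, h.1]), ← ih h.2]
      refine Ex_congr fun T _ => ?_
      rw [hF (insert a T) T, add_self_div_two]
      intro v hv
      have : v ≠ a := by rintro rfl; exact h.1 hv
      simp [this]
  rw [← key (L \ D) sdiff_disjoint, sdiff_union_of_subset hL]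

theorem Ex_compl (L : Finset α) (F : Finset α → ℝ) : Ex L (fun T => F (L \ T)) = Ex L F :=
  Ex_invol (fun T => L \ T) (fun _ _ => sdiff_subset)
    (fun _ hT => Finset.sdiff_sdiff_eq_self hT) F

/-- set the value of the site `x` -/
def put (x : α) (b : Bool) (T : Finset α) : Finset α := if b then insert x T else T.erase x

theorem mem_put {x v : α} {b : Bool} {T : Finset α} :
    v ∈ put x b T ↔ (v = x ∧ b = true) ∨ (v ≠ x ∧ v ∈ T) := by
  cases b <;> by_cases h : v = x <;> simp [put, h]

/-- monotone in the sites of `X`, in the direction given by `o` -/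
def OM (o : α → Bool) (X : Set α) (F : Finset α → ℝ) : Prop :=
  ∀ x ∈ X, ∀ T, F (put x (!o x) T) ≤ F (put x (o x) T)

theorem OM.mul {o : α → Bool} {X : Set α} {F G : Finset α → ℝ} (hF : OM o X F) (hG : OM o X G)
    (h1 : ∀ T, 0 ≤ F T) (h2 : ∀ T, 0 ≤ G T) : OM o X (fun T => F T * G T) :=
  fun x hx T => mul_le_mul (hF x hx T) (hG x hx T) (h2 _) (h1 _)

theorem OM.avg {o : α → Bool} {X : Set α} {F : Finset α → ℝ} (hF : OM o X F) (a : α) :
    OM o X (fun T => (F T + F (insert a T)) / 2) := by
  intro x hx T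
  have h1 := hF x hx T
  have h2 : F (insert a (put x (!o x) T)) ≤ F (insert a (put x (o x) T)) := by
    by_cases h : x = a
    · subst h
      apply le_of_eq
      congr 1
      ext v
      simp only [mem_insert, mem_put]
      tauto
    · have e : ∀ b, insert a (put x b T) = put x b (insert a T) := by
        intro b
        ext v
        simp only [mem_insert, mem_put]
        by_cases hv : v = x
        · subst hv; simp [h]
        · tauto
      rw [e, e]
      exact hF x hx _
  dsimp only
  linarith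

/-- Harris inequality with an orientation, conditionally on the sites outside `X` -/
theorem harris {o : α → Bool} {X : Set α} (L : Finset α) {F G : Finset α → ℝ} (hF : OM o X F)
    (hG : OM o X G) (hD : Dep G X) : Ex L F * Ex L G ≤ Ex L (fun T => F T * G T) := by
  induction L using Finset.induction_on generalizing F G with
  | empty => simp [Ex_empty]
  | insert a L ha ih =>
    rw [Ex_insert ha, Ex_insert ha, Ex_insert ha]
    have hD' : Dep (fun T => (G T + G (insert a T)) / 2) X := by
      intro T U h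
      dsimp only
      rw [hD T U h, hD (insert a T) (insert a U)]
      intro v hv
      simp [h v hv]
    refine (ih (hF.avg a) (hG.avg a) hD').trans (Ex_mono fun T hT => ?_)
    have haT : a ∉ T := fun h => ha (hT h)
    by_cases hX : a ∈ X
    · have h1 := hF a hX T
      have h2 := hG a hX T
      have e1 : put a true T = insert a T := rfl
      have e2 : put a false T = T := by simp [put, haT]
      cases ho : o a <;> simp only [ho, Bool.not_true, Bool.not_false, e1, e2] at h1 h2 <;>
        nlinarith [mul_nonneg (sub_nonneg.2 h1) (sub_nonneg.2 h2)]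
    · have : G (insert a T) = G T := by
        refine hD _ _ fun v hv => ?_
        have : v ≠ a := by rintro rfl; exact hX hv
        simp [this]
      rw [this]
      apply le_of_eq
      ring

theorem harris2 {o o' : α → Bool} {X : Set α} (L : Finset α) {F G : Finset α → Finset α → ℝ}
    (hF1 : ∀ U, OM o X (fun T => F T U)) (hF2 : ∀ T, OM o' X (F T))
    (hG1 : ∀ U, OM o X (fun T => G T U)) (hG2 : ∀ T, OM o' X (G T))
    (hD1 : ∀ U, Dep (fun T => G T U) X) (hD2 : ∀ T, Dep (G T) X) :
    Ex L (fun T => Ex L (F T)) * Ex L (fun T => Ex L (G T)) ≤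
      Ex L (fun T => Ex L (fun U => F T U * G T U)) := by
  refine (harris (o := o) (X := X) L ?_ ?_ ?_).trans
    (Ex_mono fun T _ => harris L (hF2 T) (hG2 T) (hD2 T))
  · exact fun x hx T => Ex_mono fun U _ => hF1 U x hx T
  · exact fun x hx T => Ex_mono fun U _ => hG1 U x hx T
  · exact fun T T' h => Ex_congr fun U _ => hD1 U T T' h

theorem mix_put_left {M T U : Finset α} {x : α} (hx : x ∈ M) (b : Bool) :
    mix M (put x b T) U = put x b (mix M T U) := by
  ext v
  simp only [mem_mix, mem_put]
  by_cases h : v = x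
  · subst h; simp [hx]
  · simp [h]
theorem mix_put_left' {M T U : Finset α} {x : α} (hx : x ∉ M) (b : Bool) :
    mix M (put x b T) U = mix M T U := by
  ext v
  simp only [mem_mix, mem_put]
  by_cases h : v = x
  · subst h; simp [hx]
  · simp [h]
theorem mix_put_right {M T U : Finset α} {x : α} (hx : x ∉ M) (b : Bool) :
    mix M T (put x b U) = put x b (mix M T U) := by
  ext v
  simp only [mem_mix, mem_put]
  by_cases h : v = x
  · subst h; simp [hx]
  · simp [h]
theorem mix_put_right' {M T U : Finset α} {x : α} (hx : x ∈ M) (b : Bool) :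
    mix M T (put x b U) = mix M T U := by
  ext v
  simp only [mem_mix, mem_put]
  by_cases h : v = x
  · subst h; simp [hx]
  · simp [h]

/-- sharing more randomness between an increasing and a decreasing function lowers the
correlation, also with a weight that does not look at the newly shared sites -/
theorem share_le (L I M : Finset α) (hIM : Disjoint I M) {f g : Finset α → ℝ}
    (hf : OM (fun _ => true) Set.univ f) (hg : OM (fun _ => false) Set.univ g)
    (W : Finset α → Finset α → ℝ) (hW0 : ∀ T U, 0 ≤ W T U)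
    (hW : ∀ T U A B, W (mix M A T) (mix M B U) = W T U) :
    Ex L (fun T => Ex L (fun U => W T U * (f T * g (mix (I ∪ M) T U)))) ≤
      Ex L (fun T => Ex L (fun U => W T U * (f T * g (mix I T U)))) := by
  have res : ∀ Φ : Finset α → Finset α → ℝ, Ex L (fun T => Ex L (Φ T)) =
      Ex L (fun T => Ex L (fun U => Ex L (fun A => Ex L (fun B =>
        Φ (mix M A T) (mix M B U))))) := by
    intro Φ
    have h1 : ∀ X, Ex L (Φ X) = Ex L (fun U => Ex L (fun B => Φ X (mix M B U))) := fun X =>
      (Ex_mix L M (Φ X)).symm.trans (Ex_comm L L (fun B U => Φ X (mix M B U)))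
    calc Ex L (fun T => Ex L (Φ T))
        = Ex L (fun A => Ex L (fun T => Ex L (Φ (mix M A T)))) :=
          (Ex_mix L M (fun T => Ex L (Φ T))).symm
      _ = Ex L (fun T => Ex L (fun A => Ex L (Φ (mix M A T)))) :=
          Ex_comm L L (fun A T => Ex L (Φ (mix M A T)))
      _ = _ := by
          refine Ex_congr fun T _ => ?_
          simp only [h1]
          exact Ex_comm L L (fun A U => Ex L (fun B => Φ (mix M A T) (mix M B U)))
  rw [res, res (fun T U => W T U * (f T * g (mix I T U)))]
  refine Ex_mono fun T _ => Ex_mono fun U _ => ?_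
  have hd := disjoint_left.1 hIM
  have e1 : ∀ A B, mix (I ∪ M) (mix M A T) (mix M B U) = mix M A (mix I T U) := by
    intro A B
    ext v
    have := @hd v
    simp only [mem_mix, mem_union]
    tauto
  have e2 : ∀ A B, mix I (mix M A T) (mix M B U) = mix M B (mix I T U) := by
    intro A B
    ext v
    have := @hd v
    simp only [mem_mix]
    tauto
  simp only [hW, e1, e2, Ex_const, Ex_mul_left, Ex_mul_right]
  refine mul_le_mul_of_nonneg_left ?_ (hW0 T U)
  have h := harris (o := fun _ => true) (X := Set.univ) L (F := fun A => f (mix M A T))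
    (G := fun A => - g (mix M A (mix I T U))) ?_ ?_ (fun A B h => by
      rw [show A = B from Finset.ext fun v => h v trivial])
  · simp only [mul_neg, Ex_neg] at h
    linarith
  · intro x _ A
    by_cases hx : x ∈ M
    · simp only [mix_put_left hx]; exact hf x trivial _
    · simp only [mix_put_left' hx]; exact le_rfl
  · intro x _ A
    by_cases hx : x ∈ M
    · simp only [mix_put_left hx, neg_le_neg_iff]; exact hg x trivial _
    · simp only [mix_put_left' hx]; exact le_rfl

end Pool.Agent.Lib.MP_e26b79_pr
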