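import Pool.Agent.Lib.MP_e26b79_pr.Lattice
import Pool.Agent.Lib.MP_e26b79_pr.Cube

namespace Pool.Agent.Lib.MP_e26b79_pr

/-- parallelograms -/
def rs (x0 x1 y0 y1 : ℤ) : Set V := {v | x0 ≤ v.1 ∧ v.1 ≤ x1 ∧ y0 ≤ v.2 ∧ v.2 ≤ y1}
theorem mem_rs {x0 x1 y0 y1 : ℤ} {v : V} :
    v ∈ rs x0 x1 y0 y1 ↔ x0 ≤ v.1 ∧ v.1 ≤ x1 ∧ y0 ≤ v.2 ∧ v.2 ≤ y1 := Iff.rfl
noncomputable def rect (x0 x1 y0 y1 : ℤ) : Finset V := Finset.Icc x0 x1 ×ˢ Finset.Icc y0 y1
theorem mem_rect {x0 x1 y0 y1 : ℤ} {v : V} :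
    v ∈ rect x0 x1 y0 y1 ↔ x0 ≤ v.1 ∧ v.1 ≤ x1 ∧ y0 ≤ v.2 ∧ v.2 ≤ y1 := by
  simp only [rect, Finset.mem_product, Finset.mem_Icc]; tauto
theorem coe_rect (x0 x1 y0 y1 : ℤ) : (rect x0 x1 y0 y1 : Set V) = rs x0 x1 y0 y1 := by
  ext v; exact mem_rect
theorem rs_finite (x0 x1 y0 y1 : ℤ) : (rs x0 x1 y0 y1).Finite :=
  coe_rect x0 x1 y0 y1 ▸ Finset.finite_toSet _

theorem retr_rows (lo hi : ℤ → ℤ) {y0 y1 : ℤ} (hy : y0 ≤ y1) (h1 : ∀ j, lo j ≤ hi j)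
    (h2 : ∀ j, lo (j + 1) ≤ lo j ∧ lo j ≤ lo (j + 1) + 1)
    (h3 : ∀ j, hi (j + 1) ≤ hi j ∧ hi j ≤ hi (j + 1) + 1) :
    Retr {v | lo v.2 ≤ v.1 ∧ v.1 ≤ hi v.2 ∧ y0 ≤ v.2 ∧ v.2 ≤ y1} := by
  let c : ℤ → ℤ := fun y => max y0 (min y1 y)
  let r : V → V := fun v => (max (lo (c v.2)) (min (hi (c v.2)) v.1), c v.2)
  have key : ∀ u v, fwd u v → r u = r v ∨ adj (r u) (r v) := by
    rintro ⟨i, j⟩ v h
    have hc : c (j + 1) = c j ∨ c (j + 1) = c j + 1 := by simp only [c]; omega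
    have e1 := h1 (c j)
    have e2 := h2 (c j)
    have e3 := h3 (c j)
    have e4 := h1 (c j + 1)
    rcases h with rfl | rfl | rfl
    · simp only [r, adj, Prod.mk.injEq, true_and, and_true]
      omega
    · rcases hc with hc | hc <;> 
        simp only [r, adj, Prod.mk.injEq, hc, true_and, and_true, true_or]
      all_goals omega
    · rcases hc with hc | hc <;> 
        simp only [r, adj, Prod.mk.injEq, hc, true_and, and_true, true_or]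
      all_goals omega
  refine ⟨r, fun v => ?_, fun v hv => ?_, fun u v h => ?_⟩
  · have := h1 (c v.2)
    have : y0 ≤ c v.2 ∧ c v.2 ≤ y1 := by simp only [c]; omega
    simp only [r, Set.mem_ofPred_eq]
    omega
  · simp only [Set.mem_ofPred_eq] at hv
    have e : c v.2 = v.2 := by simp only [c]; omega
    simp only [r, e]
    ext <;> dsimp only
    omega
  · rcases h.fwd with h | h
    · exact key u v h
    · rcases key v u h with h | h
      · exact Or.inl h.symm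
      · exact Or.inr h.symm

theorem retr_rs {x0 x1 y0 y1 : ℤ} (hx : x0 ≤ x1) (hy : y0 ≤ y1) : Retr (rs x0 x1 y0 y1) :=
  retr_rows (fun _ => x0) (fun _ => x1) hy (fun _ => hx) (fun _ => by omega) (fun _ => by omega)

theorem conn_rs {x0 x1 y0 y1 : ℤ} {a b : V} (ha : a ∈ rs x0 x1 y0 y1) (hb : b ∈ rs x0 x1 y0 y1) :
    Conn (rs x0 x1 y0 y1) a b := by
  have key : ∀ a ∈ rs x0 x1 y0 y1, Conn (rs x0 x1 y0 y1) (x0, y0) a := by
    rintro ⟨i, j⟩ h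
    simp only [mem_rs] at h
    exact (conn_row h.1 fun x h1 h2 => by simp only [mem_rs]; omega).trans
      (conn_col h.2.2.1 fun x h1 h2 => by simp only [mem_rs]; omega)
  exact (key a ha).symm.trans (key b hb)

/-- `p` lies on a horizontal crossing -/
def HCp (S : Set V) (x0 x1 y0 y1 : ℤ) (p : V) : Prop :=
  ∃ l r : V, l.1 = x0 ∧ r.1 = x1 ∧ Conn (S ∩ rs x0 x1 y0 y1) p l ∧ Conn (S ∩ rs x0 x1 y0 y1) p r
/-- `p` lies on a vertical crossing -/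
def VCp (S : Set V) (x0 x1 y0 y1 : ℤ) (p : V) : Prop :=
  ∃ l r : V, l.2 = y0 ∧ r.2 = y1 ∧ Conn (S ∩ rs x0 x1 y0 y1) p l ∧ Conn (S ∩ rs x0 x1 y0 y1) p r
def HC (x0 x1 y0 y1 : ℤ) (S : Set V) : Prop := ∃ p, HCp S x0 x1 y0 y1 p
def VC (x0 x1 y0 y1 : ℤ) (S : Set V) : Prop := ∃ p, VCp S x0 x1 y0 y1 p

theorem HC_of_conn {x0 x1 y0 y1 : ℤ} {S : Set V} {l r : V} (hl : l.1 = x0) (hr : r.1 = x1)
    (h : Conn (S ∩ rs x0 x1 y0 y1) l r) : HC x0 x1 y0 y1 S := ⟨l, l, r, hl, hr, .refl h.left, h⟩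
theorem VC_of_conn {x0 x1 y0 y1 : ℤ} {S : Set V} {l r : V} (hl : l.2 = y0) (hr : r.2 = y1)
    (h : Conn (S ∩ rs x0 x1 y0 y1) l r) : VC x0 x1 y0 y1 S := ⟨l, l, r, hl, hr, .refl h.left, h⟩

theorem meet_TB {S T : Set V} {a b u v : V} {y0 y1 : ℤ} (hS : Conn S a b) (hT : Conn T u v)
    (ha : a.2 = y0) (hb : b.2 = y1) (hr : ∀ t ∈ T, y0 ≤ t.2 ∧ t.2 ≤ y1)
    (hu : ∀ w ∈ S, w.2 = u.2 → u.1 ≤ w.1)
    (hv : ∀ w ∈ S, w.2 = v.2 → w.1 ≤ v.1) : ∃ z, z ∈ S ∧ z ∈ T := by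
  have h1 : Conn (insert (b.1, b.2 + 1) S) a (b.1, b.2 + 1) :=
    .step (hS.mono (Set.subset_insert _ _)) (by simp [adj]) (Set.mem_insert _ _)
  have := hr u hT.left
  have := hr v hT.right
  obtain ⟨z, hz, hz'⟩ := meet_of_cross h1 hT (fun t ht => by have := hr t ht; dsimp only; omega)
    (by
      rintro w (rfl | hw) h
      · dsimp only at h; omega
      · exact hu w hw h)
    (by
      rintro w (rfl | hw) h
      · dsimp only at h; omega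
      · exact hv w hw h)
  rcases hz with rfl | hz
  · have := hr _ hz'
    dsimp only at this
    omega
  · exact ⟨z, hz, hz'⟩

/-- a horizontal crossing meets a vertical crossing -/
theorem link {S S' : Set V} {x0 x1 y0 y1 x0' x1' y0' y1' : ℤ} {p q : V}
    (h : HCp S x0 x1 y0 y1 p) (h' : VCp S' x0' x1' y0' y1' q) (e1 : x0 ≤ x0') (e2 : x1' ≤ x1)
    (e3 : y0' ≤ y0) (e4 : y1 ≤ y1') :
    ∃ z, Conn (S ∩ rs x0 x1 y0 y1) p z ∧ Conn (S' ∩ rs x0' x1' y0' y1') q z := by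
  obtain ⟨l, r, hl, hr, c1, c2⟩ := h
  obtain ⟨b, t, hb, ht, c3, c4⟩ := h'
  have m1 := c1.left.2
  have m2 := c3.left.2
  rw [mem_rs] at m1 m2
  obtain ⟨l', r', f1, f2, f3, -, -⟩ := (c1.cluster' c2).cut1 (φ := fun v => v.1) lip1
    (a := x0') (b := x1') (by omega) (by omega) (by omega)
  obtain ⟨b', t', g1, g2, g3, -, -⟩ := (c3.cluster' c4).cut1 (φ := fun v => v.2) lip2
    (a := y0) (b := y1) (by omega) (by omega) (by omega)
  obtain ⟨z, hz, hz'⟩ := meet_TB g3 f3 g1 g2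
    (fun w hw => by have := (Conn.right hw.1).2; rw [mem_rs] at this; omega)
    (fun w hw _ => by have := (Conn.right hw.1).2; rw [mem_rs] at this; omega)
    (fun w hw _ => by have := (Conn.right hw.1).2; rw [mem_rs] at this; omega)
  exact ⟨z, hz'.1, hz.1⟩

/-- sites of `Q` joined to `t` outside `C` -/
def vis (Q C : Set V) (t : V) : Set V := {v | Conn (Q \ C) t v}
/-- the boundary of `C` seen from `t` -/
def bd (Q C : Set V) (t : V) : Set V := {d | d ∈ vis Q C t ∧ ∃ c ∈ C, adj d c}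

theorem bd_conn {Q C : Set V} {t : V} (hQ : Retr Q) (hCQ : C ⊆ Q)
    (hC : ∀ a ∈ C, ∀ b ∈ C, Conn C a b) {s s' : V} (hs : s ∈ bd Q C t) (hs' : s' ∈ bd Q C t) :
    Conn (bd Q C t) s s' := by
  refine timar hQ hCQ (fun v hv => (Conn.right hv).1) ?_ hC (fun a ha b hb => Conn.cluster' ha hb)
    ?_ hs hs'
  · exact Set.disjoint_left.2 fun v h1 h2 => (Conn.right h2).2 h1
  · intro d hd w hw h
    by_cases hc : w ∈ C
    · exact Or.inr hc
    · exact Or.inl (Conn.step hd h ⟨hw, hc⟩)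

theorem bd_step {Q C : Set V} {t z z' : V} (hz : z ∈ Q) (h1 : z ∉ vis Q C t \ bd Q C t)
    (h : adj z z') (h2 : z' ∈ vis Q C t \ bd Q C t) : z ∈ bd Q C t := by
  by_contra hc
  have : z ∉ C := fun h3 => h2.2 ⟨h2.1, z, h3, h.symm⟩
  exact h1 ⟨Conn.step h2.1 h.symm ⟨hz, this⟩, hc⟩

theorem bd_first {Q C A : Set V} {t u v : V} (hA : A ⊆ Q) (h : Conn A u v) (hu : u ∈ vis Q C t)
    (hv : v ∈ C) : ∃ z ∈ bd Q C t, Conn (A \ C) u z := by
  obtain ⟨w, w', e1, e2, e3, -⟩ := h.first_hit (Conn.right hu).2 hv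
  exact ⟨w, ⟨Conn.trans hu (e1.mono (Set.sdiff_subset_sdiff_left hA)), w', e3, e2⟩, e1⟩

theorem vis_of_conn {Q C A : Set V} {t u v : V} (hA : A ⊆ Q \ C) (h : Conn A u v)
    (hu : u ∈ vis Q C t) : v ∈ vis Q C t := Conn.trans hu (h.mono hA)

/-- exploration of the clusters attached to one side of a strip -/
structure Xp where
  Q : Set V
  A : Set V
  B : Set V
  R : Set V
  a0 : V
  t : V
  retr : Retr Q
  cover : ∀ v, v ∈ Q ↔ v ∈ A ∨ v ∈ B ∨ v ∈ R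
  dAB : ∀ v ∈ A, v ∉ B
  dAR : ∀ v ∈ A, v ∉ R
  dBR : ∀ v ∈ B, v ∉ R
  ha0 : a0 ∈ A
  ht : t ∈ R
  cA : ∀ a ∈ A, Conn A a0 a
  cR : ∀ r ∈ R, Conn R t r
  far : ∀ a ∈ A, ∀ r ∈ R, ¬ adj a r

namespace Xp
variable (X : Xp)
def C (S : Set V) : Set V := {v | Conn (X.A ∪ (S ∩ X.B)) X.a0 v}
def J (S : Set V) : Set V := {v | v ∈ X.B ∧ (v ∈ X.C S ∨ ∃ c ∈ X.C S, adj v c)}
def K (S : Set V) : Set V := bd X.Q (X.C S) X.t
def F (S : Set V) : Set V := vis X.Q (X.C S) X.t \ X.K S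
/-- the explored clusters do not cross the strip -/
def Ok (S : Set V) : Prop := ∀ c ∈ X.C S, ∀ r ∈ X.R, ¬ adj c r

variable {X} {S S' : Set V}
theorem A_sub {a : V} (ha : a ∈ X.A) : a ∈ X.C S := (X.cA a ha).mono Set.subset_union_left

theorem C_sub (h : ∀ v ∈ X.J S, v ∈ S → v ∈ S') : X.C S ⊆ X.C S' := by
  intro v hv
  refine (Conn.cluster hv).mono fun w hw => ?_
  rcases Conn.right hw with h1 | h1
  · exact Or.inl h1
  · exact Or.inr ⟨h w ⟨h1.2, Or.inl hw⟩ h1.1, h1.2⟩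

theorem C_eq (h : ∀ v ∈ X.J S, v ∈ S ↔ v ∈ S') : X.C S' = X.C S := by
  refine Set.Subset.antisymm (fun v hv => ?_) (C_sub fun v hv => (h v hv).1)
  refine Conn.closed (P := fun w => w ∈ X.C S) hv ?_ ?_
  · exact A_sub X.ha0
  · intro a b _ hb hab ha
    rcases hb with hb | hb
    · exact A_sub hb
    · exact Conn.step ha hab (Or.inr ⟨(h b ⟨hb.2, Or.inr ⟨a, ha, hab.symm⟩⟩).2 hb.1, hb.2⟩)

theorem J_eq (h : ∀ v ∈ X.J S, v ∈ S ↔ v ∈ S') : X.J S' = X.J S := by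
  unfold J; rw [C_eq h]

theorem C_subQ : X.C S ⊆ X.Q := fun v hv => by
  rw [X.cover]
  rcases Conn.right hv with h | h
  · exact Or.inl h
  · exact Or.inr (Or.inl h.2)

theorem C_notR {v : V} (hv : v ∈ X.C S) : v ∉ X.R := by
  rcases Conn.right hv with h | h
  · exact X.dAR v h
  · exact X.dBR v h.2

theorem K_conn {a b : V} (ha : a ∈ X.K S) (hb : b ∈ X.K S) : Conn (X.K S) a b :=
  bd_conn X.retr C_subQ (fun _ h1 _ h2 => Conn.cluster' h1 h2) ha hb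

theorem K_notC {v : V} (hv : v ∈ X.K S) : v ∉ X.C S := (Conn.right hv.1).2

theorem K_subJ (hok : X.Ok S) : X.K S ⊆ X.J S := by
  intro v hv
  obtain ⟨c, hc, hvc⟩ := hv.2
  refine ⟨?_, Or.inr ⟨c, hc, hvc⟩⟩
  rcases (X.cover v).1 (Conn.right hv.1).1 with h | h | h
  · exact absurd (A_sub h) (K_notC hv)
  · exact h
  · exact absurd hvc.symm (hok c hc v h)

theorem K_notS (hok : X.Ok S) {v : V} (hv : v ∈ X.K S) : v ∉ S := by
  intro h
  obtain ⟨c, hc, hvc⟩ := hv.2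
  exact K_notC hv (Conn.step hc hvc.symm (Or.inr ⟨h, (K_subJ hok hv).1⟩))

theorem F_notJ {v : V} (hv : v ∈ X.F S) : v ∉ X.J S := by
  rintro ⟨-, h | h⟩
  · exact (Conn.right hv.1).2 h
  · exact hv.2 ⟨hv.1, h⟩

theorem R_vis {v : V} (hv : v ∈ X.R) : v ∈ vis X.Q (X.C S) X.t :=
  (X.cR v hv).mono fun w hw => ⟨(X.cover w).2 (Or.inr (Or.inr hw)), fun h => C_notR h hw⟩

theorem R_subF (hok : X.Ok S) {v : V} (hv : v ∈ X.R) : v ∈ X.F S :=
  ⟨R_vis hv, fun h => X.dBR v (K_subJ hok h).1 hv⟩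

theorem notF_of_adj {v a : V} (ha : a ∈ X.A) (h : adj v a) : v ∉ X.F S :=
  fun hv => hv.2 ⟨hv.1, a, A_sub ha, h⟩

theorem K_of_step {z z' : V} (hz : z ∈ X.Q) (h1 : z ∉ X.F S) (h : adj z z') (h2 : z' ∈ X.F S) :
    z ∈ X.K S := bd_step hz h1 h h2

theorem K_first {P : Set V} {u v : V} (hP : P ⊆ X.Q) (h : Conn P u v) (hu : u ∈ X.R)
    (hv : v ∈ X.C S) : ∃ z ∈ X.K S, Conn (P \ X.C S) u z := bd_first hP h (R_vis hu) hv

theorem C_cases {c : V} (hc : c ∈ X.C S) :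
    c ∈ X.A ∨ ∃ a ∈ X.A, ∃ l, adj a l ∧ Conn (S ∩ X.B) l c := by
  by_cases h : c ∈ X.A
  · exact Or.inl h
  · obtain ⟨w, w', -, e2, e3, e4⟩ := Conn.last_exit hc X.ha0 h
    refine Or.inr ⟨w, e2, w', e3, e4.mono ?_⟩
    rintro x ⟨h1 | h1, h2⟩
    · exact absurd h1 h2
    · exact h1

end Xp

/-- exploration from the left of the columns `x0 .. xc` -/
def xpL (x0 xc x1 y0 y1 : ℤ) (h1 : x0 ≤ xc) (h2 : xc < x1) (h3 : y0 ≤ y1) : Xp where
  Q := rs (x0 - 1) x1 y0 y1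
  A := rs (x0 - 1) (x0 - 1) y0 y1
  B := rs x0 xc y0 y1
  R := rs (xc + 1) x1 y0 y1
  a0 := (x0 - 1, y0)
  t := (x1, y0)
  retr := retr_rs (by omega) h3
  cover v := by simp only [mem_rs]; omega
  dAB v := by simp only [mem_rs]; omega
  dAR v := by simp only [mem_rs]; omega
  dBR v := by simp only [mem_rs]; omega
  ha0 := by simp only [mem_rs]; omega
  ht := by simp only [mem_rs]; omega
  cA a ha := conn_rs (by simp only [mem_rs]; omega) ha
  cR a ha := conn_rs (by simp only [mem_rs]; omega) ha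
  far a := by simp only [mem_rs, adj]; omega

/-- exploration from the right of the columns `xc .. x1` -/
def xpR (x0 xc x1 y0 y1 : ℤ) (h1 : x0 < xc) (h2 : xc ≤ x1) (h3 : y0 ≤ y1) : Xp where
  Q := rs x0 (x1 + 1) y0 y1
  A := rs (x1 + 1) (x1 + 1) y0 y1
  B := rs xc x1 y0 y1
  R := rs x0 (xc - 1) y0 y1
  a0 := (x1 + 1, y0)
  t := (x0, y0)
  retr := retr_rs (by omega) h3
  cover v := by simp only [mem_rs]; omega
  dAB v := by simp only [mem_rs]; omega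
  dAR v := by simp only [mem_rs]; omega
  dBR v := by simp only [mem_rs]; omega
  ha0 := by simp only [mem_rs]; omega
  ht := by simp only [mem_rs]; omega
  cA a ha := conn_rs (by simp only [mem_rs]; omega) ha
  cR a ha := conn_rs (by simp only [mem_rs]; omega) ha
  far a := by simp only [mem_rs, adj]; omega

theorem xpL_ok {x0 xc x1 y0 y1 : ℤ} {h1 : x0 ≤ xc} {h2 : xc < x1} {h3 : y0 ≤ y1} {S : Set V}
    (h : ¬ HC x0 xc y0 y1 S) : (xpL x0 xc x1 y0 y1 h1 h2 h3).Ok S := by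
  intro c hc r hr hcr
  rcases Xp.C_cases hc with h4 | ⟨a, ha, l, hl, h4⟩
  · exact (xpL x0 xc x1 y0 y1 h1 h2 h3).far c h4 r hr hcr
  · have e1 := h4.left.2
    have e2 := h4.right.2
    simp only [xpL, mem_rs, adj] at *
    exact h (HC_of_conn (by omega) (by omega) h4)

theorem xpR_ok {x0 xc x1 y0 y1 : ℤ} {h1 : x0 < xc} {h2 : xc ≤ x1} {h3 : y0 ≤ y1} {S : Set V}
    (h : ¬ HC xc x1 y0 y1 S) : (xpR x0 xc x1 y0 y1 h1 h2 h3).Ok S := by
  intro c hc r hr hcr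
  rcases Xp.C_cases hc with h4 | ⟨a, ha, l, hl, h4⟩
  · exact (xpR x0 xc x1 y0 y1 h1 h2 h3).far c h4 r hr hcr
  · have e1 := h4.left.2
    have e2 := h4.right.2
    simp only [xpR, mem_rs, adj] at *
    exact h (HC_of_conn (by omega) (by omega) h4.symm)

theorem xpL_row {x0 xc x1 y0 y1 : ℤ} {h1 : x0 ≤ xc} {h2 : xc < x1} {h3 : y0 ≤ y1} (S : Set V)
    {y : ℤ} (hy : y0 ≤ y ∧ y ≤ y1) {x : ℤ} (hx : (x, y) ∈ (xpL x0 xc x1 y0 y1 h1 h2 h3).C S) :
    ∃ z ∈ (xpL x0 xc x1 y0 y1 h1 h2 h3).K S, z.2 = y ∧ x < z.1 := by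
  have hq := Xp.C_subQ hx
  simp only [xpL, mem_rs] at hq
  have hc : Conn (rs x x1 y y) (x1, y) (x, y) :=
    conn_rs (by simp only [mem_rs]; omega) (by simp only [mem_rs]; omega)
  obtain ⟨z, hz, hz'⟩ := Xp.K_first (X := xpL x0 xc x1 y0 y1 h1 h2 h3)
    (fun v => by simp only [xpL, mem_rs]; omega) hc (by simp only [xpL, mem_rs]; omega) hx
  have e := hz'.right.1
  rw [mem_rs] at e
  refine ⟨z, hz, by omega, ?_⟩
  have : z ≠ (x, y) := fun h => hz'.right.2 (h ▸ hx)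
  have : z.1 ≠ x := fun h => this (Prod.ext h (by dsimp only; omega))
  omega

theorem xpR_row {x0 xc x1 y0 y1 : ℤ} {h1 : x0 < xc} {h2 : xc ≤ x1} {h3 : y0 ≤ y1} (S : Set V)
    {y : ℤ} (hy : y0 ≤ y ∧ y ≤ y1) :
    ∃ z ∈ (xpR x0 xc x1 y0 y1 h1 h2 h3).K S, z.2 = y := by
  have hc : Conn (rs x0 (x1 + 1) y y) (x0, y) (x1 + 1, y) :=
    conn_rs (by simp only [mem_rs]; omega) (by simp only [mem_rs]; omega)
  obtain ⟨z, hz, hz'⟩ := Xp.K_first (X := xpR x0 xc x1 y0 y1 h1 h2 h3) (S := S)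
    (fun v => by simp only [xpR, mem_rs]; omega) hc (by simp only [xpR, mem_rs]; omega)
    (Xp.A_sub (by simp only [xpR, mem_rs]; omega))
  have e := hz'.right.1
  rw [mem_rs] at e
  exact ⟨z, hz, by omega⟩

theorem xpL_row' {x0 xc x1 y0 y1 : ℤ} {h1 : x0 ≤ xc} {h2 : xc < x1} {h3 : y0 ≤ y1} (S : Set V)
    {y : ℤ} (hy : y0 ≤ y ∧ y ≤ y1) :
    ∃ z ∈ (xpL x0 xc x1 y0 y1 h1 h2 h3).K S, z.2 = y := by
  obtain ⟨z, hz, e, -⟩ := xpL_row (h1 := h1) (h2 := h2) (h3 := h3) S hy (x := x0 - 1)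
    (Xp.A_sub (by simp only [xpL, mem_rs]; omega))
  exact ⟨z, hz, e⟩

/-- duality -/
theorem VC_of_not_HC {x0 x1 y0 y1 : ℤ} (h1 : x0 ≤ x1) (h3 : y0 ≤ y1) {S : Set V}
    (h : ¬ HC x0 x1 y0 y1 S) : VC x0 x1 y0 y1 Sᶜ := by
  have hok := xpL_ok (h1 := h1) (h2 := lt_add_one x1) (h3 := h3) h
  obtain ⟨b, hb, e1⟩ := xpL_row' (h1 := h1) (h2 := lt_add_one x1) (h3 := h3) S ⟨le_rfl, h3⟩
  obtain ⟨t, ht, e2⟩ := xpL_row' (h1 := h1) (h2 := lt_add_one x1) (h3 := h3) S ⟨h3, le_rfl⟩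
  exact VC_of_conn e1 e2 ((Xp.K_conn hb ht).mono fun v hv =>
    ⟨Xp.K_notS hok hv, (Xp.K_subJ hok hv).1⟩)

theorem not_HC_of_VC {x0 x1 y0 y1 : ℤ} {S : Set V} (h : VC x0 x1 y0 y1 Sᶜ) :
    ¬ HC x0 x1 y0 y1 S := by
  rintro ⟨p, hp⟩
  obtain ⟨q, hq⟩ := h
  obtain ⟨z, h1, h2⟩ := link hp hq le_rfl le_rfl le_rfl le_rfl
  exact h2.right.1 h1.right.1

/-! ### probabilities of local increasing events -/

/-- increasing event that depends only on the sites of `D` -/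
def Loc (E : Set V → Prop) (D : Set V) : Prop := ∀ S S', S ∩ D ⊆ S' → E S → E S'

theorem Loc.mono {E : Set V → Prop} {D D' : Set V} (h : Loc E D) (hD : D ⊆ D') : Loc E D' :=
  fun S S' h1 => h S S' fun _ hv => h1 ⟨hv.1, hD hv.2⟩
theorem Loc.up {E : Set V → Prop} {D S S' : Set V} (h : Loc E D) (hS : S ⊆ S') (h1 : E S) :
    E S' := h S S' (fun _ hv => hS hv.1) h1
theorem Loc.and {E E' : Set V → Prop} {D : Set V} (h : Loc E D) (h' : Loc E' D) :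
    Loc (fun S => E S ∧ E' S) D := fun S S' h1 h2 => ⟨h S S' h1 h2.1, h' S S' h1 h2.2⟩
theorem Loc.iff {E : Set V → Prop} {D S S' : Set V} (h : Loc E D)
    (hS : ∀ v ∈ D, v ∈ S ↔ v ∈ S') : E S ↔ E S' :=
  ⟨h S S' fun v hv => (hS v hv.2).1 hv.1, h S' S fun v hv => (hS v hv.2).2 hv.1⟩
theorem Loc.dep {E : Set V → Prop} {D : Set V} (h : Loc E D) :
    Dep (fun T : Finset V => ind (E T)) D := fun _ _ hT => ind_congr (h.iff hT)
theorem Loc.dep_compl {E : Set V → Prop} {D : Set V} (h : Loc E D) :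
    Dep (fun T : Finset V => ind (E (T : Set V)ᶜ)) D :=
  fun _ _ hT => ind_congr (h.iff fun v hv => not_congr (hT v hv))

theorem conn_loc {S S' D : Set V} (h : S ∩ D ⊆ S') {u v : V} (hc : Conn (S ∩ D) u v) :
    Conn (S' ∩ D) u v := hc.mono fun _ hv => ⟨h hv, hv.2⟩
theorem loc_HC (x0 x1 y0 y1 : ℤ) : Loc (HC x0 x1 y0 y1) (rs x0 x1 y0 y1) :=
  fun _ _ h ⟨p, l, r, h1, h2, h3, h4⟩ => ⟨p, l, r, h1, h2, conn_loc h h3, conn_loc h h4⟩
theorem loc_VC (x0 x1 y0 y1 : ℤ) : Loc (VC x0 x1 y0 y1) (rs x0 x1 y0 y1) :=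
  fun _ _ h ⟨p, l, r, h1, h2, h3, h4⟩ => ⟨p, l, r, h1, h2, conn_loc h h3, conn_loc h h4⟩

theorem Loc.om {E : Set V → Prop} {D : Set V} (h : Loc E D) {o : V → Bool} {X : Set V}
    (ho : ∀ x ∈ X, x ∈ D → o x = true) : OM o X (fun T : Finset V => ind (E T)) := by
  intro x hx T
  refine ind_mono (h _ _ fun v hv => ?_)
  have h1 := hv.1
  simp only [Finset.mem_coe, mem_put] at h1 ⊢
  rcases h1 with ⟨rfl, h1⟩ | h1
  · exact Or.inl ⟨rfl, ho v hx hv.2⟩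
  · exact Or.inr h1
theorem Loc.om_compl {E : Set V → Prop} {D : Set V} (h : Loc E D) {o : V → Bool} {X : Set V}
    (ho : ∀ x ∈ X, x ∈ D → o x = false) : OM o X (fun T : Finset V => ind (E (T : Set V)ᶜ)) := by
  intro x hx T
  refine ind_mono (h _ _ fun v hv => ?_)
  have h1 := hv.1
  simp only [Set.mem_compl_iff, Finset.mem_coe, mem_put] at h1 ⊢
  by_cases e : v = x
  · subst e
    simp [ho v hx hv.2]
  · simpa [e] using h1

open Classical in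
/-- expectation of a local function under the critical product measure -/
noncomputable def pr (F : Finset V → ℝ) : ℝ :=
  if h : ∃ D : Finset V, Dep F (D : Set V) then Ex h.choose F else 0

theorem pr_eq {F : Finset V → ℝ} {L : Finset V} (h : Dep F (L : Set V)) : Ex L F = pr F := by
  have h' : ∃ D : Finset V, Dep F (D : Set V) := ⟨L, h⟩
  rw [pr, dif_pos h', ← Ex_restrict h (Finset.subset_union_left (s₂ := h'.choose)),
    ← Ex_restrict h'.choose_spec (Finset.subset_union_right (s₁ := L))]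

/-- probability of a local increasing event -/
noncomputable def P (E : Set V → Prop) : ℝ := pr (fun T => ind (E T))

theorem P_eq {E : Set V → Prop} {L : Finset V} (h : Loc E L) :
    Ex L (fun T => ind (E T)) = P E := pr_eq h.dep

theorem P_eq_compl {E : Set V → Prop} {L : Finset V} (h : Loc E L) :
    Ex L (fun T => ind (E (T : Set V)ᶜ)) = P E := by
  rw [← P_eq h, ← Ex_compl]
  refine Ex_congr fun T _ => ind_congr (h.iff fun v hv => ?_)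
  have : v ∈ L := hv
  simp [this]

theorem exists_cover {D D' : Set V} (h : D.Finite) (h' : D'.Finite) :
    ∃ L : Finset V, D ⊆ L ∧ D' ⊆ L :=
  ⟨(h.union h').toFinset, by simp, by simp⟩

theorem P_nonneg (E : Set V → Prop) : 0 ≤ P E := by
  unfold P pr
  split_ifs
  · exact Ex_nonneg fun _ _ => ind_nonneg _
  · exact le_rfl
theorem P_le_one (E : Set V → Prop) : P E ≤ 1 := by
  unfold P pr
  split_ifs
  · exact Ex_le_const fun _ _ => ind_le_one _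
  · exact zero_le_one

theorem pr_map {F G : Finset V → ℝ} {D : Set V} (hD : D.Finite) (hF : Dep F D) (σ : V ≃ V)
    (h : ∀ T, G (T.map σ.toEmbedding) = F T) : pr G = pr F := by
  have hG : Dep G ((hD.toFinset.map σ.toEmbedding : Finset V) : Set V) := by
    intro T U hTU
    have e : ∀ T : Finset V, T = (T.map σ.symm.toEmbedding).map σ.toEmbedding := by
      intro T; rw [Finset.map_map]; simp
    rw [e T, e U, h, h]
    refine hF _ _ fun v hv => ?_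
    simp only [Finset.mem_map_equiv, Equiv.symm_symm]
    exact hTU _ (by simp [hv])
  rw [← pr_eq hG, Ex_map, ← pr_eq (L := hD.toFinset) (by simpa using hF)]
  exact Ex_congr fun T _ => h T

theorem P_mono {E E' : Set V → Prop} {D D' : Set V} (h : Loc E D) (h' : Loc E' D')
    (hD : D.Finite) (hD' : D'.Finite) (hE : ∀ S, E S → E' S) : P E ≤ P E' := by
  obtain ⟨L, h1, h2⟩ := exists_cover hD hD'
  rw [← P_eq (h.mono h1), ← P_eq (h'.mono h2)]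
  exact Ex_mono fun T _ => ind_mono (hE _)

theorem P_le_map {E E' : Set V → Prop} {D D' : Set V} (h : Loc E D) (h' : Loc E' D')
    (hD : D.Finite) (hD' : D'.Finite) (σ : V ≃ V) (hE : ∀ S, E S → E' (σ '' S)) :
    P E ≤ P E' := by
  have h2 : Loc (fun S => E' (σ '' S)) (σ ⁻¹' D') := by
    intro S S' h1
    refine h' _ _ ?_
    rintro _ ⟨⟨v, hv, rfl⟩, h3⟩
    exact ⟨v, h1 ⟨hv, h3⟩, rfl⟩
  have h3 : (σ ⁻¹' D').Finite := hD'.preimage σ.injective.injOn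
  refine (P_mono h h2 hD h3 hE).trans (le_of_eq (pr_map h3 h2.dep σ fun T => ?_).symm)
  simp

theorem P_harris {E E' : Set V → Prop} {D : Set V} (h : Loc E D) (h' : Loc E' D)
    (hD : D.Finite) : P E * P E' ≤ P (fun S => E S ∧ E' S) := by
  obtain ⟨L, h1, -⟩ := exists_cover hD hD
  rw [← P_eq (h.mono h1), ← P_eq (h'.mono h1), ← P_eq ((h.and h').mono h1)]
  simp_rw [ind_and]
  exact harris (o := fun _ => true) (X := Set.univ) L (h.om fun _ _ _ => rfl)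
    (h'.om fun _ _ _ => rfl) (h'.dep.mono (Set.subset_univ _))

theorem P_indep {E E' : Set V → Prop} {D D' : Set V} (h : Loc E D) (h' : Loc E' D')
    (hD : D.Finite) (hD' : D'.Finite) (hd : Disjoint D D') :
    P (fun S => E S ∧ E' S) = P E * P E' := by
  obtain ⟨L, h1, h2⟩ := exists_cover hD hD'
  rw [← P_eq (h.mono h1), ← P_eq (h'.mono h2), ← P_eq ((h.mono h1).and (h'.mono h2))]
  simp_rw [ind_and]
  exact Ex_indep h.dep h'.dep hd

theorem Conn.image {S D D' : Set V} {u v : V} (h : Conn (S ∩ D) u v) (σ : V → V)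
    (h1 : ∀ a b, adj a b → adj (σ a) (σ b)) (h2 : ∀ a ∈ D, σ a ∈ D') :
    Conn (σ '' S ∩ D') (σ u) (σ v) :=
  h.map σ (fun a b hab => Or.inr (h1 a b hab)) fun a ha => ⟨⟨a, ha.1, rfl⟩, h2 a ha.2⟩

theorem adj_swap (a b : V) (h : adj a b) : adj (Equiv.prodComm ℤ ℤ a) (Equiv.prodComm ℤ ℤ b) := by
  simp only [adj, Equiv.prodComm_apply, Prod.fst_swap, Prod.snd_swap] at *; omega
theorem adj_add (z a b : V) (h : adj a b) : adj (Equiv.addRight z a) (Equiv.addRight z b) := by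
  simp only [adj, Equiv.coe_addRight, Prod.fst_add, Prod.snd_add] at *; omega

theorem P_HC_le_VC (x0 x1 y0 y1 : ℤ) : P (HC x0 x1 y0 y1) ≤ P (VC y0 y1 x0 x1) := by
  refine P_le_map (loc_HC _ _ _ _) (loc_VC _ _ _ _) (rs_finite _ _ _ _) (rs_finite _ _ _ _) (Equiv.prodComm ℤ ℤ) ?_
  rintro S ⟨p, l, r, h1, h2, h3, h4⟩
  refine VC_of_conn (l := Equiv.prodComm ℤ ℤ l) (r := Equiv.prodComm ℤ ℤ r) h1 h2
    ((h3.symm.trans h4).image _ adj_swap fun a ha => ?_)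
  simp only [mem_rs, Equiv.prodComm_apply, Prod.fst_swap, Prod.snd_swap] at *; omega

theorem P_VC_le_HC (x0 x1 y0 y1 : ℤ) : P (VC x0 x1 y0 y1) ≤ P (HC y0 y1 x0 x1) := by
  refine P_le_map (loc_VC _ _ _ _) (loc_HC _ _ _ _) (rs_finite _ _ _ _) (rs_finite _ _ _ _) (Equiv.prodComm ℤ ℤ) ?_
  rintro S ⟨p, l, r, h1, h2, h3, h4⟩
  refine HC_of_conn (l := Equiv.prodComm ℤ ℤ l) (r := Equiv.prodComm ℤ ℤ r) h1 h2
    ((h3.symm.trans h4).image _ adj_swap fun a ha => ?_)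
  simp only [mem_rs, Equiv.prodComm_apply, Prod.fst_swap, Prod.snd_swap] at *; omega

theorem half_le_rhombus {n : ℤ} (hn : 0 ≤ n) : 1 / 2 ≤ P (HC 0 n 0 n) := by
  have h1 := P_VC_le_HC 0 n 0 n
  have h2 : 1 ≤ P (HC 0 n 0 n) + P (VC 0 n 0 n) := by
    rw [← P_eq (L := rect 0 n 0 n) (coe_rect 0 n 0 n ▸ loc_HC _ _ _ _),
      ← P_eq_compl (L := rect 0 n 0 n) (coe_rect 0 n 0 n ▸ loc_VC _ _ _ _), ← Ex_add,
      ← Ex_const (rect 0 n 0 n) 1]
    refine Ex_mono fun T _ => ?_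
    by_cases h : HC 0 n 0 n T
    · rw [ind_pos h]; linarith [ind_nonneg (VC 0 n 0 n (T : Set V)ᶜ)]
    · rw [ind_neg h, ind_pos (VC_of_not_HC hn hn h)]; norm_num
  linarith

end Pool.Agent.Lib.MP_e26b79_pr
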