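import Mathlib

namespace Pool.Agent.Lib.MP_e26b79_pr
open MeasureTheory ProbabilityTheory
open scoped NNReal

/-- position in the plane of the site `(i, j)` of the triangular lattice: `i + j exp (i pi / 3)` -/
noncomputable def emb (x : ℤ × ℤ) : ℂ := ⟨x.1 + x.2 / 2, x.2 * (√3 / 2)⟩

/-- the triangular lattice: two sites are adjacent when their distance is `1` -/
def tri : SimpleGraph (ℤ × ℤ) := SimpleGraph.fromRel fun x y => ‖emb x - emb y‖ = 1

/-- `X t w` counts the rings up to time `t` of a Poisson clock of rate `r` -/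
structure IsPoisson {Ω : Type*} [MeasurableSpace Ω] (μ : Measure Ω) (r : ℝ≥0)
    (X : ℝ≥0 → Ω → ℕ) : Prop where
  meas : ∀ t, Measurable (X t)
  zero : ∀ w, X 0 w = 0
  mono : ∀ w, Monotone fun t => X t w
  indep : HasIndepIncrements X μ
  law : ∀ s t, s ≤ t → HasLaw (fun w => X t w - X s w) (poissonMeasure (r * (t - s))) μ

/-- Graphical construction. `n e t` is the number of rings of the clock of the pair `e` up to
time `t`. `Src n x t y` means: the colour found at site `x` at time `t` is the colour that the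
site `y` had at time `0`. -/
inductive Src (n : Sym2 (ℤ × ℤ) → ℝ≥0 → ℕ) : ℤ × ℤ → ℝ≥0 → ℤ × ℤ → Prop
  | start (x : ℤ × ℤ) : Src n x 0 x
  | stay {x y : ℤ × ℤ} {r t : ℝ≥0} : r ≤ t → (∀ w, n s(x, w) t = n s(x, w) r) →
      Src n x r y → Src n x t y
  | swap {x z y : ℤ × ℤ} {r t : ℝ≥0} : r ≤ t → n s(x, z) t = n s(x, z) r + 1 →
      (∀ w, w ≠ z → n s(x, w) t = n s(x, w) r) → (∀ w, w ≠ x → n s(z, w) t = n s(z, w) r) →
      Src n z r y → Src n x t y

/-- black sites at time `t` -/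
def black (n : Sym2 (ℤ × ℤ) → ℝ≥0 → ℕ) (c : ℤ × ℤ → Bool) (t : ℝ≥0) : Set (ℤ × ℤ) :=
  {x | (∃ y, Src n x t y) ∧ ∀ y, Src n x t y → c y = true}

end Pool.Agent.Lib.MP_e26b79_pr
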