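import Pool.Agent.Lib.MP_e26b79_pr.Cube

namespace Pool.Agent.Lib.MP_e26b79_pr
open Finset
open scoped symmDiff

variable {α : Type*} [DecidableEq α]

/-- Walsh characters -/
noncomputable def chi (S T : Finset α) : ℝ := ∏ v ∈ S, if v ∈ T then (-1 : ℝ) else 1

theorem chi_eq (S T : Finset α) : chi S T = (-1) ^ (S ∩ T).card := by
  unfold chi
  rw [prod_ite, prod_const, prod_const_one, mul_one, filter_mem_eq_inter]
theorem chi_comm (S T : Finset α) : chi S T = chi T S := by rw [chi_eq, chi_eq, inter_comm]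
theorem chi_empty (T : Finset α) : chi ∅ T = 1 := by simp [chi]
theorem chi_sq (S T : Finset α) : chi S T ^ 2 = 1 := by
  rw [chi_eq, ← pow_mul, mul_comm, pow_mul]; simp

theorem sum_chi_mul {L T U : Finset α} (hT : T ⊆ L) (hU : U ⊆ L) :
    ∑ S ∈ L.powerset, chi S T * chi S U = if T = U then 2 ^ L.card else 0 := by
  unfold chi
  simp_rw [← prod_mul_distrib]
  rw [← prod_one_add]
  split_ifs with h
  · subst h
    rw [← prod_const]
    refine prod_congr rfl fun v _ => ?_
    split_ifs <;> norm_num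
  · have : ∃ v, ¬ (v ∈ T ↔ v ∈ U) := by
      by_contra hc
      push Not at hc
      exact h (Finset.ext hc)
    obtain ⟨v, hv⟩ := this
    have hvL : v ∈ L := by
      by_cases h1 : v ∈ T
      · exact hT h1
      · exact hU (by tauto)
    refine prod_eq_zero hvL ?_
    by_cases h1 : v ∈ T <;> by_cases h2 : v ∈ U <;> simp_all

theorem Ex_chi_mul {L S S' : Finset α} (hS : S ⊆ L) (hS' : S' ⊆ L) :
    Ex L (fun T => chi S T * chi S' T) = if S = S' then 1 else 0 := by
  unfold Ex
  simp_rw [chi_comm S, chi_comm S']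
  rw [sum_chi_mul hS hS']
  split_ifs <;> simp

/-- Fourier-Walsh coefficients -/
noncomputable def hat (L : Finset α) (F : Finset α → ℝ) (S : Finset α) : ℝ :=
  Ex L (fun T => F T * chi S T)

theorem hat_empty (L : Finset α) (F : Finset α → ℝ) : hat L F ∅ = Ex L F := by
  simp [hat, chi_empty]

theorem inversion {L T : Finset α} (hT : T ⊆ L) (F : Finset α → ℝ) :
    ∑ S ∈ L.powerset, hat L F S * chi S T = F T := by
  unfold hat
  simp_rw [← Ex_mul_right]
  rw [← Ex_sum]
  have : ∀ U, U ⊆ L → ∑ S ∈ L.powerset, F U * chi S U * chi S T =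
      if U = T then F T * 2 ^ L.card else 0 := by
    intro U hU
    simp_rw [mul_assoc]
    rw [← mul_sum, sum_chi_mul hU hT]
    split_ifs with h
    · rw [h]
    · simp
  rw [Ex_congr this]
  unfold Ex
  rw [sum_ite_eq' _ T, if_pos (mem_powerset.2 hT)]
  field_simp

theorem plancherel (L : Finset α) (F G : Finset α → ℝ) :
    Ex L (fun T => F T * G T) = ∑ S ∈ L.powerset, hat L F S * hat L G S := by
  have : ∀ T, T ⊆ L → F T * G T = ∑ S ∈ L.powerset, hat L G S * (F T * chi S T) := by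
    intro T hT
    rw [← inversion hT G, mul_sum]
    exact sum_congr rfl fun S _ => by ring
  rw [Ex_congr this, Ex_sum]
  refine sum_congr rfl fun S _ => ?_
  rw [Ex_mul_left, mul_comm]
  rfl

theorem parseval (L : Finset α) (F : Finset α → ℝ) :
    Ex L (fun T => F T ^ 2) = ∑ S ∈ L.powerset, hat L F S ^ 2 := by
  simp_rw [sq]; exact plancherel L F F

theorem chi_mix (S J T U : Finset α) : chi S (mix J T U) = chi (S ∩ J) T * chi (S \ J) U := by
  unfold chi
  rw [← filter_mem_eq_inter, ← filter_notMem_eq_sdiff,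
    ← prod_filter_mul_prod_filter_not S (· ∈ J)]
  congr 1
  · refine prod_congr rfl fun v hv => ?_
    simp only [mem_mix_of_mem (mem_filter.1 hv).2]
  · refine prod_congr rfl fun v hv => ?_
    simp only [mem_mix_of_notMem (mem_filter.1 hv).2]

theorem chi_symmDiff (S T Z : Finset α) : chi S (T ∆ Z) = chi S T * chi S Z := by
  unfold chi
  rw [← prod_mul_distrib]
  refine prod_congr rfl fun v _ => ?_
  by_cases h1 : v ∈ T <;> by_cases h2 : v ∈ Z <;> simp [mem_symmDiff, h1, h2]

theorem Ex_homog_sq (L : Finset α) (k : ℕ) (a : Finset α → ℝ) :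
    Ex L (fun T => (∑ S ∈ powersetCard k L, a S * chi S T) ^ 2) =
      ∑ S ∈ powersetCard k L, a S ^ 2 := by
  simp_rw [sq, sum_mul_sum]
  rw [Ex_sum]
  refine sum_congr rfl fun S hS => ?_
  rw [Ex_sum]
  have : ∀ S' ∈ powersetCard k L, Ex L (fun T => a S * chi S T * (a S' * chi S' T)) =
      if S = S' then a S * a S' else 0 := by
    intro S' hS'
    have : (fun T => a S * chi S T * (a S' * chi S' T)) =
        fun T => a S * a S' * (chi S T * chi S' T) := by ext T; ring
    rw [this, Ex_mul_left, Ex_chi_mul (mem_powersetCard.1 hS).1 (mem_powersetCard.1 hS').1]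
    split_ifs <;> simp
  rw [sum_congr rfl this, sum_ite_eq, if_pos hS]

/-- the core estimate of Schramm and Steif for one stopping set -/
theorem ss_core {L : Finset α} (J : Finset α → Finset α)
    (hJ : ∀ T U, T ⊆ L → U ⊆ L → J (mix (J T) T U) = J T) {k : ℕ} (hk : k ≠ 0)
    (a : Finset α → ℝ) :
    Ex L (fun T => (Ex L (fun U => ∑ S ∈ powersetCard k L, a S * chi S (mix (J T) T U))) ^ 2) ≤
      ∑ S ∈ powersetCard k L, a S ^ 2 * ∑ x ∈ S, Ex L (fun T => ind (x ∈ J T)) := by
  classical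
  set P := powersetCard k L with hP
  set g : Finset α → ℝ := fun T => ∑ S ∈ P, a S * chi S T with hg
  have key : ∀ T, (Ex L (fun U => g (mix (J T) T U))) ^ 2 +
      ∑ S ∈ P, a S ^ 2 * ind (Disjoint S (J T)) ≤ Ex L (fun U => g (mix (J T) T U) ^ 2) := by
    intro T
    rw [parseval]
    have hhat : ∀ S ∈ P.filter (fun S => Disjoint S (J T)),
        hat L (fun U => g (mix (J T) T U)) S = a S := by
      intro S hS
      obtain ⟨hSP, hSJ⟩ := mem_filter.1 hS
      unfold hat
      simp only [hg, sum_mul, chi_mix]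
      rw [Ex_sum]
      have : ∀ S' ∈ P, Ex L (fun U => a S' * (chi (S' ∩ J T) T * chi (S' \ J T) U) * chi S U) =
          if S = S' then a S' else 0 := by
        intro S' hS'
        have e : (fun U => a S' * (chi (S' ∩ J T) T * chi (S' \ J T) U) * chi S U) =
            fun U => a S' * chi (S' ∩ J T) T * (chi (S' \ J T) U * chi S U) := by ext U; ring
        rw [e, Ex_mul_left, Ex_chi_mul (sdiff_subset.trans (mem_powersetCard.1 hS').1)
          (mem_powersetCard.1 hSP).1]
        by_cases h : S = S'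
        · subst h
          rw [if_pos (sdiff_eq_self_of_disjoint hSJ), if_pos rfl,
            disjoint_iff_inter_eq_empty.1 hSJ, chi_empty]
          ring
        · rw [if_neg h, if_neg, mul_zero]
          intro h'
          apply h
          refine eq_of_subset_of_card_le (h' ▸ sdiff_subset) ?_
          rw [(mem_powersetCard.1 hS').2, (mem_powersetCard.1 hSP).2]
      rw [sum_congr rfl this, sum_ite_eq, if_pos hSP]
    have h0 : (∅ : Finset α) ∉ P.filter (fun S => Disjoint S (J T)) := by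
      intro h
      have := (mem_powersetCard.1 (mem_filter.1 h).1).2
      simp at this
      exact hk this.symm
    calc _ = ∑ S ∈ insert ∅ (P.filter (fun S => Disjoint S (J T))),
          hat L (fun U => g (mix (J T) T U)) S ^ 2 := by
          have e : ∑ S ∈ P.filter (fun S => Disjoint S (J T)),
              hat L (fun U => g (mix (J T) T U)) S ^ 2 =
              ∑ S ∈ P.filter (fun S => Disjoint S (J T)), a S ^ 2 :=
            sum_congr rfl fun S hS => by rw [hhat S hS]
          rw [sum_insert h0, hat_empty, e, sum_filter]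
          congr 1
          refine sum_congr rfl fun S _ => ?_
          by_cases h : Disjoint S (J T)
          · rw [ind_pos h, if_pos h, mul_one]
          · rw [ind_neg h, if_neg h, mul_zero]
      _ ≤ _ := by
          refine sum_le_sum_of_subset_of_nonneg ?_ fun _ _ _ => sq_nonneg _
          intro S hS
          rcases mem_insert.1 hS with rfl | hS
          · simp
          · exact mem_powerset.2 (mem_powersetCard.1 (mem_filter.1 hS).1).1
  have h1 := Ex_mono (L := L) fun T _ => key T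
  rw [Ex_add, Ex_stop1 J hJ (fun T => g T ^ 2), Ex_homog_sq, Ex_sum] at h1
  have h2 : ∀ S ∈ P, a S ^ 2 - Ex L (fun T => a S ^ 2 * ind (Disjoint S (J T))) ≤
      a S ^ 2 * ∑ x ∈ S, Ex L (fun T => ind (x ∈ J T)) := by
    intro S _
    rw [Ex_mul_left, ← mul_one_sub, ← Ex_sum]
    refine mul_le_mul_of_nonneg_left ?_ (sq_nonneg _)
    rw [← Ex_const L 1, ← Ex_sub]
    refine Ex_mono fun T _ => ?_
    rw [← ind_not]
    refine (ind_mono fun h => ?_).trans (ind_exists_le S (fun x => x ∈ J T))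
    exact not_disjoint_iff.1 h
  have h3 := sum_le_sum h2
  rw [sum_sub_distrib] at h3
  linarith

/-- The Schramm-Steif revealment theorem, for averages of functions determined by
stopping sets. -/
theorem schramm_steif {σ : Type*} {L : Finset α} (A : Finset σ) (hA : A.Nonempty)
    (J : σ → Finset α → Finset α) (f : σ → Finset α → ℝ)
    (hJ : ∀ s ∈ A, ∀ T U, T ⊆ L → U ⊆ L → J s (mix (J s T) T U) = J s T)
    (hf : ∀ s ∈ A, ∀ T U, T ⊆ L → U ⊆ L → f s (mix (J s T) T U) = f s T)
    {δ β : ℝ} (hδ0 : 0 ≤ δ)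
    (hδ : ∀ x ∈ L, ∑ s ∈ A, Ex L (fun T => ind (x ∈ J s T)) ≤ A.card * δ)
    (hβ : ∀ s ∈ A, Ex L (fun T => f s T ^ 2) ≤ β) {k : ℕ} (hk : k ≠ 0) :
    ∑ S ∈ powersetCard k L, hat L (fun T => (∑ s ∈ A, f s T) / A.card) S ^ 2 ≤ k * δ * β := by
  set F : Finset α → ℝ := fun T => (∑ s ∈ A, f s T) / A.card with hF
  set P := powersetCard k L with hP
  set a := hat L F with ha
  set W := ∑ S ∈ P, a S ^ 2 with hW
  set g : Finset α → ℝ := fun T => ∑ S ∈ P, a S * chi S T with hg
  have hn : (0:ℝ) < A.card := by exact_mod_cast hA.card_pos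
  have hβ0 : 0 ≤ β := by
    obtain ⟨s, hs⟩ := hA
    exact (Ex_nonneg fun T _ => sq_nonneg _).trans (hβ s hs)
  have h1 : W = (∑ s ∈ A, Ex L (fun T => f s T * g T)) / A.card := by
    rw [← Ex_sum, ← Ex_div]
    have : (fun T => (∑ s ∈ A, f s T * g T) / (A.card : ℝ)) =
        fun T => ∑ S ∈ P, a S * (F T * chi S T) := by
      ext T
      rw [← sum_mul, mul_div_right_comm, hg, mul_sum]
      exact sum_congr rfl fun S _ => by ring
    rw [this, Ex_sum]
    refine sum_congr rfl fun S _ => ?_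
    rw [Ex_mul_left, sq]
    rfl
  have h2 : ∀ s ∈ A, (Ex L (fun T => f s T * g T)) ^ 2 ≤
      β * ∑ S ∈ P, a S ^ 2 * ∑ x ∈ S, Ex L (fun T => ind (x ∈ J s T)) := by
    intro s hs
    have e : Ex L (fun T => f s T * g T) =
        Ex L (fun T => f s T * Ex L (fun U => g (mix (J s T) T U))) := by
      rw [← Ex_stop1 (J s) (hJ s hs)]
      refine Ex_congr fun T hT => ?_
      rw [← Ex_mul_left]
      exact Ex_congr fun U hU => by rw [hf s hs T U hT hU]
    rw [e]
    refine (Ex_cs L _ _).trans (mul_le_mul (hβ s hs) (ss_core (J s) (hJ s hs) hk a)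
      (Ex_nonneg fun _ _ => sq_nonneg _) hβ0)
  have h3 : ∑ s ∈ A, ∑ S ∈ P, a S ^ 2 * ∑ x ∈ S, Ex L (fun T => ind (x ∈ J s T)) ≤
      A.card * (k * δ * W) := by
    rw [sum_comm, hW, mul_sum, mul_sum]
    refine sum_le_sum fun S hS => ?_
    rw [← mul_sum, sum_comm]
    obtain ⟨hSL, hSk⟩ := mem_powersetCard.1 hS
    have := sum_le_sum fun x (hx : x ∈ S) => hδ x (hSL hx)
    rw [sum_const, hSk, nsmul_eq_mul] at this
    calc _ ≤ a S ^ 2 * (k * (A.card * δ)) := mul_le_mul_of_nonneg_left this (sq_nonneg _)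
      _ = _ := by ring
  have h4 : W ^ 2 ≤ β * (k * δ * W) := by
    have := sq_sum_le_card_mul_sum_sq (s := A) (f := fun s => Ex L (fun T => f s T * g T))
    have h5 := sum_le_sum h2
    rw [← mul_sum] at h5
    have h6 : (∑ s ∈ A, Ex L (fun T => f s T * g T)) ^ 2 ≤
        A.card * (β * (A.card * (k * δ * W))) :=
      this.trans (mul_le_mul_of_nonneg_left (h5.trans (mul_le_mul_of_nonneg_left h3 hβ0)) hn.le)
    conv_lhs => rw [h1]
    rw [div_pow, div_le_iff₀ (by positivity)]
    calc _ ≤ _ := h6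
      _ = _ := by ring
  have hW0 : 0 ≤ W := sum_nonneg fun _ _ => sq_nonneg _
  rcases hW0.eq_or_lt with h | h
  · rw [← h]; positivity
  · have : W * W ≤ (k * δ * β) * W := by nlinarith
    exact le_of_mul_le_mul_right this h

/-- product Bernoulli weight -/
noncomputable def wt (q : α → ℝ) (B Z : Finset α) : ℝ :=
  ∏ v ∈ B, if v ∈ Z then q v else 1 - q v

theorem wt_nonneg {q : α → ℝ} {B : Finset α} (h : ∀ v ∈ B, 0 ≤ q v ∧ q v ≤ 1) (Z : Finset α) :
    0 ≤ wt q B Z := by
  refine prod_nonneg fun v hv => ?_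
  have := h v hv
  split_ifs <;> linarith

theorem sum_prod_ite (B : Finset α) (a b : α → ℝ) :
    ∑ Z ∈ B.powerset, ∏ v ∈ B, (if v ∈ Z then a v else b v) = ∏ v ∈ B, (a v + b v) := by
  rw [prod_add]
  refine sum_congr rfl fun Z hZ => ?_
  rw [prod_ite, filter_mem_eq_inter, inter_eq_right.2 (mem_powerset.1 hZ), filter_notMem_eq_sdiff]

theorem sum_wt (q : α → ℝ) (B : Finset α) : ∑ Z ∈ B.powerset, wt q B Z = 1 := by
  unfold wt
  rw [sum_prod_ite]
  simp

theorem sum_wt_chi (p : ℝ) (B S : Finset α) :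
    ∑ Z ∈ B.powerset, wt (fun _ => p) B Z * chi S Z = (1 - 2 * p) ^ (S ∩ B).card := by
  have : ∀ Z ∈ B.powerset, wt (fun _ => p) B Z * chi S Z =
      ∏ v ∈ B, (if v ∈ Z then (if v ∈ S then -p else p) else 1 - p) := by
    intro Z hZ
    have e : chi S Z = ∏ v ∈ B, if v ∈ Z then (if v ∈ S then (-1:ℝ) else 1) else 1 := by
      rw [prod_ite, prod_const_one, mul_one, filter_mem_eq_inter,
        inter_eq_right.2 (mem_powerset.1 hZ), chi_comm]
      rfl
    rw [e, wt, ← prod_mul_distrib]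
    refine prod_congr rfl fun v _ => ?_
    split_ifs <;> ring
  rw [sum_congr rfl this, sum_prod_ite]
  have : ∀ v ∈ B, ((if v ∈ S then -p else p) + (1 - p)) = if v ∈ S then 1 - 2 * p else 1 := by
    intro v _
    split_ifs <;> ring
  rw [prod_congr rfl this, prod_ite, prod_const, prod_const_one, mul_one, filter_mem_eq_inter,
    inter_comm]

theorem symmDiff_sub {L T Z : Finset α} (hT : T ⊆ L) (hZ : Z ⊆ L) : T ∆ Z ⊆ L := by
  intro v hv
  rcases mem_symmDiff.1 hv with h | h
  · exact hT h.1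
  · exact hZ h.1

theorem hat_symmDiff {L Z : Finset α} (hZ : Z ⊆ L) (F : Finset α → ℝ) (S : Finset α) :
    hat L (fun T => F (T ∆ Z)) S = chi S Z * hat L F S := by
  unfold hat
  rw [← Ex_invol (fun T => T ∆ Z) (fun T hT => symmDiff_sub hT hZ)
    (fun T _ => symmDiff_symmDiff_cancel_right Z T), ← Ex_mul_left]
  refine Ex_congr fun T _ => ?_
  dsimp only
  rw [symmDiff_symmDiff_cancel_right, chi_symmDiff]
  ring

/-- correlation under independent flips of the sites of `B` -/
noncomputable def Nz (L B : Finset α) (p : ℝ) (F : Finset α → ℝ) : ℝ :=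
  ∑ Z ∈ B.powerset, wt (fun _ => p) B Z * Ex L (fun T => F T * F (T ∆ Z))

theorem Nz_eq {L B : Finset α} (hB : B ⊆ L) (p : ℝ) (F : Finset α → ℝ) :
    Nz L B p F = ∑ S ∈ L.powerset, (1 - 2 * p) ^ (S ∩ B).card * hat L F S ^ 2 := by
  unfold Nz
  have : ∀ Z ∈ B.powerset, wt (fun _ => p) B Z * Ex L (fun T => F T * F (T ∆ Z)) =
      ∑ S ∈ L.powerset, wt (fun _ => p) B Z * chi S Z * hat L F S ^ 2 := by
    intro Z hZ
    rw [plancherel L F (fun T => F (T ∆ Z)), mul_sum]
    refine sum_congr rfl fun S _ => ?_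
    rw [hat_symmDiff ((mem_powerset.1 hZ).trans hB)]
    ring
  rw [sum_congr rfl this, sum_comm]
  refine sum_congr rfl fun S _ => ?_
  rw [← sum_mul, sum_wt_chi]

theorem Nz_mono {L B : Finset α} {p : ℝ} (hp : 0 ≤ p ∧ p ≤ 1)
    {F G : Finset α → ℝ} (h0 : ∀ T, 0 ≤ F T) (h : ∀ T, F T ≤ G T) : Nz L B p F ≤ Nz L B p G := by
  refine sum_le_sum fun Z _ => mul_le_mul_of_nonneg_left (Ex_mono fun T _ => ?_)
    (wt_nonneg (fun _ _ => hp) Z)
  exact mul_le_mul (h _) (h _) (h0 _) ((h0 _).trans (h _))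

theorem Nz_le_of_subset {L B B' : Finset α} (hB : B ⊆ L) (hB' : B' ⊆ B) {p : ℝ}
    (hp : 0 ≤ p ∧ 2 * p ≤ 1) (F : Finset α → ℝ) : Nz L B p F ≤ Nz L B' p F := by
  rw [Nz_eq hB, Nz_eq (hB'.trans hB)]
  refine sum_le_sum fun S _ => mul_le_mul_of_nonneg_right ?_ (sq_nonneg _)
  exact pow_le_pow_of_le_one (by linarith) (by linarith)
    (card_le_card (inter_subset_inter_left hB'))

theorem Nz_mul {L B : Finset α} (p : ℝ) {F G : Finset α → ℝ} {D : Set α} (hF : Dep F D)
    (hG : Dep G (B : Set α)) (hD : Disjoint D (B : Set α)) :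
    Nz L B p (fun T => F T * G T) = Ex L (fun T => F T ^ 2) * Nz L B p G := by
  unfold Nz
  rw [mul_sum]
  refine sum_congr rfl fun Z hZ => ?_
  have e : (fun T => F T * G T * (F (T ∆ Z) * G (T ∆ Z))) =
      fun T => F T ^ 2 * (G T * G (T ∆ Z)) := by
    ext T
    rw [hF (T ∆ Z) T]
    · ring
    · intro v hv
      have : v ∉ Z := fun h => Set.disjoint_left.1 hD hv (mem_powerset.1 hZ h)
      simp [mem_symmDiff, this]
  rw [e, Ex_indep (D := D) (E := (B : Set α)) _ _ hD]
  · ring
  · intro T U h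
    dsimp only
    rw [hF T U h]
  · intro T U h
    dsimp only
    rw [hG T U h, hG (T ∆ Z) (U ∆ Z)]
    intro v hv
    simp [mem_symmDiff, h v hv]

theorem hat_eq_zero {L B S : Finset α} {G : Finset α → ℝ} (hG : Dep G (B : Set α))
    (hS : S ⊆ L) (hSB : ¬ S ⊆ B) : hat L G S = 0 := by
  obtain ⟨x, hxS, hxB⟩ := not_subset.1 hSB
  have h := hat_symmDiff (L := L) (Z := {x}) (by simpa using hS hxS) G S
  have e : (fun T => G (T ∆ {x})) = G := by
    ext T
    refine hG _ _ fun v hv => ?_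
    have : v ≠ x := by rintro rfl; exact hxB hv
    simp [mem_symmDiff, this]
  have e2 : chi S {x} = -1 := by rw [chi_comm]; simp [chi, hxS]
  rw [e, e2] at h
  linarith

/-- noise correlation from level bounds -/
theorem Nz_le_levels {L B : Finset α} (hB : B ⊆ L) {G : Finset α → ℝ} (hG : Dep G (B : Set α))
    {t c : ℝ} (ht : 0 < t) (ht1 : t ≤ 1) (hc : 0 ≤ c)
    (h : ∀ k : ℕ, k ≠ 0 → ∑ S ∈ powersetCard k L, hat L G S ^ 2 ≤ k * c) :
    Nz L B (t / 2) G ≤ (Ex L G) ^ 2 + c / t ^ 2 := by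
  rw [Nz_eq hB]
  have e : ∀ S ∈ L.powerset, (1 - 2 * (t / 2)) ^ (S ∩ B).card * hat L G S ^ 2 =
      (1 - t) ^ S.card * hat L G S ^ 2 := by
    intro S hS
    by_cases hSB : S ⊆ B
    · rw [inter_eq_left.2 hSB]; congr 2; ring
    · rw [hat_eq_zero hG (mem_powerset.1 hS) hSB]; simp
  rw [sum_congr rfl e, sum_powerset, sum_range_succ']
  simp only [powersetCard_zero, sum_singleton, card_empty, pow_zero, one_mul, hat_empty]
  rw [add_comm]
  gcongr
  have h1 : ∀ k ∈ range L.card, ∑ S ∈ powersetCard (k + 1) L, (1 - t) ^ S.card * hat L G S ^ 2 ≤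
      c * (((k + 1 : ℕ) : ℝ) * (1 - t) ^ (k + 1)) := by
    intro k _
    rw [sum_congr rfl fun S hS => by rw [(mem_powersetCard.1 hS).2], ← mul_sum]
    have := mul_le_mul_of_nonneg_left (h (k + 1) (by omega))
      (pow_nonneg (sub_nonneg.2 ht1) (k + 1))
    linarith
  refine (sum_le_sum h1).trans ?_
  rw [← mul_sum, div_eq_mul_inv]
  refine mul_le_mul_of_nonneg_left ?_ hc
  have hs := hasSum_coe_mul_geometric_of_norm_lt_one (r := 1 - t)
    (by rw [Real.norm_eq_abs, abs_lt]; constructor <;> linarith)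
  have h2 := sum_le_hasSum (range (L.card + 1))
    (fun k _ => mul_nonneg (Nat.cast_nonneg k) (pow_nonneg (sub_nonneg.2 ht1) k)) hs
  rw [sum_range_succ'] at h2
  simp only [Nat.cast_zero, zero_mul, add_zero, sub_sub_cancel] at h2
  refine h2.trans ?_
  rw [div_eq_mul_inv]
  have : 0 ≤ (t ^ 2)⁻¹ := by positivity
  nlinarith

theorem one_div_succ_le (k : ℕ) (t : ℕ → ℝ) (h0 : t 0 = 1) (ht : ∀ j, 0 ≤ t j ∧ t j ≤ 1)
    (n : ℕ) : 1 / (1 + (k : ℝ)) ≤ ∑ j ∈ range n, t j * (1 - t (j + 1)) ^ k + t n := by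
  have hk : (0:ℝ) < 1 + k := by positivity
  have step : ∀ x y : ℝ, 0 ≤ x → x ≤ 1 → 0 ≤ y → y ≤ 1 →
      (1 - y) ^ (k + 1) - (1 - x) ^ (k + 1) ≤ (1 + k) * (x * (1 - y) ^ k) := by
    intro x y hx hx1 hy hy1
    rcases le_total x y with h | h
    · have : (1 - y) ^ (k + 1) ≤ (1 - x) ^ (k + 1) :=
        pow_le_pow_left₀ (by linarith) (by linarith) _
      have : 0 ≤ (1 + k) * (x * (1 - y) ^ k) :=
        mul_nonneg hk.le (mul_nonneg hx (pow_nonneg (by linarith) _))
      linarith
    · have h1 := abs_pow_sub_pow_le (1 - y) (1 - x) (k + 1)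
      rw [abs_of_nonneg (a := 1 - y) (by linarith), abs_of_nonneg (a := 1 - x) (by linarith),
        max_eq_left (by linarith), abs_of_nonneg (a := 1 - y - (1 - x)) (by linarith)] at h1
      refine (le_abs_self _).trans (h1.trans ?_)
      simp only [add_tsub_cancel_right, Nat.cast_add, Nat.cast_one]
      have : 0 ≤ (1 - y) ^ k := pow_nonneg (by linarith) _
      have : (1 - y - (1 - x)) * (k + 1) ≤ x * (k + 1) :=
        mul_le_mul_of_nonneg_right (by linarith) (by linarith)
      nlinarith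
  have main : ∀ n, (1 - t n) ^ (k + 1) ≤ (1 + k) * ∑ j ∈ range n, t j * (1 - t (j + 1)) ^ k := by
    intro n
    induction n with
    | zero => simp [h0]
    | succ n ih =>
      rw [sum_range_succ, mul_add]
      have := step (t n) (t (n + 1)) (ht n).1 (ht n).2 (ht _).1 (ht _).2
      linarith
  have h1 := step (t n) 0 (ht n).1 (ht n).2 le_rfl zero_le_one
  simp only [sub_zero, one_pow, mul_one] at h1
  rw [div_le_iff₀ hk]
  have := main n
  nlinarith

/-- the resolvent form of the independent flip dynamics on `B` -/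
noncomputable def Res (L B : Finset α) (F : Finset α → ℝ) : ℝ :=
  ∑ S ∈ L.powerset, hat L F S ^ 2 / (1 + ((S ∩ B).card : ℝ))

theorem Res_le {L B : Finset α} (hB : B ⊆ L) (F : Finset α → ℝ) (t : ℕ → ℝ) (h0 : t 0 = 1)
    (ht : ∀ j, 0 ≤ t j ∧ t j ≤ 1) (n : ℕ) :
    Res L B F ≤ ∑ j ∈ range n, t j * Nz L B (t (j + 1) / 2) F + t n * Ex L (fun T => F T ^ 2) := by
  simp_rw [Nz_eq hB, parseval, mul_sum]
  rw [sum_comm, ← sum_add_distrib]
  refine sum_le_sum fun S _ => ?_
  have := mul_le_mul_of_nonneg_right (one_div_succ_le (S ∩ B).card t h0 ht n)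
    (sq_nonneg (hat L F S))
  rw [add_mul, sum_mul] at this
  calc _ = 1 / (1 + ((S ∩ B).card : ℝ)) * hat L F S ^ 2 := by ring
    _ ≤ _ := this
    _ = _ := by
      congr 1
      refine sum_congr rfl fun j _ => ?_
      rw [show 2 * (t (j + 1) / 2) = t (j + 1) by ring]
      ring

/-- the variational bound for the flip dynamics -/
theorem var_le_Res {L B : Finset α} (hB : B ⊆ L) (f g : Finset α → ℝ) {c : ℝ} (hc : 0 < c) :
    2 * Ex L (fun T => f T * g T) - c * Ex L (fun T => g T ^ 2) -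
      c * ∑ z ∈ B, Ex L (fun T => (g T - g (T ∆ {z})) ^ 2) ≤ Res L B f / c := by
  have h1 : ∀ z ∈ B, Ex L (fun T => (g T - g (T ∆ {z})) ^ 2) =
      ∑ S ∈ L.powerset, (if z ∈ S then 4 else 0) * hat L g S ^ 2 := by
    intro z hz
    rw [parseval]
    refine sum_congr rfl fun S _ => ?_
    have e : hat L (fun T => g T - g (T ∆ {z})) S = hat L g S - hat L (fun T => g (T ∆ {z})) S := by
      unfold hat
      rw [← Ex_sub]
      exact Ex_congr fun T _ => by ring
    rw [e, hat_symmDiff (by simpa using hB hz), chi_comm]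
    simp only [chi, prod_singleton]
    split_ifs <;> ring
  rw [sum_congr rfl h1, sum_comm, plancherel, parseval, Res, sum_div, mul_sum, mul_sum, mul_sum,
    ← sum_sub_distrib, ← sum_sub_distrib]
  refine sum_le_sum fun S _ => ?_
  rw [← sum_mul, sum_ite, sum_const, sum_const_zero, add_zero, filter_mem_eq_inter, inter_comm,
    nsmul_eq_mul]
  set k : ℝ := ((S ∩ B).card : ℝ)
  have hk : 0 ≤ k := Nat.cast_nonneg _
  set a := hat L f S
  set b := hat L g S
  have h2 : 0 < (1 + k) * c := by positivity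
  rw [div_div, le_div_iff₀ h2]
  have : 0 ≤ c * k * b ^ 2 * ((1 + k) * c) := by positivity
  nlinarith [sq_nonneg (a - (1 + k) * c * b)]

end Pool.Agent.Lib.MP_e26b79_pr
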