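import Pool.Agent.Lib.MP_e26b79_pr.Arms

namespace Pool.Agent.Lib.MP_e26b79_pr

theorem Xp.hook {X : Xp} {W Z : Set V} {l r : V} (h : Conn Z l r) (hZ : Z ⊆ X.Q)
    (hl : l ∉ X.F W) (hr : r ∈ X.F W) :
    ∃ z ∈ X.K W, ∃ z', adj z z' ∧ Conn (Z ∩ X.F W) z' r := by
  obtain ⟨z, z', c1, c2, c3, c4⟩ := h.last_exit (C := (X.F W)ᶜ) hl (not_not.2 hr)
  exact ⟨z, Xp.K_of_step (hZ c1.right) c2 c3 (not_not.1 c4.left.2), z', c3,
    c4.mono fun w hw => ⟨hw.1, not_not.1 hw.2⟩⟩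

theorem Xp.conn_notF {X : Xp} {W : Set V} {z : V} (hz : z ∈ X.K W) :
    Conn (X.Q \ X.F W) X.a0 z := by
  obtain ⟨c, hc, hzc⟩ := hz.2
  refine .step ((Conn.cluster hc).mono fun w hw => ⟨Xp.C_subQ hw, fun h => ?_⟩) hzc.symm
    ⟨(Conn.right hz.1).1, fun h => h.2 hz⟩
  exact (Conn.right h.1).2 hw

theorem HCp_of_conn {S D : Set V} {u v : V} {x0 x1 y0 y1 : ℤ} (h : Conn (S ∩ D) u v)
    (hD : ∀ w ∈ D, y0 ≤ w.2 ∧ w.2 ≤ y1) (hu : u.1 ≤ x0) (hv : x1 ≤ v.1) (hx : x0 ≤ x1) :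
    ∃ p, HCp S x0 x1 y0 y1 p ∧ Conn (S ∩ D) u p := by
  obtain ⟨u', v', e1, e2, e3, e4, -⟩ := h.cut1 (φ := fun v => v.1) lip1 hx hu hv
  have c : Conn (S ∩ rs x0 x1 y0 y1) u' v' := e3.mono fun w hw =>
    ⟨hw.1.1, hw.2.1, hw.2.2, hD w hw.1.2⟩
  exact ⟨u', ⟨u', v', e1, e2, .refl c.left, c⟩, e4⟩

theorem HCp.loc {S S' : Set V} {x0 x1 y0 y1 : ℤ} {p : V} (h : HCp S x0 x1 y0 y1 p)
    (hS : S ∩ rs x0 x1 y0 y1 ⊆ S') : HCp S' x0 x1 y0 y1 p := by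
  obtain ⟨l, r, e1, e2, c1, c2⟩ := h
  exact ⟨l, r, e1, e2, conn_loc hS c1, conn_loc hS c2⟩

section gadget
variable {s : ℤ} (hs : 0 < s)

def NN (s : ℤ) : Set V := rs (4 * s) (9 * s - 1) (-2 * s) (3 * s - 1)
def MM (s : ℤ) : Set V := rs (6 * s) (7 * s - 1) 0 (s - 1)
def XL : Xp := xpL (4 * s) (5 * s - 1) (9 * s - 1) (-2 * s) (3 * s - 1) (by omega) (by omega) (by omega)
def XR : Xp := xpR (4 * s) (8 * s) (9 * s - 1) (-2 * s) (3 * s - 1) (by omega) (by omega) (by omega)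
def JJ (W : Set V) : Set V := (XL hs).J W ∪ (XR hs).J W

theorem JJ_sub {W : Set V} {v : V} (hv : v ∈ JJ hs W) :
    v ∈ NN s ∧ (v.1 < 5 * s ∨ 8 * s ≤ v.1) := by
  rcases hv with h | h
  · have := h.1
    simp only [XL, xpL, NN, mem_rs] at *; omega
  · have := h.1
    simp only [XR, xpR, NN, mem_rs] at *; omega

variable {W : Set V} (okL : (XL hs).Ok W) (okR : (XR hs).Ok W)
include okL in
theorem KL_le {z : V} (hz : z ∈ (XL hs).K W) : z ∈ NN s ∧ z.1 < 5 * s := by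
  have := (Xp.K_subJ okL hz).1
  simp only [XL, xpL, NN, mem_rs] at *; omega
include okR in
theorem KR_ge {z : V} (hz : z ∈ (XR hs).K W) : z ∈ NN s ∧ 8 * s ≤ z.1 := by
  have := (Xp.K_subJ okR hz).1
  simp only [XR, xpR, NN, mem_rs] at *; omega
theorem notFL {l : V} (h : l ∈ NN s) (hl : l.1 = 4 * s) : l ∉ (XL hs).F W :=
  Xp.notF_of_adj (a := (l.1 - 1, l.2)) (by simp only [XL, xpL, NN, mem_rs] at *; omega)
    (by simp [adj])
theorem notFR {l : V} (h : l ∈ NN s) (hl : l.1 = 9 * s - 1) : l ∉ (XR hs).F W :=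
  Xp.notF_of_adj (a := (l.1 + 1, l.2)) (by simp only [XR, xpR, NN, mem_rs] at *; omega)
    (by simp [adj])
include okL in
theorem inFL {l : V} (h : l ∈ NN s) (hl : 5 * s ≤ l.1) : l ∈ (XL hs).F W :=
  Xp.R_subF okL (by simp only [XL, xpL, NN, mem_rs] at *; omega)
include okR in
theorem inFR {l : V} (h : l ∈ NN s) (hl : l.1 < 8 * s) : l ∈ (XR hs).F W :=
  Xp.R_subF okR (by simp only [XR, xpR, NN, mem_rs] at *; omega)
theorem NN_QL : NN s ⊆ (XL hs).Q := fun v => by simp only [XL, xpL, NN, mem_rs]; omega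
theorem NN_QR : NN s ⊆ (XR hs).Q := fun v => by simp only [XR, xpR, NN, mem_rs]; omega

include okL okR in
theorem thru {Z : Set V} {l r : V} (h : Conn Z l r) (hZ : Z ⊆ NN s) (hl : l.1 = 4 * s)
    (hr : r.1 = 9 * s - 1) : ∃ z ∈ (XL hs).K W, ∃ w ∈ (XR hs).K W, ∃ z' w', adj z z' ∧ adj w w' ∧
      Conn (Z ∩ (XL hs).F W ∩ (XR hs).F W) z' w' := by
  obtain ⟨z, hz, z', c1, c2⟩ := Xp.hook h (hZ.trans (NN_QL hs)) (notFL hs (hZ h.left) hl)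
    (inFL hs okL (hZ h.right) (by omega))
  have e1 := (KL_le hs okL hz).2
  have e2 := lip1 _ _ c1
  obtain ⟨w, hw, w', c3, c4⟩ := Xp.hook c2.symm (fun v hv => NN_QR hs (hZ hv.1))
    (notFR hs (hZ h.right) hr) (inFR hs okR (hZ c2.left.1) (by omega))
  exact ⟨z, hz, w, hw, z', w', c1, c3, c4.symm⟩

include okL okR in
theorem core {U X : Set V} (hJ : ∀ v ∈ JJ hs W, v ∈ X ↔ v ∉ W)
    (hU : ∀ v ∈ NN s, v ∉ MM s → v ∉ JJ hs W → (v ∈ X ↔ v ∈ U))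
    (h10 : HC (4 * s) (6 * s - 1) (2 * s) (3 * s - 1) U)
    (h11 : HC (7 * s) (9 * s - 1) (-2 * s) (-1 * s - 1) U)
    (h16 : HC (4 * s) (9 * s - 1) (-1 * s) (0 * s - 1) Uᶜ)
    (h17 : HC (4 * s) (9 * s - 1) (1 * s) (2 * s - 1) Uᶜ) :
    ∃ p1 p2 q4 q2, HCp X (5 * s) (6 * s - 1) (2 * s) (3 * s - 1) p1 ∧
      HCp X (7 * s) (8 * s - 1) (-2 * s) (-1 * s - 1) p2 ∧
      HCp Xᶜ (6 * s) (7 * s - 1) (1 * s) (2 * s - 1) q4 ∧
      HCp Xᶜ (6 * s) (7 * s - 1) (-1 * s) (0 * s - 1) q2 ∧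
      (∀ Z : Set V, (∀ v ∈ Z, v ∉ JJ hs W → v ∈ X) →
        HC (4 * s) (9 * s - 1) (0 * s) (1 * s - 1) Z → Conn (X ∩ NN s) p1 p2) ∧
      (Conn (X ∩ NN s) p1 p2 ∨ Conn (Xᶜ ∩ NN s) q4 q2) := by
  have nJ : ∀ v ∈ (XL hs).F W, v ∈ (XR hs).F W → v ∉ JJ hs W := fun v h1 h2 h =>
    h.elim (Xp.F_notJ h1) (Xp.F_notJ h2)
  have kL : (XL hs).K W ⊆ X ∩ NN s := fun v hv =>
    ⟨(hJ v (Or.inl (Xp.K_subJ okL hv))).2 (Xp.K_notS okL hv), (KL_le hs okL hv).1⟩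
  have kR : (XR hs).K W ⊆ X ∩ NN s := fun v hv =>
    ⟨(hJ v (Or.inr (Xp.K_subJ okR hv))).2 (Xp.K_notS okR hv), (KR_ge hs okR hv).1⟩
  -- left hook
  obtain ⟨p1, hp1, kp1⟩ : ∃ p1, HCp X (5 * s) (6 * s - 1) (2 * s) (3 * s - 1) p1 ∧
      ∀ z ∈ (XL hs).K W, Conn (X ∩ NN s) z p1 := by
    obtain ⟨p, l, r, e1, e2, c1, c2⟩ := h10
    have hN : rs (4 * s) (6 * s - 1) (2 * s) (3 * s - 1) ⊆ NN s := fun v => by
      simp only [NN, mem_rs]; omega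
    obtain ⟨z, hz, z', c3, c4⟩ := Xp.hook (W := W) (c1.symm.trans c2)
      (fun v hv => NN_QL hs (hN hv.2)) (notFL hs (hN c1.right.2) e1)
      (inFL hs okL (hN c2.right.2) (by omega))
    have c5 : Conn (X ∩ rs (4 * s) (6 * s - 1) (2 * s) (3 * s - 1)) z' r := by
      refine c4.mono fun v ⟨⟨g1, g2⟩, g3⟩ => ⟨(hU v (hN g2) ?_ (nJ v g3 (inFR hs okR (hN g2) ?_))).2 g1, g2⟩
      all_goals simp only [MM, mem_rs] at *; omega
    have := (KL_le hs okL hz).2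
    have := lip1 _ _ c3
    obtain ⟨q, g1, g2⟩ := HCp_of_conn (x0 := 5 * s) (x1 := 6 * s - 1) c5 (fun w hw => hw.2.2)
      (by omega) (by omega) (by omega)
    exact ⟨q, g1, fun z0 hz0 => ((Xp.K_conn hz0 hz).mono kL).trans
      (.head (kL hz) c3 (g2.mono (Set.inter_subset_inter_right _ hN)))⟩
  obtain ⟨p2, hp2, kp2⟩ : ∃ p2, HCp X (7 * s) (8 * s - 1) (-2 * s) (-1 * s - 1) p2 ∧
      ∀ z ∈ (XR hs).K W, Conn (X ∩ NN s) z p2 := by
    obtain ⟨p, l, r, e1, e2, c1, c2⟩ := h11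
    have hN : rs (7 * s) (9 * s - 1) (-2 * s) (-1 * s - 1) ⊆ NN s := fun v => by
      simp only [NN, mem_rs]; omega
    obtain ⟨z, hz, z', c3, c4⟩ := Xp.hook (W := W) (c2.symm.trans c1)
      (fun v hv => NN_QR hs (hN hv.2)) (notFR hs (hN c2.right.2) e2)
      (inFR hs okR (hN c1.right.2) (by omega))
    have c5 : Conn (X ∩ rs (7 * s) (9 * s - 1) (-2 * s) (-1 * s - 1)) z' l := by
      refine c4.mono fun v ⟨⟨g1, g2⟩, g3⟩ => ⟨(hU v (hN g2) ?_ (nJ v (inFL hs okL (hN g2) ?_) g3)).2 g1, g2⟩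
      all_goals simp only [MM, mem_rs] at *; omega
    have := (KR_ge hs okR hz).2
    have := lip1 _ _ c3.symm
    obtain ⟨q, g1, g2⟩ := HCp_of_conn (x0 := 7 * s) (x1 := 8 * s - 1) c5.symm (fun w hw => hw.2.2)
      (by omega) (by omega) (by omega)
    exact ⟨q, g1, fun z0 hz0 => ((Xp.K_conn hz0 hz).mono kR).trans
      (.head (kR hz) c3 ((c5.trans g2).mono (Set.inter_subset_inter_right _ hN)))⟩
  have blk : ∀ (Z : Set V) (l r : V), Conn Z l r → Z ⊆ NN s → l.1 = 4 * s → r.1 = 9 * s - 1 →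
      (∀ v ∈ Z, v ∈ (XL hs).F W → v ∈ (XR hs).F W → v ∈ X) → Conn (X ∩ NN s) p1 p2 := by
    intro Z l r h hZ hl hr hX
    obtain ⟨z, hz, w, hw, z', w', c1, c2, c3⟩ := thru hs okL okR h hZ hl hr
    have c4 : Conn (X ∩ NN s) z' w' := c3.mono fun v hv => ⟨hX v hv.1.1 hv.1.2 hv.2, hZ hv.1.1⟩
    exact (kp1 z hz).symm.trans (.head (kL hz) c1 ((Conn.step c4 c2.symm (kR hw)).trans (kp2 w hw)))
  have strip : ∀ y0 y1 : ℤ, -2 * s ≤ y0 → y1 ≤ 3 * s - 1 → (y1 < 0 ∨ s ≤ y0) →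
      HC (4 * s) (9 * s - 1) y0 y1 Uᶜ → ∃ q, HCp Xᶜ (6 * s) (7 * s - 1) y0 y1 q ∧
        ∀ (S : Set V) (b t : V), Conn S b t → b.2 = -2 * s → t.2 = 3 * s - 1 → S ⊆ NN s →
          (∀ v ∈ S, v ∈ (XL hs).F W ∧ v ∈ (XR hs).F W) → ∃ z ∈ S, Conn (Xᶜ ∩ NN s) q z := by
    rintro y0 y1 e1 e2 e3 ⟨p, l, r, f1, f2, c1, c2⟩
    have hN : rs (4 * s) (9 * s - 1) y0 y1 ⊆ NN s := fun v => by
      simp only [NN, mem_rs]; omega
    obtain ⟨z, hz, w, hw, z', w', c3, c4, c5⟩ := thru hs okL okR (c1.symm.trans c2)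
      (fun v hv => hN hv.2) f1 f2
    have c6 : Conn (Xᶜ ∩ rs (4 * s) (9 * s - 1) y0 y1) z' w' := by
      refine c5.mono fun v ⟨⟨⟨g1, g2⟩, g3⟩, g4⟩ =>
        ⟨fun g5 => g1 ((hU v (hN g2) ?_ (nJ v g3 g4)).1 g5), g2⟩
      simp only [MM, mem_rs] at *; omega
    have := (KL_le hs okL hz).2
    have := lip1 _ _ c3
    have := (KR_ge hs okR hw).2
    have := lip1 _ _ c4.symm
    obtain ⟨q, g1, g2⟩ := HCp_of_conn (x0 := 6 * s) (x1 := 7 * s - 1) c6 (fun w hw => hw.2.2)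
      (by omega) (by omega) (by omega)
    refine ⟨q, g1, fun S b t hS hb ht hSN hSF => ?_⟩
    let T : Set V := ((XL hs).Q \ (XL hs).F W ∪ (XR hs).Q \ (XR hs).F W) ∪
      {v | Conn (Xᶜ ∩ rs (4 * s) (9 * s - 1) y0 y1) z' v}
    have hT : Conn T (XL hs).a0 (XR hs).a0 :=
      ((Xp.conn_notF hz).mono fun v hv => Or.inl (Or.inl hv)).trans
        (.head (Or.inl (Or.inl (Xp.conn_notF hz).right)) c3
          ((c6.cluster.mono fun v hv => Or.inr hv).trans (.head (Or.inr c6) c4.symm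
            ((Xp.conn_notF hw).symm.mono fun v hv => Or.inl (Or.inr hv)))))
    obtain ⟨v, hv, hv'⟩ := meet_TB hS hT hb ht
      (by
        rintro v ((h | h) | h)
        · exact h.1.2.2
        · exact h.1.2.2
        · exact (hN (Conn.right h).2).2.2)
      (fun v hv _ => by have := hSN hv; simp only [XL, xpL, NN, mem_rs] at *; omega)
      (fun v hv _ => by have := hSN hv; simp only [XR, xpR, NN, mem_rs] at *; omega)
    rcases hv' with (h | h) | h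
    · exact absurd (hSF v hv).1 h.2
    · exact absurd (hSF v hv).2 h.2
    · exact ⟨v, hv, (g2.symm.trans h).mono (Set.inter_subset_inter_right _ hN)⟩
  obtain ⟨q4, hq4, kq4⟩ := strip _ _ (by omega) (by omega) (by omega) h17
  obtain ⟨q2, hq2, kq2⟩ := strip _ _ (by omega) (by omega) (by omega) h16
  refine ⟨p1, p2, q4, q2, hp1, hp2, hq4, hq2, ?_, ?_⟩
  · rintro Z hZ ⟨p, l, r, f1, f2, c1, c2⟩
    refine blk _ l r (c1.symm.trans c2) (fun v hv => ?_) f1 f2 fun v hv g1 g2 => hZ v hv.1 (nJ v g1 g2)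
    have := hv.2
    simp only [NN, mem_rs] at *; omega
  · by_cases h : HC (4 * s) (9 * s - 1) (-2 * s) (3 * s - 1)
      {v | v ∈ (XL hs).F W → v ∈ (XR hs).F W → v ∈ X}
    · obtain ⟨p, l, r, f1, f2, c1, c2⟩ := h
      exact Or.inl (blk _ l r (c1.symm.trans c2) (fun v hv => hv.2) f1 f2 fun v hv => hv.1)
    · obtain ⟨p, b, t, f1, f2, c1, c2⟩ := VC_of_not_HC (by omega) (by omega) h
      have k : ∀ v, Conn ({v | v ∈ (XL hs).F W → v ∈ (XR hs).F W → v ∈ X}ᶜ ∩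
          rs (4 * s) (9 * s - 1) (-2 * s) (3 * s - 1)) p v →
          (v ∈ (XL hs).F W ∧ v ∈ (XR hs).F W) ∧ v ∈ Xᶜ ∩ NN s := by
        intro v hv
        have := hv.right.1
        simp only [Set.mem_compl_iff, Set.mem_ofPred_eq, Classical.not_imp] at this
        exact ⟨⟨this.1, this.2.1⟩, this.2.2, hv.right.2⟩
      obtain ⟨z4, g1, g2⟩ := kq4 _ b t (c1.cluster' c2) f1 f2 (fun v hv => (k v hv).2.2)
        fun v hv => (k v hv).1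
      obtain ⟨z2, g3, g4⟩ := kq2 _ b t (c1.cluster' c2) f1 f2 (fun v hv => (k v hv).2.2)
        fun v hv => (k v hv).1
      exact Or.inr (g2.trans (((Conn.cluster' g1 g3).mono fun v hv => (k v hv).2).trans g4.symm))

include hs in
theorem big_loop {Y : Set V} {xa xa' ya xt xc xc' yc xb a b : ℤ} {q q' : V}
    (h1 : VCp Y xa xa' ya (5 * s - 1) q) (h2 : HC (-5 * s) xt (4 * s) (5 * s - 1) Y)
    (h3 : VC (-5 * s) (-4 * s - 1) (-5 * s) (5 * s - 1) Y)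
    (h4 : HC (-5 * s) xb (-5 * s) (-4 * s - 1) Y) (h5 : VCp Y xc xc' (-5 * s) yc q')
    (h6 : Conn (Y ∩ rs (4 * s) (9 * s - 1) (-5 * s) (5 * s - 1)) q q')
    (e : 4 * s ≤ xa ∧ xa' ≤ xt ∧ xt < 9 * s ∧ -5 * s ≤ ya ∧ ya ≤ 4 * s ∧ 4 * s ≤ xc ∧ xc' ≤ xb ∧
      xb < 9 * s ∧ -4 * s ≤ yc ∧ yc < 5 * s ∧ a ≤ s ∧ 10 * s ≤ b) : ¬ Arm a b Yᶜ := by
  rintro ⟨u, v, f1, f2, c⟩
  obtain ⟨t, ht⟩ := h2
  obtain ⟨l, hl⟩ := h3
  obtain ⟨bo, hb⟩ := h4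
  have m1 := ht.mem.2
  have m2 := hb.mem.2
  have m3 := h1.mem.2
  have m4 := h5.mem.2
  have hu := nu_le.1 (show nu u ≤ s by omega)
  have hv := le_nu.1 (show 10 * s ≤ nu v by omega)
  rw [mem_rs] at m1 m2 m3 m4 hu
  let D1 : Set V := {w | w ∈ rs (-5 * s) (9 * s - 1) (-5 * s) (5 * s - 1) ∧
    (w.1 < -4 * s ∨ w.2 < -4 * s ∨ 4 * s ≤ w.2)}
  let D2 : Set V := {w | w ∈ rs (-5 * s) (9 * s - 1) (-5 * s) (5 * s - 1) ∧
    (4 * s ≤ w.1 ∨ w.2 < -4 * s ∨ 4 * s ≤ w.2)}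
  have c1 : Conn (Y ∩ D1) bo t :=
    (lk hb hl (by omega) (fun w => by simp only [D1, mem_rs, Set.mem_ofPred_eq]; omega)
      (fun w => by simp only [D1, mem_rs, Set.mem_ofPred_eq]; omega)).trans
    (lk ht hl (by omega) (fun w => by simp only [D1, mem_rs, Set.mem_ofPred_eq]; omega)
      (fun w => by simp only [D1, mem_rs, Set.mem_ofPred_eq]; omega)).symm
  have c2 : Conn (Y ∩ D2) t bo :=
    (lk ht h1 (by omega) (fun w => by simp only [D2, mem_rs, Set.mem_ofPred_eq]; omega)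
      (fun w => by simp only [D2, mem_rs, Set.mem_ofPred_eq]; omega)).trans
    ((h6.mono (Set.inter_subset_inter_right _ fun w => by
      simp only [D2, mem_rs, Set.mem_ofPred_eq]; omega)).trans
    (lk hb h5 (by omega) (fun w => by simp only [D2, mem_rs, Set.mem_ofPred_eq]; omega)
      (fun w => by simp only [D2, mem_rs, Set.mem_ofPred_eq]; omega)).symm)
  obtain ⟨z, hz, hz'⟩ := loop_meet (X0 := -5 * s) (X3 := 9 * s - 1) (Y0 := -5 * s)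
    (Y3 := 5 * s - 1) c1 c2 c (by omega) (by omega)
    (fun w hw e => by have := hw.2.2; omega) (fun w hw e => by have := hw.2.2; omega)
    (fun w hw => hw.2.1) (fun w hw => hw.2.1) (by omega)
  exact hz'.1 (hz.elim (fun h => h.1) (fun h => h.1))

/-- inner piece of an arm -/
def Ain (s a : ℤ) (S : Set V) : Prop := ∃ u v : V, nu u ≤ a ∧
  (v.1 ≤ -4 * s ∨ 4 * s - 1 ≤ v.1 ∨ v.2 ≤ -4 * s ∨ 4 * s - 1 ≤ v.2) ∧
  Conn (S ∩ rs (-4 * s) (4 * s - 1) (-4 * s) (4 * s - 1)) u v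
/-- outer piece of an arm -/
def Aout (s b : ℤ) (S : Set V) : Prop := ∃ u0 u v : V,
  u0 ∈ rs (-9 * s) (9 * s - 1) (-9 * s) (9 * s - 1) ∧ adj u0 u ∧ b ≤ nu v ∧
  Conn (S ∩ (rs (-9 * s) (9 * s - 1) (-9 * s) (9 * s - 1))ᶜ) u v

theorem loc_Ain (s a : ℤ) : Loc (Ain s a) (rs (-4 * s) (4 * s - 1) (-4 * s) (4 * s - 1)) :=
  fun _ _ h ⟨u, v, h1, h2, h3⟩ => ⟨u, v, h1, h2, conn_loc h h3⟩
theorem loc_Aout (s b : ℤ) : Loc (Aout s b) (rs (-9 * s) (9 * s - 1) (-9 * s) (9 * s - 1))ᶜ :=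
  fun _ _ h ⟨u0, u, v, h0, h1, h2, h3⟩ => ⟨u0, u, v, h0, h1, h2, conn_loc h h3⟩

include hs in
theorem Arm.inout {a b : ℤ} {S : Set V} (h : Arm a b S) (ha : a ≤ s) (hb : 10 * s ≤ b) :
    Ain s a S ∧ Aout s b S := by
  obtain ⟨u, v, e1, e2, c⟩ := h
  have hu := nu_le.1 (show nu u ≤ s by omega)
  have hv := le_nu.1 (show 10 * s ≤ nu v by omega)
  rw [mem_rs] at hu
  constructor
  · obtain ⟨v', f1, f2, -⟩ := c.cut_up
      (φ := fun v => max (max (v.1 + 1) (-v.1)) (max (v.2 + 1) (-v.2))) (L := 1)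
      (fun x y h => by unfold adj at h; omega) (b := 4 * s) (by omega) (by omega)
    refine ⟨u, v', e1.le, by omega, f2.mono fun w hw => ⟨hw.1.1, ?_⟩⟩
    have := hw.2
    simp only [mem_rs, Set.mem_ofPred_eq] at *; omega
  · obtain ⟨w, w', -, f2, f3, f4⟩ := c.last_exit
      (C := rs (-9 * s) (9 * s - 1) (-9 * s) (9 * s - 1)) (by rw [mem_rs]; omega)
      (by rw [mem_rs]; omega)
    exact ⟨w, w', v, f2, f3, e2.ge, f4.mono fun x hx => ⟨hx.1.1, hx.2⟩⟩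

include hs in
theorem arm_join {a b : ℤ} {X : Set V} (hab : a ≤ s ∧ 10 * s ≤ b) (h1 : Ain s a X)
    (h2 : Aout s b X) (r1 : Ring (-4 * s) (-3 * s) (3 * s - 1) (4 * s - 1) X)
    (r2 : Ring (-10 * s) (-9 * s) (9 * s - 1) (10 * s - 1) X)
    (h : ∀ p q, VCp X (3 * s - 1 + 1) (4 * s - 1) (-4 * s) (4 * s - 1) p →
      VCp X (9 * s - 1 + 1) (10 * s - 1) (-10 * s) (10 * s - 1) q → Conn X p q) : Arm a b X := by
  obtain ⟨u, v, e1, e2, c1⟩ := h1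
  obtain ⟨w0, w, v', f0, f1, f2, c2⟩ := h2
  obtain ⟨p, hp, k1⟩ := ring_meet r1 (by omega) (by omega) (by omega)
  obtain ⟨q, hq, k2⟩ := ring_meet r2 (by omega) (by omega) (by omega)
  have hu := nu_le.1 (show nu u ≤ s by omega)
  have hv := le_nu.1 (show 10 * s ≤ nu v' by omega)
  obtain ⟨z, hz, -, g1⟩ := k1 _ u v c1.cluster (by rw [mem_rs] at *; omega) e2
  obtain ⟨z', hz', g3, g2⟩ := k2 (insert w0 _) w0 v' (.head (Set.mem_insert _ _) f1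
    (c2.cluster.mono (Set.subset_insert _ _))) f0 (by omega)
  rcases hz' with rfl | hz'
  · exact absurd f0 g3
  exact arm_of_conn ((Conn.mono hz Set.inter_subset_left).trans (g1.symm.trans ((h p q hp hq).trans
    (g2.trans (((Conn.symm hz').trans c2).mono Set.inter_subset_left))))) e1 f2 (by omega)

end gadget

end Pool.Agent.Lib.MP_e26b79_pr
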