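import Mathlib

namespace Pool.Agent.Lib.MP_e26b79_pr

/-- sites of the triangular lattice, in the basis `1, exp (i pi / 3)` -/
abbrev V := ℤ × ℤ

/-- adjacency of the triangular lattice -/
def adj (u v : V) : Prop :=
  (u.2 = v.2 ∧ (v.1 = u.1 + 1 ∨ u.1 = v.1 + 1)) ∨ (u.1 = v.1 ∧ (v.2 = u.2 + 1 ∨ u.2 = v.2 + 1)) ∨
    (v.1 = u.1 + 1 ∧ u.2 = v.2 + 1) ∨ (u.1 = v.1 + 1 ∧ v.2 = u.2 + 1)

instance (u v : V) : Decidable (adj u v) := by unfold adj; infer_instance

theorem adj.symm {u v : V} (h : adj u v) : adj v u := by unfold adj at *; omega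
theorem adj.ne {u v : V} (h : adj u v) : u ≠ v := by
  rintro rfl; unfold adj at h; omega

/-- `u` and `v` are joined by a path inside `S` -/
inductive Conn (S : Set V) (u : V) : V → Prop
  | refl : u ∈ S → Conn S u u
  | step {a b : V} : Conn S u a → adj a b → b ∈ S → Conn S u b

namespace Conn
variable {S S' : Set V} {u v w : V}

theorem left (h : Conn S u v) : u ∈ S := by
  induction h with
  | refl h => exact h
  | step _ _ _ ih => exact ih
theorem right (h : Conn S u v) : v ∈ S := by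
  cases h with
  | refl h => exact h
  | step _ _ h => exact h
theorem mono (h : Conn S u v) (hS : S ⊆ S') : Conn S' u v := by
  induction h with
  | refl h => exact .refl (hS h)
  | step _ h1 h2 ih => exact .step ih h1 (hS h2)
theorem trans (h : Conn S u v) (h' : Conn S v w) : Conn S u w := by
  induction h' with
  | refl _ => exact h
  | step _ h1 h2 ih => exact .step ih h1 h2
theorem single (hu : u ∈ S) (h : adj u v) (hv : v ∈ S) : Conn S u v := .step (.refl hu) h hv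
theorem symm (h : Conn S u v) : Conn S v u := by
  induction h with
  | refl h => exact .refl h
  | step h0 h1 h2 ih => exact (single h2 h1.symm h0.right).trans ih
theorem head (hu : u ∈ S) (h : adj u v) (h' : Conn S v w) : Conn S u w :=
  (single hu h h'.left).trans h'
theorem cluster (h : Conn S u v) : Conn {w | Conn S u w} u v := by
  induction h with
  | refl h => exact .refl (Conn.refl h)
  | step h0 h1 h2 ih => exact .step ih h1 (Conn.step h0 h1 h2)
theorem cluster' (h : Conn S u v) (h' : Conn S u w) : Conn {w | Conn S u w} v w :=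
  h.cluster.symm.trans h'.cluster
theorem map (h : Conn S u v) (φ : V → V) (h1 : ∀ a b, adj a b → φ a = φ b ∨ adj (φ a) (φ b))
    (h2 : ∀ a ∈ S, φ a ∈ S') : Conn S' (φ u) (φ v) := by
  induction h with
  | refl h => exact .refl (h2 _ h)
  | step _ h3 h4 ih =>
    rcases h1 _ _ h3 with e | e
    · exact e ▸ ih
    · exact .step ih e (h2 _ h4)
theorem closed {P : V → Prop} (h : Conn S u v) (hu : P u)
    (hP : ∀ a b, a ∈ S → b ∈ S → adj a b → P a → P b) : P v := by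
  induction h with
  | refl _ => exact hu
  | step h0 h1 h2 ih => exact hP _ _ h0.right h2 h1 ih
theorem first_hit {C : Set V} (h : Conn S u v) (hu : u ∉ C) (hv : v ∈ C) :
    ∃ w w', Conn (S \ C) u w ∧ adj w w' ∧ w' ∈ C ∧ Conn S w' v := by
  have : Conn (S \ C) u v ∨ ∃ w w', Conn (S \ C) u w ∧ adj w w' ∧ w' ∈ C ∧ Conn S w' v := by
    clear hv
    induction h with
    | refl h => exact Or.inl (.refl ⟨h, hu⟩)
    | @step a b h0 h1 h2 ih =>
      rcases ih with ih | ⟨w, w', e1, e2, e3, e4⟩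
      · by_cases hb : b ∈ C
        · exact Or.inr ⟨a, b, ih, h1, hb, .refl h2⟩
        · exact Or.inl (.step ih h1 ⟨h2, hb⟩)
      · exact Or.inr ⟨w, w', e1, e2, e3, .step e4 h1 h2⟩
  rcases this with h | h
  · exact absurd hv h.right.2
  · exact h
theorem last_exit {C : Set V} (h : Conn S u v) (hu : u ∈ C) (hv : v ∉ C) :
    ∃ w w', Conn S u w ∧ w ∈ C ∧ adj w w' ∧ Conn (S \ C) w' v := by
  obtain ⟨w, w', e1, e2, e3, e4⟩ := h.symm.first_hit hv hu
  exact ⟨w', w, e4.symm, e3, e2.symm, e1.symm⟩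

theorem cut_up {φ : V → ℤ} {L : ℤ} (hφ : ∀ a b, adj a b → φ b ≤ φ a + L) (h : Conn S u v)
    {b : ℤ} (hu : φ u ≤ b) (hv : b - L < φ v) :
    ∃ v', b - L < φ v' ∧ Conn (S ∩ {w | φ w ≤ b}) u v' ∧ Conn S v' v := by
  by_cases h0 : b - L < φ u
  · exact ⟨u, h0, .refl ⟨h.left, hu⟩, h⟩
  · obtain ⟨w, w', e1, e2, e3, e4⟩ := h.first_hit (C := {w | b - L < φ w}) h0 hv
    have hL : 0 ≤ L := by have := hφ _ _ e2; have := hφ _ _ e2.symm; omega
    refine ⟨w', e3, .step (e1.mono ?_) e2 ⟨e4.left, ?_⟩, e4⟩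
    · rintro x ⟨hx, hx'⟩
      refine ⟨hx, ?_⟩
      simp only [Set.mem_ofPred_eq] at hx' ⊢
      omega
    · have := e1.right.2
      have := hφ _ _ e2
      simp only [Set.mem_ofPred_eq] at *
      omega

theorem cut {φ : V → ℤ} {L : ℤ} (hφ : ∀ a b, adj a b → φ b ≤ φ a + L) (h : Conn S u v)
    {a b : ℤ} (hab : a + L ≤ b + 1) (hu : φ u < a + L) (hv : b - L < φ v) :
    ∃ u' v', φ u' < a + L ∧ b - L < φ v' ∧ Conn (S ∩ {w | a ≤ φ w ∧ φ w ≤ b}) u' v' ∧
      Conn S u u' ∧ Conn S v' v := by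
  obtain ⟨v', e1, e2, e3⟩ := h.cut_up hφ (b := b) (by omega) hv
  by_cases hc : a ≤ φ v'
  · obtain ⟨u', f1, f2, f3⟩ := e2.symm.cut_up (φ := fun w => - φ w) (L := L)
      (fun x y hxy => by have := hφ _ _ hxy.symm; omega) (b := -a) (by omega) (by omega)
    refine ⟨u', v', by omega, e1, f2.symm.mono ?_, f3.symm.mono Set.inter_subset_left, e3⟩
    rintro x ⟨⟨h1, h2⟩, h3⟩
    simp only [Set.mem_ofPred_eq] at h2 h3
    exact ⟨h1, by omega, h2⟩
  · obtain ⟨w, w', e1', e2', e3', e4'⟩ := e3.first_hit (C := {w | a ≤ φ w}) hc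
      (by simp only [Set.mem_ofPred_eq]; omega)
    have := e1'.right.2
    have := hφ _ _ e2'
    simp only [Set.mem_ofPred_eq] at *
    refine ⟨w', w', by omega, by omega, .refl ⟨e4'.left, e3', by omega⟩, ?_, e4'⟩
    exact (e2.mono Set.inter_subset_left).trans
      (.step (e1'.mono Set.sdiff_subset) e2' e4'.left)

theorem cut1 {φ : V → ℤ} (hφ : ∀ a b, adj a b → φ b ≤ φ a + 1) (h : Conn S u v)
    {a b : ℤ} (hab : a ≤ b) (hu : φ u ≤ a) (hv : b ≤ φ v) :
    ∃ u' v', φ u' = a ∧ φ v' = b ∧ Conn (S ∩ {w | a ≤ φ w ∧ φ w ≤ b}) u' v' ∧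
      Conn S u u' ∧ Conn S v' v := by
  obtain ⟨u', v', e1, e2, e3, e4, e5⟩ := h.cut hφ (a := a) (b := b) (by omega)
    (by omega) (by omega)
  have := e3.left.2
  have := e3.right.2
  simp only [Set.mem_ofPred_eq] at *
  exact ⟨u', v', by omega, by omega, e3, e4, e5⟩

end Conn

theorem lip1 (a b : V) (h : adj a b) : b.1 ≤ a.1 + 1 := by unfold adj at h; omega
theorem lip2 (a b : V) (h : adj a b) : b.2 ≤ a.2 + 1 := by unfold adj at h; omega

theorem conn_row {S : Set V} {y a b : ℤ} (hab : a ≤ b) (h : ∀ x, a ≤ x → x ≤ b → (x, y) ∈ S) :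
    Conn S (a, y) (b, y) := by
  induction b, hab using Int.leInduction with
  | base => exact .refl (h a le_rfl le_rfl)
  | succ n hn ih =>
    exact .step (ih fun x h1 h2 => h x h1 (by omega)) (by simp [adj]) (h _ (by omega) le_rfl)
theorem conn_col {S : Set V} {x a b : ℤ} (hab : a ≤ b) (h : ∀ y, a ≤ y → y ≤ b → (x, y) ∈ S) :
    Conn S (x, a) (x, b) := by
  induction b, hab using Int.leInduction with
  | base => exact .refl (h a le_rfl le_rfl)
  | succ n hn ih =>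
    exact .step (ih fun x h1 h2 => h x h1 (by omega)) (by simp [adj]) (h _ (by omega) le_rfl)

theorem exists_antider (a : ℤ → ℤ) : ∃ A : ℤ → ℤ, A 0 = 0 ∧ ∀ n, A (n + 1) = A n + a n := by
  refine ⟨fun n => ∑ k ∈ Finset.Ico 0 n, a k - ∑ k ∈ Finset.Ico n 0, a k, by simp, fun n => ?_⟩
  dsimp only
  rcases le_or_gt 0 n with h | h
  · rw [Finset.Ico_eq_empty (a := n + 1) (by omega), Finset.Ico_eq_empty (a := n) (by omega),
      ← Finset.insert_Ico_right_eq_Ico_add_one h, Finset.sum_insert (by simp)]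
    simp; ring
  · rw [Finset.Ico_eq_empty (b := n + 1) (by omega), Finset.Ico_eq_empty (b := n) (by omega),
      ← Finset.insert_Ico_add_one_left_eq_Ico h, Finset.sum_insert (by simp)]
    simp

/-- the triangular lattice is simply connected -/
theorem cocycle (φ : V → V → ℤ) (hs : ∀ u v, φ u v = φ v u)
    (ht : ∀ u v w, adj u v → adj v w → adj w u → (φ u v + φ v w + φ w u) % 2 = 0) :
    ∃ ψ : V → ℤ, ∀ u v, adj u v → (φ u v + ψ u + ψ v) % 2 = 0 := by
  obtain ⟨A, -, hA⟩ := exists_antider (fun j => φ (0, j) (0, j + 1))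
  choose H hH0 hH using fun j => exists_antider (fun i => φ (i, j) (i + 1, j))
  have up : ∀ i j, (φ (i, j) (i + 1, j) + φ (i + 1, j) (i, j + 1) + φ (i, j) (i, j + 1)) % 2 = 0 := by
    intro i j
    rw [hs (i, j) (i, j + 1)]
    exact ht _ _ _ (by simp [adj]) (by simp [adj]) (by simp [adj])
  have dn : ∀ i j, (φ (i + 1, j) (i, j + 1) + φ (i, j + 1) (i + 1, j + 1) +
      φ (i + 1, j) (i + 1, j + 1)) % 2 = 0 := by
    intro i j
    rw [hs (i + 1, j) (i + 1, j + 1)]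
    exact ht _ _ _ (by simp [adj]) (by simp [adj]) (by simp [adj])
  have ver : ∀ j i, (φ (i, j) (i, j + 1) + (A j + H j i) + (A (j + 1) + H (j + 1) i)) % 2 = 0 := by
    intro j i
    induction i using Int.induction_on with
    | zero => rw [hH0, hH0, hA]; omega
    | succ i ih =>
      have := up i j
      have := dn i j
      rw [hH, hH]
      omega
    | pred i ih =>
      have h1 := up (-i - 1) j
      have h2 := dn (-i - 1) j
      have h3 := hH j (-i - 1)
      have h4 := hH (j + 1) (-i - 1)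
      simp only [sub_add_cancel] at h1 h2 h3 h4
      omega
  refine ⟨fun v => A v.2 + H v.2 v.1, ?_⟩
  rintro ⟨i, j⟩ ⟨i', j'⟩ h
  simp only [adj] at h
  dsimp only
  rcases h with ⟨rfl, rfl | rfl⟩ | ⟨rfl, rfl | rfl⟩ | ⟨rfl, rfl⟩ | ⟨rfl, rfl⟩
  · rw [hH]; omega
  · rw [hH, hs]; omega
  · exact ver _ _
  · have := ver j' i
    rw [hs]; omega
  · have := up i j'
    have := ver j' i
    rw [hH, hs]; omega
  · have := up i' j
    have := ver j i'
    rw [hH]; omega

/-- `Q` is a retract of the lattice -/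
def Retr (Q : Set V) : Prop :=
  ∃ r : V → V, (∀ v, r v ∈ Q) ∧ (∀ v ∈ Q, r v = v) ∧
    ∀ u v, adj u v → r u = r v ∨ adj (r u) (r v)

open Classical in
theorem tri_par (a1 a2 b1 b2 c1 c2 : Prop) (k1 : a1 → c2 → b1 ∨ b2) (k2 : b1 → a2 → c1 ∨ c2)
    (k3 : c1 → b2 → a1 ∨ a2) (k4 : c1 → a2 → b1 ∨ b2) (k5 : a1 → b2 → c1 ∨ c2)
    (k6 : b1 → c2 → a1 ∨ a2) (d1 : a2 → a1 → False) (d2 : b2 → b1 → False)
    (d3 : c2 → c1 → False) :
    ((if (a1 ∧ b2) ∨ (b1 ∧ a2) then (1:ℤ) else 0) + (if (b1 ∧ c2) ∨ (c1 ∧ b2) then 1 else 0) +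
      (if (c1 ∧ a2) ∨ (a1 ∧ c2) then 1 else 0)) % 2 = 0 := by
  by_cases h1 : a1 <;> by_cases h2 : a2 <;> by_cases h3 : b1 <;>
    by_cases h4 : b2 <;> by_cases h5 : c1 <;> by_cases h6 : c2 <;> simp_all

/-- connectedness of the visible boundary -/
theorem timar {Q C D : Set V} (hQ : Retr Q) (hCQ : C ⊆ Q) (hDQ : D ⊆ Q) (hCD : Disjoint C D)
    (hC : ∀ a ∈ C, ∀ b ∈ C, Conn C a b) (hD : ∀ a ∈ D, ∀ b ∈ D, Conn D a b)
    (hcl : ∀ d ∈ D, ∀ w ∈ Q, adj d w → w ∈ D ∨ w ∈ C) {s t : V}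
    (hs : s ∈ {d | d ∈ D ∧ ∃ c ∈ C, adj d c}) (ht : t ∈ {d | d ∈ D ∧ ∃ c ∈ C, adj d c}) :
    Conn {d | d ∈ D ∧ ∃ c ∈ C, adj d c} s t := by
  classical
  obtain ⟨r, hr1, hr2, hr3⟩ := hQ
  set S := {d | d ∈ D ∧ ∃ c ∈ C, adj d c} with hS
  by_contra hst
  set S1 := {w | Conn S s w} with hS1
  have hS1D : ∀ w ∈ S1, w ∈ D := fun w hw => (Conn.right hw).1
  have hdis : ∀ w, w ∈ C → w ∈ D → False := fun w h1 h2 => Set.disjoint_left.1 hCD h1 h2
  let φ0 : V → V → ℤ := fun a b => if (a ∈ S1 ∧ b ∈ C) ∨ (b ∈ S1 ∧ a ∈ C) then 1 else 0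
  have hs0 : ∀ a b, φ0 a b = φ0 b a := fun a b => by simp only [φ0, or_comm]
  have h00 : ∀ a, φ0 a a = 0 := fun a => by
    have := hS1D a
    have := hdis a
    simp only [φ0]
    rw [if_neg]
    tauto
  have key : ∀ a b c, a ∈ S1 → b ∈ Q → c ∈ C → adj a b → adj b c → b ∈ S1 ∨ b ∈ C := by
    intro a b c ha hb hc hab hbc
    rcases hcl a (hS1D a ha) b hb hab with h | h
    · exact Or.inl (Conn.step ha hab ⟨h, c, hc, hbc⟩)
    · exact Or.inr h
  have ht0 : ∀ a b c, a ∈ Q → b ∈ Q → c ∈ Q → adj a b → adj b c → adj c a →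
      (φ0 a b + φ0 b c + φ0 c a) % 2 = 0 := by
    intro a b c ha hb hc hab hbc hca
    have k1 := fun h1 h2 => key a b c h1 hb h2 hab hbc
    have k2 := fun h1 h2 => key b c a h1 hc h2 hbc hca
    have k3 := fun h1 h2 => key c a b h1 ha h2 hca hab
    have k4 := fun h1 h2 => key c b a h1 hb h2 hbc.symm hab.symm
    have k5 := fun h1 h2 => key a c b h1 hc h2 hca.symm hbc.symm
    have k6 := fun h1 h2 => key b a c h1 ha h2 hab.symm hca.symm
    have d1 := fun h1 h2 => hdis a h1 (hS1D a h2)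
    have d2 := fun h1 h2 => hdis b h1 (hS1D b h2)
    have d3 := fun h1 h2 => hdis c h1 (hS1D c h2)
    have := tri_par _ _ _ _ _ _ k1 k2 k3 k4 k5 k6 d1 d2 d3
    simp only [φ0]
    split_ifs at this ⊢ <;> first | rfl | exact this
  obtain ⟨ψ, hψ⟩ := cocycle (fun u v => φ0 (r u) (r v)) (fun u v => hs0 _ _) (by
    intro u v w h1 h2 h3
    rcases hr3 _ _ h1 with e1 | e1
    · rw [e1, h00, hs0 (r w)]; omega
    rcases hr3 _ _ h2 with e2 | e2
    · rw [e2, h00, hs0 (r w)]; omega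
    rcases hr3 _ _ h3 with e3 | e3
    · rw [e3, h00, hs0 (r v)]; omega
    exact ht0 _ _ _ (hr1 _) (hr1 _) (hr1 _) e1 e2 e3)
  have hψ' : ∀ u ∈ Q, ∀ v ∈ Q, adj u v → (φ0 u v + ψ u + ψ v) % 2 = 0 := by
    intro u hu v hv h
    have := hψ u v h
    simp only [hr2 u hu, hr2 v hv] at this
    exact this
  obtain ⟨hsD, c, hc, hsc⟩ := hs
  obtain ⟨htD, c', hc', htc⟩ := ht
  have e1 : (ψ s + ψ t) % 2 = 0 := by
    refine (hD s hsD t htD).closed (P := fun w => (ψ s + ψ w) % 2 = 0) (by omega) ?_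
    intro a b ha hb hab h
    have := hψ' a (hDQ ha) b (hDQ hb) hab
    have e : φ0 a b = 0 := by
      have := hdis a
      have := hdis b
      simp only [φ0]
      rw [if_neg]
      tauto
    omega
  have e2 : (ψ c + ψ c') % 2 = 0 := by
    refine (hC c hc c' hc').closed (P := fun w => (ψ c + ψ w) % 2 = 0) (by omega) ?_
    intro a b ha hb hab h
    have := hψ' a (hCQ ha) b (hCQ hb) hab
    have e : φ0 a b = 0 := by
      have := hdis a
      have := hdis b
      have := hS1D a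
      have := hS1D b
      simp only [φ0]
      rw [if_neg]
      tauto
    omega
  have e3 := hψ' s (hDQ hsD) c (hCQ hc) hsc
  have e4 := hψ' t (hDQ htD) c' (hCQ hc') htc
  have e5 : φ0 s c = 1 := if_pos (Or.inl ⟨Conn.refl ⟨hsD, c, hc, hsc⟩, hc⟩)
  have e6 : φ0 t c' = 0 := by
    simp only [φ0]
    rw [if_neg]
    rintro (h | h)
    · exact hst h.1
    · exact hdis t h.2 htD
  omega

/-- crossings of the horizontal ray to the left of `u`, at height half above `u` -/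
def ray (u a b : V) : ℤ :=
  if (a.2 = u.2 ∧ b.2 = u.2 + 1 ∧ a.1 < u.1) ∨ (b.2 = u.2 ∧ a.2 = u.2 + 1 ∧ b.1 < u.1) then 1
  else 0

/-- the set swept by the ray between two adjacent sites -/
def swp (u u' w : V) : ℤ :=
  if (u'.2 = u.2 + 1 ∧ w.2 = u'.2 ∧ w.1 < u'.1) ∨ (u.2 = u'.2 + 1 ∧ w.2 = u.2 ∧ w.1 < u.1) then 1
  else 0

theorem ray_symm (u a b : V) : ray u a b = ray u b a := by simp only [ray, or_comm]
theorem swp_symm (u u' w : V) : swp u u' w = swp u' u w := by simp only [swp, or_comm]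

/-- the three forward steps -/
def fwd (u v : V) : Prop :=
  v = (u.1 + 1, u.2) ∨ v = (u.1, u.2 + 1) ∨ v = (u.1 - 1, u.2 + 1)

theorem adj.fwd {u v : V} (h : adj u v) : fwd u v ∨ fwd v u := by
  obtain ⟨u1, u2⟩ := u
  obtain ⟨v1, v2⟩ := v
  simp only [adj, MP_e26b79_pr.fwd, Prod.mk.injEq] at *
  omega

theorem ray_step0 {u u' a b : V} (h : fwd u u') (hab : fwd a b) (h1 : a ≠ u) (h2 : a ≠ u')
    (h3 : b ≠ u) (h4 : b ≠ u') : (ray u a b + ray u' a b + swp u u' a + swp u u' b) % 2 = 0 := by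
  obtain ⟨u1, u2⟩ := u
  obtain ⟨a1, a2⟩ := a
  rcases h with rfl | rfl | rfl <;> rcases hab with rfl | rfl | rfl <;>
  simp only [ne_eq, Prod.mk.injEq, ray, swp, true_and] at * <;> split_ifs <;> omega

theorem ray_step {u u' a b : V} (h : adj u u') (hab : adj a b) (h1 : a ≠ u) (h2 : a ≠ u')
    (h3 : b ≠ u) (h4 : b ≠ u') : (ray u a b + ray u' a b + swp u u' a + swp u u' b) % 2 = 0 := by
  rcases h.fwd with h | h <;> rcases hab.fwd with hab | hab
  · exact ray_step0 h hab h1 h2 h3 h4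
  · have := ray_step0 h hab h3 h4 h1 h2
    rw [ray_symm u, ray_symm u']; omega
  · have := ray_step0 h hab h2 h1 h4 h3
    rw [swp_symm u, swp_symm u]; omega
  · have := ray_step0 h hab h4 h3 h2 h1
    rw [swp_symm u, swp_symm u, ray_symm u, ray_symm u']; omega

theorem exists_index {S : Set V} {a b : V} (h : Conn S a b) :
    ∃ n : V → ℤ,
      (∀ u u', adj u u' → u ∉ S → u' ∉ S → (n u + n u' + swp u u' a + swp u u' b) % 2 = 0) ∧
      (∀ u, (∀ w ∈ S, w.2 = u.2 → u.1 ≤ w.1) → n u = 0) ∧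
      (∀ u, (∀ w ∈ S, w.2 = u.2 → w.1 < u.1) →
        (n u + (if a.2 ≤ u.2 then 1 else 0) + (if b.2 ≤ u.2 then 1 else 0)) % 2 = 0) := by
  induction h with
  | refl h => exact ⟨fun _ => 0, fun u u' _ _ _ => by dsimp only; omega, fun _ _ => rfl, fun u _ => by
      split_ifs <;> rfl⟩
  | @step c d h0 h1 h2 ih =>
    obtain ⟨n, i1, i2, i3⟩ := ih
    have hc := h0.right
    refine ⟨fun u => n u + ray u c d, fun u u' huu hu hu' => ?_, fun u hu => ?_, fun u hu => ?_⟩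
    · have := i1 u u' huu hu hu'
      have := ray_step huu h1 (fun e => hu (e ▸ hc)) (fun e => hu' (e ▸ hc))
        (fun e => hu (e ▸ h2)) (fun e => hu' (e ▸ h2))
      dsimp only
      omega
    · have := hu c hc
      have := hu d h2
      simp only [i2 u hu, ray]
      rw [if_neg (by omega)]
      rfl
    · have e1 := hu c hc
      have e2 := hu d h2
      have e3 := i3 u hu
      simp only [ray]
      unfold adj at h1
      split_ifs at e3 ⊢ <;> omega

/-- two paths that have to cross do meet -/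
theorem meet_of_cross {S T : Set V} {a b u v : V} (hS : Conn S a b) (hT : Conn T u v)
    (hr : ∀ t ∈ T, a.2 ≤ t.2 ∧ t.2 < b.2) (hu : ∀ w ∈ S, w.2 = u.2 → u.1 ≤ w.1)
    (hv : ∀ w ∈ S, w.2 = v.2 → w.1 ≤ v.1) : ∃ z, z ∈ S ∧ z ∈ T := by
  by_contra hc
  have hd : ∀ z ∈ T, z ∉ S := fun z h1 h2 => hc ⟨z, h2, h1⟩
  obtain ⟨n, i1, i2, i3⟩ := exists_index hS
  have e1 : n v % 2 = 0 := by
    refine hT.closed (P := fun w => n w % 2 = 0) (by rw [i2 u hu]; rfl) ?_
    intro x y hx hy hxy h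
    have := i1 x y hxy (hd x hx) (hd y hy)
    have := hr x hx
    have := hr y hy
    have e1 : swp x y a = 0 := if_neg (by omega)
    have e2 : swp x y b = 0 := if_neg (by omega)
    omega
  have e2 := i3 v fun w hw h => by
    have := hv w hw h
    have : w ≠ v := fun e => hd v hT.right (e ▸ hw)
    have : w.1 ≠ v.1 := fun e => this (Prod.ext e h)
    omega
  have := hr v hT.right
  rw [if_pos (by omega), if_neg (by omega)] at e2
  omega

/-- a loop that winds around separates -/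
theorem meet_of_loop {S1 S2 T : Set V} {a b u v : V} (h1 : Conn S1 a b) (h2 : Conn S2 b a)
    (hT : Conn T u v) (ha : a.2 ≤ u.2) (hb : u.2 < b.2)
    (hu1 : ∀ w ∈ S1, w.2 = u.2 → w.1 < u.1) (hu2 : ∀ w ∈ S2, w.2 = u.2 → u.1 ≤ w.1)
    (hv1 : ∀ w ∈ S1, w.2 = v.2 → v.1 ≤ w.1) (hv2 : ∀ w ∈ S2, w.2 = v.2 → v.1 ≤ w.1) :
    ∃ z, (z ∈ S1 ∨ z ∈ S2) ∧ z ∈ T := by
  by_contra hc
  have hd1 : ∀ z ∈ T, z ∉ S1 := fun z h1 h2 => hc ⟨z, Or.inl h2, h1⟩
  have hd2 : ∀ z ∈ T, z ∉ S2 := fun z h1 h2 => hc ⟨z, Or.inr h2, h1⟩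
  obtain ⟨n, i1, i2, i3⟩ := exists_index h1
  obtain ⟨m, j1, j2, -⟩ := exists_index h2
  have e1 : (n v + m v) % 2 = 1 := by
    refine hT.closed (P := fun w => (n w + m w) % 2 = 1) ?_ ?_
    · have := i3 u hu1
      rw [if_pos ha, if_neg (by omega)] at this
      rw [j2 u hu2]
      omega
    · intro x y hx hy hxy h
      have := i1 x y hxy (hd1 x hx) (hd1 y hy)
      have := j1 x y hxy (hd2 x hx) (hd2 y hy)
      omega
  rw [i2 v hv1, j2 v hv2] at e1
  omega

end Pool.Agent.Lib.MP_e26b79_pr
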