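import Pool.Agent.Lib.MP_e26b79_pr.Chain
import Pool.Agent.Lib.MP_e26b79_pr.Arms
import Pool.Agent.Lib.MP_e26b79_pr.Defs

namespace Pool.Agent.Lib.MP_e26b79_pr
open Finset Filter Topology
open scoped NNReal

variable {n : Sym2 V → ℝ≥0 → ℕ} (hn : ∀ e, Monotone (n e))

include hn in
theorem Src.back {x y : V} {t : ℝ≥0} (h : Src n x t y) :
    ∀ r ≤ t, (∀ z, n s(x, z) t = n s(x, z) r) → Src n x r y := by
  induction h with
  | start x => intro r hr _; rw [nonpos_iff_eq_zero.1 hr]; exact .start x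
  | @stay x y r0 t h1 h2 h3 ih =>
    intro r hr h
    rcases le_total r0 r with e | e
    · exact .stay e (fun w => by rw [← h w, h2 w]) h3
    · exact ih r e fun w => by rw [← h w, h2 w]
  | @swap x z y r0 t h1 h2 h3 h4 h5 _ =>
    intro r hr h
    rcases le_total r0 r with e | e
    · refine .swap e (by rw [← h z, h2]) (fun w hw => by rw [← h w, h3 w hw]) (fun w hw => ?_) h5
      have := h4 w hw
      have := hn s(z, w) e
      have := hn s(z, w) hr
      omega
    · have := hn s(x, z) e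
      have := h z
      omega

include hn in
theorem Src.back_swap {x y : V} {t : ℝ≥0} (h : Src n x t y) :
    ∀ z, ∀ r ≤ t, n s(x, z) t = n s(x, z) r + 1 → (∀ w, w ≠ z → n s(x, w) t = n s(x, w) r) →
      (∀ w, w ≠ x → n s(z, w) t = n s(z, w) r) → Src n z r y := by
  induction h with
  | start x => intro z r hr h; rw [nonpos_iff_eq_zero.1 hr] at h; omega
  | @stay x y r0 t h1 h2 h3 ih =>
    intro z r hr a1 a2 a3
    rcases le_total r0 r with e | e
    · have := hn s(x, z) e
      have := h2 z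
      omega
    · refine ih z r e (by rw [← h2, a1]) (fun w hw => by rw [← h2, a2 w hw]) fun w hw => ?_
      have := a3 w hw
      have := hn s(z, w) e
      have := hn s(z, w) h1
      omega
  | @swap x z0 y r0 t h1 h2 h3 h4 h5 _ =>
    intro z r hr a1 a2 a3
    rcases le_total r0 r with e | e
    · have e1 : z = z0 := by
        by_contra h6
        have := h3 z h6
        have := hn s(x, z) e
        omega
      subst e1
      refine .stay e (fun w => ?_) h5
      by_cases hw : w = x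
      · rw [hw, Sym2.eq_swap]; omega
      · rw [← a3 w hw, h4 w hw]
    · have e1 : z0 = z := by
        by_contra h6
        have := a2 z0 h6
        have := hn s(x, z0) e
        omega
      subst e1
      refine h5.back hn r e fun w => ?_
      by_cases hw : w = x
      · rw [hw, Sym2.eq_swap]; omega
      · rw [← a3 w hw, h4 w hw]

theorem Src.zero {x y : V} {t : ℝ≥0} (h : Src n x t y) : t = 0 → y = x := by
  induction h with
  | start x => exact fun _ => rfl
  | stay h1 _ _ ih => exact fun e => ih (nonpos_iff_eq_zero.1 (e ▸ h1))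
  | swap h1 h2 =>
    rintro rfl
    rw [nonpos_iff_eq_zero.1 h1] at h2
    omega

include hn in
theorem Src.unique {x y : V} {t : ℝ≥0} (h : Src n x t y) : ∀ y', Src n x t y' → y' = y := by
  induction h with
  | start x => exact fun y' h => h.zero rfl
  | stay h1 h2 _ ih => exact fun y' h => ih y' (h.back hn _ h1 h2)
  | swap h1 h2 h3 h4 _ ih => exact fun y' h => ih y' (h.back_swap hn _ _ h1 h2 h3 h4)

include hn in
theorem black_move {c : V → Bool} {x : V} {t t' : ℝ≥0} (h : ∀ z, n s(x, z) t = n s(x, z) t')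
    (hx : x ∈ black n c t) : x ∈ black n c t' := by
  obtain ⟨⟨y, h1⟩, h2⟩ := hx
  have : Src n x t' y := by
    rcases le_total t t' with e | e
    · exact .stay e (fun z => (h z).symm) h1
    · exact h1.back hn _ e h
  exact ⟨⟨y, this⟩, fun y' h3 => this.unique hn y' h3 ▸ h2 y h1⟩

/-- exchange across a pair -/
def swe (e : Sym2 V) : Finset V → Finset V :=
  Sym2.lift ⟨fun x y => sw x y, fun x y => by funext T; simp only [sw, Equiv.swap_comm]⟩ e

theorem swe_mk (x y : V) : swe s(x, y) = sw x y := rfl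

/-- time grid -/
noncomputable def tk (T : ℝ≥0) (j k : ℕ) : ℝ≥0 := k * (T / 2 ^ j)
theorem tk_mono (T : ℝ≥0) (j : ℕ) : Monotone (tk T j) := fun a b h => by
  unfold tk; gcongr
theorem tk_zero (T : ℝ≥0) (j : ℕ) : tk T j 0 = 0 := by simp [tk]
theorem tk_last (T : ℝ≥0) (j : ℕ) : tk T j (2 ^ j) = T := by
  unfold tk; push_cast; field_simp

/-- increments on the grid -/
noncomputable def inc (n : Sym2 V → ℝ≥0 → ℕ) (T : ℝ≥0) (j k : ℕ) (e : Sym2 V) : ℕ :=
  n e (tk T j (k + 1)) - n e (tk T j k)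
noncomputable def rings (n : Sym2 V → ℝ≥0 → ℕ) (T : ℝ≥0) (j : ℕ) (E : Finset (Sym2 V)) (k : ℕ) :
    Finset (Sym2 V) := E.filter fun e => inc n T j k e ≠ 0
/-- the clocks of `e` and `e'` do not ring twice in one step -/
def sep (n : Sym2 V → ℝ≥0 → ℕ) (T : ℝ≥0) (j : ℕ) (e e' : Sym2 V) : Prop :=
  ∀ k < 2 ^ j, inc n T j k e ≤ 1 ∧ (inc n T j k e ≠ 0 → inc n T j k e' ≠ 0 → e = e')

include hn in
theorem run_src {T : ℝ≥0} {j : ℕ} {D : Set V} {E0 : Set (Sym2 V)}
    (hD : ∀ x ∈ D, ∀ z, n s(x, z) T ≠ n s(x, z) 0 → z ∈ D ∧ s(x, z) ∈ E0)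
    (hs : ∀ e ∈ E0, ∀ e' ∈ E0, sep n T j e e') : ∀ k ≤ 2 ^ j, ∀ x ∈ D, ∃ y ∈ D,
      Src n x (tk T j k) y ∧ ∀ E : Finset (Sym2 V), (E : Set (Sym2 V)) ⊆ E0 →
        (∀ x ∈ D, ∀ z, n s(x, z) T ≠ n s(x, z) 0 → s(x, z) ∈ E) →
        ∀ X, (x ∈ run swe (rings n T j E) X k ↔ y ∈ X) := by
  intro k
  induction k with
  | zero => exact fun _ x hx => ⟨x, hx, tk_zero T j ▸ .start x, fun _ _ _ _ => Iff.rfl⟩
  | succ k ih =>
    intro hk x hx
    have t1 : tk T j k ≤ tk T j (k + 1) := tk_mono T j (Nat.le_succ k)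
    have t2 : tk T j (k + 1) ≤ T := (tk_mono T j hk).trans (tk_last T j).le
    have op : ∀ e, inc n T j k e ≠ 0 → n e T ≠ n e 0 := fun e h => by
      have := hn e t2
      have := hn e (zero_le (a := tk T j k))
      unfold inc at h
      omega
    have cst : ∀ e, inc n T j k e = 0 → n e (tk T j (k + 1)) = n e (tk T j k) := fun e h => by
      have := hn e t1
      unfold inc at h
      omega
    by_cases h : ∃ z, inc n T j k s(x, z) ≠ 0
    · obtain ⟨z, hz⟩ := h
      obtain ⟨a1, a2⟩ := hD x hx z (op _ hz)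
      obtain ⟨y, b1, b2, b3⟩ := ih (by omega) z a1
      have uq : ∀ e ∈ E0, inc n T j k e ≠ 0 → e = s(x, z) := fun e he h =>
        (hs e he _ a2 k hk).2 h hz
      refine ⟨y, b1, .swap t1 ?_ (fun w hw => cst _ (by_contra fun h => hw ?_))
        (fun w hw => cst _ (by_contra fun h => hw ?_)) b2, fun E c1 c2 X => ?_⟩
      · have := (hs _ a2 _ a2 k hk).1
        unfold inc at this hz
        omega
      · exact Sym2.congr_right.1 (uq _ (hD x hx w (op _ h)).2 h)
      · have := uq _ (hD z a1 w (op _ h)).2 h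
        rw [Sym2.eq_swap (a := x)] at this
        exact Sym2.congr_right.1 this
      · have : rings n T j E k = {s(x, z)} := by
          ext e
          simp only [rings, mem_filter, mem_singleton]
          exact ⟨fun h => uq e (c1 h.1) h.2, fun h => h ▸ ⟨c2 x hx z (op _ hz), hz⟩⟩
        rw [run, this, tau_single, swe_mk, mem_sw, Equiv.swap_apply_left, b3 E c1 c2]
    · obtain ⟨y, b1, b2, b3⟩ := ih (by omega) x hx
      refine ⟨y, b1, .stay t1 (fun w => cst _ (by_contra fun h5 => h ⟨w, h5⟩)) b2,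
        fun E c1 c2 X => ?_⟩
      rw [run, ← b3 E c1 c2 X]
      rcases tau_cases swe (rings n T j E k) with ⟨e, d1, d2⟩ | d2 <;> rw [d2]
      · have d3 : inc n T j k e ≠ 0 := (mem_filter.1 (d1 ▸ mem_singleton_self e :
          e ∈ rings n T j E k)).2
        induction e using Sym2.ind with
        | _ a b =>
        rw [swe_mk, mem_sw, Equiv.swap_apply_of_ne_of_ne]
        · rintro rfl; exact h ⟨b, d3⟩
        · rintro rfl; exact h ⟨a, by rwa [Sym2.eq_swap]⟩
      · rfl

theorem grid_left {T t : ℝ≥0} (j : ℕ) (h0 : 0 < t) (h : t ≤ T) :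
    ∃ k < 2 ^ j, tk T j k < t ∧ t ≤ tk T j (k + 1) := by
  classical
  have ex : ∃ k, t ≤ tk T j k := ⟨2 ^ j, (tk_last T j).symm ▸ h⟩
  have h1 := Nat.find_spec ex
  have h2 : Nat.find ex ≤ 2 ^ j := Nat.find_min' ex ((tk_last T j).symm ▸ h)
  have h3 : Nat.find ex ≠ 0 := fun e => by rw [e, tk_zero] at h1; exact absurd h0 (not_lt.2 h1)
  obtain ⟨k, hk⟩ := Nat.exists_eq_succ_of_ne_zero h3
  exact ⟨k, by omega, not_le.1 (Nat.find_min ex (by omega)), by rwa [hk] at h1⟩

theorem grid_right {T t : ℝ≥0} (j : ℕ) (h : t < T) :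
    ∃ k < 2 ^ j, tk T j k ≤ t ∧ t < tk T j (k + 1) := by
  classical
  have ex : ∃ k, t < tk T j k := ⟨2 ^ j, (tk_last T j).symm ▸ h⟩
  have h1 := Nat.find_spec ex
  have h2 : Nat.find ex ≤ 2 ^ j := Nat.find_min' ex ((tk_last T j).symm ▸ h)
  have h3 : Nat.find ex ≠ 0 := fun e => by rw [e, tk_zero] at h1; exact absurd h1 (not_lt.2 zero_le)
  obtain ⟨k, hk⟩ := Nat.exists_eq_succ_of_ne_zero h3
  exact ⟨k, by omega, not_lt.1 (Nat.find_min ex (by omega)), by rwa [hk] at h1⟩

theorem exists_nu_bound {S : Set V} (h : S.Finite) : ∃ a : ℕ, ∀ v ∈ S, nu v < a := by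
  obtain ⟨b, hb⟩ := (h.image nu).bddAbove
  exact ⟨b.toNat + 1, fun v hv => by have := hb ⟨v, hv, rfl⟩; push_cast; omega⟩

theorem infinite_of_arms {S : Set V} {a : ℤ} (h : ∀ R, a ≤ R → Arm a R S) :
    ∃ x, {y | Conn S x y}.Infinite := by
  by_contra hc
  simp only [not_exists, Set.not_infinite] at hc
  obtain ⟨b, hb⟩ := exists_nu_bound ((ann_finite a a).biUnion fun x _ => hc x)
  obtain ⟨u, v, e1, e2, c⟩ := h (max a b) (le_max_left _ _)
  have := hb v (Set.mem_biUnion (show u ∈ ann a a from ⟨e1.ge, e1.le⟩)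
    (c.mono Set.inter_subset_left))
  omega

include hn in
/-- compactness in time -/
theorem exc_of_arms {T : ℝ≥0} {c : V → Bool}
    (hf : ∀ x, {z | n s(x, z) T ≠ n s(x, z) 0}.Finite) (hs : ∀ e e', ∃ j, sep n T j e e')
    {a : ℤ} (h : ∀ R : ℕ, ∃ t ≤ T, Arm a (a + R) (black n c t)) :
    ∃ t x, {y | Conn (black n c t) x y}.Infinite := by
  choose t ht1 ht2 using h
  obtain ⟨s, hs0, φ, hφ, hlim⟩ := (isCompact_Icc (a := 0) (b := T)).tendsto_subseq
    (x := t) fun R => ⟨zero_le, ht1 R⟩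
  have sT : s ≤ T := hs0.2
  let JL : Set (Sym2 V) := {e | 0 < s ∧ ∀ r < s, n e r ≠ n e s}
  let JR : Set (Sym2 V) := {e | s < T ∧ ∀ r, s < r → n e r ≠ n e s}
  have fL : JL.Subsingleton := by
    intro e he e' he'
    obtain ⟨j, hj⟩ := hs e e'
    obtain ⟨k, a1, a2, a3⟩ := grid_left j he.1 sT
    have k : ∀ e ∈ JL, inc n T j k e ≠ 0 := fun e he => by
      have := he.2 _ a2
      have := hn e a2.le
      have := hn e a3
      unfold inc
      omega
    exact (hj _ a1).2 (k e he) (k e' he')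
  have fR : JR.Subsingleton := by
    intro e he e' he'
    obtain ⟨j, hj⟩ := hs e e'
    obtain ⟨k, a1, a2, a3⟩ := grid_right j he.1
    have k : ∀ e ∈ JR, inc n T j k e ≠ 0 := fun e he => by
      have := he.2 _ a3
      have := hn e a2
      have := hn e a3.le
      unfold inc
      omega
    exact (hj _ a1).2 (k e he) (k e' he')
  have fin : (⋃ e ∈ JL ∪ JR, {x | x ∈ e}).Finite :=
    (fL.finite.union fR.finite).biUnion fun e _ => by
      induction e using Sym2.ind with
      | _ a b => exact ((Set.finite_singleton b).insert a).subset fun x hx => by simpa using hx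
  obtain ⟨b, hb⟩ := exists_nu_bound fin
  have stab : ∀ e, e ∉ JL ∪ JR → ∀ᶠ r in 𝓝 s, r ≤ T → n e r = n e s := by
    intro e he
    have l : ∀ᶠ r in 𝓝 s, r ≤ s → n e r = n e s := by
      by_cases h0 : 0 < s
      · have : ¬ ∀ r < s, n e r ≠ n e s := fun h => he (Or.inl ⟨h0, h⟩)
        push Not at this
        obtain ⟨r, a1, a2⟩ := this
        filter_upwards [lt_mem_nhds a1] with u hu hus
        have := hn e hu.le
        have := hn e hus
        omega
      · exact Eventually.of_forall fun r hr => by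
          rw [le_antisymm hr ((not_lt.1 h0).trans zero_le)]
    have r : ∀ᶠ r in 𝓝 s, r ≤ T → s ≤ r → n e r = n e s := by
      by_cases h0 : s < T
      · have : ¬ ∀ r, s < r → n e r ≠ n e s := fun h => he (Or.inr ⟨h0, h⟩)
        push Not at this
        obtain ⟨r, a1, a2⟩ := this
        filter_upwards [gt_mem_nhds a1] with u hu _ hus
        have := hn e hu.le
        have := hn e hus
        omega
      · exact Eventually.of_forall fun r hr hs => by
          rw [le_antisymm (hr.trans (not_lt.1 h0)) hs]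
    filter_upwards [l, r] with u h1 h2 h3
    rcases le_total u s with h | h
    · exact h1 h
    · exact h2 h3 h
  have stab2 : ∀ x, b ≤ nu x → ∀ᶠ r in 𝓝 s, r ≤ T → ∀ z, n s(x, z) r = n s(x, z) s := by
    intro x hx
    have := (hf x).eventually_all.2 fun z _ => stab s(x, z) fun h => by
      have := hb x (Set.mem_biUnion h (Sym2.mem_mk_left x z))
      omega
    filter_upwards [this] with r h1 h2 z
    by_cases e : n s(x, z) T = n s(x, z) 0
    · have := hn s(x, z) h2
      have := hn s(x, z) sT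
      have := hn s(x, z) (zero_le (a := r))
      have := hn s(x, z) (zero_le (a := s))
      omega
    · exact h1 z e h2
  refine ⟨s, infinite_of_arms (a := max a b) fun R hR => ?_⟩
  have e1 := hlim.eventually ((ann_finite (max a b) R).eventually_all.2 fun x hx =>
    stab2 x ((le_max_right _ _).trans hx.1))
  obtain ⟨i, e2, e3⟩ := (e1.and (eventually_ge_atTop (R - a).toNat)).exists
  have e4 := hφ.le_apply (x := i)
  refine loc_Arm _ _ _ _ ?_ ((ht2 (φ i)).sub (le_max_left _ _) hR (by omega))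
  exact fun x hx => black_move hn (e2 x hx.2 (ht1 _)) hx.1

noncomputable def Lb (b N : ℕ) : Finset V := (rect (-N) N (-N) N).filter fun v => b ≤ nu v
theorem mem_Lb {b N : ℕ} {v : V} : v ∈ Lb b N ↔ b ≤ nu v ∧ nu v ≤ N := by
  rw [Lb, mem_filter, nu_le, ← coe_rect, and_comm, mem_coe]

/-- the chain on a finite annulus meets the one-arm event -/
def Hit (n : Sym2 V → ℝ≥0 → ℕ) (c : V → Bool) (T : ℝ≥0) (b N j : ℕ) (a R : ℤ) : Prop :=
  ∃ k < 2 ^ j, Arm a R (run swe (rings n T j (Lb b N).sym2) ((Lb b N).filter fun v => c v = true) k)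
def AA (n : Sym2 V → ℝ≥0 → ℕ) (c : V → Bool) (T : ℝ≥0) (b : ℕ) : Prop :=
  ∃ a : ℕ, ∀ R : ℕ, ∃ᶠ N in atTop, ∃ᶠ j in atTop, Hit n c T b N j a (a + R)
def BB (n : Sym2 V → ℝ≥0 → ℕ) (c : V → Bool) (T : ℝ≥0) : Prop :=
  ∃ a : ℕ, ∀ R : ℕ, ∃ᶠ j in atTop, ∃ k < 2 ^ j, Arm a (a + R) (black n c (tk T j k))
def clu (n : Sym2 V → ℝ≥0 → ℕ) (T : ℝ≥0) (x : V) : Set V :=
  {y | Relation.ReflTransGen (fun a b => n s(a, b) T ≠ n s(a, b) 0) x y}
def Good (n : Sym2 V → ℝ≥0 → ℕ) (T : ℝ≥0) : Prop :=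
  (∀ x, (clu n T x).Finite) ∧ ∀ e e', ∀ᶠ j in atTop, sep n T j e e'

include hn in
theorem run_black {T : ℝ≥0} (hg : Good n T) (c : V → Bool) (b : ℕ) : ∃ a0 : ℕ, ∀ R : ℤ,
    ∀ᶠ N in atTop, ∀ᶠ j in atTop, ∀ k ≤ 2 ^ j, ∀ x ∈ ann a0 R,
      (x ∈ run swe (rings n T j (Lb b N).sym2) ((Lb b N).filter fun v => c v = true) k ↔
        x ∈ black n c (tk T j k)) := by
  obtain ⟨a0, h0⟩ := exists_nu_bound ((rs_finite (-b) b (-b) b).biUnion fun x _ => hg.1 x)
  refine ⟨a0, fun R => ?_⟩
  obtain ⟨N0, h1⟩ := exists_nu_bound ((ann_finite a0 R).biUnion fun x _ => hg.1 x)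
  filter_upwards [eventually_ge_atTop N0] with N hN
  set D := ⋃ x ∈ ann a0 R, clu n T x with hD
  have hL : ∀ y ∈ D, y ∈ Lb b N := by
    intro y hy
    have := h1 y hy
    refine mem_Lb.2 ⟨by_contra fun h => ?_, by omega⟩
    obtain ⟨x, a1, a2⟩ := Set.mem_iUnion₂.1 hy
    have a3 : x ∈ clu n T y := by
      clear * - a2
      induction a2 with
      | refl => exact Relation.ReflTransGen.refl
      | tail _ h ih => exact Relation.ReflTransGen.head (by rwa [Sym2.eq_swap]) ih
    have := h0 x (Set.mem_biUnion (nu_le.1 (show nu y ≤ b by omega)) a3)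
    have := a1.1
    omega
  have hcl : ∀ x ∈ D, ∀ z, n s(x, z) T ≠ n s(x, z) 0 → z ∈ D ∧ s(x, z) ∈ (Lb b N).sym2 := by
    intro x hx z hz
    obtain ⟨x0, a1, a2⟩ := Set.mem_iUnion₂.1 hx
    have : z ∈ D := Set.mem_biUnion a1 (Relation.ReflTransGen.tail a2 hz)
    exact ⟨this, mk_mem_sym2_iff.2 ⟨hL x hx, hL z this⟩⟩
  filter_upwards [(eventually_all_finset (Lb b N).sym2).2 fun e _ =>
    (eventually_all_finset (Lb b N).sym2).2 fun e' _ => hg.2 e e'] with j hj k hk x hx
  obtain ⟨y, a1, a2, a3⟩ := run_src hn (E0 := (Lb b N).sym2) hcl hj k hk x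
    (Set.mem_biUnion hx Relation.ReflTransGen.refl)
  rw [a3 _ Set.Subset.rfl fun x hx z hz => (hcl x hx z hz).2, mem_filter]
  exact ⟨fun h => ⟨⟨y, a2⟩, fun y' h' => a2.unique hn y' h' ▸ h.2⟩, fun h => ⟨hL y a1, h.2 y a2⟩⟩

include hn in
theorem AA_iff {T : ℝ≥0} (hg : Good n T) (c : V → Bool) (b : ℕ) : AA n c T b ↔ BB n c T := by
  obtain ⟨a0, h0⟩ := run_black hn hg c b
  constructor
  · rintro ⟨a, h⟩
    refine ⟨a + a0, fun R => ?_⟩
    obtain ⟨N, h1, h2⟩ := ((h (a0 + R)).and_eventually (h0 (a + (a0 + R)))).exists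
    refine (h1.and_eventually h2).mono ?_
    rintro j ⟨⟨k, a1, a2⟩, a3⟩
    refine ⟨k, a1, loc_Arm _ _ _ _ (fun x hx => (a3 k a1.le x ?_).1 hx.1)
      (a2.sub (by push_cast; omega) (by omega) (by push_cast; omega))⟩
    have := hx.2
    simp only [mem_ann] at *
    push_cast at this
    omega
  · rintro ⟨a, h⟩
    refine ⟨a + a0, fun R => ((h0 (a + (a0 + R))).mono fun N hN => ?_).frequently⟩
    refine ((h (a0 + R)).and_eventually hN).mono ?_
    rintro j ⟨⟨k, a1, a2⟩, a3⟩
    refine ⟨k, a1, loc_Arm _ _ _ _ (fun x hx => (a3 k a1.le x ?_).2 hx.1)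
      (a2.sub (by push_cast; omega) (by omega) (by push_cast; omega))⟩
    have := hx.2
    simp only [mem_ann] at *
    push_cast at this
    omega

include hn in
theorem exc_of_BB {T : ℝ≥0} (hg : Good n T) {c : V → Bool} (h : BB n c T) :
    ∃ t x, {y | Conn (black n c t) x y}.Infinite := by
  obtain ⟨a, h⟩ := h
  refine exc_of_arms hn (T := T) (fun x => (hg.1 x).subset fun z hz => ?_)
    (fun e e' => (hg.2 e e').exists) (a := a) fun R => ?_
  · exact Relation.ReflTransGen.single hz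
  · obtain ⟨j, k, a1, a2⟩ := (h R).exists
    exact ⟨_, (tk_mono T j a1.le).trans (tk_last T j).le, a2⟩

theorem Src.shift {S t : ℝ≥0} {x y : V} (h : Src (fun e u => n e (S + u)) x t y) {y' : V}
    (h' : Src n y S y') : Src n x (S + t) y' := by
  induction h with
  | start x => rwa [add_zero]
  | stay h1 h2 _ ih => exact .stay (add_le_add le_rfl h1) h2 (ih h')
  | swap h1 h2 h3 h4 _ ih => exact .swap (add_le_add le_rfl h1) h2 h3 h4 (ih h')

include hn in
theorem src_total {T : ℝ≥0} (hg : Good n T) {t : ℝ≥0} (ht : t ≤ T) (x : V) : ∃ y, Src n x t y := by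
  rcases eq_zero_or_pos t with rfl | t0
  · exact ⟨x, .start x⟩
  let E0 : Set (Sym2 V) := (fun p : V × V => s(p.1, p.2)) '' (clu n T x ×ˢ clu n T x)
  have fE : E0.Finite := ((hg.1 x).prod (hg.1 x)).image _
  have hD : ∀ a ∈ clu n T x, ∀ z, n s(a, z) T ≠ n s(a, z) 0 → z ∈ clu n T x ∧ s(a, z) ∈ E0 :=
    fun a ha z hz => ⟨.tail ha hz, (a, z), ⟨ha, .tail ha hz⟩, rfl⟩
  obtain ⟨j, hj⟩ := (fE.eventually_all.2 fun e _ => fE.eventually_all.2 fun e' _ =>
    hg.2 e e').exists
  obtain ⟨k, a1, a2, a3⟩ := grid_left j t0 ht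
  have hx : x ∈ clu n T x := Relation.ReflTransGen.refl
  have k1 : ∀ e, n e t ≠ n e (tk T j k) → inc n T j k e ≠ 0 ∧ n e T ≠ n e 0 := fun e h => by
    have := hn e a2.le
    have := hn e a3
    have := hn e ht
    have := hn e (zero_le (a := tk T j k))
    unfold inc
    omega
  by_cases h : ∃ z, n s(x, z) t ≠ n s(x, z) (tk T j k)
  · obtain ⟨z, hz⟩ := h
    obtain ⟨b1, b2⟩ := hD x hx z (k1 _ hz).2
    obtain ⟨y, -, b3, -⟩ := run_src hn hD hj k a1.le z b1
    refine ⟨y, .swap a2.le ?_ (fun w hw => by_contra fun h => hw ?_)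
      (fun w hw => by_contra fun h => hw ?_) b3⟩
    · have := (hj _ b2 _ b2 k a1).1
      have := hn s(x, z) a2.le
      have := hn s(x, z) a3
      unfold inc at *
      omega
    · exact Sym2.congr_right.1 ((hj _ (hD x hx w (k1 _ h).2).2 _ b2 k a1).2 (k1 _ h).1 (k1 _ hz).1)
    · have := (hj _ (hD z b1 w (k1 _ h).2).2 _ b2 k a1).2 (k1 _ h).1 (k1 _ hz).1
      rw [Sym2.eq_swap (a := x)] at this
      exact Sym2.congr_right.1 this
  · obtain ⟨y, -, b3, -⟩ := run_src hn hD hj k a1.le x hx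
    exact ⟨y, .stay a2.le (fun w => by_contra fun h5 => h ⟨w, h5⟩) b3⟩

include hn in
theorem src_total' {T : ℝ≥0} (hT : 0 < T) (hg : ∀ k : ℕ, Good (fun e u => n e (k * T + u)) T)
    (t : ℝ≥0) (x : V) : ∃ y, Src n x t y := by
  have key : ∀ k : ℕ, ∀ t ≤ k * T, ∀ x, ∃ y, Src n x t y := by
    intro k
    induction k with
    | zero =>
      intro t ht x
      rw [Nat.cast_zero, zero_mul, nonpos_iff_eq_zero] at ht
      exact ⟨x, ht ▸ .start x⟩
    | succ k ih =>
      intro t ht x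
      rcases le_total t (k * T) with h | h
      · exact ih t h x
      · obtain ⟨y, h1⟩ := src_total (fun e a b hab => hn e (add_le_add le_rfl hab)) (hg k)
          (t := t - k * T) (by
            rw [tsub_le_iff_left]
            rwa [Nat.cast_succ, add_mul, one_mul] at ht) x
        obtain ⟨y', h2⟩ := ih _ le_rfl y
        exact ⟨y', add_tsub_cancel_of_le h ▸ h1.shift h2⟩
  obtain ⟨k, hk⟩ := exists_nat_ge (t / T)
  exact key k t ((div_le_iff₀ hT).1 hk) x

/-- self-avoiding paths -/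
def Saw {β : Type*} (r : β → β → Prop) : ℕ → β → Set β → Prop
  | 0, _, _ => True
  | k + 1, x, F => ∃ y, y ∉ insert x F ∧ r x y ∧ Saw r k y (insert x F)

theorem finite_of_not_saw {β : Type*} {r : β → β → Prop} (hf : ∀ x, {z | r x z}.Finite) (k : ℕ) :
    ∀ x F, ¬ Saw r k x F → {y | Relation.ReflTransGen (fun a b => r a b ∧ b ∉ F) x y}.Finite := by
  induction k with
  | zero => exact fun _ _ h => absurd trivial h
  | succ k ih =>
    intro x F h
    have f1 : {z | r x z ∧ z ∉ insert x F}.Finite := (hf x).subset fun z hz => hz.1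
    refine ((f1.biUnion (t := fun z =>
        {y | Relation.ReflTransGen (fun a b => r a b ∧ b ∉ insert x F) z y})
      fun z hz => ih z _ fun h5 => h ⟨z, hz.2, hz.1, h5⟩).insert x).subset fun y hy => ?_
    induction hy with
    | refl => exact Set.mem_insert _ _
    | @tail a b _ h2 ih2 =>
      by_cases e : b = x
      · exact Or.inl e
      have e2 : b ∉ insert x F := fun h5 => h5.elim e h2.2
      rcases ih2 with rfl | h3
      · exact Or.inr (Set.mem_biUnion (show b ∈ {z | r a z ∧ z ∉ insert a F} from ⟨h2.1, e2⟩)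
          Relation.ReflTransGen.refl)
      · obtain ⟨z, a1, a2⟩ := Set.mem_iUnion₂.1 h3
        exact Or.inr (Set.mem_biUnion a1 (Relation.ReflTransGen.tail a2 ⟨h2.1, e2⟩))

end Pool.Agent.Lib.MP_e26b79_pr
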