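import Pool.Agent.Lib.MP_e26b79_pr.Reveal
import Pool.Agent.Lib.MP_e26b79_pr.Compare

namespace Pool.Agent.Lib.MP_e26b79_pr
open Finset

/-- graph distance to the origin -/
def hn (v : V) : ℤ := max (nu v) (max (v.1 + v.2) (-(v.1 + v.2)))

def routes : List (V × List (List V)) :=
  [
   ((-5, 0), [[(-4, 0), (-3, 0), (-2, 0), (-2, 1), (-1, 1)], [(-4, 0), (-3, 0), (-2, 0), (-1, -1), (0, -1)]]),
   ((-5, 1), [[(-4, 1), (-3, 1), (-2, 1), (-1, 1)], [(-4, 1), (-3, 1), (-2, 0), (-1, -1), (0, -1)]]),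
   ((-5, 2), [[(-4, 2), (-3, 2), (-2, 2), (-1, 1)], [(-4, 2), (-3, 1), (-2, 0), (-1, -1), (0, -1)], [(-4, 1), (-3, 1), (-2, 0), (-1, -1), (0, -1)]]),
   ((-5, 3), [[(-4, 3), (-3, 3), (-2, 2), (-1, 1)], [(-4, 2), (-3, 1), (-2, 0), (-1, -1), (0, -1)]]),
   ((-5, 4), [[(-4, 3), (-3, 3), (-2, 2), (-1, 1)], [(-4, 3), (-3, 2), (-3, 1), (-2, 0), (-1, -1), (0, -1)]]),
   ((-5, 5), [[(-4, 4), (-3, 3), (-2, 2), (-1, 1)], [(-4, 4), (-3, 3), (-3, 2), (-3, 1), (-2, 0), (-1, -1), (0, -1)]]),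
   ((-4, -1), [[(-3, -1), (-2, -1), (-1, -1), (0, -1)], [(-3, -1), (-2, -1), (-2, 0), (-2, 1), (-1, 1)]]),
   ((-4, 5), [[(-3, 4), (-3, 3), (-2, 2), (-1, 1)], [(-3, 4), (-2, 3), (-1, 2), (-1, 1)], [(-3, 4), (-3, 3), (-3, 2), (-3, 1), (-2, 0), (-1, -1), (0, -1)]]),
   ((-3, -2), [[(-2, -2), (-1, -2), (0, -2), (0, -1)], [(-3, -1), (-2, -1), (-2, 0), (-2, 1), (-1, 1)]]),
   ((-3, 5), [[(-3, 4), (-3, 3), (-2, 2), (-1, 1)], [(-2, 4), (-1, 3), (-1, 2), (-1, 1)], [(-3, 4), (-3, 3), (-3, 2), (-3, 1), (-2, 0), (-1, -1), (0, -1)]]),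
   ((-2, -3), [[(-1, -3), (0, -3), (0, -2), (0, -1)], [(-2, -2), (-2, -1), (-2, 0), (-2, 1), (-1, 1)]]),
   ((-2, 5), [[(-2, 4), (-2, 3), (-2, 2), (-1, 1)], [(-1, 4), (0, 3), (1, 2), (2, 1), (3, 0), (3, -1), (3, -2), (2, -2), (1, -2), (0, -1)]]),
   ((-1, -4), [[(-1, -3), (0, -3), (0, -2), (0, -1)], [(-1, -3), (-1, -2), (-2, -1), (-2, 0), (-2, 1), (-1, 1)]]),
   ((-1, 5), [[(-1, 4), (-1, 3), (-1, 2), (-1, 1)]]),
   ((0, -5), [[(0, -4), (0, -3), (0, -2), (0, -1)], [(0, -4), (0, -3), (-1, -2), (-2, -1), (-2, 0), (-2, 1), (-1, 1)]]),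
   ((0, 5), [[(0, 4), (0, 3), (-1, 3), (-1, 2), (-1, 1)], [(0, 4), (0, 3), (1, 2), (2, 1), (3, 0), (3, -1), (3, -2), (2, -2), (1, -2), (0, -1)]]),
   ((1, -5), [[(1, -4), (1, -3), (1, -2), (0, -1)], [(1, -4), (0, -3), (-1, -2), (-2, -1), (-2, 0), (-2, 1), (-1, 1)]]),
   ((1, 4), [[(1, 3), (0, 3), (-1, 3), (-1, 2), (-1, 1)], [(1, 3), (1, 2), (2, 1), (3, 0), (3, -1), (3, -2), (2, -2), (1, -2), (0, -1)]]),
   ((2, -5), [[(2, -4), (2, -3), (1, -2), (0, -1)], [(1, -4), (0, -3), (-1, -2), (-2, -1), (-2, 0), (-2, 1), (-1, 1)]]),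
   ((2, 3), [[(1, 3), (0, 3), (-1, 3), (-1, 2), (-1, 1)], [(2, 2), (2, 1), (3, 0), (3, -1), (3, -2), (2, -2), (1, -2), (0, -1)]]),
   ((3, -5), [[(3, -4), (2, -3), (1, -2), (0, -1)], [(2, -4), (1, -3), (1, -2), (0, -1)]]),
   ((3, 2), [[(2, 2), (1, 2), (0, 2), (-1, 2), (-1, 1)], [(3, 1), (3, 0), (3, -1), (3, -2), (2, -2), (1, -2), (0, -1)]]),
   ((4, -5), [[(3, -4), (2, -3), (1, -2), (0, -1)]]),
   ((4, 1), [[(3, 1), (2, 1), (1, 2), (0, 2), (-1, 2), (-1, 1)], [(3, 1), (3, 0), (3, -1), (3, -2), (2, -2), (1, -2), (0, -1)]]),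
   ((5, -5), [[(4, -4), (3, -3), (2, -3), (1, -2), (0, -1)], [(4, -4), (3, -3), (3, -2), (3, -1), (3, 0), (2, 1), (1, 2), (0, 2), (-1, 2), (-1, 1)]]),
   ((5, -4), [[(4, -3), (3, -3), (2, -3), (1, -2), (0, -1)], [(4, -3), (3, -2), (3, -1), (3, 0), (2, 1), (1, 2), (0, 2), (-1, 2), (-1, 1)]]),
   ((5, -3), [[(4, -3), (3, -3), (2, -3), (1, -2), (0, -1)], [(4, -2), (3, -1), (3, 0), (2, 1), (1, 2), (0, 2), (-1, 2), (-1, 1)]]),
   ((5, -2), [[(4, -2), (3, -2), (2, -2), (1, -2), (0, -1)], [(4, -1), (3, 0), (2, 1), (1, 2), (0, 2), (-1, 2), (-1, 1)]]),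
   ((5, -1), [[(4, -1), (3, -1), (3, -2), (2, -2), (1, -2), (0, -1)], [(4, -1), (3, 0), (2, 1), (1, 2), (0, 2), (-1, 2), (-1, 1)]]),
   ((5, 0), [[(4, 0), (3, 0), (3, -1), (3, -2), (2, -2), (1, -2), (0, -1)], [(4, 0), (3, 0), (2, 1), (1, 2), (0, 2), (-1, 2), (-1, 1)]])]

def pth : V → List V → V → Bool
  | a, [], b => decide (adj a b)
  | a, c :: l, b => decide (adj a c) && pth c l b

theorem pth_conn {S : Set V} {b : V} (hb : b ∈ S) : ∀ (l : List V) (a : V), pth a l b = true →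
    a ∈ S → (∀ c ∈ l, c ∈ S) → Conn S a b
  | [], _, h, ha, _ => .single ha (by simpa [pth] using h) hb
  | c :: l, a, h, ha, hl => by
    simp only [pth, Bool.and_eq_true, decide_eq_true_eq] at h
    exact .head ha h.1 (pth_conn hb l c h.2 (hl c List.mem_cons_self)
      fun d hd => hl d (List.mem_cons_of_mem _ hd))

def nbrs (p : V) : List V :=
  [(p.1 + 1, p.2), (p.1 - 1, p.2), (p.1, p.2 + 1), (p.1, p.2 - 1), (p.1 + 1, p.2 - 1),
    (p.1 - 1, p.2 + 1)]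
theorem mem_nbrs {p w : V} (h : adj p w) : w ∈ nbrs p := by
  obtain ⟨w1, w2⟩ := w
  simp only [nbrs, adj, List.mem_cons, Prod.mk.injEq, List.not_mem_nil] at *
  omega

theorem routes_good : ∀ r ∈ routes, ∀ P ∈ r.2, pth r.1 P (0, 0) = true ∧ ∀ p ∈ P, hn p ≤ 4 ∧
    p ≠ (1, 0) ∧ ¬ adj p (1, 0) ∧ ∀ w ∈ nbrs p, hn w ≤ 4 ∨ w = r.1 ∨ adj w r.1 := by
  decide +kernel

theorem routes_pair : ∀ r ∈ routes, ∀ r' ∈ routes, r.1 = r'.1 ∨ adj r.1 r'.1 ∨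
    ∃ P ∈ r.2, ∃ P' ∈ r'.2, ∀ p ∈ P, ∀ q ∈ P', p ≠ q ∧ ¬ adj p q := by
  decide +kernel

theorem routes_cover : ∀ i ∈ Icc (-5:ℤ) 5, ∀ j ∈ Icc (-5:ℤ) 5, hn (i, j) = 5 →
    ∃ r ∈ routes, r.1 = (i, j) := by
  decide +kernel

theorem adj_sub (x : V) {a b : V} : adj (a - x) (b - x) ↔ adj a b := by
  simp only [adj, Prod.fst_sub, Prod.snd_sub]; omega

/-- a path from the ring site `v` to the centre `x` that touches nothing else -/
def Gd (x v : V) (P : Set V) : Prop :=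
  P.Finite ∧ (∀ S : Set V, v ∈ S → x ∈ S → P ⊆ S → Conn S v x) ∧ ∀ p ∈ P, hn (p - x) ≤ 4 ∧
    p ≠ x + (1, 0) ∧ ¬ adj p (x + (1, 0)) ∧ ∀ w, adj p w → hn (w - x) ≤ 4 ∨ w = v ∨ adj w v

theorem gd_route (x : V) {r : V × List (List V)} (hr : r ∈ routes) {P : List V} (hP : P ∈ r.2)
    {v : V} (hv : r.1 = v - x) : Gd x v {p | p - x ∈ P} := by
  obtain ⟨h1, h2⟩ := routes_good r hr P hP
  refine ⟨(P.finite_toSet.image (· + x)).subset fun p hp => ⟨p - x, hp, by simp⟩,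
    fun S a1 a2 a3 => ?_, fun p hp => ?_⟩
  · have := (pth_conn (S := sh x S) (b := (0, 0)) (by simpa [sh, Prod.mk_zero_zero] using a2) P _ h1
      (by simpa [sh, hv] using a1) fun c hc => a3 (by simpa using hc)).map (· + x)
      (fun a b h => Or.inr (adj_add x a b h)) (S' := S) fun a ha => ha
    simpa [hv, Prod.mk_zero_zero] using this
  · obtain ⟨a1, a2, a3, a4⟩ := h2 _ hp
    refine ⟨a1, fun h => a2 (by simp [h]), fun h => a3 (by simpa using (adj_sub x).2 h),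
      fun w hw => ?_⟩
    have := a4 _ (mem_nbrs ((adj_sub x).2 hw))
    rwa [hv, sub_left_inj, adj_sub] at this

theorem templ {x v v' : V} (hv : hn (v - x) = 5) (hv' : hn (v' - x) = 5) (h1 : v ≠ v')
    (h2 : ¬ adj v v') : ∃ P1 P2, Gd x v P1 ∧ Gd x v' P2 ∧ ∀ p ∈ P1, ∀ q ∈ P2, p ≠ q ∧ ¬ adj p q := by
  have k : ∀ w : V, hn w = 5 → ∃ r ∈ routes, r.1 = w := fun w hw =>
    routes_cover w.1 (by simp only [hn, nu, mem_Icc] at *; omega) w.2
      (by simp only [hn, nu, mem_Icc] at *; omega) hw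
  obtain ⟨r, a1, a2⟩ := k _ hv
  obtain ⟨r', a3, a4⟩ := k _ hv'
  rcases routes_pair r a1 r' a3 with h | h | ⟨P, hP, P', hP', h⟩
  · rw [a2, a4, sub_left_inj] at h
    exact absurd h h1
  · rw [a2, a4, adj_sub] at h
    exact absurd h h2
  · refine ⟨_, _, gd_route x a1 hP a2, gd_route x a3 hP' a4, fun p hp q hq => ?_⟩
    have := h _ hp _ hq
    rwa [Ne, sub_left_inj, adj_sub] at this

noncomputable def hex (x : V) : Finset V :=
  (rect (x.1 - 4) (x.1 + 4) (x.2 - 4) (x.2 + 4)).filter fun v => hn (v - x) ≤ 4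

theorem mem_hex {x v : V} : v ∈ hex x ↔ hn (v - x) ≤ 4 := by
  simp only [hex, mem_filter, mem_rect, hn, nu, Prod.fst_sub, Prod.snd_sub]
  omega

theorem card_hex (x : V) : (hex x).card ≤ 81 := by
  refine (card_filter_le _ _).trans ?_
  simp only [rect, card_product, Int.card_Icc]
  rw [show x.1 + 4 + 1 - (x.1 - 4) = 9 by ring, show x.2 + 4 + 1 - (x.2 - 4) = 9 by ring]
  rfl

theorem hex_nu {x v : V} (h : v ∈ hex x) : nu v ≤ nu x + 4 ∧ nu x ≤ nu v + 4 := by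
  simp only [mem_hex, hn, nu, Prod.fst_sub, Prod.snd_sub] at *
  omega

theorem hex_ring {x v w : V} (h : v ∈ hex x) (h' : w ∉ hex x) (e : adj w v) : hn (w - x) = 5 := by
  simp only [mem_hex, hn, nu, Prod.fst_sub, Prod.snd_sub, adj] at *
  omega

theorem conn_sw {x y u v : V} {X : Finset V} {D : Set V} (hy : y ∉ X)
    (hn : ∀ w, adj w y → w ≠ x → w ∉ X) (hu : u ≠ y)
    (h : Conn ((sw x y X : Finset V) ∩ D) u v) : Conn (X \ {x}) u v := by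
  have k : ∀ w ∈ sw x y X, w ≠ y → w ∈ (X : Set V) \ {x} := by
    intro w hw h1
    have h2 : w ≠ x := by
      rintro rfl
      rw [mem_sw, Equiv.swap_apply_left] at hw
      exact hy hw
    rw [mem_sw, Equiv.swap_apply_of_ne_of_ne h2 h1] at hw
    exact ⟨hw, h2⟩
  refine h.closed (P := fun w => Conn (X \ {x}) u w) (.refl (k u h.left.1 hu)) ?_
  intro a b _ hb hab ha
  refine .step ha hab (k b hb.1 ?_)
  rintro rfl
  exact hn a hab ha.right.2 ha.right.1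

theorem template_ineq {x : V} {R : ℤ} (h1 : 6 ≤ nu x) (h2 : nu x + 5 ≤ R) :
    ∃ 𝒯 ⊆ (hex x).powerset, ∀ T : Finset V,
      ind (Arm 1 R (mix (hex x) (hex x) T : Finset V)) - ind (Arm 1 R (mix (hex x) ∅ T : Finset V)) ≤
      ∑ A ∈ 𝒯, (ind (Arm 1 R (mix (hex x) A T : Finset V)) -
        ind (Arm 1 R (sw x (x + (1, 0)) (mix (hex x) A T) : Finset V))) := by
  classical
  set H := hex x with hH
  set y := x + (1, 0) with hy
  have yH : y ∈ H := by simp [hH, hy, mem_hex, hn, nu]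
  have xH : x ∈ H := by simp [hH, mem_hex, hn, nu]
  have nH : ∀ w, adj w y → w ∈ H := fun w hw => by
    simp only [hH, hy, mem_hex, hn, nu, adj, Prod.fst_sub, Prod.snd_sub, Prod.fst_add,
      Prod.snd_add] at *
    omega
  have inH : ∀ u, nu u = 1 ∨ nu u = R → u ∉ H := fun u hu h => by
    have := hex_nu h
    omega
  refine ⟨H.powerset.filter fun A => y ∉ A ∧ ∀ w, adj w y → w ≠ x → w ∉ A, filter_subset _ _,
    fun T => ?_⟩
  have k0 : ∀ A : Finset V, (y ∉ A ∧ ∀ w, adj w y → w ≠ x → w ∉ A) →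
      Arm 1 R (sw x y (mix H A T) : Finset V) → ∃ u v, nu u = 1 ∧ nu v = R ∧
        Conn ((mix H A T : Finset V) \ {x}) u v := by
    rintro A ⟨a1, a2⟩ ⟨u, v, e1, e2, c⟩
    refine ⟨u, v, e1, e2, conn_sw (by rwa [mem_mix_of_mem yH])
      (fun w hw hw' => by rw [mem_mix_of_mem (nH w hw)]; exact a2 w hw hw') ?_ c⟩
    rintro rfl
    exact inH _ (Or.inl e1) yH
  have k1 : ∀ A ∈ H.powerset.filter fun A => y ∉ A ∧ ∀ w, adj w y → w ≠ x → w ∉ A,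
      0 ≤ ind (Arm 1 R (mix H A T : Finset V)) - ind (Arm 1 R (sw x y (mix H A T) : Finset V)) := by
    intro A hA
    refine sub_nonneg.2 (ind_mono fun h => ?_)
    obtain ⟨u, v, e1, e2, c⟩ := k0 A (mem_filter.1 hA).2 h
    exact arm_of_conn (c.mono Set.sdiff_subset) e1.le e2.ge (by omega)
  by_cases a1 : Arm 1 R (mix H H T : Finset V)
  swap
  · rw [ind_neg a1]
    exact le_trans (by linarith [ind_nonneg (Arm 1 R (mix H ∅ T : Finset V))]) (sum_nonneg k1)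
  by_cases a2 : Arm 1 R (mix H ∅ T : Finset V)
  · rw [ind_pos a1, ind_pos a2, sub_self]
    exact sum_nonneg k1
  rw [ind_pos a1, ind_neg a2, sub_zero]
  obtain ⟨η, hη⟩ : ∃ η : Set V, η = ((mix H ∅ T : Finset V) : Set V) := ⟨_, rfl⟩
  rw [← hη] at a2
  have mη : ∀ w, w ∈ η ↔ w ∉ H ∧ w ∈ T := fun w => by simp [hη, mem_mix]
  have noarm : ∀ u v, nu u = 1 → nu v = R → ¬ Conn η u v := fun u v e1 e2 c =>
    a2 (arm_of_conn c e1.le e2.ge (by omega))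
  obtain ⟨u, v, e1, e2, c⟩ := a1
  have hsub : (((mix H H T : Finset V) : Set V) ∩ ann 1 R) \ H ⊆ η := fun w hw =>
    (mη w).2 ⟨hw.2, (mem_mix_of_notMem hw.2).1 hw.1.1⟩
  obtain ⟨z, hz, c1, c2⟩ : ∃ z ∈ H, Conn ((mix H H T : Finset V) ∩ ann 1 R) u z ∧
      Conn ((mix H H T : Finset V) ∩ ann 1 R) z v := by
    by_contra h
    refine noarm u v e1 e2 (c.cluster.mono fun w hw => hsub ⟨Conn.right hw, fun h5 => ?_⟩)
    exact h ⟨w, h5, hw, (Conn.symm hw).trans c⟩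
  obtain ⟨w1, z1, f1, f2, f3, -⟩ := c1.first_hit (C := H) (inH u (Or.inl e1)) hz
  obtain ⟨z2, w2, -, f4, f5, f6⟩ := c2.last_exit (C := H) hz (inH v (Or.inr e2))
  have g1 := f1.mono hsub
  have g2 := f6.mono hsub
  obtain ⟨P1, P2, ⟨p1, p2, p3⟩, ⟨q1, q2, q3⟩, pq⟩ := templ (hex_ring f3 f1.right.2 f2)
    (hex_ring f4 f6.left.2 f5.symm) (fun h => noarm u v e1 e2 (g1.trans (h ▸ g2)))
    (fun h => noarm u v e1 e2 (g1.trans (.head g1.right h g2)))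
  let A : Finset V := insert x (p1.union q1).toFinset
  have mA : ∀ w, w ∈ A ↔ w = x ∨ w ∈ P1 ∨ w ∈ P2 := fun w => by simp [A]
  have AH : A ⊆ H := fun w hw => by
    rcases (mA w).1 hw with rfl | h | h
    · exact xH
    · exact mem_hex.2 (p3 w h).1
    · exact mem_hex.2 (q3 w h).1
  have hA : y ∉ A ∧ ∀ w, adj w y → w ≠ x → w ∉ A := by
    refine ⟨fun h => ?_, fun w a1 a2 h => ?_⟩
    · rcases (mA y).1 h with h | h | h
      · simp [hy] at h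
      · exact (p3 y h).2.1 rfl
      · exact (q3 y h).2.1 rfl
    · rcases (mA w).1 h with h | h | h
      · exact a2 h
      · exact (p3 w h).2.2.1 a1
      · exact (q3 w h).2.2.1 a1
  refine le_trans (le_of_eq ?_) (single_le_sum k1 (mem_filter.2 ⟨mem_powerset.2 AH, hA⟩))
  have s1 : η ⊆ (mix H A T : Finset V) := fun w hw => mem_mix.2 (Or.inr ((mη w).1 hw))
  have s2 : ∀ w ∈ A, w ∈ mix H A T := fun w hw => mem_mix.2 (Or.inl ⟨AH hw, hw⟩)
  rw [ind_pos, ind_neg, sub_zero]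
  · intro h
    obtain ⟨u', v', b1, b2, c'⟩ := k0 A hA h
    have cs : ∀ w ∈ ((mix H A T : Finset V) : Set V) \ {x}, w ∈ η ∨ w ∈ P1 ∨ w ∈ P2 := by
      rintro w ⟨d1, d2⟩
      rcases mem_mix.1 d1 with d | d
      · exact Or.inr (((mA w).1 d.2).resolve_left d2)
      · exact Or.inl ((mη w).2 d)
    have := c'.closed (P := fun w => w ∈ P1 ∨ ∃ u0, nu u0 = 1 ∧ Conn η u0 w) ?_ ?_
    · rcases this with d | ⟨u0, d1, d2⟩
      · exact inH v' (Or.inr b2) (mem_hex.2 (p3 v' d).1)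
      · exact noarm u0 v' d1 b2 d2
    · exact Or.inr ⟨u', b1, .refl ((mη u').2 ⟨inH u' (Or.inl b1),
        (mem_mix_of_notMem (inH u' (Or.inl b1))).1 c'.left.1⟩)⟩
    · rintro a b - hb hab (ha | ⟨u0, d1, d2⟩)
      · rcases cs b hb with d | d | d
        · rcases (p3 a ha).2.2.2 b hab with d' | d' | d'
          · exact absurd (mem_hex.2 d') ((mη b).1 d).1
          · exact Or.inr ⟨u, e1, d' ▸ g1⟩
          · exact Or.inr ⟨u, e1, .step g1 d'.symm d⟩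
        · exact Or.inl d
        · exact absurd hab (pq a ha b d).2
      · rcases cs b hb with d | d | d
        · exact Or.inr ⟨u0, d1, .step d2 hab d⟩
        · exact Or.inl d
        · rcases (q3 b d).2.2.2 a hab.symm with d' | d' | d'
          · exact absurd (mem_hex.2 d') ((mη a).1 d2.right).1
          · exact absurd (d2.trans (d' ▸ g2)) (noarm u0 v d1 e2)
          · exact absurd (d2.trans (.head d2.right d' g2)) (noarm u0 v d1 e2)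
  · have x1 := s2 x ((mA x).2 (Or.inl rfl))
    exact arm_of_conn ((g1.mono s1).trans ((p2 _ (s1 g1.right) x1 fun w hw =>
      s2 w ((mA w).2 (Or.inr (Or.inl hw)))).trans ((q2 _ (s1 g2.left) x1 fun w hw =>
      s2 w ((mA w).2 (Or.inr (Or.inr hw)))).symm.trans (g2.mono s1)))) e1.le e2.ge (by omega)

/-- dimers used in the comparison -/
noncomputable def dim (R : ℤ) : Finset V :=
  (rect (-R) R (-R) R).filter fun x => 6 ∣ x.1 ∧ 6 ∣ x.2 ∧ 6 ≤ nu x ∧ nu x + 5 ≤ R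

theorem mem_dim {R : ℤ} {x : V} : x ∈ dim R ↔ 6 ∣ x.1 ∧ 6 ∣ x.2 ∧ 6 ≤ nu x ∧ nu x + 5 ≤ R := by
  simp only [dim, mem_filter, mem_rect, nu]
  omega

theorem exists_hex (z : V) : ∃ x : V, 6 ∣ x.1 ∧ 6 ∣ x.2 ∧ z ∈ hex x := by
  have : z ∈ hex (6 * (z.1 / 6), 6 * (z.2 / 6)) ∨ z ∈ hex (6 * (z.1 / 6 + 1), 6 * (z.2 / 6)) ∨
      z ∈ hex (6 * (z.1 / 6), 6 * (z.2 / 6 + 1)) ∨
      z ∈ hex (6 * (z.1 / 6 + 1), 6 * (z.2 / 6 + 1)) := by
    simp only [mem_hex, hn, nu, Prod.fst_sub, Prod.snd_sub, max_le_iff]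
    omega
  rcases this with h | h | h | h <;> exact ⟨_, dvd_mul_right _ _, dvd_mul_right _ _, h⟩

/-- variational bound for the one-arm event under exchanges across dimers -/
theorem var_bound {κ : ℝ} (hκ : 0 < κ) : ∃ C : ℝ, 0 < C ∧ ∀ (m : ℕ) (L : Finset V), 3 ≤ m →
    (∀ v, nu v ≤ 4 ^ (m + 1) → v ∈ L) → ∀ g : Finset V → ℝ,
    2 * Ex L (fun T => ind (Arm 1 (4 ^ (m + 1)) T) * g T) - Ex L (fun T => g T ^ 2) -
      κ / 2 * ∑ x ∈ dim (4 ^ (m + 1)), Ex L (fun T => (g T - g (sw x (x + (1, 0)) T)) ^ 2) ≤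
      C * pp 0 (m + 1) ^ 2 := by
  obtain ⟨c, hc, h⟩ := compare_dimers (α := V) (ι := V) 81 hκ
  obtain ⟨C, hC, h'⟩ := res_bound
  refine ⟨C / c, by positivity, fun m L hm hL g => ?_⟩
  have e1 := four_pow_le hm
  have e2 : (4:ℤ) ^ (m + 1) = 4 * 4 ^ m := by ring
  refine (h L (L.filter fun v => 16 < nu v ∧ nu v ≤ 2 * 4 ^ m) (dim (4 ^ (m + 1))) id
    (fun x => x + (1, 0)) hex _ (filter_subset _ _)
    (fun T U hTU _ => ind_mono ((loc_Arm _ _).up hTU)) (fun z hz => ?_) (fun x hx => ?_) g).trans ?_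
  · obtain ⟨x, a1, a2, a3⟩ := exists_hex z
    have := hex_nu a3
    have := (mem_filter.1 hz).2
    exact ⟨x, mem_dim.2 ⟨a1, a2, by omega, by omega⟩, a3⟩
  · obtain ⟨a1, a2, a3, a4⟩ := mem_dim.1 hx
    obtain ⟨𝒯, b1, b2⟩ := template_ineq a3 a4
    refine ⟨fun v hv => hL v (by have := hex_nu hv; omega), by simp [mem_hex, hn, nu],
      by simp [mem_hex, hn, nu], card_hex x, fun j hj hjx => ?_, 𝒯, b1, fun T _ => b2 T⟩
    obtain ⟨a5, a6, -⟩ := mem_dim.1 hj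
    have : j.1 ≠ x.1 ∨ j.2 ≠ x.2 := by
      by_contra h5
      exact hjx (Prod.ext (by omega) (by omega))
    simp only [id, mem_hex, hn, nu, Prod.fst_sub, Prod.snd_sub, Prod.fst_add, Prod.snd_add,
      max_le_iff]
    omega
  · rw [div_mul_eq_mul_div]
    gcongr
    exact h' m L _ hm hL (filter_subset _ _) fun v a1 a2 =>
      mem_filter.2 ⟨hL v (by omega), a1, a2⟩

end Pool.Agent.Lib.MP_e26b79_pr
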