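import Pool.Agent.Lib.MP_e26b79_pr.Paths
import Pool.Agent.Lib.MP_e26b79_pr.Template

namespace Pool.Agent.Lib.MP_e26b79_pr
open Finset Filter Topology MeasureTheory ProbabilityTheory
open scoped NNReal ENNReal

structure IsP {Ω : Type*} [MeasurableSpace Ω] (μ : Measure Ω) (r : ℝ≥0)
    (X : ℝ≥0 → Ω → ℕ) : Prop where
  meas : ∀ t, Measurable (X t)
  mono : ∀ w, Monotone fun t => X t w
  indep : HasIndepIncrements X μ
  law : ∀ s t, s ≤ t → HasLaw (fun w => X t w - X s w) (poissonMeasure (r * (t - s))) μ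

variable {Ω : Type*} [m0 : MeasurableSpace Ω] {μ : Measure Ω}

theorem pois_zero (l : ℝ≥0) : (poissonMeasure l).real {k | k = 0} = Real.exp (-l) := by
  simpa using poissonMeasure_real_singleton l 0

theorem pois_ne (l : ℝ≥0) : (poissonMeasure l).real {k | k ≠ 0} = 1 - Real.exp (-l) := by
  rw [← pois_zero, ← probReal_compl_eq_one_sub MeasurableSet.of_discrete]
  rfl

theorem pois_ne_le (l : ℝ≥0) : poissonMeasure l {k | k ≠ 0} ≤ l := by
  rw [← ofReal_measureReal, pois_ne, ← ENNReal.ofReal_coe_nnreal]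
  exact ENNReal.ofReal_le_ofReal (by linarith [Real.add_one_le_exp (-(l:ℝ))])

theorem pois_two_le (l : ℝ≥0) : poissonMeasure l {k | ¬ k ≤ 1} ≤ l * l := by
  have e : (poissonMeasure l).real {k | k ≤ 1} = Real.exp (-l) * (1 + l) := by
    rw [show {k : ℕ | k ≤ 1} = {0} ∪ {1} by ext k; simp; omega,
      measureReal_union (by simp) MeasurableSet.of_discrete, poissonMeasure_real_singleton,
      poissonMeasure_real_singleton]
    simp; ring
  have e2 : (poissonMeasure l).real {k | ¬ k ≤ 1} = 1 - Real.exp (-l) * (1 + l) := by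
    rw [← e, ← probReal_compl_eq_one_sub MeasurableSet.of_discrete]
    rfl
  rw [← ofReal_measureReal, e2, ← ENNReal.coe_mul, ← ENNReal.ofReal_coe_nnreal]
  refine ENNReal.ofReal_le_ofReal ?_
  have := Real.add_one_le_exp (-(l:ℝ))
  have := l.2
  push_cast
  nlinarith

omit m0 in
/-- the sigma-algebras of the initial colours and of the clocks -/
abbrev sig (c : V → Ω → Bool) (N : Sym2 V → ℝ≥0 → Ω → ℕ) : V ⊕ Sym2 V → MeasurableSpace Ω :=
  Sum.elim (fun x => MeasurableSpace.comap (c x) inferInstance)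
    (fun e => MeasurableSpace.comap (fun w t => N e t w) inferInstance)

omit m0 in
theorem sig_c (c : V → Ω → Bool) (N : Sym2 V → ℝ≥0 → Ω → ℕ) (x : V) (p : Bool → Prop) :
    MeasurableSet[sig c N (.inl x)] {w | p (c x w)} :=
  comap_measurable (c x) (MeasurableSet.of_discrete (s := {b | p b}))

omit m0 in
theorem sig_N (c : V → Ω → Bool) (N : Sym2 V → ℝ≥0 → Ω → ℕ) (e : Sym2 V) (s t : ℝ≥0)
    (p : ℕ → ℕ → Prop) : MeasurableSet[sig c N (.inr e)] {w | p (N e s w) (N e t w)} :=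
  comap_measurable (fun w t => N e t w)
    (((measurable_pi_apply s).prodMk (measurable_pi_apply t))
      (MeasurableSet.of_discrete (s := {q : ℕ × ℕ | p q.1 q.2})))

structure Model (μ : Measure Ω) (c : V → Ω → Bool) (N : Sym2 V → ℝ≥0 → Ω → ℕ)
    (r : Sym2 V → ℝ≥0) : Prop where
  pois : ∀ e, IsP μ (r e) (N e)
  mc : ∀ x, Measurable (c x)
  half : ∀ x, μ.real {w | c x w = true} = 1 / 2
  indp : iIndep (sig c N) μ

variable {c : V → Ω → Bool} {N : Sym2 V → ℝ≥0 → Ω → ℕ} {r : Sym2 V → ℝ≥0}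

theorem Model.le (h : Model μ c N r) : ∀ i, sig c N i ≤ m0
  | .inl x => (h.mc x).comap_le
  | .inr e => (measurable_pi_lambda _ (h.pois e).meas).comap_le

theorem tk_step (T : ℝ≥0) (j k : ℕ) : tk T j (k + 1) - tk T j k = T / 2 ^ j := by
  unfold tk
  push_cast
  rw [add_mul, one_mul, add_tsub_cancel_left]

theorem Model.inc_law (h : Model μ c N r) (T : ℝ≥0) (j k : ℕ) (e : Sym2 V) :
    HasLaw (fun w => inc (fun e t => N e t w) T j k e) (poissonMeasure (r e * (T / 2 ^ j))) μ := by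
  have := (h.pois e).law _ _ (tk_mono T j (Nat.le_succ k))
  rwa [tk_step] at this

theorem Model.open_le (h : Model μ c N r) (T : ℝ≥0) (e : Sym2 V) :
    μ {w | N e T w ≠ N e 0 w} ≤ r e * T := by
  have := ((h.pois e).law 0 T zero_le).measure_eq (p := fun k => k ≠ 0) MeasurableSet.of_discrete
  rw [tsub_zero] at this
  refine le_trans (measure_mono fun w hw => ?_) (this.le.trans (by exact_mod_cast pois_ne_le _))
  have := (h.pois e).mono w (zero_le (a := T))
  simp only [Set.mem_ofPred_eq] at *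
  omega

theorem Model.ae_sep (h : Model μ c N r) (T : ℝ≥0) (e e' : Sym2 V) :
    ∀ᵐ w ∂μ, ∀ᶠ j in atTop, sep (fun e t => N e t w) T j e e' := by
  have k : ∀ j, μ {w | ¬ sep (fun e t => N e t w) T j e e'} ≤
      ((r e * T) * (r e * T) + (r e * T) * (r e' * T) : ℝ≥0) * (2⁻¹ : ℝ≥0∞) ^ j := by
    intro j
    have k1 : ∀ k, μ {w | ¬ (inc (fun e t => N e t w) T j k e ≤ 1 ∧
        (inc (fun e t => N e t w) T j k e ≠ 0 → inc (fun e t => N e t w) T j k e' ≠ 0 → e = e'))} ≤
        ((r e * (T / 2 ^ j)) * (r e * (T / 2 ^ j)) +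
          (r e * (T / 2 ^ j)) * (r e' * (T / 2 ^ j)) : ℝ≥0) := by
      intro k
      have a1 := ((h.inc_law T j k e).measure_eq (p := fun k => ¬ k ≤ 1)
        MeasurableSet.of_discrete).le.trans (pois_two_le _)
      by_cases he : e = e'
      · refine le_trans (measure_mono fun w hw => ?_) (a1.trans (by
          rw [ENNReal.coe_add, ENNReal.coe_mul (r e * _)]; exact le_self_add))
        exact fun h5 => hw ⟨h5, fun _ _ => he⟩
      · have a2 := (Indep_iff _ _ _).1 (h.indp.indep (i := .inr e) (j := .inr e') (by simpa using he))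
          _ _ (sig_N c N e (tk T j (k + 1)) (tk T j k) fun a b => a - b ≠ 0)
          (sig_N c N e' (tk T j (k + 1)) (tk T j k) fun a b => a - b ≠ 0)
        have a3 := fun e => ((h.inc_law T j k e).measure_eq (p := fun k => k ≠ 0)
          MeasurableSet.of_discrete).le.trans (pois_ne_le _)
        refine le_trans (measure_mono fun w hw => ?_) ((measure_union_le _ _).trans
          (by
            rw [ENNReal.coe_add, ENNReal.coe_mul (r e * _), ENNReal.coe_mul (r e * _)]
            exact add_le_add a1 (a2.le.trans (mul_le_mul' (a3 e) (a3 e')))))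
        by_contra h5
        simp only [Set.mem_union, Set.mem_ofPred_eq, Set.mem_inter_iff, not_or] at h5
        exact hw ⟨not_not.1 h5.1, fun a b => absurd ⟨a, b⟩ h5.2⟩
    refine le_trans (measure_mono (t := ⋃ k ∈ range (2 ^ j), _) fun w hw => ?_)
      ((measure_biUnion_finset_le _ _).trans ((sum_le_card_nsmul _ _ _ fun k _ => k1 k).trans
        (le_of_eq ?_)))
    · simp only [sep, not_forall, Set.mem_ofPred_eq] at hw
      obtain ⟨k, a1, a2⟩ := hw
      exact Set.mem_biUnion (mem_coe.2 (mem_range.2 a1)) a2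
    · rw [card_range, nsmul_eq_mul, show (2⁻¹ : ℝ≥0∞) = ((2⁻¹ : ℝ≥0) : ℝ≥0∞) by simp,
        ← ENNReal.coe_pow, ← ENNReal.coe_mul, ← ENNReal.coe_natCast, ← ENNReal.coe_mul]
      congr 1
      push_cast
      rw [inv_pow]
      field_simp
  have := ae_eventually_notMem (μ := μ) (s := fun j => {w | ¬ sep (fun e t => N e t w) T j e e'})
    (ne_top_of_le_ne_top (by
      rw [ENNReal.tsum_mul_left, ENNReal.tsum_geometric]
      exact ENNReal.mul_ne_top ENNReal.coe_ne_top (by simp)) (ENNReal.tsum_le_tsum k))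
  filter_upwards [this] with w hw
  exact hw.mono fun j hj => not_not.1 hj

omit m0 in
theorem saw_meas (T : ℝ≥0) (k : ℕ) : ∀ (x : V) (F : Set V), x ∉ F →
    MeasurableSet[⨆ i ∈ {i | ∃ e, i = Sum.inr e ∧ ∀ z ∈ e, z ∉ F}, sig c N i]
      {w | Saw (fun a b => N s(a, b) T w ≠ N s(a, b) 0 w) k x F} := by
  induction k with
  | zero => exact fun _ _ _ => MeasurableSet.univ
  | succ k ih =>
    intro x F hx
    have : {w | Saw (fun a b => N s(a, b) T w ≠ N s(a, b) 0 w) (k + 1) x F} =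
        ⋃ y ∈ (insert x F)ᶜ, {w | N s(x, y) T w ≠ N s(x, y) 0 w} ∩
          {w | Saw (fun a b => N s(a, b) T w ≠ N s(a, b) 0 w) k y (insert x F)} := by
      ext w
      simp only [Saw, Set.mem_ofPred_eq, Set.mem_iUnion, Set.mem_inter_iff, Set.mem_compl_iff,
        exists_prop]
    rw [this]
    refine MeasurableSet.biUnion (Set.to_countable _) fun y hy => MeasurableSet.inter ?_ ?_
    · refine le_iSup₂ (f := fun i (_ : i ∈ {i | ∃ e, i = Sum.inr e ∧ ∀ z ∈ e, z ∉ F}) => sig c N i)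
        (.inr s(x, y)) ⟨_, rfl, fun z hz => ?_⟩ _ (sig_N c N _ T 0 fun a b => a ≠ b)
      rcases Sym2.mem_iff.1 hz with rfl | rfl
      · exact hx
      · exact fun h => hy (Or.inr h)
    · refine biSup_mono (f := sig c N) ?_ _ (ih y _ hy)
      rintro _ ⟨e, rfl, h⟩
      exact ⟨e, rfl, fun z hz h5 => h z hz (Or.inr h5)⟩

theorem Model.saw_le [IsProbabilityMeasure μ] (h : Model μ c N r) {T M : ℝ≥0}
    (hM : ∀ x, ∑' y, (r s(x, y) : ℝ≥0∞) ≤ M) (k : ℕ) : ∀ (x : V) (F : Set V),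
    μ {w | Saw (fun a b => N s(a, b) T w ≠ N s(a, b) 0 w) k x F} ≤ ((M : ℝ≥0∞) * T) ^ k := by
  induction k with
  | zero => exact fun _ _ => by simpa using prob_le_one
  | succ k ih =>
    intro x F
    have : {w | Saw (fun a b => N s(a, b) T w ≠ N s(a, b) 0 w) (k + 1) x F} =
        ⋃ y, ⋃ _ : y ∉ insert x F, {w | N s(x, y) T w ≠ N s(x, y) 0 w} ∩
          {w | Saw (fun a b => N s(a, b) T w ≠ N s(a, b) 0 w) k y (insert x F)} := by
      ext w
      simp only [Saw, Set.mem_ofPred_eq, Set.mem_iUnion, Set.mem_inter_iff, exists_prop]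
    rw [this]
    refine (measure_iUnion_le _).trans ((ENNReal.tsum_le_tsum (g := fun y =>
      (r s(x, y) : ℝ≥0∞) * (T * ((M : ℝ≥0∞) * T) ^ k)) fun y => ?_).trans ?_)
    · by_cases hy : y ∉ insert x F
      swap
      · simp only [hy, Set.iUnion_false, measure_empty, zero_le]
      simp only [hy, not_false_eq_true, Set.iUnion_true]
      rw [(Indep_iff _ _ _).1 (indep_iSup_of_disjoint h.le h.indp (S := {.inr s(x, y)})
        (T := {i | ∃ e, i = Sum.inr e ∧ ∀ z ∈ e, z ∉ insert x F}) ?_) _ _ ?_ (saw_meas T k y _ hy),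
        ← mul_assoc]
      · exact mul_le_mul' (h.open_le T _) (ih _ _)
      · rw [Set.disjoint_singleton_left]
        rintro ⟨e, h1, h2⟩
        obtain rfl := Sum.inr_injective h1
        exact h2 x (Sym2.mem_mk_left x y) (Set.mem_insert _ _)
      · rw [_root_.iSup_singleton]
        exact sig_N c N _ T 0 fun a b => a ≠ b
    · rw [ENNReal.tsum_mul_right, pow_succ', mul_assoc]
      exact mul_le_mul' (hM x) le_rfl

theorem Model.ae_good [IsProbabilityMeasure μ] (h : Model μ c N r) {T M : ℝ≥0}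
    (hM : ∀ x, ∑' y, (r s(x, y) : ℝ≥0∞) ≤ M) (hT : M * T < 1) :
    ∀ᵐ w ∂μ, Good (fun e t => N e t w) T := by
  have k1 : ∀ x, ∀ᵐ w ∂μ, {z | N s(x, z) T w ≠ N s(x, z) 0 w}.Finite := fun x =>
    ae_finite_setOfPred_mem (s := fun z => {w | N s(x, z) T w ≠ N s(x, z) 0 w})
      (ne_top_of_le_ne_top (by
        rw [ENNReal.tsum_mul_right]
        exact ENNReal.mul_ne_top (ne_top_of_le_ne_top ENNReal.coe_ne_top (hM x)) ENNReal.coe_ne_top)
        (ENNReal.tsum_le_tsum fun z => h.open_le T s(x, z)))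
  have k2 : ∀ x, ∀ᵐ w ∂μ, ∃ k, ¬ Saw (fun a b => N s(a, b) T w ≠ N s(a, b) 0 w) k x ∅ := by
    intro x
    rw [ae_iff, ← nonpos_iff_eq_zero]
    refine ge_of_tendsto' (ENNReal.tendsto_pow_atTop_nhds_zero_of_lt_one
      (r := (M : ℝ≥0∞) * T) (by exact_mod_cast hT)) fun k => ?_
    refine le_trans (measure_mono fun w hw => ?_) (h.saw_le hM k x ∅)
    exact not_not.1 fun h5 => hw ⟨k, h5⟩
  filter_upwards [ae_all_iff.2 k1, ae_all_iff.2 k2,
    ae_all_iff.2 fun e => ae_all_iff.2 fun e' => h.ae_sep T e e'] with w h1 h2 h3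
  refine ⟨fun x => ?_, h3⟩
  obtain ⟨k, hk⟩ := h2 x
  simpa [clu] using finite_of_not_saw h1 k x ∅ hk

omit m0 in
theorem meas_det {m : MeasurableSpace Ω} {κ : Type*} (S : Finset κ) (p : κ → Ω → Prop)
    (hp : ∀ i ∈ S, MeasurableSet[m] {w | p i w}) (A : Set Ω)
    (hA : ∀ w w', (∀ i ∈ S, p i w ↔ p i w') → w ∈ A → w' ∈ A) : MeasurableSet[m] A := by
  let g : Ω → S → Prop := fun w i => p i w
  have hg : Measurable g := measurable_pi_lambda _ fun i => measurableSet_setOfPred.1 (hp i i.2)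
  have : A = g ⁻¹' (g '' A) := by
    refine Set.Subset.antisymm (Set.subset_preimage_image g A) ?_
    rintro w ⟨w', h1, h2⟩
    exact hA w' w (fun i hi => iff_of_eq (congrFun h2 ⟨i, hi⟩)) h1
  rw [this]
  exact hg MeasurableSet.of_discrete

theorem Model.law [IsProbabilityMeasure μ] (h : Model μ c N r) (T : ℝ≥0) (j : ℕ) (L : Finset V)
    (E : Finset (Sym2 V)) (X : Finset V) (hX : X ⊆ L) (m : ℕ) (B : ℕ → Finset (Sym2 V))
    (hB : ∀ k, B k ⊆ E) :
    μ.real {w | (L.filter fun v => c v w = true) = X ∧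
      ∀ k < m, rings (fun e t => N e t w) T j E k = B k} =
      (1 / 2) ^ L.card * ∏ k ∈ range m,
        wt (fun e => 1 - Real.exp (-(r e * (T / 2 ^ j) : ℝ≥0))) E (B k) := by
  let A : V ⊕ Sym2 V → Set Ω := Sum.elim (fun x => {w | c x w = true ↔ x ∈ X})
    (fun e => ⋂ k ∈ range m, {w | inc (fun e t => N e t w) T j k e ≠ 0 ↔ e ∈ B k})
  have e : {w | (L.filter fun v => c v w = true) = X ∧
      ∀ k < m, rings (fun e t => N e t w) T j E k = B k} = ⋂ i ∈ L.disjSum E, A i := by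
    ext w
    simp only [A, Set.mem_ofPred_eq, Set.mem_iInter, Sum.forall, inl_mem_disjSum, inr_mem_disjSum,
      Sum.elim_inl, Sum.elim_inr, mem_range, rings, Finset.ext_iff, mem_filter]
    refine and_congr ⟨fun h1 x hx => by rw [← h1 x]; simp [hx], fun h1 x =>
      ⟨fun h2 => (h1 x h2.1).1 h2.2, fun h2 => ⟨hX h2, (h1 x (hX h2)).2 h2⟩⟩⟩
      ⟨fun h1 e he k hk => by rw [← h1 k hk e]; simp [he], fun h1 k hk e =>
      ⟨fun h2 => (h1 e h2.1 k hk).1 h2.2, fun h2 => ⟨hB k h2, (h1 e (hB k h2) k hk).2 h2⟩⟩⟩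
  rw [e, measureReal_def, h.indp.meas_biInter, prod_disjSum, ENNReal.toReal_mul, ENNReal.toReal_prod,
    ENNReal.toReal_prod]
  · congr 1
    · rw [← prod_const]
      refine prod_congr rfl fun x _ => ?_
      by_cases hx : x ∈ X
      · simpa [A, hx, measureReal_def] using h.half x
      · have := probReal_compl_eq_one_sub (μ := μ) (h.le _ _ (sig_c c N x fun b => b = true))
        rw [h.half x] at this
        simp only [A, hx, Sum.elim_inl, iff_false]
        exact this.trans (by norm_num)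
    · simp only [wt]
      rw [Finset.prod_comm]
      refine prod_congr rfl fun e _ => ?_
      simp only [A, Sum.elim_inr]
      rw [((h.pois e).indep.nat (tk_mono T j)).meas_biInter, ENNReal.toReal_prod]
      · refine prod_congr rfl fun k _ => ?_
        have := (h.inc_law T j k e).measureReal_eq (p := fun n => n ≠ 0 ↔ e ∈ B k)
          MeasurableSet.of_discrete
        refine this.trans ?_
        split_ifs with he
        · simp only [he, iff_true, pois_ne]
        · simp only [he, iff_false, not_not, pois_zero]; ring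
      · exact fun k _ => comap_measurable _
          (MeasurableSet.of_discrete (s := {n : ℕ | n ≠ 0 ↔ e ∈ B k}))
  · rintro (x | e) _
    · exact sig_c c N x fun b => b = true ↔ x ∈ X
    · exact Finset.measurableSet_biInter _ fun k _ =>
        sig_N c N e (tk T j (k + 1)) (tk T j k) fun a b => a - b ≠ 0 ↔ e ∈ B k

theorem wt_single {ι : Type*} [DecidableEq ι] {E : Finset ι} {l : ι → ℝ} (hl : ∀ e, 0 ≤ l e)
    (hs : ∑ e ∈ E, l e ≤ 1 / 2) {e : ι} (he : e ∈ E) :
    l e / 2 ≤ wt (fun e => 1 - Real.exp (-l e)) E {e} := by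
  have k1 : l e * Real.exp (-l e) ≤ 1 - Real.exp (-l e) := by
    have := Real.add_one_le_exp (l e)
    have h2 : Real.exp (l e) * Real.exp (-l e) = 1 := by rw [← Real.exp_add]; simp
    nlinarith [Real.exp_pos (-l e)]
  have k2 : ∏ e' ∈ E, Real.exp (-l e') ≥ 1 / 2 := by
    rw [← Real.exp_sum, sum_neg_distrib]
    linarith [Real.add_one_le_exp (-∑ e ∈ E, l e)]
  rw [wt, ← mul_prod_erase E _ he, if_pos (mem_singleton_self e),
    prod_congr rfl (g := fun e' => Real.exp (-l e')) fun e' h' => by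
      rw [if_neg (by simpa using ne_of_mem_erase h')]; ring]
  rw [← mul_prod_erase E _ he] at k2
  have k3 : 0 ≤ ∏ e' ∈ E.erase e, Real.exp (-l e') := prod_nonneg fun _ _ => (Real.exp_pos _).le
  have := hl e
  nlinarith [mul_le_mul_of_nonneg_right k1 k3]

theorem swe_inv {L : Finset V} : (∀ e ∈ L.sym2, ∀ T, T ⊆ L → swe e T ⊆ L) ∧
    ∀ e ∈ L.sym2, ∀ T, T ⊆ L → swe e (swe e T) = T := by
  constructor <;> intro e he T hT <;> induction e using Sym2.ind
  · exact sw_subset (mk_mem_sym2_iff.1 he).1 (mk_mem_sym2_iff.1 he).2 hT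
  · exact sw_sw _ _ _

theorem pp_pos (j : ℕ) : 0 < pp 0 j := by
  obtain ⟨q, q0, -, hq0, hq1, -⟩ := pp_quasi
  induction j with
  | zero => exact q0.trans_le ((hq0 0).trans (pp_sub le_rfl le_rfl (by omega)))
  | succ j ih =>
    exact lt_of_lt_of_le (mul_pos q0 (mul_pos ih (q0.trans_le (hq0 j))))
      (hq1 0 j (j + 1) (by omega) (by omega))

theorem Model.hit_lower [IsProbabilityMeasure μ] (h : Model μ c N r) {T κ : ℝ≥0} (hT : 0 < T)
    (hκ : 0 < κ) (hr : ∀ x : V, κ ≤ r s(x, x + (1, 0))) : ∃ c0 : ℝ, 0 < c0 ∧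
    ∀ᶠ m in atTop, ∀ᶠ n in atTop, ∀ᶠ j in atTop,
      c0 ≤ μ.real {w | Hit (fun e t => N e t w) (fun x => c x w) T 0 n j 1 (4 ^ (m + 1))} := by
  obtain ⟨C, hC, hv⟩ := var_bound (κ := κ * T / 2) (by positivity)
  refine ⟨1 / (6 * C), by positivity, ?_⟩
  filter_upwards [eventually_ge_atTop 3] with m hm
  filter_upwards [eventually_ge_atTop (4 ^ (m + 1))] with n hn
  set L := Lb 0 n with hL
  have hL' : ∀ v, nu v ≤ 4 ^ (m + 1) → v ∈ L := fun v hv => mem_Lb.2
    ⟨by unfold nu; push_cast; omega, hv.trans (by exact_mod_cast hn)⟩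
  filter_upwards [(tendsto_pow_atTop_atTop_of_one_lt (one_lt_two (α := ℝ))).eventually_ge_atTop
    (2 * (∑ e ∈ L.sym2, (r e : ℝ)) * T)] with j hj
  have p2 : (0:ℝ) < 2 ^ j := by positivity
  have e1 : Ex L (fun T => ind (Arm 1 (4 ^ (m + 1)) T)) = pp 0 (m + 1) := by
    rw [P_eq ((loc_Arm _ _).mono fun v hv => hL' v hv.2), pp, pow_zero]
  refine le_trans (chain_lower (σ := swe) (L := L) (E := L.sym2)
    (q := fun e => 1 - Real.exp (-(r e * (T / 2 ^ j) : ℝ≥0))) (F := fun T => Arm 1 (4 ^ (m + 1)) T)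
    (fun e _ => ⟨sub_nonneg.2 (Real.exp_le_one_iff.2 (neg_nonpos.2 NNReal.zero_le_coe)),
      sub_le_self _ (Real.exp_pos _).le⟩) swe_inv.1 swe_inv.2 (D := dim (4 ^ (m + 1)))
    (ed := fun x => s(x, x + (1, 0))) (fun x hx => ?_) (fun x _ y _ hxy => ?_) (κ := κ * T / 2) hC
    (m := 2 ^ j) (by positivity) (fun x hx => ?_) (e1 ▸ pp_pos _) (e1 ▸ hv m L hm hL'))
    (le_of_eq (hit_prob μ swe _ _ _ L (fun w => L.filter fun v => c v w = true)
      (fun k w => rings (fun e t => N e t w) T j L.sym2 k) (fun _ => filter_subset _ _)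
      (fun _ _ => filter_subset _ _) (fun X => ?_) (fun k b => ?_)
      (fun X hX m B hB => h.law T j L _ X hX m B hB) _).symm)
  · have := (mem_dim.1 hx).2.2.2
    exact mk_mem_sym2_iff.2 ⟨hL' _ (by omega), hL' _ (by
      simp only [nu, Prod.fst_add, Prod.snd_add] at *; omega)⟩
  · simp only [Sym2.eq_iff, Prod.ext_iff, Prod.fst_add, Prod.snd_add] at hxy ⊢
    omega
  · have a1 := (mem_dim.1 hx).2.2.2
    refine le_trans ?_ (wt_single (l := fun e => (r e * (T / 2 ^ j) : ℝ≥0))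
      (fun _ => NNReal.zero_le_coe) ?_ (mk_mem_sym2_iff.2 ⟨hL' _ (by omega), hL' _ (by
      simp only [nu, Prod.fst_add, Prod.snd_add] at *; omega)⟩))
    · have : (κ : ℝ) ≤ r s(x, x + (1, 0)) := hr x
      push_cast
      calc _ = (κ : ℝ) * (T / 2 ^ j) / 2 := by ring
        _ ≤ _ := by gcongr
    · push_cast
      rw [← sum_mul, ← mul_div_assoc, div_le_iff₀ p2]
      linarith
  · exact meas_det L (fun v w => c v w = true) (fun v _ => h.le _ _ (sig_c c N v fun b => b = true))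
      _ fun w w' h1 h2 => (filter_congr fun v hv => (h1 v hv).symm).trans h2
  · exact meas_det L.sym2 (fun e w => inc (fun e t => N e t w) T j k e ≠ 0)
      (fun e _ => h.le _ _ (sig_N c N e (tk T j (k + 1)) (tk T j k) fun a b => a - b ≠ 0))
      _ fun w w' h1 h2 => (filter_congr fun v hv => (h1 v hv).symm).trans h2

/-- variables attached to sites and pairs far from the origin -/
def far (b : ℕ) : Set (V ⊕ Sym2 V) :=
  {i | Sum.elim (fun x => (b : ℤ) ≤ nu x) (fun e => ∀ z ∈ e, (b : ℤ) ≤ nu z) i}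

omit m0 in
theorem hit_meas (T : ℝ≥0) {b0 b : ℕ} (hb : b0 ≤ b) (n j : ℕ) (a R : ℤ) :
    MeasurableSet[⨆ i ∈ far b0, sig c N i]
      {w | Hit (fun e t => N e t w) (fun x => c x w) T b n j a R} := by
  have le : ∀ i ∈ far b0, sig c N i ≤ ⨆ i ∈ far b0, sig c N i := fun i hi =>
    le_iSup₂ (f := fun i (_ : i ∈ far b0) => sig c N i) i hi
  refine meas_det ((Lb b n).disjSum ((Lb b n).sym2 ×ˢ range (2 ^ j)))
    (Sum.elim (fun v w => c v w = true)
      (fun q w => inc (fun e t => N e t w) T j q.2 q.1 ≠ 0)) ?_ _ ?_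
  · rintro (v | ⟨e, k⟩) hi
    · refine le (.inl v) ?_ _ (sig_c c N v fun b => b = true)
      have := (mem_Lb.1 (inl_mem_disjSum.1 hi)).1
      show (b0 : ℤ) ≤ nu v
      omega
    · refine le (.inr e) (fun z hz => ?_) _
        (sig_N c N e (tk T j (k + 1)) (tk T j k) fun a b => a - b ≠ 0)
      have := (mem_Lb.1 (mem_sym2_iff.1 (mem_product.1 (inr_mem_disjSum.1 hi)).1 z hz)).1
      omega
  · rintro w w' h ⟨k, h1, h2⟩
    refine ⟨k, h1, ?_⟩
    rwa [← filter_congr (p := fun v => c v w = true) (q := fun v => c v w' = true)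
        fun v hv => h (.inl v) (inl_mem_disjSum.2 hv),
      ← run_congr swe _ k (B := rings (fun e t => N e t w) T j (Lb b n).sym2)
        (B' := rings (fun e t => N e t w') T j (Lb b n).sym2) fun i hi =>
        filter_congr (q := fun e => inc (fun e t => N e t w') T j i e ≠ 0) fun e he => h (.inr (e, i))
          (inr_mem_disjSum.2 (mem_product.2 ⟨he, mem_range.2 (by omega)⟩))]

theorem meas_freq {p : ℕ → Ω → Prop} (h : ∀ n, MeasurableSet {w | p n w}) :
    MeasurableSet {w | ∃ᶠ n in atTop, p n w} := by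
  simp only [frequently_atTop]
  exact measurableSet_setOfPred.2 (Measurable.forall fun a => Measurable.exists fun b =>
    measurable_const.and (measurableSet_setOfPred.1 (h b)))

omit m0 in
theorem AA_meas (T : ℝ≥0) {b0 b : ℕ} (hb : b0 ≤ b) : MeasurableSet[⨆ i ∈ far b0, sig c N i]
    {w | AA (fun e t => N e t w) (fun x => c x w) T b} := by
  let : MeasurableSpace Ω := ⨆ i ∈ far b0, sig c N i
  exact measurableSet_setOfPred.2 (Measurable.exists fun a => Measurable.forall fun R =>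
    measurableSet_setOfPred.1 (meas_freq fun n => meas_freq fun j => hit_meas T hb n j _ _))

/-- reverse Fatou -/
theorem freq_lower [IsProbabilityMeasure μ] {p : ℕ → Ω → Prop} (h : ∀ n, MeasurableSet {w | p n w})
    {a : ℝ} (ha : ∀ᶠ n in atTop, a ≤ μ.real {w | p n w}) :
    a ≤ μ.real {w | ∃ᶠ n in atTop, p n w} := by
  have e : {w | ∃ᶠ n in atTop, p n w} = ⋂ n, ⋃ k ≥ n, {w | p k w} := by
    ext w; simp [frequently_atTop]
  have t := tendsto_measure_iInter_atTop (μ := μ) (s := fun n => ⋃ k ≥ n, {w | p k w})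
    (fun n => (MeasurableSet.biUnion (Set.to_countable _) fun k _ => h k).nullMeasurableSet)
    (fun n m hnm => Set.biUnion_subset_biUnion_left fun k hk => le_trans hnm hk)
    ⟨0, measure_ne_top _ _⟩
  rw [e]
  refine ge_of_tendsto ((ENNReal.tendsto_toReal (measure_ne_top _ _)).comp t) ?_
  filter_upwards [ha] with n hn
  exact hn.trans (ENNReal.toReal_mono (measure_ne_top _ _)
    (measure_mono fun w hw => Set.mem_iUnion₂.2 ⟨n, le_rfl, hw⟩))

theorem Model.zero_one [IsProbabilityMeasure μ] (h : Model μ c N r) {A : Set Ω}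
    (hA : ∀ b, MeasurableSet[⨆ i ∈ far b, sig c N i] A) : μ A = 0 ∨ μ A = 1 := by
  have le : ∀ S : Set (V ⊕ Sym2 V), ⨆ i ∈ S, sig c N i ≤ m0 := fun S => iSup₂_le fun i _ => h.le i
  have k := indep_iSup_of_monotone (μ := μ) (m := fun b => ⨆ i ∈ (far b)ᶜ, sig c N i)
    (m1 := ⨅ b, ⨆ i ∈ far b, sig c N i)
    (fun b => indep_of_indep_of_le_right
      (indep_iSup_of_disjoint h.le h.indp disjoint_compl_left) (iInf_le _ b))
    (fun b => le _) ((iInf_le _ 0).trans (le _)) (fun a b hab => biSup_mono fun i hi h5 => hi (by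
      rcases i with x | e
      · exact le_trans (show (a : ℤ) ≤ b by exact_mod_cast hab) h5
      · exact fun z hz => le_trans (by exact_mod_cast hab) (h5 z hz)))
  refine measure_eq_zero_or_one_of_indep_self (indep_of_indep_of_le_left k ?_)
    (MeasurableSpace.measurableSet_iInf.2 hA)
  refine (iInf_le _ 0).trans (iSup₂_le fun i _ => ?_)
  obtain ⟨b, hb⟩ : ∃ b, i ∉ far b := by
    rcases i with x | e
    · exact ⟨(nu x).toNat + 1, fun h5 => by
        have : (((nu x).toNat + 1 : ℕ) : ℤ) ≤ nu x := h5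
        omega⟩
    · induction e using Sym2.ind with
      | _ x y => exact ⟨(nu x).toNat + 1, fun h5 => by
          have : (((nu x).toNat + 1 : ℕ) : ℤ) ≤ nu x := h5 x (Sym2.mem_mk_left x y)
          omega⟩
  exact le_iSup_of_le b (le_iSup₂ (f := fun i (_ : i ∈ (far b)ᶜ) => sig c N i) i hb)

/-- exceptional times exist -/
theorem Model.main [IsProbabilityMeasure μ] (h : Model μ c N r) {M κ : ℝ≥0}
    (hM : ∀ x, ∑' y, (r s(x, y) : ℝ≥0∞) ≤ M) (hκ : 0 < κ)
    (hr : ∀ x : V, κ ≤ r s(x, x + (1, 0))) :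
    ∀ᵐ w ∂μ, ∃ t x, {y | Conn (black (fun e t => N e t w) (fun x => c x w) t) x y}.Infinite := by
  set T : ℝ≥0 := (M + 1)⁻¹ with hT
  have T0 : 0 < T := by positivity
  have hg := h.ae_good hM (T := T) (by
    rw [hT, ← div_eq_mul_inv, div_lt_one (by positivity)]; exact lt_add_one M)
  obtain ⟨c0, c1, c2⟩ := h.hit_lower T0 hκ hr
  have le : ⨆ i ∈ far 0, sig c N i ≤ m0 := iSup₂_le fun i _ => h.le i
  have mH := fun n j a R => le _ (hit_meas (c := c) (N := N) T le_rfl n j a R)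
  have k1 := freq_lower (fun m => meas_freq fun n => meas_freq fun j => mH n j 1 (4 ^ (m + 1)))
    (c2.mono fun m hm => freq_lower (fun n => meas_freq fun j => mH n j 1 (4 ^ (m + 1)))
      (hm.mono fun n hn => freq_lower (fun j => mH n j 1 (4 ^ (m + 1))) hn))
  let A : Set Ω := {w | ∃ᶠ b in atTop, AA (fun e t => N e t w) (fun x => c x w) T b}
  have k2 : c0 ≤ μ.real A := by
    refine k1.trans (ENNReal.toReal_mono (measure_ne_top _ _) (measure_mono_ae ?_))
    filter_upwards [hg] with w hw h1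
    have hn := fun e => (h.pois e).mono w
    refine Frequently.of_forall fun b => (AA_iff hn hw _ b).2 ((AA_iff hn hw _ 0).1 ⟨1, fun R => ?_⟩)
    obtain ⟨m, a1, a2⟩ := (Frequently.and_eventually h1 (eventually_ge_atTop R)).exists
    refine a1.mono fun n hn => hn.mono fun j ⟨k, b1, b2⟩ => ⟨k, b1, b2.sub le_rfl (by omega) ?_⟩
    have : m + 1 < 4 ^ (m + 1) := Nat.lt_pow_self (by norm_num)
    have : ((m + 1 : ℕ) : ℤ) < 4 ^ (m + 1) := by exact_mod_cast this
    omega
  have k3 : μ A = 1 := by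
    refine (h.zero_one fun b0 => ?_).resolve_left fun h0 => ?_
    · have : A = {w | ∃ᶠ b in atTop, AA (fun e t => N e t w) (fun x => c x w) T (b + b0)} := by
        ext w
        exact (frequently_map (m := fun b => b + b0)).symm.trans
          (by rw [map_add_atTop_eq_nat]; rfl) |>.symm
      rw [this]
      exact meas_freq (m0 := _) fun b => AA_meas T (Nat.le_add_left b0 b)
    · rw [measureReal_def, h0, ENNReal.toReal_zero] at k2
      linarith
  have k4 : ∀ᵐ w ∂μ, w ∈ A := (mem_ae_iff_prob_eq_one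
    (meas_freq fun b => le _ (AA_meas T (Nat.zero_le b)))).2 k3
  filter_upwards [hg, k4] with w hw h1
  have hn := fun e => (h.pois e).mono w
  obtain ⟨b, hb⟩ := Frequently.exists h1
  exact exc_of_BB hn hw ((AA_iff hn hw _ b).1 hb)

theorem Model.shift (h : Model μ c N r) (S : ℝ≥0) : Model μ c (fun e u => N e (S + u)) r where
  pois e := ⟨fun _ => (h.pois e).meas _, fun w _ _ hab => (h.pois e).mono w (add_le_add le_rfl hab),
    fun n t ht => (h.pois e).indep n (fun i => S + t i) fun _ _ hab => add_le_add le_rfl (ht hab),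
    fun s t hst => by
      have := (h.pois e).law (S + s) (S + t) (add_le_add le_rfl hst)
      rwa [add_tsub_add_eq_tsub_left] at this⟩
  mc := h.mc
  half := h.half
  indp := iIndep_of_iIndep_of_le h.indp (by
    rintro (x | e)
    · exact le_rfl
    · exact ((measurable_pi_lambda (fun (p : ℝ≥0 → ℕ) t => p (S + t)) fun t =>
        measurable_pi_apply (S + t)).comp (comap_measurable fun w t => N e t w)).comap_le)

/-- the graphical construction is defined at all sites and times -/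
theorem Model.total [IsProbabilityMeasure μ] (h : Model μ c N r) {M : ℝ≥0}
    (hM : ∀ x, ∑' y, (r s(x, y) : ℝ≥0∞) ≤ M) :
    ∀ᵐ w ∂μ, ∀ t x, ∃! y, Src (fun e t => N e t w) x t y := by
  have T0 : 0 < (M + 1)⁻¹ := by positivity
  filter_upwards [ae_all_iff.2 fun k : ℕ => (h.shift (k * (M + 1)⁻¹)).ae_good hM (T := (M + 1)⁻¹)
    (by rw [← div_eq_mul_inv, div_lt_one (by positivity)]; exact lt_add_one M)] with w hw t x
  have hn := fun e => (h.pois e).mono w
  obtain ⟨y, hy⟩ := src_total' hn T0 hw t x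
  exact ⟨y, hy, hy.unique hn⟩

theorem norm_emb_sq (x y : V) : ‖emb x - emb y‖ ^ 2 =
    ((x.1 - y.1) ^ 2 + (x.1 - y.1) * (x.2 - y.2) + (x.2 - y.2) ^ 2 : ℤ) := by
  rw [Complex.sq_norm, Complex.normSq_apply]
  have : √3 * √3 = 3 := Real.mul_self_sqrt (by norm_num)
  simp only [emb, Complex.sub_re, Complex.sub_im]
  push_cast
  linear_combination ((x.2 - y.2 : ℝ) ^ 2 / 4) * this

theorem norm_emb_of_adj {x y : V} (h : adj x y) : ‖emb x - emb y‖ = 1 := by
  rw [← sq_eq_sq₀ (norm_nonneg _) zero_le_one, norm_emb_sq, one_pow]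
  norm_cast
  rcases h with ⟨h1, h2 | h2⟩ | ⟨h1, h2 | h2⟩ | ⟨h1, h2⟩ | ⟨h1, h2⟩ <;> rw [h1, h2] <;> ring

theorem tri_infinite {S : Set V} {x : V} (h : {y | Conn S x y}.Infinite) :
    ∃ K : (tri.induce S).ConnectedComponent, K.supp.Infinite := by
  obtain ⟨y0, h0⟩ := h.nonempty
  have hx : x ∈ S := Conn.left h0
  refine ⟨(tri.induce S).connectedComponentMk ⟨x, hx⟩,
    Set.Infinite.of_image Subtype.val (h.mono fun y hy => ?_)⟩
  refine ⟨⟨y, Conn.right hy⟩, SimpleGraph.ConnectedComponent.sound ?_, rfl⟩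
  induction hy with
  | refl _ => rfl
  | step h1 h2 h3 ih =>
    refine SimpleGraph.Reachable.trans (SimpleGraph.Adj.reachable ?_) ih
    exact ⟨h2.ne.symm, Or.inr (norm_emb_of_adj h2)⟩

theorem rate_bound {a C : ℝ} (ha : 0 < a) {P : V → V → ℝ≥0} (h0 : ∀ x, P x x = 0)
    (h : ∀ x y, x ≠ y → (P x y : ℝ) ≤ C / ‖emb x - emb y‖ ^ (2 + a)) :
    ∃ M : ℝ≥0, ∀ x, ∑' y, (P x y : ℝ≥0∞) ≤ M := by
  have hs := (EisensteinSeries.summable_one_div_norm_rpow (k := 2 + a) (by linarith)).mul_left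
    (|C| * 2 ^ (2 + a))
  have hp : ∀ v : Fin 2 → ℤ, 0 ≤ |C| * 2 ^ (2 + a) * ‖v‖ ^ (-(2 + a)) := fun v => by positivity
  refine ⟨Real.toNNReal (∑' v : Fin 2 → ℤ, |C| * 2 ^ (2 + a) * ‖v‖ ^ (-(2 + a))), fun x => ?_⟩
  let e : V ≃ (Fin 2 → ℤ) := (Equiv.subLeft x).trans (finTwoArrowEquiv ℤ).symm
  refine le_trans (ENNReal.tsum_le_tsum fun y => ?_) (le_of_eq ((e.tsum_eq fun v =>
    ENNReal.ofReal (|C| * 2 ^ (2 + a) * ‖v‖ ^ (-(2 + a)))).trans
      (ENNReal.ofReal_tsum_of_nonneg hp hs).symm))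
  by_cases hxy : x = y
  · rw [← hxy, h0]; simp
  rw [← ENNReal.ofReal_coe_nnreal]
  refine ENNReal.ofReal_le_ofReal ((h x y hxy).trans ?_)
  have k1 : ‖e y‖ ≤ 2 * ‖emb x - emb y‖ := by
    have k := norm_emb_sq x y
    push_cast at k
    rw [pi_norm_le_iff_of_nonneg (by positivity), Fin.forall_fin_two]
    have e0 : e y 0 = x.1 - y.1 := rfl
    have e1 : e y 1 = x.2 - y.2 := rfl
    rw [e0, e1, Int.norm_eq_abs, Int.norm_eq_abs]
    push_cast
    constructor <;> refine abs_le_of_sq_le_sq ?_ (by positivity)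
    · nlinarith [sq_nonneg ((x.1 - y.1 : ℝ) + (x.2 - y.2)), sq_nonneg (x.1 - y.1 : ℝ),
        sq_nonneg (x.2 - y.2 : ℝ)]
    · nlinarith [sq_nonneg ((x.1 - y.1 : ℝ) + (x.2 - y.2)), sq_nonneg (x.1 - y.1 : ℝ),
        sq_nonneg (x.2 - y.2 : ℝ)]
  have k2 : 0 < ‖e y‖ := norm_pos_iff.2 fun h5 => hxy (by
    have e0 : x.1 - y.1 = 0 := congrFun h5 0
    have e1 : x.2 - y.2 = 0 := congrFun h5 1
    exact Prod.ext (by omega) (by omega))
  have k3 : 0 < ‖emb x - emb y‖ := by linarith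
  rw [Real.rpow_neg k2.le, div_le_iff₀ (by positivity)]
  have k4 : ‖e y‖ ^ (2 + a) ≤ 2 ^ (2 + a) * ‖emb x - emb y‖ ^ (2 + a) := by
    rw [← Real.mul_rpow (by norm_num) k3.le]
    exact Real.rpow_le_rpow k2.le k1 (by linarith)
  calc C ≤ |C| * 1 := by rw [mul_one]; exact le_abs_self C
    _ ≤ |C| * (2 ^ (2 + a) * ‖emb x - emb y‖ ^ (2 + a) / ‖e y‖ ^ (2 + a)) := by
        gcongr
        rwa [one_le_div (by positivity)]
    _ = _ := by field_simp

end Pool.Agent.Lib.MP_e26b79_pr
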