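import Pool.Agent.Lib.MP_e26b79_pr.Cross

namespace Pool.Agent.Lib.MP_e26b79_pr

/-- Euclidean rectangles -/
def jag (a b h : ℤ) : Set V := {v | a ≤ 2 * v.1 + v.2 ∧ 2 * v.1 + v.2 ≤ b ∧ 0 ≤ v.2 ∧ v.2 ≤ h}
theorem mem_jag {a b h : ℤ} {v : V} :
    v ∈ jag a b h ↔ a ≤ 2 * v.1 + v.2 ∧ 2 * v.1 + v.2 ≤ b ∧ 0 ≤ v.2 ∧ v.2 ≤ h := Iff.rfl
theorem jag_finite (a b h : ℤ) : (jag a b h).Finite :=
  (rs_finite (min 0 (a - h)) (max 0 b) 0 h).subset fun v => by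
    simp only [mem_jag, mem_rs]; omega
theorem retr_jag {a b h : ℤ} (hab : a + 1 ≤ b) (hh : 0 ≤ h) : Retr (jag a b h) := by
  have := retr_rows (fun j => (a - j + 1) / 2) (fun j => (b - j) / 2) hh (fun j => by omega)
    (fun j => by omega) (fun j => by omega)
  have e : jag a b h = {v | (a - v.2 + 1) / 2 ≤ v.1 ∧ v.1 ≤ (b - v.2) / 2 ∧ 0 ≤ v.2 ∧ v.2 ≤ h} := by
    ext v
    simp only [mem_jag, Set.mem_ofPred_eq]
    omega
  rw [e]
  exact this

def JH (a b h : ℤ) (S : Set V) : Prop :=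
  ∃ l r : V, 2 * l.1 + l.2 < a + 2 ∧ b - 2 < 2 * r.1 + r.2 ∧ Conn (S ∩ jag a b h) l r
theorem loc_JH (a b h : ℤ) : Loc (JH a b h) (jag a b h) :=
  fun _ _ h ⟨l, r, h1, h2, h3⟩ => ⟨l, r, h1, h2, conn_loc h h3⟩

def Lv (a h : ℤ) (S : Set V) : Prop :=
  ∃ l r : V, (2 * l.1 + l.2 < -a + 2 ∨ (l.2 = 0 ∧ l.1 ≤ 0)) ∧ a - 2 < 2 * r.1 + r.2 ∧
    Conn (S ∩ jag (-a) a h) l r
def Rv (a h : ℤ) (S : Set V) : Prop :=
  ∃ l r : V, 2 * l.1 + l.2 < -a + 2 ∧ (a - 2 < 2 * r.1 + r.2 ∨ (r.2 = 0 ∧ 0 ≤ r.1)) ∧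
    Conn (S ∩ jag (-a) a h) l r
theorem loc_Lv (a h : ℤ) : Loc (Lv a h) (jag (-a) a h) :=
  fun _ _ h ⟨l, r, h1, h2, h3⟩ => ⟨l, r, h1, h2, conn_loc h h3⟩
theorem loc_Rv (a h : ℤ) : Loc (Rv a h) (jag (-a) a h) :=
  fun _ _ h ⟨l, r, h1, h2, h3⟩ => ⟨l, r, h1, h2, conn_loc h h3⟩

/-- reflection in the vertical axis -/
def rf (v : V) : V := (-v.1 - v.2, v.2)
theorem rf_rf (v : V) : rf (rf v) = v := by
  ext <;> simp [rf]
def rfE : V ≃ V := ⟨rf, rf, rf_rf, rf_rf⟩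
theorem adj_rf (a b : V) (h : adj a b) : adj (rf a) (rf b) := by
  simp only [adj, rf] at *; omega
theorem rf_jag {a h : ℤ} {v : V} (hv : v ∈ jag (-a) a h) : rf v ∈ jag (-a) a h := by
  simp only [mem_jag, rf] at *; omega

theorem JH_of_Lv_Rv {a h : ℤ} {S : Set V} (h1 : Lv a h S) (h2 : Rv a h S) :
    JH (-a) a h S := by
  obtain ⟨l1, r1, e1, e2, c1⟩ := h1
  obtain ⟨l2, r2, f1, f2, c2⟩ := h2
  rcases e1 with e1 | e1
  · exact ⟨l1, r1, e1, e2, c1⟩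
  rcases f2 with f2 | f2
  · exact ⟨l2, r2, f1, f2, c2⟩
  suffices ∃ z, Conn (S ∩ jag (-a) a h) l1 z ∧ Conn (S ∩ jag (-a) a h) l2 z by
    obtain ⟨z, g1, g2⟩ := this
    exact ⟨l2, r1, f1, e2, g2.trans (g1.symm.trans c1)⟩
  have m1 := c1.right.2
  have m2 := c2.left.2
  have m3 := c2.right.2
  rw [mem_jag] at m1 m2 m3
  let S1 : Set V := {w | Conn (S ∩ jag (-a) a h) l1 w} ∪ {w | a < 2 * w.1 + w.2 ∧ 0 ≤ w.2}
  let T1 : Set V := {w | Conn (S ∩ jag (-a) a h) l2 w} ∪ {w | w.2 = -1}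
  have p1 : Conn (insert (l1.1, -1) S1) (l1.1, -1) (r1.1 + 1, h) := by
    refine .head (Set.mem_insert _ _) (v := l1) (by simp [adj]; omega)
      (Conn.mono (S := S1) ?_ (Set.subset_insert _ _))
    refine (c1.cluster.mono Set.subset_union_left).trans ?_
    refine .head (Or.inl c1) (v := (r1.1 + 1, r1.2)) (by simp [adj]) ?_
    exact conn_col m1.2.2.2 fun y h1 h2 => Or.inr (by simp only [Set.mem_ofPred_eq]; omega)
  have p2 : Conn (T1 \ {(l1.1, -1)}) l2 (r2.1 + 1, -1) := by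
    refine .step (c2.cluster.mono fun w hw => ⟨Or.inl hw, ?_⟩) (by simp [adj]; omega)
      ⟨Or.inr rfl, by simp; omega⟩
    rintro rfl
    have := (Conn.right hw).2
    simp [mem_jag] at this
  obtain ⟨z, hz, hz'⟩ := meet_TB (y0 := -1) (y1 := h) p1 p2 rfl rfl
    (by
      rintro t ⟨ht | ht, -⟩
      · have := (Conn.right ht).2
        rw [mem_jag] at this
        omega
      · simp only [Set.mem_ofPred_eq] at ht
        omega)
    (by
      rintro w (rfl | hw | hw) h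
      · dsimp only at h; omega
      · have := (Conn.right hw).2
        rw [mem_jag] at this
        omega
      · simp only [Set.mem_ofPred_eq] at hw
        omega)
    (by
      rintro w (rfl | hw | hw) h
      · dsimp only; omega
      · have := (Conn.right hw).2
        rw [mem_jag] at this
        dsimp only at h
        omega
      · simp only [Set.mem_ofPred_eq] at hw
        dsimp only at h
        omega)
  rcases hz with rfl | hz | hz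
  · exact absurd rfl hz'.2
  · rcases hz'.1 with h3 | h3
    · exact ⟨z, hz, h3⟩
    · have := (Conn.right hz).2
      simp only [mem_jag, Set.mem_ofPred_eq] at this h3
      omega
  · rcases hz'.1 with h3 | h3
    · have := (Conn.right h3).2
      simp only [mem_jag, Set.mem_ofPred_eq] at this hz
      omega
    · simp only [Set.mem_ofPred_eq] at hz h3
      omega

theorem conn_zig {S : Set V} {c y : ℤ} (hy : 0 ≤ y)
    (h : ∀ j, 0 ≤ j → j ≤ y → ((c - j) / 2, j) ∈ S) : Conn S (c / 2, 0) ((c - y) / 2, y) := by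
  induction y, hy using Int.leInduction with
  | base => simpa using Conn.refl (S := S) (by simpa using h 0 le_rfl le_rfl)
  | succ n hn ih =>
    exact .step (ih fun x h1 h2 => h x h1 (by omega)) (by unfold adj; dsimp only; omega)
      (h _ (by omega) le_rfl)

/-- white sites of the right half joined to the top -/
def Wt (a h : ℤ) (S : Set V) : Set V := {v | ∃ t : V, t.2 = h ∧ Conn (Sᶜ ∩ jag 0 a h) t v}
def Jt (a h : ℤ) (S : Set V) : Set V :=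
  {v | v ∈ jag 0 a h ∧ (v.2 = h ∨ ∃ w ∈ Wt a h S, adj v w)}

theorem Wt_subJ {a h : ℤ} {S : Set V} {v : V} (hv : v ∈ Wt a h S) : v ∈ Jt a h S := by
  obtain ⟨t, ht, hc⟩ := hv
  refine ⟨hc.right.2, ?_⟩
  cases hc with
  | refl _ => exact Or.inl ht
  | step h1 h2 _ => exact Or.inr ⟨_, ⟨t, ht, h1⟩, h2.symm⟩

theorem Wt_eq {a h : ℤ} {S S' : Set V} (hS : ∀ v ∈ Jt a h S, v ∈ S ↔ v ∈ S') :
    Wt a h S' = Wt a h S := by
  ext v
  constructor
  · rintro ⟨t, ht, hc⟩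
    refine hc.closed (P := fun w => w ∈ Wt a h S) ⟨t, ht, .refl ⟨fun h1 => ?_, hc.left.2⟩⟩ ?_
    · exact hc.left.1 ((hS t ⟨hc.left.2, Or.inl ht⟩).1 h1)
    · rintro x y - hy hxy ⟨t', ht', hc'⟩
      refine ⟨t', ht', .step hc' hxy ⟨fun h1 => ?_, hy.2⟩⟩
      exact hy.1 ((hS y ⟨hy.2, Or.inr ⟨x, ⟨t', ht', hc'⟩, hxy.symm⟩⟩).1 h1)
  · rintro ⟨t, ht, hc⟩
    refine ⟨t, ht, hc.cluster.mono fun w hw => ⟨fun h1 => ?_, (Conn.right hw).2⟩⟩
    exact (Conn.right hw).1 ((hS w (Wt_subJ ⟨t, ht, hw⟩)).2 h1)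

theorem smirnov {a h : ℤ} (ha : 2 ≤ a) (hh : 0 ≤ h) {S U S1 S2 : Set V} (hS : JH 0 a h S)
    (h1 : ∀ v ∈ Jt a h S, v ∈ S → v ∈ S1) (h2 : ∀ v ∈ Jt a h S, v ∈ S → v ∈ S2)
    (h3 : ∀ v, v ∉ Jt a h S → v ∈ U → v ∈ S1)
    (h4 : ∀ v ∈ jag (-a) a h, v ∉ Jt a h S → rf v ∉ U → v ∈ S2) : Lv a h S1 ∨ Lv a h S2 := by
  set Q := jag (-a) a (h + 1) with hQ
  set W := Wt a h S with hW
  let C : Set V := {v | v ∈ W ∨ rf v ∈ W ∨ (v ∈ Q ∧ v.2 = h + 1)}
  have hWj : ∀ v ∈ W, v ∈ jag 0 a h := fun v hv => (Wt_subJ hv).1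
  have hCQ : C ⊆ Q := by
    rintro v (hv | hv | hv)
    · have := hWj _ hv
      simp only [hQ, mem_jag] at *; omega
    · have := hWj _ hv
      simp only [hQ, mem_jag, rf] at *; omega
    · exact hv.1
  have hCrf : ∀ v ∈ C, rf v ∈ C := by
    rintro v (hv | hv | hv)
    · exact Or.inr (Or.inl (by rwa [rf_rf]))
    · exact Or.inl hv
    · exact Or.inr (Or.inr ⟨rf_jag hv.1, hv.2⟩)
  let b0 : V := ((a - (h + 1)) / 2, h + 1)
  have htop : ∀ v ∈ Q, v.2 = h + 1 → ∀ Z : Set V,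
      (∀ w ∈ Q, w.2 = h + 1 → v.1 ≤ w.1 → w ∈ Z) → Conn Z b0 v := by
    rintro ⟨i, j⟩ hv rfl Z hZ
    simp only [hQ, mem_jag] at hv hZ
    exact (conn_row (by omega) fun x e1 e2 => hZ _ (by dsimp only; omega) rfl e1).symm
  have hC0 : ∀ v ∈ C, Conn C b0 v := by
    have k1 : ∀ v ∈ Q, v.2 = h + 1 → Conn C b0 v := fun v hv e =>
      htop v hv e C fun w h1 h2 _ => Or.inr (Or.inr ⟨h1, h2⟩)
    have k2 : ∀ v ∈ W, Conn C b0 v := by
      rintro v ⟨t, ht, hc⟩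
      have := hc.left.2
      have e : (t.1 - 1, t.2 + 1) ∈ Q := by simp only [hQ, mem_jag] at *; omega
      exact (k1 _ e (by simp [ht])).trans (.head (Or.inr (Or.inr ⟨e, by simp [ht]⟩))
        (by simp [adj]) (hc.cluster.mono fun w hw => Or.inl ⟨t, ht, hw⟩))
    rintro v (hv | hv | hv)
    · exact k2 v hv
    · have := (k2 _ hv).map rf (fun x y hxy => Or.inr (adj_rf x y hxy)) hCrf
      rw [rf_rf] at this
      exact (k1 _ (hCQ this.left) rfl).trans this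
    · exact k1 v hv.1 hv.2
  have hCc : ∀ x ∈ C, ∀ y ∈ C, Conn C x y := fun x hx y hy => (hC0 x hx).symm.trans (hC0 y hy)
  have hRQ : Retr Q := retr_jag (by omega) (by omega)
  have hbot : ∀ v ∈ C, v.2 ≠ 0 := by
    have k : ∀ v ∈ W, v.2 ≠ 0 := by
      rintro v ⟨t, ht, hc⟩ hv
      obtain ⟨l, r, e1, e2, hc'⟩ := hS
      have m1 := hc'.left.2
      have m2 := hc'.right.2
      obtain ⟨z, hz, hz'⟩ := meet_TB hc.symm hc' hv ht
        (fun w hw => by have := hw.2; rw [mem_jag] at this; omega)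
        (fun w hw _ => by have := hw.2; rw [mem_jag] at this m1; omega)
        (fun w hw _ => by have := hw.2; rw [mem_jag] at this m2; omega)
      exact hz.1 hz'.1
    rintro v (hv | hv | hv)
    · exact k v hv
    · exact k (rf v) hv
    · omega
  set D := vis Q C (0, 0) with hD
  set K := bd Q C (0, 0) with hK
  have hrow : ∀ (Z : Set V) (x : ℤ), (x, (0:ℤ)) ∈ Q →
      (∀ w ∈ Q, w.2 = 0 → (w.1 ≤ 0 ↔ x ≤ 0) ∨ w.1 = 0 → w ∈ Z) → Conn Z (0, 0) (x, 0) := by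
    intro Z x hx hZ
    simp only [hQ, mem_jag] at hx hZ
    rcases le_total 0 x with e | e
    · exact conn_row e fun y e1 e2 => hZ _ (by dsimp only; omega) rfl (by dsimp only; omega)
    · exact (conn_row e fun y e1 e2 => hZ _ (by dsimp only; omega) rfl
        (by dsimp only; omega)).symm
  have hDbot : ∀ v ∈ Q, v.2 = 0 → v ∈ D := by
    rintro ⟨i, j⟩ hv rfl
    exact hrow _ i hv fun w h1 h2 _ => ⟨h1, fun h3 => hbot w h3 h2⟩
  have hDrf : ∀ v ∈ D, rf v ∈ D := fun v hv =>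
    Conn.map hv rf (fun x y hxy => Or.inr (adj_rf x y hxy))
      fun x hx => ⟨rf_jag hx.1, fun h5 => hx.2 (rf_rf x ▸ hCrf _ h5)⟩
  have hKrf : ∀ v ∈ K, rf v ∈ K := fun v ⟨hv, c, hc, hvc⟩ =>
    ⟨hDrf v hv, rf c, hCrf c hc, adj_rf _ _ hvc⟩
  have hDQ : ∀ v ∈ D, v ∈ jag (-a) a h := by
    intro v hv
    have e1 := (Conn.right hv).1
    have e2 : v.2 ≠ h + 1 := fun e => (Conn.right hv).2 (Or.inr (Or.inr ⟨e1, e⟩))
    simp only [hQ, mem_jag] at *; omega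
  have hJK : ∀ v ∈ D, v ∈ Jt a h S → v ∈ K := by
    rintro v hv ⟨e1, e2 | ⟨w, hw, e2⟩⟩
    · refine ⟨hv, (v.1 - 1, v.2 + 1), Or.inr (Or.inr ⟨?_, by simp [e2]⟩), by simp [adj]⟩
      simp only [hQ, mem_jag] at *; omega
    · exact ⟨hv, w, Or.inl hw, e2⟩
  let Kp : Set V := {v | v ∈ K ∧ 0 ≤ 2 * v.1 + v.2}
  have hKp : ∀ v ∈ Kp, v ∈ Jt a h S ∧ v ∈ S := by
    rintro v ⟨⟨hv, c, hc, hvc⟩, e⟩
    have e1 := hDQ v hv
    have e2 : v ∈ jag 0 a h := by simp only [mem_jag] at *; omega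
    have e3 : v ∉ W := fun h5 => (Conn.right hv).2 (Or.inl h5)
    have k : ∀ w ∈ W, adj v w → v ∈ Jt a h S ∧ v ∈ S := by
      rintro w hw hvw
      refine ⟨⟨e2, Or.inr ⟨w, hw, hvw⟩⟩, ?_⟩
      by_contra h5
      obtain ⟨t, ht, hc⟩ := hw
      exact e3 ⟨t, ht, .step hc hvw.symm ⟨h5, e2⟩⟩
    rcases hc with hc | hc | hc
    · exact k c hc hvc
    · have e4 := hWj _ hc
      by_cases e5 : v = rf c
      · exact absurd (e5 ▸ hc) e3
      · refine k _ hc ?_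
        have : v.1 ≠ -c.1 - c.2 ∨ v.2 ≠ c.2 := by
          by_contra h6
          exact e5 (Prod.ext (by simp only [rf]; omega) (by simp only [rf]; omega))
        simp only [mem_jag, adj, rf] at *
        omega
    · have e4 : v.2 = h := by
        have := hc.2
        simp only [mem_jag, adj] at *
        omega
      refine ⟨⟨e2, Or.inl e4⟩, ?_⟩
      by_contra h5
      exact e3 ⟨v, e4, .refl ⟨h5, e2⟩⟩
  have hKpc : ∀ x ∈ Kp, ∀ y ∈ Kp, Conn Kp x y := by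
    intro x hx y hy
    have := (bd_conn hRQ hCQ hCc hx.1 hy.1).map
      (fun v => if 0 ≤ 2 * v.1 + v.2 then v else rf v) (S' := Kp) ?_ ?_
    · simpa only [if_pos hx.2, if_pos hy.2] using this
    · intro u v huv
      split_ifs with e1 e2 e2
      · exact Or.inr huv
      · simp only [adj, rf, Prod.ext_iff] at *; omega
      · simp only [adj, rf, Prod.ext_iff] at *; omega
      · exact Or.inr (adj_rf _ _ huv)
    · intro v hv
      split_ifs with e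
      · exact ⟨hv, e⟩
      · exact ⟨hKrf v hv, by simp only [rf]; omega⟩
  let Rs : Set V := {v | v ∈ Q ∧ a - 2 < 2 * v.1 + v.2}
  have hRs : Conn Rs (a / 2, 0) b0 := conn_zig (by omega) fun j e1 e2 =>
    ⟨by simp only [hQ, mem_jag]; omega, by dsimp only; omega⟩
  have hb0 : b0 ∈ Q := hRs.right.1
  obtain ⟨r0, hr0, hr0'⟩ := bd_first (C := C) (t := (0, 0)) (fun v hv => hv.1) hRs
    (hDbot _ hRs.left.1 rfl) (Or.inr (Or.inr ⟨hb0, rfl⟩))
  have hr1 : a - 2 < 2 * r0.1 + r0.2 := hr0'.right.1.2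
  have hr2 : r0 ∈ Kp := ⟨hr0, by omega⟩
  have fin : ∀ S' : Set V, (∀ v ∈ Jt a h S, v ∈ S → v ∈ S') → ∀ z ∈ Kp, ∀ l : V,
      (2 * l.1 + l.2 < -a + 2 ∨ (l.2 = 0 ∧ l.1 ≤ 0)) → Conn (S' ∩ jag (-a) a h) z l →
      Lv a h S' := by
    intro S' hS' z hz l hl hc
    refine ⟨l, r0, hl, hr1, hc.symm.trans ((hKpc z hz r0 hr2).mono fun w hw => ?_)⟩
    exact ⟨hS' w (hKp w hw).1 (hKp w hw).2, hDQ w hw.1.1⟩
  have hKS : ∀ S' : Set V, (∀ v ∈ Jt a h S, v ∈ S → v ∈ S') → ∀ z ∈ Kp,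
      z ∈ S' ∩ jag (-a) a h := fun S' hS' w hw => ⟨hS' w (hKp w hw).1 (hKp w hw).2, hDQ w hw.1.1⟩
  let Bs : Set V := {v | v ∈ Q ∧ ((v ∈ D \ K ∧ v ∈ U) ∨ (v ∉ D \ K ∧ 0 ≤ 2 * v.1 + v.2))}
  let C' : Set V := {v | Conn Bs b0 v}
  have hvD : ∀ v ∈ Q, v.2 = h + 1 → v ∉ D \ K := fun v hv e h5 =>
    (Conn.right h5.1).2 (Or.inr (Or.inr ⟨hv, e⟩))
  have hC'top : ∀ v ∈ Q, v.2 = h + 1 → 0 ≤ 2 * v.1 + v.2 → v ∈ C' := fun v hv e e' =>
    htop v hv e Bs fun w e1 e2 e3 => ⟨e1, Or.inr ⟨hvD w e1 e2, by omega⟩⟩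
  by_cases hcase : ∃ l ∈ C', l.2 ≤ h ∧ (2 * l.1 + l.2 < -a + 2 ∨ (l.2 = 0 ∧ l.1 ≤ 0))
  · left
    obtain ⟨l, hl, -, hl2⟩ := hcase
    by_cases e : l ∈ D \ K
    · obtain ⟨z, z', c1, c2, c3, c4⟩ := Conn.last_exit (C := (D \ K)ᶜ) hl (hvD _ hb0 rfl)
        (not_not.2 e)
      have e1 : z' ∈ D \ K := not_not.1 c4.left.2
      have e2 : z ∈ Kp := by
        refine ⟨bd_step c1.right.1 c2 c3 e1, ?_⟩
        rcases c1.right.2 with h5 | h5
        · exact absurd h5.1 c2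
        · exact h5.2
      refine fin S1 h1 z e2 l hl2 (.head (hKS S1 h1 z e2) c3 (c4.mono ?_))
      rintro w ⟨⟨-, h5 | h5⟩, h6⟩
      · exact ⟨h3 w (fun h7 => h5.1.2 (hJK w h5.1.1 h7)) h5.2, hDQ w h5.1.1⟩
      · exact absurd h5.1 h6
    · have e1 := (Conn.right hl).1
      rcases (Conn.right hl).2 with h5 | h5
      · exact absurd h5.1 e
      · have e2 : l.2 = 0 := by omega
        have e3 : l ∈ Kp := ⟨by_contra fun h6 => e ⟨hDbot l e1 e2, h6⟩, h5.2⟩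
        exact fin S1 h1 l e3 l hl2 (.refl (hKS S1 h1 l e3))
  · right
    have hno : ∀ l ∈ Q, (l.2 ≤ h ∧ (2 * l.1 + l.2 < -a + 2 ∨ (l.2 = 0 ∧ l.1 ≤ 0))) ∨
        (l.2 = h + 1 ∧ 2 * l.1 + l.2 < 0) → l ∈ Q \ C' := by
      rintro l hl (e | e)
      · exact ⟨hl, fun h5 => hcase ⟨l, h5, e⟩⟩
      · refine ⟨hl, fun h5 => ?_⟩
        rcases (Conn.right h5).2 with h6 | h6
        · exact hvD l hl e.1 h6.1
        · omega
    have hC'Q : C' ⊆ Q := fun v hv => (Conn.right hv).1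
    let v1 : V := ((-1 - (h + 1)) / 2, h + 1)
    have hv1 : v1 ∈ bd Q C' (0, 0) := by
      refine ⟨?_, (v1.1 + 1, h + 1), hC'top _ (by simp only [hQ, mem_jag, v1]; omega) rfl
        (by simp only [v1]; omega), by simp [adj, v1]⟩
      refine (hrow _ ((1 - a) / 2) (by simp only [hQ, mem_jag]; omega) fun w e1 e2 e3 =>
        hno w e1 (Or.inl (by omega))).trans ((conn_zig (y := h + 1) (by omega) fun j e1 e2 =>
          hno _ (by simp only [hQ, mem_jag]; omega) (by dsimp only; omega)).trans ?_)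
      exact conn_row (by omega) fun x e1 e2 =>
        hno _ (by simp only [hQ, mem_jag]; omega) (by dsimp only; omega)
    let A2 : Set V := {v | v ∈ Q ∧ (a - 2 < 2 * v.1 + v.2 ∨ (v.2 = 0 ∧ 0 ≤ v.1))}
    have hA2 : Conn A2 (0, 0) b0 :=
      (hrow A2 (a / 2) hRs.left.1 fun w e1 e2 e3 => ⟨e1, by omega⟩).trans
        (hRs.mono fun w hw => ⟨hw.1, Or.inl hw.2⟩)
    obtain ⟨w0, hw0, hw0'⟩ := bd_first (C := C') (t := (0, 0)) (fun v hv => hv.1) hA2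
      (Conn.refl (hno _ hA2.left.1 (by dsimp only; omega)))
      (hC'top _ hb0 rfl (by simp only [b0]; omega))
    have hnb : ∀ v ∈ bd Q C' (0, 0), v ∉ Bs := fun v ⟨hv, c, hc, hvc⟩ h5 =>
      (Conn.right hv).2 (Conn.step hc hvc.symm h5)
    have hw1 := hw0'.right.1
    have hw2 : w0 ∈ D \ K := by
      by_contra h5
      exact hnb w0 hw0 ⟨hw1.1, Or.inr ⟨h5, by have := hw1.2; omega⟩⟩
    obtain ⟨z, z', c1, c2, c3, c4⟩ := Conn.last_exit (C := (D \ K)ᶜ)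
      (bd_conn hRQ hC'Q (fun x hx y hy => Conn.cluster' hx hy) hv1 hw0)
      (hvD _ (Conn.right hv1.1).1 rfl) (not_not.2 hw2)
    have e1 : z' ∈ D \ K := not_not.1 c4.left.2
    have e0 : z ∈ Q := (Conn.right c1.right.1).1
    have e2 : rf z ∈ Kp := by
      refine ⟨hKrf z (bd_step e0 c2 c3 e1), ?_⟩
      have : ¬ 0 ≤ 2 * z.1 + z.2 := fun h5 => hnb z c1.right ⟨e0, Or.inr ⟨c2, h5⟩⟩
      simp only [rf]; omega
    refine fin S2 h2 (rf z) e2 (rf w0) (by have := hw1.2; simp only [rf]; omega)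
      (.head (hKS S2 h2 _ e2) (adj_rf _ _ c3)
        (c4.map rf (fun x y hxy => Or.inr (adj_rf x y hxy)) ?_))
    rintro w ⟨h5, h6⟩
    have h7 : w ∈ D \ K := not_not.1 h6
    have h8 := hDrf w h7.1
    refine ⟨h4 _ (hDQ _ h8) (fun h9 => h7.2 (rf_rf w ▸ hKrf _ (hJK _ h8 h9))) ?_, hDQ _ h8⟩
    rw [rf_rf]
    exact fun h9 => hnb w h5 ⟨(Conn.right h5.1).1, Or.inl ⟨h7, h9⟩⟩

theorem P_Lv {a h : ℤ} (ha : 2 ≤ a) (hh : 0 ≤ h) : P (JH 0 a h) / 2 ≤ P (Lv a h) := by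
  classical
  set L := (jag_finite (-a) a h).toFinset with hL
  have hLm : ∀ v, v ∈ L ↔ v ∈ jag (-a) a h := fun v => by simp [hL]
  have hc : (L : Set V) = jag (-a) a h := by simp [hL]
  let J : Finset V → Finset V := fun T => L.filter (· ∈ Jt a h T)
  have hJm : ∀ T v, v ∈ J T ↔ v ∈ Jt a h (T : Set V) := by
    intro T v
    simp only [J, Finset.mem_filter, hLm, and_iff_right_iff_imp]
    intro hv
    have := hv.1
    simp only [mem_jag] at *; omega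
  have hJ : ∀ T U, T ⊆ L → U ⊆ L → J (mix (J T) T U) = J T := by
    intro T U _ _
    have : Wt a h (mix (J T) T U : Finset V) = Wt a h T :=
      Wt_eq fun v hv => (mem_mix_of_mem ((hJm T v).2 hv)).symm
    have e : Jt a h (mix (J T) T U : Finset V) = Jt a h T := by
      unfold Jt; rw [this]
    ext v
    rw [hJm, hJm, e]
  rw [← P_eq (E := Lv a h) (L := L) (hc ▸ loc_Lv a h), ← Ex_stop1 J hJ,
    ← P_eq (E := JH 0 a h) (L := L) ((loc_JH 0 a h).mono fun v => by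
      simp only [hc, mem_jag]; omega), ← Ex_div]
  refine Ex_mono fun T _ => ?_
  by_cases hT : JH 0 a h T
  · rw [ind_pos hT]
    let σ : Finset V → Finset V := fun U => L.filter (fun v => rf v ∉ U)
    have h1 := Ex_invol (L := L) σ (fun U _ => Finset.filter_subset _ _) (by
      intro U hU
      ext v
      simp only [σ, Finset.mem_filter, hLm, rf_rf, not_and, not_not]
      exact ⟨fun h => h.2 (rf_jag h.1), fun h => ⟨(hLm v).1 (hU h), fun _ => h⟩⟩)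
      (fun U => ind (Lv a h (mix (J T) T U : Finset V)))
    have h2 : Ex L (fun _ => (1:ℝ)) ≤ Ex L (fun U => ind (Lv a h (mix (J T) T U : Finset V)) +
        ind (Lv a h (mix (J T) T (σ U) : Finset V))) := by
      refine Ex_mono fun U _ => le_trans (le_of_eq (ind_pos ?_).symm) (ind_or_le _ _)
      refine smirnov ha hh (U := U) hT ?_ ?_ ?_ ?_
      · exact fun v hv h3 => (mem_mix_of_mem ((hJm T v).2 hv)).2 h3
      · exact fun v hv h3 => (mem_mix_of_mem ((hJm T v).2 hv)).2 h3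
      · exact fun v hv h3 => (mem_mix_of_notMem fun h4 => hv ((hJm T v).1 h4)).2 h3
      · exact fun v hv h3 h5 => (mem_mix_of_notMem fun h4 => h3 ((hJm T v).1 h4)).2
          (Finset.mem_filter.2 ⟨(hLm v).2 hv, h5⟩)
    rw [Ex_add, h1, Ex_const] at h2
    linarith
  · rw [ind_neg hT, zero_div]
    exact Ex_nonneg fun _ _ => ind_nonneg _

theorem P_double {a h : ℤ} (ha : 1 ≤ a) (hh : 0 ≤ h) :
    P (JH 0 (2 * a) h) ^ 2 / 4 ≤ P (JH 0 (2 * (2 * a)) h) := by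
  have h1 := P_Lv (a := 2 * a) (by omega) hh
  have h2 : P (Lv (2 * a) h) ≤ P (Rv (2 * a) h) := by
    refine P_le_map (loc_Lv _ _) (loc_Rv _ _) (jag_finite _ _ _) (jag_finite _ _ _) rfE ?_
    rintro S ⟨l, r, e1, e2, hc⟩
    exact ⟨rf r, rf l, by simp only [rf]; omega, by simp only [rf]; omega,
      hc.symm.image rf adj_rf fun v hv => rf_jag hv⟩
  have h3 := P_harris (loc_Lv (2 * a) h) (loc_Rv (2 * a) h) (jag_finite _ _ _)
  have h4 : P (fun S => Lv (2 * a) h S ∧ Rv (2 * a) h S) ≤ P (JH 0 (2 * (2 * a)) h) := by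
    refine P_le_map ((loc_Lv _ _).and (loc_Rv _ _)) (loc_JH _ _ _) (jag_finite _ _ _)
      (jag_finite _ _ _) (Equiv.addRight (a, 0)) ?_
    rintro S ⟨e1, e2⟩
    obtain ⟨l, r, f1, f2, hc⟩ := JH_of_Lv_Rv e1 e2
    refine ⟨_, _, ?_, ?_, hc.image _ (adj_add (a, 0)) fun v hv => ?_⟩
    all_goals
      simp only [mem_jag, Equiv.coe_addRight, Prod.fst_add, Prod.snd_add] at *
      omega
  have h5 := P_nonneg (JH 0 (2 * a) h)
  nlinarith

theorem lipX (a b : V) (h : adj a b) : 2 * b.1 + b.2 ≤ 2 * a.1 + a.2 + 2 := by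
  unfold adj at h; omega

theorem rsw_jag (k : ℕ) : ∃ c : ℝ, 0 < c ∧ ∀ h : ℤ, 2 ≤ h →
    c ≤ P (JH 0 (2 * (2 ^ k * (h / 2))) h) := by
  induction k with
  | zero =>
    refine ⟨1 / 2, by norm_num, fun h hh => (half_le_rhombus (n := h) (by omega)).trans ?_⟩
    refine P_le_map (loc_HC _ _ _ _) (loc_JH _ _ _) (rs_finite _ _ _ _)
      (jag_finite _ _ _) (Equiv.addRight (h / 2 - h, 0)) ?_
    rintro S ⟨p, l, r, e1, e2, c1, c2⟩
    have m1 := c1.right.2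
    have m2 := c2.right.2
    rw [mem_rs] at m1 m2
    obtain ⟨l', r', f1, f2, f3, -, -⟩ := (c1.symm.trans c2).cut
      (φ := fun v => 2 * v.1 + v.2) lipX (a := 2 * (h - h / 2)) (b := 2 * h) (by omega)
      (by omega) (by omega)
    rw [Set.inter_assoc] at f3
    refine ⟨_, _, ?_, ?_, f3.image _ (adj_add (h / 2 - h, 0)) fun v hv => ?_⟩
    all_goals
      simp only [mem_jag, mem_rs, Equiv.coe_addRight, Prod.fst_add, Prod.snd_add,
        Set.mem_inter_iff, Set.mem_ofPred_eq, pow_zero] at *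
      omega
  | succ k ih =>
    obtain ⟨c, hc, h1⟩ := ih
    refine ⟨c ^ 2 / 4, by positivity, fun h hh => ?_⟩
    have h2 := h1 h hh
    have h3 : 1 ≤ 2 ^ k * (h / 2) :=
      one_le_mul_of_one_le_of_one_le (one_le_pow₀ (by norm_num)) (by omega)
    have h4 := P_double h3 (by omega : 0 ≤ h)
    rw [show (2:ℤ) ^ (k + 1) * (h / 2) = 2 * (2 ^ k * (h / 2)) by ring]
    refine le_trans ?_ h4
    gcongr

/-- Russo-Seymour-Welsh -/
theorem rsw (K : ℕ) : ∃ c : ℝ, 0 < c ∧ c ≤ 1 ∧ ∀ x0 x1 y0 y1 : ℤ, 2 ≤ y1 - y0 → x0 ≤ x1 →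
    x1 - x0 ≤ K * (y1 - y0) → c ≤ P (HC x0 x1 y0 y1) ∧ c ≤ P (VC y0 y1 x0 x1) := by
  obtain ⟨c, hc, h1⟩ := rsw_jag (K + 2)
  refine ⟨c, hc, (h1 2 le_rfl).trans (P_le_one _), fun x0 x1 y0 y1 e1 e2 e3 => ?_⟩
  suffices c ≤ P (HC x0 x1 y0 y1) from ⟨this, this.trans (P_HC_le_VC _ _ _ _)⟩
  refine (h1 _ e1).trans ?_
  refine P_le_map (loc_JH _ _ _) (loc_HC _ _ _ _) (jag_finite _ _ _) (rs_finite _ _ _ _)
    (Equiv.addRight (x0, y0)) ?_
  rintro S ⟨l, r, f1, f2, hc⟩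
  have m1 := hc.left.2
  have m2 := hc.right.2
  rw [mem_jag] at m1 m2
  have k1 : (K : ℤ) + 1 ≤ 2 ^ K := by exact_mod_cast Nat.lt_two_pow_self
  have k2 : 2 * (K + 1) * (y1 - y0) ≤ 2 * (2 ^ (K + 2) * ((y1 - y0) / 2)) := by
    have : y1 - y0 ≤ 4 * ((y1 - y0) / 2) := by omega
    have : (K + 1) * (y1 - y0) ≤ 2 ^ K * (4 * ((y1 - y0) / 2)) :=
      mul_le_mul k1 this (by omega) (by positivity)
    rw [pow_add]
    linarith
  obtain ⟨l', r', g1, g2, g3, -, -⟩ := hc.cut1 (φ := fun v => v.1) lip1 (a := 0) (b := x1 - x0)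
    (by omega) (by omega) (by nlinarith)
  rw [Set.inter_assoc] at g3
  refine HC_of_conn ?_ ?_ (g3.image _ (adj_add (x0, y0)) fun v hv => ?_)
  all_goals
    simp only [mem_jag, mem_rs, Equiv.coe_addRight, Prod.fst_add, Prod.snd_add,
      Set.mem_inter_iff, Set.mem_ofPred_eq] at *
    omega

end Pool.Agent.Lib.MP_e26b79_pr
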