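import Pool.Agent.Lib.MP_e26b79_pr.Strict
import Pool.Agent.Lib.MP_e26b79_pr.Fourier

namespace Pool.Agent.Lib.MP_e26b79_pr

/-- sites revealed by the exploration of all interfaces starting on the perimeter of `Q` -/
inductive Rev (Q S : Set V) : V → Prop
  | bdy {v w : V} : v ∈ Q → adj v w → w ∉ Q → Rev Q S v
  | step {v b w : V} : v ∈ Q → Rev Q S b → b ∈ S → adj v b → Rev Q S w → w ∉ S → adj v w →
      Rev Q S v

def per (Q : Set V) (v : V) : Prop := v ∈ Q ∧ ∃ w, adj v w ∧ w ∉ Q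

theorem per.rev {Q S : Set V} {v : V} (h : per Q v) : Rev Q S v := by
  obtain ⟨h1, w, h2, h3⟩ := h
  exact .bdy h1 h2 h3

theorem Rev.mem {Q S : Set V} {v : V} (h : Rev Q S v) : v ∈ Q := by
  cases h <;> assumption

theorem Rev.iff {Q S S' : Set V} (h : ∀ v, Rev Q S v → (v ∈ S ↔ v ∈ S')) {v : V} :
    Rev Q S v ↔ Rev Q S' v := by
  constructor
  · intro hv
    induction hv with
    | bdy h1 h2 h3 => exact .bdy h1 h2 h3
    | step h1 h2 h3 h4 h5 h6 h7 i1 i2 =>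
      exact .step h1 i1 ((h _ h2).1 h3) h4 i2 (fun e => h6 ((h _ h5).2 e)) h7
  · intro hv
    induction hv with
    | bdy h1 h2 h3 => exact .bdy h1 h2 h3
    | step h1 _ h3 h4 _ h6 h7 i1 i2 =>
      exact .step h1 i1 ((h _ i1).2 h3) h4 i2 (fun e => h6 ((h _ i2).1 e)) h7

theorem Rev.conn {Q S : Set V} {v : V} (h : Rev Q S v) :
    (v ∈ S → ∃ p, per Q p ∧ Conn (S ∩ {w | Rev Q S w}) v p) ∧
    (v ∉ S → ∃ p, per Q p ∧ Conn (Sᶜ ∩ {w | Rev Q S w}) v p) := by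
  induction h with
  | bdy h1 h2 h3 =>
    exact ⟨fun h => ⟨_, ⟨h1, _, h2, h3⟩, .refl ⟨h, Rev.bdy h1 h2 h3⟩⟩,
      fun h => ⟨_, ⟨h1, _, h2, h3⟩, .refl ⟨h, Rev.bdy h1 h2 h3⟩⟩⟩
  | step h1 h2 h3 h4 h5 h6 h7 i1 i2 =>
    have hv := Rev.step h1 h2 h3 h4 h5 h6 h7
    obtain ⟨p, e1, e2⟩ := i1.1 h3
    obtain ⟨q, e3, e4⟩ := i2.2 h6
    exact ⟨fun h => ⟨p, e1, .head ⟨h, hv⟩ h4 e2⟩, fun h => ⟨q, e3, .head ⟨h, hv⟩ h7 e4⟩⟩

theorem Rev.det {x0 x1 y0 y1 : ℤ} {S : Set V} {u v : V} (hu : per (rs x0 x1 y0 y1) u)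
    (hv : per (rs x0 x1 y0 y1) v) (h : Conn (S ∩ rs x0 x1 y0 y1) u v) :
    Conn (S ∩ {w | Rev (rs x0 x1 y0 y1) S w}) u v := by
  set Q := rs x0 x1 y0 y1 with hQ
  set Q' := rs (x0 - 1) (x1 + 1) (y0 - 1) (y1 + 1) with hQ'
  have m := hu.1
  rw [hQ, mem_rs] at m
  have hQQ : Q ⊆ Q' := fun w => by simp only [hQ, hQ', mem_rs]; omega
  have hfr : ∀ p w, p ∈ Q → adj p w → w ∉ Q → w ∈ Q' \ Q := fun p w h1 h2 h3 =>
    ⟨by simp only [hQ, hQ', mem_rs, adj] at *; omega, h3⟩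
  let C : Set V := (Q' \ Q) ∪ (Sᶜ ∩ {w | Rev Q S w})
  have hF : ∀ w ∈ Q' \ Q, Conn C (x0 - 1, y0 - 1) w := by
    rintro ⟨i, j⟩ hw
    refine Conn.mono (S := Q' \ Q) ?_ Set.subset_union_left
    simp only [hQ, hQ', Set.mem_sdiff, mem_rs] at hw
    have k : ∀ x y, (x0 - 1 ≤ x ∧ x ≤ x1 + 1 ∧ y0 - 1 ≤ y ∧ y ≤ y1 + 1) ∧
        (x = x0 - 1 ∨ x = x1 + 1 ∨ y = y0 - 1 ∨ y = y1 + 1) → (x, y) ∈ Q' \ Q := fun x y h => by
      simp only [hQ, hQ', Set.mem_sdiff, mem_rs]; omega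
    by_cases e : j = y1 + 1
    · exact (conn_col hw.1.2.2.1 fun y _ _ => k _ _ (by omega)).trans
        (conn_row hw.1.1 fun x _ _ => k _ _ (by omega))
    · exact (conn_row hw.1.1 fun x _ _ => k _ _ (by omega)).trans
        (conn_col hw.1.2.2.1 fun y _ _ => k _ _ (by omega))
  have hC0 : ∀ w ∈ C, Conn C (x0 - 1, y0 - 1) w := by
    rintro w (hw | hw)
    · exact hF w hw
    · obtain ⟨p, ⟨e1, w', e2, e3⟩, e4⟩ := (Rev.conn hw.2).2 hw.1
      exact (hF w' (hfr p w' e1 e2 e3)).trans (.head (Or.inl (hfr p w' e1 e2 e3)) e2.symm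
        (e4.symm.mono Set.subset_union_right))
  have hCQ : C ⊆ Q' := by
    rintro w (hw | hw)
    · exact hw.1
    · exact hQQ (Rev.mem hw.2)
  have hsub : S ∩ Q ⊆ Q' \ C := by
    rintro w hw
    refine ⟨hQQ hw.2, ?_⟩
    rintro (h5 | h5)
    · exact h5.2 hw.2
    · exact h5.1 hw.1
  have hb : ∀ w, per Q w → Conn (S ∩ Q) u w → w ∈ bd Q' C u := by
    rintro w ⟨e1, w', e2, e3⟩ hc
    exact ⟨hc.mono hsub, w', Or.inl (hfr w w' e1 e2 e3), e2⟩
  refine (bd_conn (retr_rs (by omega) (by omega)) hCQ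
    (fun a ha b hb => (hC0 a ha).symm.trans (hC0 b hb)) (hb u hu (.refl h.left))
    (hb v hv h)).closed (P := fun w => Conn (S ∩ {w | Rev Q S w}) u w)
    (.refl ⟨h.left.1, hu.rev⟩) ?_
  rintro a b - ⟨hb1, c, hc, hbc⟩ hab ha
  have e1 := Conn.right hb1
  have e2 : b ∈ Q := by_contra fun h5 => e1.2 (Or.inl ⟨e1.1, h5⟩)
  have e3 : Rev Q S b := by
    rcases hc with hc | hc
    · exact .bdy e2 hbc hc.2
    · exact .step e2 ha.right.2 ha.right.1 hab.symm hc.2 hc.1 hbc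
  exact .step ha hab ⟨by_contra fun h5 => e1.2 (Or.inr ⟨h5, e3⟩), e3⟩

theorem rev_union {F : Set (Set V)} (hF : ∀ Q ∈ F, ∃ x0 x1 y0 y1, Q = rs x0 x1 y0 y1)
    (hd : ∀ Q ∈ F, ∀ Q' ∈ F, ∀ w ∈ Q, w ∈ Q' → Q = Q') {S A : Set V}
    (hA : ∀ w ∈ A, ∃ Q ∈ F, w ∈ Q) {u v : V} (h : Conn (S ∩ A) u v)
    (hu : ∀ Q ∈ F, u ∈ Q → per Q u) (hv : ∀ Q ∈ F, v ∈ Q → per Q v) :
    Conn (S ∩ {w | ∃ Q ∈ F, Rev Q S w}) u v := by
  have det : ∀ Q ∈ F, ∀ p w, per Q p → per Q w → Conn (S ∩ Q) p w →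
      Conn (S ∩ {w | ∃ Q ∈ F, Rev Q S w}) p w := by
    intro Q hQ p w h1 h2 h3
    obtain ⟨x0, x1, y0, y1, rfl⟩ := hF Q hQ
    exact (Rev.det h1 h2 h3).mono fun z hz => ⟨hz.1, _, hQ, hz.2⟩
  have key := h.closed (P := fun w => ∃ Q ∈ F, ∃ p, per Q p ∧
      Conn (S ∩ {w | ∃ Q ∈ F, Rev Q S w}) u p ∧ Conn (S ∩ Q) p w) ?_ ?_
  · obtain ⟨Q, hQ, p, e1, e2, e3⟩ := key
    exact e2.trans (det Q hQ p v e1 (hv Q hQ e3.right.2) e3)
  · obtain ⟨Q, hQ, e⟩ := hA u h.left.2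
    exact ⟨Q, hQ, u, hu Q hQ e, .refl ⟨h.left.1, Q, hQ, (hu Q hQ e).rev⟩, .refl ⟨h.left.1, e⟩⟩
  · rintro a b - hb hab ⟨Q, hQ, p, e1, e2, e3⟩
    by_cases e : b ∈ Q
    · exact ⟨Q, hQ, p, e1, e2, .step e3 hab ⟨hb.1, e⟩⟩
    · obtain ⟨Q', hQ', e'⟩ := hA b hb.2
      have f1 : per Q' b := ⟨e', a, hab.symm, fun h5 => e (hd Q hQ Q' hQ' a e3.right.2 h5 ▸ e')⟩
      exact ⟨Q', hQ', b, f1, .step (e2.trans (det Q hQ p a e1 ⟨e3.right.2, b, hab, e⟩ e3)) hab
        ⟨hb.1, Q', hQ', f1.rev⟩, .refl ⟨hb.1, e'⟩⟩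

/-- the four rectangles of a shell -/
def shl (r r' : ℤ) : Set (Set V) :=
  {rs (-r') r' (r + 1) r', rs (-r') r' (-r') (-r - 1), rs (-r') (-r - 1) (-r) r, rs (r + 1) r' (-r) r}

theorem shl_rs {r r' : ℤ} {Q : Set V} (h : Q ∈ shl r r') : ∃ x0 x1 y0 y1, Q = rs x0 x1 y0 y1 := by
  rcases h with rfl | rfl | rfl | rfl <;> exact ⟨_, _, _, _, rfl⟩
theorem shl_sub {r r' : ℤ} (hr : 0 ≤ r) (hr' : r ≤ r') {Q : Set V} (h : Q ∈ shl r r') :
    Q ⊆ ann (r + 1) r' := by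
  rcases h with rfl | rfl | rfl | rfl <;> intro v <;> simp only [mem_rs, mem_ann, nu] <;> omega
theorem shl_cover {r r' : ℤ} {v : V} (h : v ∈ ann (r + 1) r') : ∃ Q ∈ shl r r', v ∈ Q := by
  simp only [shl, Set.mem_insert_iff, Set.mem_singleton_iff, exists_eq_or_imp, exists_eq_left,
    mem_rs, mem_ann, nu] at *
  omega
theorem shl_disj {r r' : ℤ} (hr : 0 ≤ r) {Q Q' : Set V} (h : Q ∈ shl r r') (h' : Q' ∈ shl r r')
    {w : V} (h1 : w ∈ Q) (h2 : w ∈ Q') : Q = Q' := by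
  rcases h with rfl | rfl | rfl | rfl <;> rcases h' with rfl | rfl | rfl | rfl <;>
    first | rfl | (exfalso; simp only [mem_rs] at h1 h2; omega)
theorem shl_per {r r' : ℤ} {Q : Set V} (h : Q ∈ shl r r') {p : V} (hp : per Q p) :
    ∃ c ∈ ({p.1, -p.1, p.2, -p.2} : Finset ℤ), (c = r ∨ c = r + 1) ∨ c = r' := by
  obtain ⟨h1, w, h2, h3⟩ := hp
  simp only [Finset.mem_insert, Finset.mem_singleton, exists_eq_or_imp, exists_eq_left]
  rcases h with rfl | rfl | rfl | rfl <;> simp only [mem_rs, adj] at * <;> omega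

theorem shl_per_in {r r' : ℤ} {Q : Set V} (h : Q ∈ shl r r') {v : V} (hv : v ∈ Q)
    (e : nu v ≤ r + 1) : per Q v := by
  refine ⟨hv, ?_⟩
  rw [nu_le] at e
  rcases h with rfl | rfl | rfl | rfl
  · exact ⟨(v.1, v.2 - 1), by simp [adj], by simp only [mem_rs] at *; omega⟩
  · exact ⟨(v.1, v.2 + 1), by simp [adj], by simp only [mem_rs] at *; omega⟩
  · exact ⟨(v.1 + 1, v.2), by simp [adj], by simp only [mem_rs] at *; omega⟩
  · exact ⟨(v.1 - 1, v.2), by simp [adj], by simp only [mem_rs] at *; omega⟩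

theorem exists_nbr_out (v : V) : ∃ w, adj v w ∧ nu v < nu w := by
  rcases le_nu.1 (le_refl (nu v)) with h | h | h | h
  · exact ⟨(v.1 - 1, v.2), by simp [adj], by simp only [nu] at *; omega⟩
  · exact ⟨(v.1 + 1, v.2), by simp [adj], by simp only [nu] at *; omega⟩
  · exact ⟨(v.1, v.2 - 1), by simp [adj], by simp only [nu] at *; omega⟩
  · exact ⟨(v.1, v.2 + 1), by simp [adj], by simp only [nu] at *; omega⟩

section algo
variable {ρ : ℕ → ℤ} (h0 : 0 ≤ ρ 0) (hρ : StrictMono ρ) {m : ℕ}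

include h0 hρ in
theorem arm_rev {i : ℕ} (hi : i < m) {S : Set V} (h : Arm (ρ i + 1) (ρ m) S) :
    Arm (ρ i + 1) (ρ m)
      (S ∩ {w | ∃ l, i ≤ l ∧ l < m ∧ ∃ Q ∈ shl (ρ l) (ρ (l + 1)), Rev Q S w}) := by
  obtain ⟨u, v, e1, e2, c⟩ := h
  have p0 : ∀ l, 0 ≤ ρ l := fun l => h0.trans (hρ.monotone (Nat.zero_le l))
  have sub : ∀ l, ∀ Q ∈ shl (ρ l) (ρ (l + 1)), Q ⊆ ann (ρ l + 1) (ρ (l + 1)) := fun l Q hQ =>
    shl_sub (p0 l) (hρ.monotone (Nat.le_succ l)) hQ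
  have k := rev_union (F := {Q | ∃ l, i ≤ l ∧ l < m ∧ Q ∈ shl (ρ l) (ρ (l + 1))})
    (fun Q ⟨l, _, _, h⟩ => shl_rs h) ?_ ?_ c ?_ ?_
  · refine arm_of_conn (k.mono ?_) e1.le e2.ge (hρ hi)
    rintro w ⟨h1, Q, ⟨l, h2, h3, h4⟩, h5⟩
    exact ⟨h1, l, h2, h3, Q, h4, h5⟩
  · rintro Q ⟨l, -, -, hQ⟩ Q' ⟨l', -, -, hQ'⟩ w h1 h2
    have f1 := sub l Q hQ h1
    have f2 := sub l' Q' hQ' h2
    rw [mem_ann] at f1 f2
    have : l = l' := by
      rcases lt_trichotomy l l' with h | h | h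
      · have := hρ.monotone (show l + 1 ≤ l' from h); omega
      · exact h
      · have := hρ.monotone (show l' + 1 ≤ l from h); omega
    subst this
    exact shl_disj (p0 l) hQ hQ' h1 h2
  · intro w hw
    have : ∀ n, nu w ≤ ρ n → ∃ l, i ≤ l ∧ l < n ∧ w ∈ ann (ρ l + 1) (ρ (l + 1)) := by
      intro n
      induction n with
      | zero => intro h; have := hw.1; have := hρ.monotone (Nat.zero_le i); omega
      | succ n ih =>
        intro h
        by_cases e : nu w ≤ ρ n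
        · obtain ⟨l, f1, f2, f3⟩ := ih e
          exact ⟨l, f1, by omega, f3⟩
        · refine ⟨n, by_contra fun f => ?_, by omega, by omega, h⟩
          have := hw.1
          have := hρ.monotone (show n + 1 ≤ i by omega)
          omega
    obtain ⟨l, f1, f2, f3⟩ := this m hw.2
    obtain ⟨Q, f4, f5⟩ := shl_cover f3
    exact ⟨Q, ⟨l, f1, f2, f4⟩, f5⟩
  · rintro Q ⟨l, f1, -, hQ⟩ hu
    have := hρ.monotone f1
    exact shl_per_in hQ hu (by omega)
  · rintro Q ⟨l, -, f1, hQ⟩ hv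
    obtain ⟨w, g1, g2⟩ := exists_nbr_out v
    refine ⟨hv, w, g1, fun g3 => ?_⟩
    have := (sub l Q hQ g3).2
    have := hρ.monotone (show l + 1 ≤ m from f1)
    omega

/-- stage `i` of the exploration is executed -/
def Exe (ρ : ℕ → ℤ) (m i : ℕ) (S : Set V) : Prop := i + 1 = m ∨ Arm (ρ (i + 1) + 1) (ρ m) S
/-- revealed sites -/
def JS (ρ : ℕ → ℤ) (m j : ℕ) (S : Set V) : Set V :=
  {v | ∃ i, j ≤ i ∧ i < m ∧ Exe ρ m i S ∧ ∃ Q ∈ shl (ρ i) (ρ (i + 1)), Rev Q S v}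

include h0 hρ in
theorem JS_arm {j : ℕ} {S S' : Set V} (h : ∀ v ∈ JS ρ m j S, v ∈ S ↔ v ∈ S') (n : ℕ) :
    ∀ i, i + n + 1 = m → j ≤ i → (Arm (ρ i + 1) (ρ m) S ↔ Arm (ρ i + 1) (ρ m) S') := by
  induction n using Nat.strong_induction_on with
  | _ n ih =>
  intro i hi hj
  by_cases e : Exe ρ m i S
  · have k : ∀ l, i ≤ l → l < m → ∀ Q ∈ shl (ρ l) (ρ (l + 1)), ∀ v, Rev Q S v →
        (v ∈ S ↔ v ∈ S') := by
      intro l f1 f2 Q hQ v hv
      refine h v ⟨l, by omega, f2, ?_, Q, hQ, hv⟩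
      by_cases f3 : l + 1 = m
      · exact Or.inl f3
      · rcases e with e | e
        · omega
        · have := hρ.monotone (show i + 1 ≤ l + 1 by omega)
          exact Or.inr (e.sub (by omega) (hρ (by omega)) le_rfl)
    constructor
    · intro ha
      refine (loc_Arm _ _).up ?_ (arm_rev h0 hρ (by omega) ha)
      rintro w ⟨g1, l, g2, g3, Q, g4, g5⟩
      exact (k l g2 g3 Q g4 w g5).1 g1
    · intro ha
      refine (loc_Arm _ _).up ?_ (arm_rev h0 hρ (by omega) ha)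
      rintro w ⟨g1, l, g2, g3, Q, g4, g5⟩
      exact (k l g2 g3 Q g4 w ((Rev.iff (k l g2 g3 Q g4)).2 g5)).2 g1
  · have e1 : i + 1 ≠ m := fun f => e (Or.inl f)
    have e2 := ih (n - 1) (by omega) (i + 1) (by omega) (by omega)
    have e3 : ρ i < ρ (i + 1) := hρ (Nat.lt_succ_self i)
    have e4 : ρ (i + 1) + 1 ≤ ρ m := hρ (by omega)
    exact ⟨fun f => absurd (Or.inr (f.sub (by omega) e4 le_rfl)) e,
      fun f => absurd (Or.inr (e2.2 (f.sub (by omega) e4 le_rfl))) e⟩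

include h0 hρ in
theorem JS_eq {j : ℕ} {S S' : Set V} (h : ∀ v ∈ JS ρ m j S, v ∈ S ↔ v ∈ S') :
    JS ρ m j S' = JS ρ m j S := by
  have k : ∀ i, j ≤ i → i < m → (Exe ρ m i S ↔ Exe ρ m i S') := by
    intro i h1 h2
    by_cases e : i + 1 = m
    · exact ⟨fun _ => Or.inl e, fun _ => Or.inl e⟩
    · exact or_congr_right (JS_arm h0 hρ h (m - i - 2) (i + 1) (by omega) (by omega))
  ext v
  constructor
  · rintro ⟨i, h1, h2, h3, Q, h4, h5⟩
    have h6 := (k i h1 h2).2 h3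
    exact ⟨i, h1, h2, h6, Q, h4, (Rev.iff fun w hw => h w ⟨i, h1, h2, h6, Q, h4, hw⟩).2 h5⟩
  · rintro ⟨i, h1, h2, h3, Q, h4, h5⟩
    exact ⟨i, h1, h2, (k i h1 h2).1 h3, Q, h4,
      (Rev.iff fun w hw => h w ⟨i, h1, h2, h3, Q, h4, hw⟩).1 h5⟩
end algo

/-- the site `x` is close to one of the lines bounding the rectangles -/
def near (r r' : ℤ) (x : V) (D : ℤ) : Prop :=
  ∃ c ∈ ({x.1, -x.1, x.2, -x.2} : Finset ℤ), (c - D ≤ r ∧ r ≤ c + D) ∨ (c - D ≤ r' ∧ r' ≤ c + D)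

theorem rev_far {r r' D : ℤ} (hD : 1 ≤ D) {x : V} {S Q : Set V} (hQ : Q ∈ shl r r')
    (h : Rev Q S x) (hn : ¬ near r r' x D) : A2 x 1 D S := by
  have k : ∀ p, per Q p → D ≤ nu (p - x) := by
    intro p hp
    have := shl_per hQ hp
    by_contra h1
    simp only [near, Finset.mem_insert, Finset.mem_singleton, exists_eq_or_imp, exists_eq_left,
      le_nu, Prod.fst_sub, Prod.snd_sub] at *
    omega
  have k2 : ∀ w, adj x w → nu (w - x) ≤ 1 := fun w hw => by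
    simp only [adj, nu, Prod.fst_sub, Prod.snd_sub] at *; omega
  cases h with
  | bdy h1 h2 h3 =>
    have := k x ⟨h1, _, h2, h3⟩
    simp only [nu, sub_self, Prod.fst_zero, Prod.snd_zero] at this
    omega
  | step h1 h2 h3 h4 h5 h6 h7 =>
    obtain ⟨p, e1, e2⟩ := h2.conn.1 h3
    obtain ⟨q, e3, e4⟩ := h5.conn.2 h6
    exact ⟨arm_sh (e2.mono Set.inter_subset_left) (k2 _ h4) (k p e1) hD,
      arm_sh (e4.mono Set.inter_subset_left) (k2 _ h7) (k q e3) hD⟩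

theorem ind_ladder (R : Prop) (n A : ℕ → Prop) (h : ∀ l, R → ¬ n l → A l) (i : ℕ) :
    ind R ≤ ind (n 0) + ∑ l ∈ Finset.range i, ind (n (l + 1)) * ind (A l) + ind (A i) := by
  by_cases hR : R
  swap
  · rw [ind_neg hR]
    exact add_nonneg (add_nonneg (ind_nonneg _) (Finset.sum_nonneg fun _ _ =>
      mul_nonneg (ind_nonneg _) (ind_nonneg _))) (ind_nonneg _)
  rw [ind_pos hR]
  have key : ∀ i, n i → 1 ≤ ind (n 0) + ∑ l ∈ Finset.range i, ind (n (l + 1)) * ind (A l) := by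
    intro i
    induction i with
    | zero => intro h0; simp [ind_pos h0]
    | succ i ih =>
      intro h1
      rw [Finset.sum_range_succ]
      by_cases e : n i
      · have := ih e
        have := mul_nonneg (ind_nonneg (n (i + 1))) (ind_nonneg (A i))
        linarith
      · rw [ind_pos h1, ind_pos (h i hR e)]
        have := ind_nonneg (n 0)
        have : 0 ≤ ∑ l ∈ Finset.range i, ind (n (l + 1)) * ind (A l) :=
          Finset.sum_nonneg fun _ _ => mul_nonneg (ind_nonneg _) (ind_nonneg _)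
        linarith
  by_cases e : n i
  · have := key i e
    have := ind_nonneg (A i)
    linarith
  · rw [ind_pos (h i hR e)]
    have := ind_nonneg (n 0)
    have : 0 ≤ ∑ l ∈ Finset.range i, ind (n (l + 1)) * ind (A l) :=
      Finset.sum_nonneg fun _ _ => mul_nonneg (ind_nonneg _) (ind_nonneg _)
    linarith

/-- random radii -/
def rho (a i : ℕ) : ℤ := 4 ^ i + (a % 4 ^ i : ℕ)

theorem rho_ge (a i : ℕ) : 4 ^ i ≤ rho a i := by unfold rho; omega
theorem rho_lt (a i : ℕ) : rho a i < 2 * 4 ^ i := by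
  have : ((a % 4 ^ i : ℕ) : ℤ) < 4 ^ i := by exact_mod_cast Nat.mod_lt a (by positivity)
  unfold rho; omega
theorem rho_mono (a : ℕ) : StrictMono (rho a) := strictMono_nat_of_lt_succ fun i => by
  have := rho_lt a i
  have := rho_ge a (i + 1)
  have := four_pow_pos i
  rw [pow_succ] at *
  omega

theorem count_rho {i m : ℕ} (h : i ≤ m) (c : ℤ) (l : ℕ) :
    ∑ a ∈ Finset.range (4 ^ m), ind (c - 4 ^ l ≤ rho a i ∧ rho a i ≤ c + 4 ^ l) ≤
      3 * 4 ^ l * 4 ^ (m - i) := by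
  classical
  have e : ∀ a, ind (c - 4 ^ l ≤ rho a i ∧ rho a i ≤ c + 4 ^ l) =
      if c - 4 ^ l ≤ rho a i ∧ rho a i ≤ c + 4 ^ l then 1 else 0 := fun a => by
    split_ifs with h
    · exact ind_pos h
    · exact ind_neg h
  simp_rw [e]
  rw [Finset.sum_boole]
  have k : ((Finset.range (4 ^ m)).filter fun a => c - 4 ^ l ≤ rho a i ∧ rho a i ≤ c + 4 ^ l).card ≤
      (Finset.Icc (c - 4 ^ l) (c + 4 ^ l) ×ˢ Finset.range (4 ^ (m - i))).card := by
    refine Finset.card_le_card_of_injOn (fun a => (rho a i, a / 4 ^ i)) (fun a ha => ?_) ?_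
    · simp only [Finset.coe_filter, Finset.mem_range, Set.mem_ofPred_eq] at ha
      simp only [Finset.coe_product, Set.mem_prod, Finset.mem_coe, Finset.mem_Icc, Finset.mem_range]
      refine ⟨ha.2, Nat.div_lt_of_lt_mul ?_⟩
      rw [← pow_add, Nat.add_sub_cancel' h]
      exact ha.1
    · intro a _ b _ hab
      simp only [Prod.mk.injEq, rho, add_right_inj, Nat.cast_inj] at hab
      rw [← Nat.div_add_mod a (4 ^ i), ← Nat.div_add_mod b (4 ^ i), hab.1, hab.2]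
  rw [Finset.card_product, Int.card_Icc, Finset.card_range] at k
  have k2 : (c + 4 ^ l + 1 - (c - 4 ^ l)).toNat ≤ 3 * 4 ^ l := by
    have := four_pow_pos l
    rw [Int.toNat_le]
    push_cast
    omega
  exact_mod_cast k.trans (Nat.mul_le_mul_right _ k2)

theorem count_near {i m : ℕ} (h : i < m) (x : V) (l : ℕ) :
    ∑ a ∈ Finset.range (4 ^ m), ind (near (rho a i) (rho a (i + 1)) x (4 ^ l)) ≤
      24 * 4 ^ l * 4 ^ (m - i) := by
  refine (Finset.sum_le_sum fun a _ => (ind_exists_le _ _).trans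
    (Finset.sum_le_sum fun c _ => ind_or_le _ _)).trans ?_
  rw [Finset.sum_comm]
  refine (Finset.sum_le_card_nsmul _ _ (6 * 4 ^ l * 4 ^ (m - i)) fun c _ => ?_).trans ?_
  · rw [Finset.sum_add_distrib]
    have h1 := count_rho h.le c l
    have h2 := count_rho (show i + 1 ≤ m from h) c l
    have h3 : (4:ℝ) ^ (m - (i + 1)) ≤ 4 ^ (m - i) := pow_le_pow_right₀ (by norm_num) (by omega)
    have h4 : (0:ℝ) < 4 ^ l := by positivity
    nlinarith
  · have : (({x.1, -x.1, x.2, -x.2} : Finset ℤ).card : ℝ) ≤ 4 := by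
      exact_mod_cast Finset.card_le_four
    rw [nsmul_eq_mul]
    have h4 : (0:ℝ) < 4 ^ l * 4 ^ (m - i) := by positivity
    nlinarith

theorem al_small : ∃ g C : ℝ, 0 < g ∧ g < 1 ∧ 0 < C ∧ ∀ i : ℕ,
    24 + ∑ l ∈ Finset.range i, 96 * 4 ^ l * al 1 (4 ^ l) + 4 ^ i * al 1 (4 ^ i) ≤
      C * 4 ^ i * ((i + 2) * g ^ i * pp 0 i ^ 2) := by
  obtain ⟨g, g0, g1, hg⟩ := al_strict
  obtain ⟨c, c0, hc⟩ := al_lower
  obtain ⟨q, q0, -, -, hq, -⟩ := pp_quasi
  have k1 : ∀ l i, l ≤ i → 4 ^ l * al 1 (4 ^ l) ≤ 4 / (c * q ^ 2) * 4 ^ i * (g ^ i * pp 0 i ^ 2) := by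
    intro l i h
    have e1 := hg 0 l (Nat.zero_le _)
    have e2 := hg l i h
    have e3 := hc l i h
    have e4 := hq 0 l i (Nat.zero_le _) h
    have e5 := pp_nonneg 0 l
    have e6 := pp_nonneg l i
    rw [pow_zero, Nat.sub_zero] at e1
    have e7 : g ^ i = g ^ l * g ^ (i - l) := by rw [← pow_add, Nat.add_sub_cancel' h]
    have e8 : (q * (pp 0 l * pp l i)) ^ 2 ≤ pp 0 i ^ 2 := by gcongr
    rw [div_mul_eq_mul_div, div_mul_eq_mul_div, le_div_iff₀ (by positivity)]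
    calc 4 ^ l * al 1 (4 ^ l) * (c * q ^ 2) = (c * 4 ^ l) * al 1 (4 ^ l) * q ^ 2 := by ring
      _ ≤ (4 ^ i * (2 * g ^ (i - l) * pp l i ^ 2)) * (2 * g ^ l * pp 0 l ^ 2) * q ^ 2 := by
        exact mul_le_mul_of_nonneg_right (mul_le_mul (e3.trans (by gcongr)) e1 (al_nonneg _ _)
          (by positivity)) (by positivity)
      _ = 4 * 4 ^ i * (g ^ i * (q * (pp 0 l * pp l i)) ^ 2) := by rw [e7]; ring
      _ ≤ _ := by gcongr
  refine ⟨g, (96 + 24 / c) * (4 / (c * q ^ 2)), g0, g1, by positivity, fun i => ?_⟩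
  set X := 4 / (c * q ^ 2) * 4 ^ i * (g ^ i * pp 0 i ^ 2) with hX
  have X0 : 0 ≤ X := by positivity
  have k2 : ∑ l ∈ Finset.range i, 96 * 4 ^ l * al 1 (4 ^ l) ≤ i * (96 * X) := by
    refine (Finset.sum_le_card_nsmul _ _ (96 * X) fun l hl => ?_).trans (by simp)
    have := k1 l i (Finset.mem_range.1 hl).le
    linarith
  have k3 := k1 i i le_rfl
  have k4 : 24 ≤ 24 / c * X := by
    have := hc 0 i (Nat.zero_le _)
    rw [pow_zero, pow_zero, mul_one] at this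
    rw [div_mul_eq_mul_div, le_div_iff₀ c0]
    linarith
  have k5 : 0 ≤ 24 / c * X := by positivity
  have k6 : 0 ≤ i * (24 / c * X) := by positivity
  calc _ ≤ 24 / c * X + i * (96 * X) + X := by linarith
    _ ≤ (96 + 24 / c) * ((i + 2) * X) := by nlinarith
    _ = _ := by rw [hX]; ring

theorem dep_rev (r r' : ℤ) (hr : 0 ≤ r) (hr' : r ≤ r') (x : V) :
    Dep (fun T : Finset V => ind (∃ Q ∈ shl r r', Rev Q T x)) (ann (r + 1) r') := by
  intro T U h
  refine ind_congr (exists_congr fun Q => and_congr_right fun hQ => Rev.iff fun v hv => ?_)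
  exact h v (shl_sub hr hr' hQ hv.mem)

theorem rev_stage {i m : ℕ} (h : i < m) {L : Finset V} {x : V}
    (hL : ∀ v, nu v ≤ 4 ^ (m + 1) → v ∈ L) :
    ∑ a ∈ Finset.range (4 ^ m), Ex L (fun T => ind (∃ Q ∈ shl (rho a i) (rho a (i + 1)), Rev Q T x))
      ≤ 4 ^ (m - i) * (24 + ∑ l ∈ Finset.range i, 96 * 4 ^ l * al 1 (4 ^ l) +
        4 ^ i * al 1 (4 ^ i)) := by
  have e0 := four_pow_pos i
  have e1 := four_pow_lt h
  have e2 : (4:ℤ) ^ (m + 1) = 4 * 4 ^ m := by ring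
  by_cases hx : nu x ≤ 2 * 4 ^ m
  swap
  · rw [Finset.sum_eq_zero]
    · have := al_nonneg 1 (4 ^ i)
      have : 0 ≤ ∑ l ∈ Finset.range i, 96 * 4 ^ l * al 1 (4 ^ l) := Finset.sum_nonneg fun l _ =>
        mul_nonneg (by positivity) (al_nonneg _ _)
      positivity
    · intro a _
      refine (Ex_congr fun T _ => ind_neg ?_).trans (Ex_const _ _)
      rintro ⟨Q, h1, h2⟩
      have := rho_ge a i
      have := (shl_sub (by omega) ((rho_mono a).monotone (Nat.le_add_right i 1)) h1 h2.mem).2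
      have := rho_lt a (i + 1)
      have := four_pow_le (show i + 1 ≤ m from h)
      omega
  have hA : ∀ l, l ≤ i → Ex L (fun T => ind (A2 x 1 (4 ^ l) T)) = al 1 (4 ^ l) := by
    intro l hl
    refine Ex_A2 fun v hv => hL v ?_
    have := four_pow_le hl
    have := nu_le.1 hv.2
    have := nu_le.1 hx
    simp only [nu_le, mem_rs, Prod.fst_sub, Prod.snd_sub] at *
    omega
  have k : ∀ a ∈ Finset.range (4 ^ m),
      Ex L (fun T => ind (∃ Q ∈ shl (rho a i) (rho a (i + 1)), Rev Q T x)) ≤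
      ind (near (rho a i) (rho a (i + 1)) x (4 ^ 0)) + ∑ l ∈ Finset.range i,
        ind (near (rho a i) (rho a (i + 1)) x (4 ^ (l + 1))) * al 1 (4 ^ l) + al 1 (4 ^ i) := by
    intro a _
    refine (Ex_mono fun T _ => ind_ladder _ (fun l => near (rho a i) (rho a (i + 1)) x (4 ^ l))
      (fun l => A2 x 1 (4 ^ l) T) (fun l ⟨Q, h1, h2⟩ h3 => rev_far (four_pow_pos l) h1 h2 h3)
      i).trans (le_of_eq ?_)
    rw [Ex_add, Ex_add, Ex_const, Ex_sum, hA i le_rfl]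
    congr 2
    refine Finset.sum_congr rfl fun l hl => ?_
    rw [Ex_mul_left, hA l (Finset.mem_range.1 hl).le]
  refine (Finset.sum_le_sum k).trans ?_
  rw [Finset.sum_add_distrib, Finset.sum_add_distrib, Finset.sum_comm, Finset.sum_const,
    Finset.card_range, nsmul_eq_mul, mul_add, mul_add, Finset.mul_sum]
  refine add_le_add (add_le_add ((count_near h x 0).trans (le_of_eq (by ring)))
    (Finset.sum_le_sum fun l _ => ?_)) (le_of_eq ?_)
  · rw [← Finset.sum_mul]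
    exact (mul_le_mul_of_nonneg_right (count_near h x (l + 1)) (al_nonneg _ _)).trans
      (le_of_eq (by ring))
  · rw [← mul_assoc, ← pow_add, Nat.sub_add_cancel h.le]
    push_cast
    rfl

theorem reveal : ∃ θ C : ℝ, 0 < θ ∧ θ < 1 ∧ 0 < C ∧ ∀ (j m : ℕ) (L : Finset V) (x : V),
    (∀ v, nu v ≤ 4 ^ (m + 1) → v ∈ L) →
    ∑ a ∈ Finset.range (4 ^ m), Ex L (fun T => ind (x ∈ JS (rho a) m j T)) ≤
      4 ^ m * (C * (θ ^ j * pp 0 j) ^ 2 * pp j m) := by
  obtain ⟨g, C, g0, g1, C0, hg⟩ := al_small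
  obtain ⟨q, q0, q1, hq0, hq1, hq2⟩ := pp_quasi
  set θ := (2 + g) / 3 with hθ
  have t0 : 0 < θ := by positivity
  have t1 : θ < 1 := by linarith
  have t3 : g ≤ θ ^ 3 := by
    have : g = 3 * θ - 2 := by linarith
    nlinarith [sq_nonneg (θ - 1), mul_nonneg t0.le (sq_nonneg (θ - 1))]
  have hs : Summable (fun i : ℕ => ((i:ℝ) + 2) * θ ^ i) := by
    have hn : ‖θ‖ < 1 := by rwa [Real.norm_of_nonneg t0.le]
    have := (summable_pow_mul_geometric_of_norm_lt_one 1 hn).add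
      ((summable_geometric_of_norm_lt_one hn).mul_left 2)
    refine this.congr fun i => by rw [pow_one, add_mul]
  set K := ∑' i : ℕ, ((i:ℝ) + 2) * θ ^ i with hK
  have hK' : ∀ s : Finset ℕ, ∑ i ∈ s, ((i:ℝ) + 2) * θ ^ i ≤ K := fun s =>
    hs.sum_le_tsum s fun i _ => by positivity
  have K0 : 0 < K := lt_of_lt_of_le (by simp) (hK' {0})
  refine ⟨θ, C * K / q ^ 6, t0, t1, by positivity, fun j m L x hL => ?_⟩
  have k1 : ∀ a i, i < m → q ^ 4 * Ex L (fun T => ind (Exe (rho a) m i T)) ≤ pp i m := by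
    intro a i hi
    by_cases e : i + 1 = m
    · simp only [Exe, e, true_or, ind_pos trivial, Ex_const, mul_one]
      exact (pow_le_of_le_one q0.le q1 (by norm_num)).trans (e ▸ hq0 i)
    simp only [Exe, e, false_or]
    have f1 := rho_lt a m
    have f2 := rho_ge a m
    have f3 := rho_lt a (i + 1)
    have f4 := four_pow_pos (i + 1)
    have f5 : (4:ℤ) ^ (i + 2) = 4 * 4 ^ (i + 1) := by ring
    have f6 : (4:ℤ) ^ (m + 1) = 4 * 4 ^ m := by ring
    rw [P_eq ((loc_Arm _ _).mono fun v hv => hL v (by have := hv.2; omega))]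
    have f7 : P (Arm (rho a (i + 1) + 1) (rho a m)) ≤ pp (i + 2) m :=
      P_arm_sub (by omega) (four_pow_le (by omega)) f2
    have f8 := hq1 i (i + 1) (i + 2) (by omega) (by omega)
    have f9 := hq1 i (i + 2) m (by omega) (by omega)
    have := hq0 i
    have := hq0 (i + 1)
    have := pp_nonneg (i + 2) m
    have := pp_nonneg i (i + 1)
    calc _ ≤ q ^ 4 * pp (i + 2) m := by gcongr
      _ = q * (q * (q * q) * pp (i + 2) m) := by ring
      _ ≤ q * (q * (pp i (i + 1) * pp (i + 1) (i + 2)) * pp (i + 2) m) := by gcongr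
      _ ≤ q * (pp i (i + 2) * pp (i + 2) m) := by gcongr
      _ ≤ _ := f9
  have k2 : ∀ a ∈ Finset.range (4 ^ m), Ex L (fun T => ind (x ∈ JS (rho a) m j T)) ≤
      ∑ i ∈ Finset.Ico j m, pp i m / q ^ 4 *
        Ex L (fun T => ind (∃ Q ∈ shl (rho a i) (rho a (i + 1)), Rev Q T x)) := by
    intro a _
    refine (Ex_mono fun T _ => (ind_mono ?_).trans (ind_exists_le (Finset.Ico j m) fun i =>
      Exe (rho a) m i T ∧ ∃ Q ∈ shl (rho a i) (rho a (i + 1)), Rev Q T x)).trans ?_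
    · rintro ⟨i, h1, h2, h3⟩
      exact ⟨i, Finset.mem_Ico.2 ⟨h1, h2⟩, h3⟩
    rw [Ex_sum]
    refine Finset.sum_le_sum fun i hi => ?_
    simp_rw [ind_and]
    have f1 := rho_ge a i
    have f2 := four_pow_pos i
    rw [Ex_indep (F := fun T => ind (Exe (rho a) m i T)) (D := ann (rho a (i + 1) + 1) (rho a m))
      (fun T U h => ind_congr (or_congr_right ((loc_Arm _ _).iff h)))
      (dep_rev _ _ (by omega) ((rho_mono a).monotone (Nat.le_add_right i 1)) x)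
      (Set.disjoint_left.2 fun v h1 h2 => by have := h1.1; have := h2.2; omega)]
    refine mul_le_mul_of_nonneg_right ?_ (Ex_nonneg fun _ _ => ind_nonneg _)
    rw [le_div_iff₀ (by positivity), mul_comm]
    exact k1 a i (Finset.mem_Ico.1 hi).2
  refine (Finset.sum_le_sum k2).trans ?_
  rw [Finset.sum_comm]
  have k3 : ∀ i ∈ Finset.Ico j m, ∑ a ∈ Finset.range (4 ^ m), pp i m / q ^ 4 *
      Ex L (fun T => ind (∃ Q ∈ shl (rho a i) (rho a (i + 1)), Rev Q T x)) ≤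
      4 ^ m * (C / q ^ 6 * (θ ^ j * pp 0 j) ^ 2 * pp j m) * (((i:ℝ) + 2) * θ ^ i) := by
    intro i hi
    obtain ⟨h1, h2⟩ := Finset.mem_Ico.1 hi
    rw [← Finset.mul_sum]
    have f1 := pp_nonneg i m
    have f2 := pp_nonneg 0 i
    have f3 := pp_nonneg 0 j
    have f4 := pp_nonneg j m
    have f5 := hq1 0 i m (Nat.zero_le _) h2.le
    have f6 := hq2 0 j m (Nat.zero_le _) (by omega)
    have f7 : pp 0 i ≤ pp 0 j := pp_sub le_rfl (Nat.zero_le _) h1
    have f8 : g ^ i ≤ θ ^ i * (θ ^ j) ^ 2 := by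
      calc g ^ i ≤ (θ ^ 3) ^ i := by gcongr
        _ = θ ^ i * (θ ^ i) ^ 2 := by rw [← pow_mul, mul_comm 3, pow_mul, pow_succ' _ 2]
        _ ≤ _ := by
          have : θ ^ i ≤ θ ^ j := pow_le_pow_of_le_one t0.le t1.le h1
          gcongr
    have f9 : q ^ 2 * (pp 0 i ^ 2 * pp i m) ≤ pp 0 j ^ 2 * pp j m := by
      calc _ = pp 0 i * (q * (q * (pp 0 i * pp i m))) := by ring
        _ ≤ pp 0 j * (q * pp 0 m) := by gcongr
        _ ≤ pp 0 j * (pp 0 j * pp j m) := by gcongr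
        _ = _ := by ring
    have f10 : (4:ℝ) ^ (m - i) * 4 ^ i = 4 ^ m := by rw [← pow_add, Nat.sub_add_cancel h2.le]
    calc _ ≤ pp i m / q ^ 4 * (4 ^ (m - i) * (C * 4 ^ i * ((i + 2) * g ^ i * pp 0 i ^ 2))) := by
          gcongr
          exact (rev_stage h2 hL).trans (by gcongr; exact hg i)
      _ = 4 ^ m * (C / q ^ 6) * (i + 2) * g ^ i * (q ^ 2 * (pp 0 i ^ 2 * pp i m)) := by
          rw [← f10]; field_simp
      _ ≤ 4 ^ m * (C / q ^ 6) * (i + 2) * (θ ^ i * (θ ^ j) ^ 2) * (pp 0 j ^ 2 * pp j m) := by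
          gcongr
      _ = _ := by ring
  refine (Finset.sum_le_sum k3).trans ?_
  rw [← Finset.mul_sum]
  have := pp_nonneg j m
  refine (mul_le_mul_of_nonneg_left (hK' _) (by positivity)).trans (le_of_eq (by ring))

theorem nz_bound : ∃ θ C : ℝ, 0 < θ ∧ θ < 1 ∧ 0 < C ∧ ∀ (j m : ℕ) (L B : Finset V), j < m →
    (∀ v, nu v ≤ 4 ^ (m + 1) → v ∈ L) → B ⊆ L → (∀ v, 4 ^ j < nu v → nu v ≤ 2 * 4 ^ m → v ∈ B) →
    Nz L B (θ ^ j * pp 0 j / 2) (fun T => ind (Arm 1 (4 ^ (m + 1)) T)) ≤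
      C * (pp 0 j * pp (j + 1) m ^ 2) := by
  classical
  obtain ⟨θ, C, t0, t1, C0, h⟩ := reveal
  obtain ⟨q, q0, -, hq0, hq1, -⟩ := pp_quasi
  have pos : ∀ j, 0 < pp 0 j := by
    intro j
    induction j with
    | zero => exact q0.trans_le ((hq0 0).trans (pp_sub le_rfl le_rfl (by omega)))
    | succ j ih =>
      exact lt_of_lt_of_le (mul_pos q0 (mul_pos ih (q0.trans_le (hq0 j))))
        (hq1 0 j (j + 1) (by omega) (by omega))
  refine ⟨θ, 1 + C, t0, t1, by positivity, fun j m L B hj hL hB hB' => ?_⟩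
  set t := θ ^ j * pp 0 j with ht
  have p0 := pos j
  have t2 : 0 < t := by positivity
  have t3 : t ≤ 1 := mul_le_one₀ (pow_le_one₀ t0.le t1.le) p0.le (pp_le_one _ _)
  have e0 := four_pow_pos j
  have e1 := four_pow_lt hj
  have e2 : (4:ℤ) ^ (m + 1) = 4 * 4 ^ m := by ring
  have e3 : (4:ℤ) ^ (j + 1) = 4 * 4 ^ j := by ring
  let B' := B.filter fun v => 4 ^ j < nu v
  let f : ℕ → Finset V → ℝ := fun a T => ind (Arm (rho a j + 1) (rho a m) T)
  let G : Finset V → ℝ := fun T => (∑ a ∈ Finset.range (4 ^ m), f a T) / (Finset.range (4 ^ m)).card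
  have hc : (0:ℝ) < (Finset.range (4 ^ m)).card := by simp
  have hD : ∀ a, ann (rho a j + 1) (rho a m) ⊆ B' := by
    intro a v hv
    have := rho_ge a j
    have := rho_lt a m
    have := hv.1
    have := hv.2
    exact Finset.mem_filter.2 ⟨hB' v (by omega) (by omega), by omega⟩
  have hB'L : B' ⊆ L := (Finset.filter_subset _ _).trans hB
  have hG : Dep G (B' : Set V) := by
    intro T U hTU
    simp only [G]
    rw [Finset.sum_congr rfl fun a _ => ((loc_Arm _ _).mono (hD a)).dep T U hTU]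
  have hf : ∀ a, Ex L (f a) ≤ pp (j + 1) m := by
    intro a
    have := rho_lt a j
    rw [P_eq ((loc_Arm _ _).mono ((hD a).trans hB'L))]
    exact P_arm_sub (by omega) (four_pow_le hj) (rho_ge a m)
  let J : ℕ → Finset V → Finset V := fun a T => L.filter (· ∈ JS (rho a) m j T)
  have hJm : ∀ a (T : Finset V) v, v ∈ J a T ↔ v ∈ JS (rho a) m j (T : Set V) := by
    intro a T v
    simp only [J, Finset.mem_filter, and_iff_right_iff_imp]
    rintro ⟨i, -, h2, -, Q, h4, h5⟩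
    have := rho_ge a i
    have := four_pow_pos i
    have := (shl_sub (by omega) ((rho_mono a).monotone (Nat.le_add_right i 1)) h4 h5.mem).2
    have := (rho_mono a).monotone (show i + 1 ≤ m from h2)
    have := rho_lt a m
    exact hL v (by omega)
  have r0 : ∀ a, 0 ≤ rho a 0 := fun a => le_trans (by norm_num) (rho_ge a 0)
  have hag : ∀ a (T U : Finset V), ∀ v ∈ JS (rho a) m j (T : Set V),
      v ∈ (T : Set V) ↔ v ∈ ((mix (J a T) T U : Finset V) : Set V) := fun a T U v hv =>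
    (mem_mix_of_mem ((hJm a T v).2 hv)).symm
  have pm := pp_nonneg j m
  have pm' := pp_nonneg (j + 1) m
  have k1 := Nz_le_levels hB'L hG t2 t3 (c := C * t ^ 2 * pp j m * pp (j + 1) m) (by positivity)
    (fun k hk => by
      rw [← mul_assoc]
      refine schramm_steif (Finset.range (4 ^ m)) ⟨0, by simp⟩ J f ?_ ?_ (by positivity) ?_ ?_ hk
      · intro a _ T U _ _
        ext v
        rw [hJm, hJm, JS_eq (r0 a) (rho_mono a) (hag a T U)]
      · intro a _ T U _ _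
        exact ind_congr (JS_arm (r0 a) (rho_mono a) (hag a T U) (m - j - 1) j (by omega)
          le_rfl).symm
      · intro x _
        simp only [hJm, Finset.card_range]
        push_cast
        exact h j m L x hL
      · intro a _
        simp only [f, sq, ind_mul_self]
        exact hf a)
  have k2 : Ex L G ≤ pp (j + 1) m := by
    simp only [G]
    rw [Ex_div, Ex_sum, div_le_iff₀ hc, mul_comm, ← nsmul_eq_mul]
    exact Finset.sum_le_card_nsmul _ _ _ fun a _ => hf a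
  have G0 : ∀ T, 0 ≤ G T := fun T =>
    div_nonneg (Finset.sum_nonneg fun _ _ => ind_nonneg _) hc.le
  have k3 : Nz L B' (t / 2) (fun T => ind (Arm 1 (4 ^ (m + 1)) T)) ≤
      Nz L B' (t / 2) (fun T => ind (Arm 1 (4 ^ j) T) * G T) := by
    refine Nz_mono ⟨by positivity, by linarith⟩ (fun _ => ind_nonneg _) fun T => ?_
    by_cases e : Arm 1 (4 ^ (m + 1)) T
    · rw [ind_pos e, ind_pos (e.sub le_rfl e0 (by omega)), one_mul]
      simp only [G]
      rw [le_div_iff₀ hc, one_mul, Finset.sum_congr rfl (g := fun _ => 1)]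
      · simp
      · intro a _
        have := rho_ge a j
        have := rho_lt a m
        exact ind_pos (e.sub (by omega) (rho_mono a hj) (by omega))
    · rw [ind_neg e]
      exact mul_nonneg (ind_nonneg _) (G0 T)
  rw [Nz_mul _ (loc_Arm 1 (4 ^ j)).dep hG (Set.disjoint_left.2 fun v h1 h2 => by
    have := (Finset.mem_filter.1 h2).2
    have := h1.2
    omega)] at k3
  simp only [sq, ind_mul_self] at k3
  rw [P_eq ((loc_Arm _ _).mono fun v hv => hL v (by have := hv.2; omega))] at k3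
  have k4 : P (Arm 1 (4 ^ j)) = pp 0 j := by rw [pp, pow_zero]
  have k5 : pp j m ≤ pp (j + 1) m := pp_sub (by omega) hj le_rfl
  have k6 : 0 ≤ Ex L G := Ex_nonneg fun T _ => G0 T
  calc _ ≤ _ := Nz_le_of_subset hB (Finset.filter_subset _ _) ⟨by positivity, by linarith⟩ _
    _ ≤ _ := k3
    _ ≤ pp 0 j * (Ex L G ^ 2 + C * t ^ 2 * pp j m * pp (j + 1) m / t ^ 2) := by rw [k4]; gcongr
    _ = pp 0 j * (Ex L G ^ 2 + C * (pp j m * pp (j + 1) m)) := by field_simp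
    _ ≤ pp 0 j * (pp (j + 1) m ^ 2 + C * (pp (j + 1) m * pp (j + 1) m)) := by gcongr
    _ = _ := by ring

/-- resolvent bound for the one-arm event under resampling dynamics -/
theorem res_bound : ∃ C : ℝ, 0 < C ∧ ∀ (m : ℕ) (L B : Finset V), 3 ≤ m →
    (∀ v, nu v ≤ 4 ^ (m + 1) → v ∈ L) → B ⊆ L → (∀ v, 16 < nu v → nu v ≤ 2 * 4 ^ m → v ∈ B) →
    Res L B (fun T => ind (Arm 1 (4 ^ (m + 1)) T)) ≤ C * pp 0 (m + 1) ^ 2 := by
  obtain ⟨θ, C, t0, t1, C0, h⟩ := nz_bound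
  obtain ⟨q, q0, q1, hq0, hq1, -⟩ := pp_quasi
  have st : ∀ j, q ^ 2 * pp 0 j ≤ pp 0 (j + 1) := fun j => by
    have := hq0 j
    have := pp_nonneg 0 j
    calc _ = q * (pp 0 j * q) := by ring
      _ ≤ q * (pp 0 j * pp j (j + 1)) := by gcongr
      _ ≤ _ := hq1 0 j (j + 1) (by omega) (by omega)
  have s0 : q ≤ pp 0 1 := hq0 0
  refine ⟨C / (θ * q ^ 13) * (1 - θ)⁻¹ + 1 / q ^ 4,
    by have : 0 < 1 - θ := by linarith
       positivity, fun m L B hm hL hB hB' => ?_⟩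
  let t : ℕ → ℝ := fun j => if j = 0 then 1 else θ ^ (j + 1) * pp 0 (j + 1)
  have ht : ∀ j, 0 ≤ t j ∧ t j ≤ 1 := by
    intro j
    simp only [t]
    split_ifs
    · norm_num
    · exact ⟨mul_nonneg (by positivity) (pp_nonneg _ _),
        mul_le_one₀ (pow_le_one₀ t0.le t1.le) (pp_nonneg _ _) (pp_le_one _ _)⟩
  have ht' : ∀ j, θ * q * t j ≤ θ ^ j * pp 0 (j + 1) := by
    intro j
    simp only [t]
    have := pp_nonneg 0 (j + 1)
    split_ifs with e
    · subst e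
      nlinarith
    · calc _ = (θ * q * θ) * (θ ^ j * pp 0 (j + 1)) := by ring
        _ ≤ 1 * (θ ^ j * pp 0 (j + 1)) := by
          gcongr
          exact mul_le_one₀ (mul_le_one₀ t1.le q0.le q1) t0.le t1.le
        _ = _ := one_mul _
  refine (Res_le hB _ t rfl ht (m - 2)).trans ?_
  have pM := pp_nonneg 0 (m + 1)
  rw [add_mul]
  refine add_le_add ?_ ?_
  · have k : ∀ j ∈ Finset.range (m - 2), t j * Nz L B (t (j + 1) / 2)
        (fun T => ind (Arm 1 (4 ^ (m + 1)) T)) ≤ C / (θ * q ^ 13) * pp 0 (m + 1) ^ 2 * θ ^ j := by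
      intro j hj
      have hj' : j + 2 < m := by have := Finset.mem_range.1 hj; omega
      have e1 := h (j + 2) m L B hj' hL hB fun v h1 h2 => hB' v (by
        have := four_pow_le (show 2 ≤ j + 2 by omega)
        omega) h2
      have e2 : t (j + 1) = θ ^ (j + 2) * pp 0 (j + 2) := if_neg (by omega)
      have e3 := ht' j
      have e4 := st (j + 1)
      have e5 := st (j + 2)
      have e6 := hq1 0 (j + 3) m (by omega) (by omega)
      have e7 := st m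
      have := pp_nonneg 0 (j + 1)
      have := pp_nonneg 0 (j + 2)
      have := pp_nonneg 0 (j + 3)
      have := pp_nonneg (j + 3) m
      have := (ht j).1
      have := pp_nonneg 0 m
      rw [e2, div_mul_eq_mul_div, div_mul_eq_mul_div, le_div_iff₀ (by positivity)]
      calc _ ≤ t j * (C * (pp 0 (j + 2) * pp (j + 3) m ^ 2)) * (θ * q ^ 13) := by gcongr
        _ = C * (θ * q * t j) * q ^ 12 * (pp 0 (j + 2) * pp (j + 3) m ^ 2) := by ring
        _ ≤ C * (θ ^ j * pp 0 (j + 1)) * q ^ 12 * (pp 0 (j + 2) * pp (j + 3) m ^ 2) := by gcongr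
        _ = C * θ ^ j * q ^ 6 * (q ^ 2 * (q ^ 2 * pp 0 (j + 1))) * (q ^ 2 * pp 0 (j + 2)) *
            pp (j + 3) m ^ 2 := by ring
        _ ≤ C * θ ^ j * q ^ 6 * (q ^ 2 * pp 0 (j + 2)) * (q ^ 2 * pp 0 (j + 2)) *
            pp (j + 3) m ^ 2 := by gcongr
        _ ≤ C * θ ^ j * q ^ 6 * pp 0 (j + 3) * pp 0 (j + 3) * pp (j + 3) m ^ 2 := by gcongr
        _ = C * θ ^ j * (q ^ 2 * (q * (pp 0 (j + 3) * pp (j + 3) m))) ^ 2 := by ring
        _ ≤ C * θ ^ j * (q ^ 2 * pp 0 m) ^ 2 := by gcongr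
        _ ≤ C * θ ^ j * pp 0 (m + 1) ^ 2 := by gcongr
        _ = _ := by ring
    refine (Finset.sum_le_sum k).trans ?_
    rw [← Finset.mul_sum, mul_right_comm]
    gcongr
    rw [← tsum_geometric_of_lt_one t0.le t1]
    exact (summable_geometric_of_lt_one t0.le t1).sum_le_tsum _ fun i _ => by positivity
  · simp only [sq, ind_mul_self]
    rw [P_eq ((loc_Arm _ _).mono fun v hv => hL v hv.2)]
    have k4 : P (Arm 1 (4 ^ (m + 1))) = pp 0 (m + 1) := by rw [pp, pow_zero]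
    obtain ⟨n, rfl⟩ : ∃ n, m = n + 3 := ⟨m - 3, by omega⟩
    have e2 : t (n + 3 - 2) = θ ^ (n + 2) * pp 0 (n + 2) := if_neg (by omega)
    have e4 := st (n + 2)
    have e5 := st (n + 3)
    have := pp_nonneg 0 (n + 2)
    have : θ ^ (n + 2) ≤ 1 := pow_le_one₀ t0.le t1.le
    rw [k4, e2, div_mul_eq_mul_div, le_div_iff₀ (by positivity)]
    calc _ = θ ^ (n + 2) * (q ^ 2 * (q ^ 2 * pp 0 (n + 2))) * pp 0 (n + 3 + 1) := by ring
      _ ≤ 1 * (q ^ 2 * pp 0 (n + 3)) * pp 0 (n + 3 + 1) := by gcongr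
      _ ≤ 1 * pp 0 (n + 3 + 1) * pp 0 (n + 3 + 1) := by gcongr
      _ = _ := by ring

end Pool.Agent.Lib.MP_e26b79_pr
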