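import Pool.Agent.Lib.MP_e26b79_pr.Gadget

namespace Pool.Agent.Lib.MP_e26b79_pr

/-- a crossing event: copy, colour, direction, cell ranges -/
structure At where
  side : Bool
  col : Bool
  hor : Bool
  a0 : ℤ
  a1 : ℤ
  b0 : ℤ
  b1 : ℤ

def At.R (t : At) (s : ℤ) : Set V := rs (t.a0 * s) (t.a1 * s - 1) (t.b0 * s) (t.b1 * s - 1)
def At.E (t : At) (s : ℤ) : Set V → Prop :=
  bif t.hor then HC (t.a0 * s) (t.a1 * s - 1) (t.b0 * s) (t.b1 * s - 1)
  else VC (t.a0 * s) (t.a1 * s - 1) (t.b0 * s) (t.b1 * s - 1)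
def At.on (t : At) (S : Set V) : Set V := bif t.col then S else Sᶜ
def At.hold (t : At) (s : ℤ) (S1 S2 : Set V) : Prop := t.E s (t.on (bif t.side then S2 else S1))

theorem At.loc (t : At) (s : ℤ) : Loc (t.E s) (t.R s) := by
  unfold At.E
  cases t.hor
  · exact loc_VC _ _ _ _
  · exact loc_HC _ _ _ _

theorem At.iff (t : At) {s : ℤ} {S S' : Set V} (h : ∀ v ∈ t.R s, v ∈ S ↔ v ∈ S') :
    t.E s (t.on S) ↔ t.E s (t.on S') := by
  refine (t.loc s).iff fun v hv => ?_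
  unfold At.on
  cases t.col
  · exact not_congr (h v hv)
  · exact h v hv

def safe : List At :=
  [⟨false, true, true, -4, 4, 3, 4⟩, ⟨false, true, true, -4, 4, -4, -3⟩,
   ⟨false, true, false, -4, -3, -4, 4⟩, ⟨false, true, false, 3, 4, -4, 4⟩,
   ⟨false, true, true, -10, 10, 9, 10⟩, ⟨false, true, true, -10, 10, -10, -9⟩,
   ⟨false, true, false, -10, -9, -10, 10⟩, ⟨false, true, false, 9, 10, -10, 10⟩,
   ⟨false, true, false, 5, 6, 2, 4⟩, ⟨false, true, true, 3, 6, 3, 4⟩,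
   ⟨false, true, false, 7, 8, -3, -1⟩, ⟨false, true, true, 7, 10, -3, -2⟩,
   ⟨false, false, false, 6, 7, 1, 5⟩, ⟨false, false, true, -5, 7, 4, 5⟩,
   ⟨false, false, false, -5, -4, -5, 5⟩, ⟨false, false, true, -5, 7, -5, -4⟩,
   ⟨false, false, false, 6, 7, -5, 0⟩,
   ⟨true, false, true, -4, 4, 3, 4⟩, ⟨true, false, true, -4, 4, -4, -3⟩,
   ⟨true, false, false, -4, -3, -4, 4⟩, ⟨true, false, false, 3, 4, -4, 4⟩,
   ⟨true, false, true, -10, 10, 9, 10⟩, ⟨true, false, true, -10, 10, -10, -9⟩,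
   ⟨true, false, false, -10, -9, -10, 10⟩, ⟨true, false, false, 9, 10, -10, 10⟩,
   ⟨true, false, true, 6, 10, 3, 4⟩, ⟨true, false, true, 3, 7, -3, -2⟩,
   ⟨true, true, false, 5, 6, 2, 5⟩, ⟨true, true, true, -5, 6, 4, 5⟩,
   ⟨true, true, false, -5, -4, -5, 5⟩, ⟨true, true, true, -5, 8, -5, -4⟩,
   ⟨true, true, false, 7, 8, -5, -1⟩]
def spec : List At :=
  [⟨false, true, true, 4, 9, 0, 1⟩, ⟨false, true, true, 4, 6, 2, 3⟩,
   ⟨false, true, true, 7, 9, -2, -1⟩, ⟨false, false, true, 4, 9, -1, 0⟩,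
   ⟨false, false, true, 4, 9, 1, 2⟩, ⟨true, false, false, 6, 7, -3, 4⟩]

theorem safe_off {s : ℤ} (hs : 0 < s) {W : Set V} :
    ∀ t ∈ safe, ∀ v ∈ t.R s, v ∉ JJ hs W ∧ v ∉ MM s := by
  suffices ∀ t ∈ safe, ∀ v ∈ t.R s, ¬ (v ∈ NN s ∧ (v.1 < 5 * s ∨ 8 * s ≤ v.1)) ∧ v ∉ MM s from
    fun t ht v hv => ⟨fun h => (this t ht v hv).1 (JJ_sub hs h), (this t ht v hv).2⟩
  simp only [safe, List.forall_mem_cons, At.R, NN, MM, mem_rs, List.not_mem_nil, false_imp_iff,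
    implies_true, and_true]
  refine ⟨?_, ?_, ?_, ?_, ?_, ?_, ?_, ?_, ?_, ?_, ?_, ?_, ?_, ?_, ?_, ?_, ?_, ?_, ?_, ?_, ?_, ?_,
    ?_, ?_, ?_, ?_, ?_, ?_, ?_, ?_, ?_, ?_⟩ <;> intro v <;> omega

theorem safe_tr {s : ℤ} (hs : 0 < s) {W U1 U2 X1 X2 : Set V} (h : ∀ t ∈ safe, t.hold s U1 U2)
    (h1 : ∀ v, v ∉ JJ hs W → v ∉ MM s → (v ∈ X1 ↔ v ∈ U1))
    (h2 : ∀ v, v ∉ JJ hs W → v ∉ MM s → (v ∈ X2 ↔ v ∈ U2)) : ∀ t ∈ safe, t.hold s X1 X2 := by
  intro t ht
  refine (t.iff fun v hv => ?_).2 (h t ht)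
  have := safe_off hs (W := W) t ht v hv
  cases t.side
  · exact h1 v this.1 this.2
  · exact h2 v this.1 this.2

section
variable {s : ℤ} (hs : 0 < s) {W : Set V} (okL : (XL hs).Ok W) (okR : (XR hs).Ok W)
  {U1 U2 : Set V} (h1 : ∀ t ∈ safe, t.hold s U1 U2) (h2 : ∀ t ∈ spec, t.hold s U1 U2)
  {a b : ℤ} (hab : a ≤ s ∧ 10 * s ≤ b)

theorem inout_tr {U X : Set V} (hU : ∀ v, v ∉ JJ hs W → (v ∈ X ↔ v ∈ U)) (h : Ain s a U ∧ Aout s b U) :
    Ain s a X ∧ Aout s b X := by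
  refine ⟨((loc_Ain s a).iff fun v hv => hU v fun h5 => ?_).2 h.1,
    ((loc_Aout s b).iff fun v hv => hU v fun h5 => ?_).2 h.2⟩
  all_goals
    have := (JJ_sub hs h5).1
    simp only [NN, mem_rs, Set.mem_compl_iff] at *
    omega

include okL okR h1 h2 hab in
theorem gadgetA {X : Set V} (hJ : ∀ v ∈ JJ hs W, v ∈ X ↔ v ∉ W)
    (hU : ∀ v, v ∉ JJ hs W → (v ∈ X ↔ v ∈ U1)) (h : Ain s a U1 ∧ Aout s b U1) : Arm a b X := by
  have h3 := safe_tr hs h1 (X2 := U2) (fun v hv _ => hU v hv) (fun _ _ _ => Iff.rfl)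
  have h4 := inout_tr hs hU h
  simp only [safe, spec, List.forall_mem_cons, At.hold, At.E, At.on, cond_true, cond_false] at h2 h3
  obtain ⟨a1, a2, a3, a4, a5, a6, a7, a8, ⟨q1, a12⟩, ⟨q2, a13⟩, ⟨q3, a14⟩, ⟨q4, a15⟩, -⟩ := h3
  obtain ⟨a9, a10, a11, a16, a17, -⟩ := h2
  obtain ⟨p1, p2, -, -, c1, c2, -, -, c3, -⟩ := core hs okL okR hJ (fun v _ _ hv => hU v hv)
    a10 a11 a16 a17
  have c4 := (c3 U1 (fun v hv hv' => (hU v hv').2 hv) a9).mono Set.inter_subset_left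
  refine arm_join hs hab h4.1 h4.2 (by rw [Ring, sub_add_cancel]; exact ⟨⟨⟨a1, a2⟩, a3⟩, a4⟩)
    (by rw [Ring, sub_add_cancel]; exact ⟨⟨⟨a5, a6⟩, a7⟩, a8⟩) fun p q hp hq => ?_
  exact (lk' a13 hp (by omega)).symm.trans ((lk' a13 a12 (by omega)).trans
    ((lk' c1 a12 (by omega)).symm.trans (c4.trans ((lk' c2 a14 (by omega)).trans
      ((lk' a15 a14 (by omega)).symm.trans (lk' a15 hq (by omega)))))))

include h1 h2 hab in
theorem gadgetB {X : Set V} (hU : ∀ v, v ∉ JJ hs W → (v ∈ X ↔ v ∈ U2))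
    (h : Ain s a U2ᶜ ∧ Aout s b U2ᶜ) : Arm a b Xᶜ := by
  have h3 := safe_tr hs h1 (X1 := U1) (fun _ _ _ => Iff.rfl) (fun v hv _ => hU v hv)
  have h4 := inout_tr hs (X := Xᶜ) (fun v hv => not_congr (hU v hv)) h
  simp only [safe, spec, List.forall_mem_cons, At.hold, At.E, At.on, cond_true, cond_false] at h2 h3
  obtain ⟨-, -, -, -, -, -, -, -, -, -, -, -, -, -, -, -, -, a1, a2, a3, a4, a5, a6, a7, a8,
    ⟨q1, a32⟩, ⟨q2, a33⟩, -⟩ := h3
  obtain ⟨-, -, -, -, -, a31, -⟩ := h2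
  obtain ⟨q3, a31⟩ := ((loc_VC _ _ _ _).iff (S := Xᶜ) fun v hv => not_congr (hU v fun h5 => by
    have := (JJ_sub hs h5).2
    rw [mem_rs] at hv
    omega)).2 a31
  refine arm_join hs hab h4.1 h4.2 (by rw [Ring, sub_add_cancel]; exact ⟨⟨⟨a1, a2⟩, a3⟩, a4⟩)
    (by rw [Ring, sub_add_cancel]; exact ⟨⟨⟨a5, a6⟩, a7⟩, a8⟩) fun p q hp hq => ?_
  exact (lk' a33 hp (by omega)).symm.trans ((lk' a33 a31 (by omega)).trans
    ((lk' a32 a31 (by omega)).symm.trans (lk' a32 hq (by omega))))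

include okL okR h1 h2 hab in
theorem gadgetC {X1 X2 : Set V} (hJ : ∀ v ∈ JJ hs W, v ∈ X1 ↔ v ∉ W)
    (hU1 : ∀ v, v ∉ JJ hs W → v ∉ MM s → (v ∈ X1 ↔ v ∈ U1))
    (hU2 : ∀ v, v ∉ JJ hs W → v ∉ MM s → (v ∈ X2 ↔ v ∈ U2))
    (hN : ∀ v ∈ NN s, v ∈ X1 ↔ v ∈ X2) : ¬ (Arm a b X1 ∧ Arm a b X2ᶜ) := by
  have h3 := safe_tr hs h1 hU1 hU2
  simp only [safe, spec, List.forall_mem_cons, At.hold, At.E, At.on, cond_true, cond_false] at h2 h3
  obtain ⟨-, -, -, -, -, -, -, -, -, -, -, -, ⟨q1, a18⟩, a19, a20, a21, ⟨q2, a22⟩,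
    -, -, -, -, -, -, -, -, -, -, ⟨q3, a34⟩, a35, a36, a37, ⟨q4, a38⟩, -⟩ := h3
  obtain ⟨-, a10, a11, a16, a17, -⟩ := h2
  obtain ⟨p1, p2, p4, p3, c1, c2, c4, c3, -, c5⟩ := core hs okL okR hJ
    (fun v _ h5 h6 => hU1 v h6 h5) a10 a11 a16 a17
  have hD : NN s ⊆ rs (4 * s) (9 * s - 1) (-5 * s) (5 * s - 1) := fun v => by
    simp only [NN, mem_rs]; omega
  rintro ⟨g1, g2⟩
  rcases c5 with c5 | c5
  · have c1' := c1.loc (S' := X2) fun v hv => (hN v (by
      have := hv.2; simp only [NN, mem_rs] at *; omega)).1 hv.1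
    have c2' := c2.loc (S' := X2) fun v hv => (hN v (by
      have := hv.2; simp only [NN, mem_rs] at *; omega)).1 hv.1
    refine big_loop hs a34 a35 a36 a37 a38 ?_ (by omega) g2
    exact (lk c1' a34 (by omega) (fun v => by simp only [mem_rs]; omega)
      (fun v => by simp only [mem_rs]; omega)).symm.trans
      ((c5.mono (S' := X2 ∩ _) fun v hv => ⟨(hN v hv.2).1 hv.1, hD hv.2⟩).trans
        (lk c2' a38 (by omega) (fun v => by simp only [mem_rs]; omega)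
          (fun v => by simp only [mem_rs]; omega)))
  · refine big_loop hs (a := a) (b := b) a18 a19 a20 a21 a22 ?_ (by omega) (by rwa [compl_compl])
    exact (lk c4 a18 (by omega) (fun v => by simp only [mem_rs]; omega)
      (fun v => by simp only [mem_rs]; omega)).symm.trans
      ((c5.mono (Set.inter_subset_inter_right _ hD)).trans
        (lk c3 a22 (by omega) (fun v => by simp only [mem_rs]; omega)
          (fun v => by simp only [mem_rs]; omega)))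
end

def wU (s : ℤ) (v : V) : Prop :=
  (4 * s ≤ v.1 ∧ v.1 < 9 * s ∧ ((-s ≤ v.2 ∧ v.2 < 0) ∨ (s ≤ v.2 ∧ v.2 < 2 * s))) ∨
  (6 * s ≤ v.1 ∧ v.1 < 7 * s ∧ (v.2 < 0 ∨ s ≤ v.2) ∧ -5 * s ≤ v.2 ∧ v.2 < 5 * s) ∨
  (-5 * s ≤ v.1 ∧ v.1 < 7 * s ∧ ((4 * s ≤ v.2 ∧ v.2 < 5 * s) ∨ (-5 * s ≤ v.2 ∧ v.2 < -4 * s))) ∨
  (-5 * s ≤ v.1 ∧ v.1 < -4 * s ∧ -5 * s ≤ v.2 ∧ v.2 < 5 * s)
def bZ (s : ℤ) (v : V) : Prop :=
  (5 * s ≤ v.1 ∧ v.1 < 6 * s ∧ 2 * s ≤ v.2 ∧ v.2 < 5 * s) ∨
  (7 * s ≤ v.1 ∧ v.1 < 8 * s ∧ -5 * s ≤ v.2 ∧ v.2 < -s) ∨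
  (-5 * s ≤ v.1 ∧ v.1 < 6 * s ∧ 4 * s ≤ v.2 ∧ v.2 < 5 * s) ∨
  (-5 * s ≤ v.1 ∧ v.1 < 8 * s ∧ -5 * s ≤ v.2 ∧ v.2 < -4 * s) ∨
  (-5 * s ≤ v.1 ∧ v.1 < -4 * s ∧ -5 * s ≤ v.2 ∧ v.2 < 5 * s)
def XX (s : ℤ) : Set V :=
  rs (-10 * s) (10 * s - 1) (-10 * s) (10 * s - 1) \ rs (-3 * s) (3 * s - 1) (-3 * s) (3 * s - 1)

def At.good (t : At) (s : ℤ) : Prop :=
  (t.a0 < t.a1 ∧ t.b0 < t.b1 ∧ t.a1 - t.a0 ≤ 20 * (t.b1 - t.b0) ∧
    t.b1 - t.b0 ≤ 20 * (t.a1 - t.a0)) ∧ ∀ v ∈ t.R s, v ∈ XX s ∧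
    ((t.side = false ∨ (v ∈ NN s ∧ v ∉ MM s)) → (t.col = true ↔ ¬ wU s v)) ∧
    (t.side = true → ¬ (v ∈ NN s ∧ v ∉ MM s) → (t.col = true ↔ bZ s v))

theorem all_good {s : ℤ} (_hs : 0 < s) : ∀ t ∈ safe ++ spec, t.good s := by
  simp only [safe, spec, List.cons_append, List.nil_append, List.forall_mem_cons, At.good, At.R,
    NN, MM, XX, wU, bZ, mem_rs, Set.mem_sdiff,
    List.not_mem_nil, false_imp_iff, implies_true, and_true, true_or, Bool.false_eq_true,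
    Bool.true_eq_false, false_or, true_iff, false_iff, forall_const, not_not]
  refine ⟨?_, ?_, ?_, ?_, ?_, ?_, ?_, ?_, ?_, ?_, ?_, ?_, ?_, ?_, ?_, ?_, ?_, ?_, ?_, ?_, ?_, ?_,
    ?_, ?_, ?_, ?_, ?_, ?_, ?_, ?_, ?_, ?_, ?_, ?_, ?_, ?_, ?_, ?_⟩ <;>
    refine ⟨by omega, fun v => ?_⟩ <;> omega

theorem At.om (t : At) {s : ℤ} {o : V → Bool} {X : Set V}
    (h : ∀ x ∈ X, x ∈ t.R s → (t.col = true ↔ o x = true)) :
    OM o X (fun T : Finset V => ind (t.E s (t.on T))) := by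
  unfold At.on
  cases e : t.col
  · exact (t.loc s).om_compl fun x h1 h2 => by simpa [e] using h x h1 h2
  · exact (t.loc s).om fun x h1 h2 => by simpa [e] using h x h1 h2

theorem At.dep (t : At) (s : ℤ) : Dep (fun T : Finset V => ind (t.E s (t.on T))) (t.R s) :=
  fun _ _ h => ind_congr (t.iff h)

theorem At.ex (t : At) {s : ℤ} {L : Finset V} (h : t.R s ⊆ L) :
    Ex L (fun T : Finset V => ind (t.E s (t.on T))) = P (t.E s) := by
  unfold At.on
  cases t.col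
  · exact P_eq_compl ((t.loc s).mono h)
  · exact P_eq ((t.loc s).mono h)

theorem At.prob : ∃ c : ℝ, 0 < c ∧ c ≤ 1 ∧ ∀ (t : At) (s : ℤ), 0 < s → t.good s → c ≤ P (t.E s) := by
  obtain ⟨c, hc, hc1, h⟩ := rsw' 20
  refine ⟨c, hc, hc1, fun t s hs ⟨⟨e1, e2, e3, e4⟩, _⟩ => ?_⟩
  have f1 : t.a0 * s ≤ t.a1 * s - 1 := by nlinarith
  have f2 : t.b0 * s ≤ t.b1 * s - 1 := by nlinarith
  unfold At.E
  cases t.hor
  · exact (h _ _ _ _ f1 f2 (by push_cast; nlinarith)).2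
  · exact (h _ _ _ _ f2 f1 (by push_cast; nlinarith)).1

theorem OM.mix_left {o : V → Bool} {X : Set V} {I : Finset V} {Φ : Finset V → ℝ}
    (h : OM o {x | x ∈ X ∧ x ∈ I} Φ) (U : Finset V) : OM o X (fun T => Φ (mix I T U)) := by
  intro x hx T
  by_cases e : x ∈ I
  · simp only [mix_put_left e]; exact h x ⟨hx, e⟩ _
  · simp only [mix_put_left' e]; exact le_rfl
theorem OM.mix_right {o : V → Bool} {X : Set V} {I : Finset V} {Φ : Finset V → ℝ}
    (h : OM o {x | x ∈ X ∧ x ∉ I} Φ) (T : Finset V) : OM o X (fun U => Φ (mix I T U)) := by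
  intro x hx U
  by_cases e : x ∈ I
  · simp only [mix_put_right' e]; exact le_rfl
  · simp only [mix_put_right e]; exact h x ⟨hx, e⟩ _

open Classical in
noncomputable def oU (s : ℤ) (v : V) : Bool := decide (¬ wU s v)
open Classical in
noncomputable def oZ (s : ℤ) (v : V) : Bool := decide (bZ s v)

def PM (s : ℤ) (F : Finset V → Finset V → ℝ) : Prop :=
  (∀ U, OM (oU s) (XX s) (fun T => F T U)) ∧ (∀ T, OM (oZ s) (XX s) (F T)) ∧ ∀ T U, 0 ≤ F T U

theorem PM.mul {s : ℤ} {F G : Finset V → Finset V → ℝ} (h : PM s F) (h' : PM s G) :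
    PM s (fun T U => F T U * G T U) :=
  ⟨fun U => (h.1 U).mul (h'.1 U) (fun _ => h.2.2 _ _) (fun _ => h'.2.2 _ _),
    fun T => (h.2.1 T).mul (h'.2.1 T) (fun _ => h.2.2 _ _) (fun _ => h'.2.2 _ _),
    fun T U => mul_nonneg (h.2.2 T U) (h'.2.2 T U)⟩

theorem atom_step {s : ℤ} {L I : Finset V} (hL : XX s ⊆ L)
    (hI : ∀ v ∈ XX s, v ∈ I ↔ v ∈ NN s ∧ v ∉ MM s) {t : At} (ht : t.good s)
    {F : Finset V → Finset V → ℝ} (hF : PM s F) :
    PM s (fun T U => ind (t.hold s T (mix I T U : Finset V))) ∧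
    Ex L (fun T => Ex L (F T)) * P (t.E s) ≤
      Ex L (fun T => Ex L (fun U => F T U * ind (t.hold s T (mix I T U : Finset V)))) := by
  have hR : t.R s ⊆ XX s := fun v hv => (ht.2 v hv).1
  unfold At.hold
  cases e : t.side
  · simp only [cond_false]
    have h1 : OM (oU s) (XX s) (fun T : Finset V => ind (t.E s (t.on T))) :=
      t.om fun x _ h2 => by simpa [oU] using (ht.2 x h2).2.1 (Or.inl e)
    refine ⟨⟨fun _ => h1, fun _ _ _ _ => le_rfl, fun _ _ => ind_nonneg _⟩, ?_⟩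
    refine le_trans (le_of_eq ?_) (harris2 L hF.1 hF.2.1 (fun _ => h1) (fun _ _ _ _ => le_rfl)
      (fun _ => (t.dep s).mono hR) (fun _ _ _ _ => rfl))
    simp only [Ex_const, t.ex (hR.trans hL)]
  · simp only [cond_true]
    have h1 : ∀ U, OM (oU s) (XX s) (fun T => ind (t.E s (t.on (mix I T U : Finset V)))) :=
      OM.mix_left (t.om fun x h1 h2 => by
        simpa [oU] using (ht.2 x h2).2.1 (Or.inr ((hI x h1.1).1 h1.2)))
    have h2 : ∀ T, OM (oZ s) (XX s) (fun U => ind (t.E s (t.on (mix I T U : Finset V)))) :=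
      OM.mix_right (t.om fun x h1 h2 => by
        simpa [oZ] using (ht.2 x h2).2.2 e fun h => h1.2 ((hI x h1.1).2 h))
    refine ⟨⟨h1, h2, fun _ _ => ind_nonneg _⟩, ?_⟩
    refine le_trans (le_of_eq ?_) (harris2 L hF.1 hF.2.1 h1 h2
      (fun U T T' h => t.dep s _ _ fun v hv => by simp only [mem_mix, h v (hR hv)])
      (fun U T T' h => t.dep s _ _ fun v hv => by simp only [mem_mix, h v (hR hv)]))
    rw [Ex_mix L I (fun T => ind (t.E s (t.on T))), t.ex (hR.trans hL)]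

theorem atom_list {s : ℤ} {L I : Finset V} (hL : XX s ⊆ L)
    (hI : ∀ v ∈ XX s, v ∈ I ↔ v ∈ NN s ∧ v ∉ MM s) {c : ℝ} (hc : 0 ≤ c) (l : List At)
    (hl : ∀ t ∈ l, t.good s ∧ c ≤ P (t.E s)) {F : Finset V → Finset V → ℝ} (hF : PM s F) :
    c ^ l.length * Ex L (fun T => Ex L (F T)) ≤
      Ex L (fun T => Ex L (fun U => F T U * ind (∀ t ∈ l, t.hold s T (mix I T U : Finset V)))) := by
  induction l generalizing F with
  | nil => simp [ind]
  | cons t l ih =>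
    obtain ⟨h1, h2⟩ := atom_step hL hI (hl t List.mem_cons_self).1 hF
    have h3 := ih (fun t ht => hl t (List.mem_cons_of_mem _ ht)) (hF.mul h1)
    have h4 : 0 ≤ Ex L (fun T => Ex L (F T)) :=
      Ex_nonneg fun T _ => Ex_nonneg fun U _ => hF.2.2 T U
    have h5 := (hl t List.mem_cons_self).2
    simp only [List.forall_mem_cons, ind_and, ← mul_assoc, List.length_cons]
    refine le_trans ?_ h3
    rw [pow_succ, mul_assoc]
    refine mul_le_mul_of_nonneg_left (le_trans ?_ h2) (by positivity)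
    rw [mul_comm]
    gcongr

noncomputable def psi (L : Finset V) (a b : ℤ) (I : Finset V) : ℝ :=
  Ex L (fun T => Ex L (fun U => ind (Arm a b T) * ind (Arm a b (mix I T U : Finset V)ᶜ)))

theorem om_arm (a b : ℤ) : OM (fun _ => true) Set.univ (fun T : Finset V => ind (Arm a b T)) :=
  (loc_Arm a b).om fun _ _ _ => rfl
theorem om_arm' (a b : ℤ) :
    OM (fun _ => false) Set.univ (fun T : Finset V => ind (Arm a b (T : Set V)ᶜ)) :=
  (loc_Arm a b).om_compl fun _ _ _ => rfl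

theorem psi_anti (L : Finset V) (a b : ℤ) {I I' : Finset V} (h : I ⊆ I') :
    psi L a b I' ≤ psi L a b I := by
  have := share_le L I (I' \ I) Finset.disjoint_sdiff (om_arm a b) (om_arm' a b) (fun _ _ => 1)
    (fun _ _ => zero_le_one) (fun _ _ _ _ => rfl)
  rw [Finset.union_sdiff_of_subset h] at this
  simpa only [psi, one_mul] using this

theorem PM_F {s : ℤ} (_hs : 0 < s) {I' : Finset V}
    (e3 : ∀ v ∈ XX s, v ∈ I' ↔ v ∈ NN s ∧ v ∉ MM s) (a b : ℤ) :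
    PM s (fun T U => ind (Ain s a T) * ind (Aout s b T) *
    (ind (Ain s a (mix I' T U : Finset V)ᶜ) * ind (Aout s b (mix I' T U : Finset V)ᶜ))) := by
  have g1 : PM s (fun T _ => ind (Ain s a T)) :=
    ⟨fun _ => (loc_Ain s a).om fun x h1 h2 => by
      simp only [oU, wU, decide_eq_true_eq, mem_rs] at *; omega,
      fun _ _ _ _ => le_rfl, fun _ _ => ind_nonneg _⟩
  have g2 : PM s (fun T _ => ind (Aout s b T)) :=
    ⟨fun _ => (loc_Aout s b).om fun x h1 h2 => by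
      simp only [oU, wU, decide_eq_true_eq, mem_rs, Set.mem_compl_iff] at *; omega,
      fun _ _ _ _ => le_rfl, fun _ _ => ind_nonneg _⟩
  have g3 : PM s (fun T U => ind (Ain s a (mix I' T U : Finset V)ᶜ)) :=
    ⟨OM.mix_left ((loc_Ain s a).om_compl fun x h1 h2 => by
        have := ((e3 x h1.1).1 h1.2).1
        simp only [NN, mem_rs] at *; omega),
      OM.mix_right ((loc_Ain s a).om_compl fun x _ h2 => by
        simp only [oZ, bZ, decide_eq_false_iff_not, mem_rs] at *; omega),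
      fun _ _ => ind_nonneg _⟩
  have g4 : PM s (fun T U => ind (Aout s b (mix I' T U : Finset V)ᶜ)) :=
    ⟨OM.mix_left ((loc_Aout s b).om_compl fun x h1 h2 => by
        have := ((e3 x h1.1).1 h1.2).1
        simp only [NN, mem_rs, Set.mem_compl_iff] at *; omega),
      OM.mix_right ((loc_Aout s b).om_compl fun x _ h2 => by
        simp only [oZ, bZ, decide_eq_false_iff_not, mem_rs, Set.mem_compl_iff] at *; omega),
      fun _ _ => ind_nonneg _⟩
  exact (g1.mul g2).mul (g3.mul g4)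

theorem gad_fin {s a b : ℤ} (hs : 0 < s) {T U Z J I' M : Finset V} (okL : (XL hs).Ok (T : Set V)ᶜ)
    (okR : (XR hs).Ok (T : Set V)ᶜ) (ha : a ≤ s) (hb : 10 * s ≤ b)
    (hJm : ∀ v, v ∈ J ↔ v ∈ JJ hs (T : Set V)ᶜ) (mM : ∀ v, v ∈ M ↔ v ∈ MM s)
    (hN : ∀ v ∈ NN s, v ∈ I' ∪ M) (g1 : Ain s a U ∧ Aout s b U)
    (g2 : Ain s a (mix I' U Z : Finset V)ᶜ ∧ Aout s b (mix I' U Z : Finset V)ᶜ)
    (g3 : ∀ t ∈ safe ++ spec, t.hold s U (mix I' U Z : Finset V)) :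
    (∀ μ : Finset V, ¬ (Arm a b (mix M μ (mix J T U) : Finset V) ∧
      Arm a b (mix (I' ∪ M) (mix M μ (mix J T U)) Z : Finset V)ᶜ)) ∧
      Arm a b (mix J T U : Finset V) ∧ Arm a b (mix I' (mix J T U) Z : Finset V)ᶜ := by
  have g4 := fun t ht => g3 t (List.mem_append_left spec ht)
  have g5 := fun t ht => g3 t (List.mem_append_right safe ht)
  have g6 : ∀ v ∈ JJ hs (T : Set V)ᶜ, v ∈ mix J T U ↔ v ∉ (T : Set V)ᶜ := fun v hv => by
    rw [mem_mix_of_mem ((hJm v).2 hv)]; simp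
  have g7 : ∀ v, v ∉ JJ hs (T : Set V)ᶜ → (v ∈ mix J T U ↔ v ∈ U) := fun v hv =>
    mem_mix_of_notMem fun h => hv ((hJm v).1 h)
  refine ⟨fun μ => gadgetC hs okL okR g4 g5 ⟨ha, hb⟩ (fun v hv => ?_) (fun v h1 h2 => ?_)
    (fun v h1 h2 => ?_) (fun v hv => ?_), gadgetA hs okL okR g4 g5 ⟨ha, hb⟩ g6 g7 g1,
    gadgetB hs g4 g5 ⟨ha, hb⟩ (W := (T : Set V)ᶜ) (fun v hv => ?_) g2⟩
  · have : v ∉ M := fun h => by
      have := (JJ_sub hs hv).2
      have h := (mM v).1 h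
      simp only [MM, mem_rs] at h
      omega
    rw [Finset.mem_coe, mem_mix_of_notMem this, g6 v hv]
  · rw [Finset.mem_coe, mem_mix_of_notMem (fun h => h2 ((mM v).1 h)), g7 v h1]
    rfl
  · have h3 : v ∉ M := fun h => h2 ((mM v).1 h)
    have := g7 v h1
    simp only [Finset.mem_coe, mem_mix (I := I' ∪ M), mem_mix (I := I'), mem_mix (I := M),
      Finset.mem_union, h3, this, or_false, false_and, not_false_eq_true, true_and, false_or]
  · have : v ∈ I' ∪ M := hN v hv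
    rw [Finset.mem_coe, Finset.mem_coe, mem_mix_of_mem this]
  · have := g7 v hv
    simp only [Finset.mem_coe, mem_mix (I := I'), this]

theorem psi_step : ∃ c : ℝ, 0 < c ∧ c ≤ 1 ∧ ∀ (s a b : ℤ) (L I : Finset V), 0 < s → a ≤ s →
    10 * s ≤ b → rs (-b) b (-b) b ⊆ L →
    (∀ v ∈ I, v ∈ rs (-3 * s) (3 * s - 1) (-3 * s) (3 * s - 1)) →
    psi L a b (I ∪ rect (4 * s) (9 * s - 1) (-2 * s) (3 * s - 1)) ≤ (1 - c) * psi L a b I := by
  classical
  obtain ⟨c, hc, hc1, hP⟩ := At.prob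
  obtain ⟨c', hc', hc1', hP'⟩ := rsw' 20
  refine ⟨c' * c' * c ^ 38, by positivity,
    mul_le_one₀ (mul_le_one₀ hc1' hc'.le hc1') (by positivity) (pow_le_one₀ hc.le hc1),
    fun s a b L I hs ha hb hL hI => ?_⟩
  have hc2 : c' * c' * c ^ 38 ≤ 1 :=
    mul_le_one₀ (mul_le_one₀ hc1' hc'.le hc1') (by positivity) (pow_le_one₀ hc.le hc1)
  set N := rect (4 * s) (9 * s - 1) (-2 * s) (3 * s - 1) with hN
  set M := rect (6 * s) (7 * s - 1) 0 (s - 1) with hM
  have mN : ∀ v, v ∈ N ↔ v ∈ NN s := fun v => mem_rect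
  have mM : ∀ v, v ∈ M ↔ v ∈ MM s := fun v => mem_rect
  have hMN : ∀ v ∈ MM s, v ∈ NN s := fun v => by simp only [NN, MM, mem_rs]; omega
  have hIN : ∀ v ∈ I, v ∉ NN s := fun v hv => by
    have := hI v hv
    simp only [NN, mem_rs] at *; omega
  set I' := I ∪ (N \ M) with hI'
  have e1 : I ∪ N = I' ∪ M := by
    ext v
    simp only [hI', Finset.mem_union, Finset.mem_sdiff, mN, mM]
    have := hMN v
    clear * - this
    tauto
  have e2 : Disjoint I' M := by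
    refine Finset.disjoint_left.2 fun v => ?_
    simp only [hI', Finset.mem_union, Finset.mem_sdiff, mN, mM]
    exact fun h1 h2 => h1.elim (fun h => hIN v h (hMN v h2)) fun h => h.2 h2
  have e3 : ∀ v ∈ XX s, v ∈ I' ↔ v ∈ NN s ∧ v ∉ MM s := by
    intro v hv
    simp only [hI', Finset.mem_union, Finset.mem_sdiff, mN, mM]
    exact or_iff_right fun h => hv.2 (hI v h)
  have hXL : XX s ⊆ L := fun v hv => hL (by
    have := hv.1
    simp only [mem_rs] at *; omega)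
  have hNL : NN s ⊆ L := fun v hv => hL (by simp only [NN, mem_rs] at *; omega)
  let G : Finset V → Finset V → Prop := fun T U => ∀ μ : Finset V,
    ¬ (Arm a b (mix M μ T : Finset V) ∧ Arm a b (mix (I' ∪ M) (mix M μ T) U : Finset V)ᶜ)
  have k1 := share_le L I' M e2 (om_arm a b) (om_arm' a b) (fun T U => ind (¬ G T U))
    (fun _ _ => ind_nonneg _) (by
      intro T U A B
      have f1 : ∀ μ, mix M μ (mix M A T) = mix M μ T := fun μ => by
        ext v; simp only [mem_mix]; clear * -; tauto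
      have f2 : ∀ Z, mix (I' ∪ M) Z (mix M B U) = mix (I' ∪ M) Z U := fun Z => by
        ext v; simp only [mem_mix, Finset.mem_union]; clear * -; tauto
      simp only [G, f1, f2])
  have k2 : psi L a b (I ∪ N) = Ex L (fun T => Ex L (fun U => ind (¬ G T U) *
      (ind (Arm a b T) * ind (Arm a b (mix (I' ∪ M) T U : Finset V)ᶜ)))) := by
    rw [e1]
    refine Ex_congr fun T _ => Ex_congr fun U _ => ?_
    by_cases h : G T U
    · have := h T
      rw [mix_self] at this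
      rw [← ind_and, ind_neg this, mul_zero]
    · rw [ind_pos h, one_mul]
  let H : Finset V → ℝ := fun T => Ex L (fun U => ind (G T U) *
      (ind (Arm a b T) * ind (Arm a b (mix I' T U : Finset V)ᶜ)))
  have k3 : Ex L (fun T => Ex L (fun U => ind (¬ G T U) *
      (ind (Arm a b T) * ind (Arm a b (mix I' T U : Finset V)ᶜ)))) = psi L a b I' - Ex L H := by
    rw [psi, ← Ex_sub]
    refine Ex_congr fun T _ => ?_
    rw [← Ex_sub]
    refine Ex_congr fun U _ => ?_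
    rw [ind_not]; ring
  let J : Finset V → Finset V := fun T => L.filter (· ∈ JJ hs (T : Set V)ᶜ)
  have hJm : ∀ T v, v ∈ J T ↔ v ∈ JJ hs (T : Set V)ᶜ := fun T v => by
    simp only [J, Finset.mem_filter, and_iff_right_iff_imp]
    exact fun h => hNL (JJ_sub hs h).1
  have hJ : ∀ T U, T ⊆ L → U ⊆ L → J (mix (J T) T U) = J T := by
    intro T U _ _
    ext v
    rw [hJm, hJm, JJ, JJ, Xp.J_eq (S := (T : Set V)ᶜ) (S' := (mix (J T) T U : Finset V)ᶜ) fun v hv =>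
      not_congr (mem_mix_of_mem ((hJm T v).2 (Or.inl hv))).symm,
      Xp.J_eq (S := (T : Set V)ᶜ) (S' := (mix (J T) T U : Finset V)ᶜ) fun v hv =>
      not_congr (mem_mix_of_mem ((hJm T v).2 (Or.inr hv))).symm]
  let F : Finset V → Finset V → ℝ := fun T U => ind (Ain s a T) * ind (Aout s b T) *
    (ind (Ain s a (mix I' T U : Finset V)ᶜ) * ind (Aout s b (mix I' T U : Finset V)ᶜ))
  have hF : PM s F := PM_F hs e3 a b
  have k4 : psi L a b I' ≤ Ex L (fun T => Ex L (F T)) := by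
    refine Ex_mono fun T _ => Ex_mono fun U _ => ?_
    simp only [F, ← ind_and]
    exact ind_mono fun h => ⟨h.1.inout hs ha hb, h.2.inout hs ha hb⟩
  have k5 := atom_list hXL e3 hc.le (safe ++ spec)
    (fun t ht => ⟨all_good hs t ht, hP t s hs (all_good hs t ht)⟩) hF
  set B := Ex L (fun T => Ex L (fun U => F T U *
    ind (∀ t ∈ safe ++ spec, t.hold s T (mix I' T U : Finset V)))) with hB
  have k6 : Ex L (fun T => ind (VC (4 * s) (5 * s - 1) (-2 * s) (3 * s - 1) T) *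
      ind (VC (8 * s) (9 * s - 1) (-2 * s) (3 * s - 1) T) * B) ≤ Ex L H := by
    rw [← Ex_stop1 J hJ H]
    refine Ex_mono fun T _ => ?_
    rw [← ind_and]
    by_cases h : VC (4 * s) (5 * s - 1) (-2 * s) (3 * s - 1) T ∧
      VC (8 * s) (9 * s - 1) (-2 * s) (3 * s - 1) T
    swap
    · rw [ind_neg h, zero_mul]
      exact Ex_nonneg fun _ _ => Ex_nonneg fun _ _ => mul_nonneg (ind_nonneg _)
        (mul_nonneg (ind_nonneg _) (ind_nonneg _))
    have okL : (XL hs).Ok (T : Set V)ᶜ := xpL_ok (not_HC_of_VC (by rw [compl_compl]; exact h.1))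
    have okR : (XR hs).Ok (T : Set V)ᶜ := xpR_ok (not_HC_of_VC (by rw [compl_compl]; exact h.2))
    rw [ind_pos h, one_mul]
    refine Ex_mono fun U _ => Ex_mono fun Z _ => ?_
    simp only [F, ← ind_and]
    refine ind_mono fun ⟨⟨g1, g2⟩, g3⟩ => ?_
    exact gad_fin hs okL okR ha hb (hJm T) mM (fun v hv => e1 ▸ Finset.mem_union_right _ ((mN v).2 hv))
      g1 g2 g3
  rw [Ex_mul_right, Ex_indep (loc_VC _ _ _ _).dep (loc_VC _ _ _ _).dep
    (Set.disjoint_left.2 fun v => by simp only [mem_rs]; omega),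
    P_eq ((loc_VC _ _ _ _).mono fun v hv => hNL (by simp only [NN, mem_rs] at *; omega)),
    P_eq ((loc_VC _ _ _ _).mono fun v hv => hNL (by simp only [NN, mem_rs] at *; omega))] at k6
  have k7 := (hP' (-2 * s) (3 * s - 1) (4 * s) (5 * s - 1) (by omega) (by omega)
    (by push_cast; omega)).2
  have k8 := (hP' (-2 * s) (3 * s - 1) (8 * s) (9 * s - 1) (by omega) (by omega)
    (by push_cast; omega)).2
  have k9 := psi_anti L a b (I := I) (I' := I') Finset.subset_union_left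
  have k10 : 0 ≤ psi L a b I' := Ex_nonneg fun _ _ => Ex_nonneg fun _ _ =>
    mul_nonneg (ind_nonneg _) (ind_nonneg _)
  have k11 : c ^ 38 * psi L a b I' ≤ B := le_trans (mul_le_mul_of_nonneg_left k4 (by positivity)) k5
  have k12 : c' * c' * (c ^ 38 * psi L a b I') ≤ Ex L H :=
    le_trans (mul_le_mul (mul_le_mul k7 k8 hc'.le (P_nonneg _)) k11 (by positivity)
      (mul_nonneg (P_nonneg _) (P_nonneg _))) k6
  calc _ ≤ psi L a b I' - Ex L H := by rw [k2, ← k3]; exact k1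
    _ ≤ (1 - c' * c' * c ^ 38) * psi L a b I' := by linarith
    _ ≤ _ := mul_le_mul_of_nonneg_left k9 (by linarith)

/-- strict inequality between two arms of opposite colours and the square of one arm -/
theorem al_strict : ∃ g : ℝ, 0 < g ∧ g < 1 ∧ ∀ i j : ℕ, i ≤ j →
    al (4 ^ i) (4 ^ j) ≤ 2 * g ^ (j - i) * pp i j ^ 2 := by
  obtain ⟨c, hc, hc1, h⟩ := psi_step
  refine ⟨1 - c / 2, by linarith, by linarith, fun i j hij => ?_⟩
  set L := rect (-4 ^ j) (4 ^ j) (-4 ^ j) (4 ^ j) with hL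
  have hA : ann (4 ^ i) (4 ^ j) ⊆ L := fun v hv => by rw [hL, coe_rect]; exact nu_le.1 hv.2
  have key : ∀ n, i + n + 1 ≤ j ∨ n = 0 → ∃ I : Finset V, I ⊆ L ∧
      (∀ v ∈ I, v ∈ rs (-3 * 4 ^ (i + n)) (3 * 4 ^ (i + n) - 1) (-3 * 4 ^ (i + n))
        (3 * 4 ^ (i + n) - 1)) ∧
      psi L (4 ^ i) (4 ^ j) I ≤ (1 - c / 2) ^ n * pp i j ^ 2 := by
    intro n
    induction n with
    | zero =>
      refine fun _ => ⟨∅, by simp, by simp, le_of_eq ?_⟩
      have e : ∀ T U : Finset V, mix ∅ T U = U := fun T U => by ext v; simp [mem_mix]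
      simp only [psi, e, Ex_mul_left, Ex_mul_right, P_eq ((loc_Arm _ _).mono hA),
        P_eq_compl ((loc_Arm _ _).mono hA), pp]
      ring
    | succ n ih =>
      intro hn
      obtain ⟨I, h1, h2, h3⟩ := ih (Or.inl (by omega))
      have e0 := four_pow_pos (i + n)
      have e1 := four_pow_le (show i ≤ i + n by omega)
      have e2 := four_pow_le (show i + n + 2 ≤ j by omega)
      have e3 : (4:ℤ) ^ (i + (n + 1)) = 4 * 4 ^ (i + n) := by ring
      rw [pow_add _ _ 2] at e2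
      have k := h (4 ^ (i + n)) (4 ^ i) (4 ^ j) L I (by omega) e1 (by omega)
        (by rw [hL, coe_rect]) h2
      refine ⟨_, Finset.union_subset h1 fun v => ?_, fun v hv => ?_, k.trans ?_⟩
      · simp only [hL, mem_rect]; omega
      · rcases Finset.mem_union.1 hv with hv | hv
        · have := h2 v hv
          simp only [e3, mem_rs] at *; omega
        · simp only [e3, mem_rs, mem_rect] at *; omega
      · rw [pow_succ', mul_assoc]
        exact mul_le_mul (by linarith) h3 (Ex_nonneg fun _ _ => Ex_nonneg fun _ _ =>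
          mul_nonneg (ind_nonneg _) (ind_nonneg _)) (by linarith)
  obtain ⟨I, h1, -, h3⟩ := key (j - i - 1) (by omega)
  have e : psi L (4 ^ i) (4 ^ j) L = al (4 ^ i) (4 ^ j) := by
    rw [al, ← pr_eq ((dep_al _ _).mono hA)]
    refine Ex_congr fun T hT => (Ex_congr fun U hU => ?_).trans (Ex_const _ _)
    have : mix L T U = T := by
      ext v
      have := @hT v
      have := @hU v
      rw [mem_mix]; tauto
    rw [this, ind_and]
  rw [← e]
  refine ((psi_anti _ _ _ h1).trans h3).trans (mul_le_mul_of_nonneg_right ?_ (sq_nonneg _))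
  have g0 : 0 ≤ (1 - c / 2) ^ (j - i - 1) := pow_nonneg (by linarith) _
  rcases hij.eq_or_lt with rfl | hij
  · simp
  · rw [show j - i = (j - i - 1) + 1 by omega, pow_succ, Nat.add_sub_cancel]
    nlinarith

end Pool.Agent.Lib.MP_e26b79_pr
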